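import Pool.Agent.MST.Circ

/-!
# Two points which separate two pairs of the circle

`arcs4`: let `a1, a2, b1, b2` be four different vertices of the circle, `a1, a2` not interlaced
with `b1, b2`, and let `X` be a set which contains none of them and separates every `a` from every
`b` on the circle.  Then there are `x, y ∈ X` on the circle which separate every `a` from every `b`.
-/

namespace Pool.Agent.MST

open Pool.Agent.TriPerc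

variable {n : ℤ} {X : Set V} {a1 a2 b1 b2 : V}

/-- A point of `X` on the inner arc. -/
theorem arc_hit (hn : 1 ≤ n) {u v : V} (hu : nrm u = n) (hv : nrm v = n)
    (h : ¬ Conn (Cir n \ X) u v) (huX : u ∉ X) (hvX : v ∉ X) (huv : pos n u ≤ pos n v) :
    ∃ x ∈ X, nrm x = n ∧ pos n u < pos n x ∧ pos n x < pos n v := by
  by_contra hno
  refine h ((conn_arc hn hu hv huv).mono ?_)
  rintro x ⟨h1, h2, h3⟩
  refine ⟨h1, fun hx => hno ⟨x, hx, h1, ?_, ?_⟩⟩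
  · refine lt_of_le_of_ne h2 fun h4 => huX ?_
    rwa [pos_inj hn hu h1 h4]
  · refine lt_of_le_of_ne h3 fun h4 => hvX ?_
    rwa [← pos_inj hn h1 hv h4]

/-- A point of `X` on the outer arc. -/
theorem wrap_hit (hn : 1 ≤ n) {u v : V} (hu : nrm u = n) (hv : nrm v = n)
    (h : ¬ Conn (Cir n \ X) u v) (huX : u ∉ X) (hvX : v ∉ X) :
    ∃ x ∈ X, nrm x = n ∧ (pos n x < pos n u ∨ pos n v < pos n x) := by
  by_contra hno
  refine h ((conn_wrap hn hu hv).mono ?_)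
  rintro x ⟨h1, h2⟩
  refine ⟨h1, fun hx => hno ⟨x, hx, h1, ?_⟩⟩
  rcases h2 with h2 | h2
  · left
    refine lt_of_le_of_ne h2 fun h4 => huX ?_
    rwa [← pos_inj hn h1 hu h4]
  · right
    refine lt_of_le_of_ne h2 fun h4 => hvX ?_
    rwa [pos_inj hn hv h1 h4]

/-- The conclusion. -/
def Sep4 (n : ℤ) (X : Set V) (a1 a2 b1 b2 : V) : Prop :=
  ∃ x ∈ X, ∃ y ∈ X, nrm x = n ∧ nrm y = n ∧ SepC n x y a1 b1 ∧ SepC n x y a1 b2 ∧
    SepC n x y a2 b1 ∧ SepC n x y a2 b2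

theorem Sep4.swap_a (h : Sep4 n X a1 a2 b1 b2) : Sep4 n X a2 a1 b1 b2 := by
  obtain ⟨x, hx, y, hy, h1, h2, h3, h4, h5, h6⟩ := h
  exact ⟨x, hx, y, hy, h1, h2, h5, h6, h3, h4⟩

theorem Sep4.swap_b (h : Sep4 n X a1 a2 b1 b2) : Sep4 n X a1 a2 b2 b1 := by
  obtain ⟨x, hx, y, hy, h1, h2, h3, h4, h5, h6⟩ := h
  exact ⟨x, hx, y, hy, h1, h2, h4, h3, h6, h5⟩

private theorem sep4_of (hn : 1 ≤ n) (k1 : nrm a1 = n) (k2 : nrm a2 = n) (k3 : nrm b1 = n)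
    (k4 : nrm b2 = n) (x1 : a1 ∉ X) (x2 : a2 ∉ X) (x3 : b1 ∉ X) (x4 : b2 ∉ X) {x y : V}
    (hx : x ∈ X) (hy : y ∈ X) (hxn : nrm x = n) (hyn : nrm y = n)
    (h11 : ¬ (Bt (pos n x) (pos n y) (pos n a1) ↔ Bt (pos n x) (pos n y) (pos n b1)))
    (h12 : ¬ (Bt (pos n x) (pos n y) (pos n a1) ↔ Bt (pos n x) (pos n y) (pos n b2)))
    (h21 : ¬ (Bt (pos n x) (pos n y) (pos n a2) ↔ Bt (pos n x) (pos n y) (pos n b1)))
    (h22 : ¬ (Bt (pos n x) (pos n y) (pos n a2) ↔ Bt (pos n x) (pos n y) (pos n b2))) :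
    Sep4 n X a1 a2 b1 b2 := by
  have hne : ∀ {u v : V}, u ∈ X → v ∉ X → v ≠ u := fun hu hv huv => hv (huv ▸ hu)
  exact ⟨x, hx, y, hy, hxn, hyn,
    (sep_iff hn hxn hyn k1 k3 (hne hx x1) (hne hy x1) (hne hx x3) (hne hy x3)).2 h11,
    (sep_iff hn hxn hyn k1 k4 (hne hx x1) (hne hy x1) (hne hx x4) (hne hy x4)).2 h12,
    (sep_iff hn hxn hyn k2 k3 (hne hx x2) (hne hy x2) (hne hx x3) (hne hy x3)).2 h21,
    (sep_iff hn hxn hyn k2 k4 (hne hx x2) (hne hy x2) (hne hx x4) (hne hy x4)).2 h22⟩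

private theorem arcs4' (hn : 1 ≤ n) (k1 : nrm a1 = n) (k2 : nrm a2 = n) (k3 : nrm b1 = n)
    (k4 : nrm b2 = n) (n11 : a1 ≠ b1) (n12 : a1 ≠ b2) (n21 : a2 ≠ b1)
    (n22 : a2 ≠ b2)
    (hs : Bt (pos n a1) (pos n a2) (pos n b1) ↔ Bt (pos n a1) (pos n a2) (pos n b2))
    (x1 : a1 ∉ X) (x2 : a2 ∉ X) (x3 : b1 ∉ X) (x4 : b2 ∉ X)
    (h11 : ¬ Conn (Cir n \ X) a1 b1) (h12 : ¬ Conn (Cir n \ X) a1 b2)
    (h21 : ¬ Conn (Cir n \ X) a2 b1) (h22 : ¬ Conn (Cir n \ X) a2 b2)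
    (ha : pos n a1 ≤ pos n a2) (hb : pos n b1 ≤ pos n b2) : Sep4 n X a1 a2 b1 b2 := by
  have p11 : pos n a1 ≠ pos n b1 := fun h => n11 (pos_inj hn k1 k3 h)
  have p12 : pos n a1 ≠ pos n b2 := fun h => n12 (pos_inj hn k1 k4 h)
  have p21 : pos n a2 ≠ pos n b1 := fun h => n21 (pos_inj hn k2 k3 h)
  have p22 : pos n a2 ≠ pos n b2 := fun h => n22 (pos_inj hn k2 k4 h)
  have hsym : ∀ {u v : V}, ¬ Conn (Cir n \ X) u v → ¬ Conn (Cir n \ X) v u :=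
    fun h h' => h h'.symm
  by_cases c1 : pos n a2 < pos n b1
  · obtain ⟨x, hx, hxn, q1, q2⟩ := arc_hit hn k2 k3 h21 x2 x3 c1.le
    obtain ⟨y, hy, hyn, q3⟩ := wrap_hit hn k1 k4 h12 x1 x4
    refine sep4_of hn k1 k2 k3 k4 x1 x2 x3 x4 hx hy hxn hyn ?_ ?_ ?_ ?_ <;> unfold Bt <;> omega
  · by_cases c2 : pos n b2 < pos n a1
    · obtain ⟨x, hx, hxn, q1, q2⟩ := arc_hit hn k4 k1 (hsym h12) x4 x1 c2.le
      obtain ⟨y, hy, hyn, q3⟩ := wrap_hit hn k3 k2 (hsym h21) x3 x2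
      refine sep4_of hn k1 k2 k3 k4 x1 x2 x3 x4 hx hy hxn hyn ?_ ?_ ?_ ?_ <;> unfold Bt <;> omega
    · by_cases c3 : pos n a1 < pos n b1
      · have c4 : pos n b2 < pos n a2 := by
          unfold Bt at hs
          omega
        obtain ⟨x, hx, hxn, q1, q2⟩ := arc_hit hn k1 k3 h11 x1 x3 c3.le
        obtain ⟨y, hy, hyn, q3, q4⟩ := arc_hit hn k4 k2 (hsym h22) x4 x2 c4.le
        refine sep4_of hn k1 k2 k3 k4 x1 x2 x3 x4 hx hy hxn hyn ?_ ?_ ?_ ?_ <;> unfold Bt <;>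
          omega
      · have c5 : pos n b1 < pos n a1 := by omega
        have c4 : pos n a2 < pos n b2 := by
          unfold Bt at hs
          omega
        obtain ⟨x, hx, hxn, q1, q2⟩ := arc_hit hn k3 k1 (hsym h11) x3 x1 c5.le
        obtain ⟨y, hy, hyn, q3, q4⟩ := arc_hit hn k2 k4 h22 x2 x4 c4.le
        refine sep4_of hn k1 k2 k3 k4 x1 x2 x3 x4 hx hy hxn hyn ?_ ?_ ?_ ?_ <;> unfold Bt <;>
          omega

theorem arcs4 (hn : 1 ≤ n) (k1 : nrm a1 = n) (k2 : nrm a2 = n) (k3 : nrm b1 = n)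
    (k4 : nrm b2 = n) (n11 : a1 ≠ b1) (n12 : a1 ≠ b2) (n21 : a2 ≠ b1)
    (n22 : a2 ≠ b2) (hs : ¬ SepC n a1 a2 b1 b2)
    (x1 : a1 ∉ X) (x2 : a2 ∉ X) (x3 : b1 ∉ X) (x4 : b2 ∉ X)
    (h11 : ¬ Conn (Cir n \ X) a1 b1) (h12 : ¬ Conn (Cir n \ X) a1 b2)
    (h21 : ¬ Conn (Cir n \ X) a2 b1) (h22 : ¬ Conn (Cir n \ X) a2 b2) :
    Sep4 n X a1 a2 b1 b2 := by
  rw [sep_iff hn k1 k2 k3 k4 n11.symm n21.symm n12.symm n22.symm, not_not] at hs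
  have hsw : ∀ x y z : ℤ, Bt x y z ↔ Bt y x z := fun x y z => by
    unfold Bt
    omega
  rcases le_total (pos n a1) (pos n a2) with ha | ha <;>
  rcases le_total (pos n b1) (pos n b2) with hb | hb
  · exact arcs4' hn k1 k2 k3 k4 n11 n12 n21 n22 hs x1 x2 x3 x4 h11 h12 h21 h22 ha hb
  · exact (arcs4' hn k1 k2 k4 k3 n12 n11 n22 n21 hs.symm x1 x2 x4 x3 h12 h11 h22 h21 ha hb).swap_b
  · rw [hsw (pos n a1) (pos n a2) (pos n b1), hsw (pos n a1) (pos n a2) (pos n b2)] at hs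
    exact (arcs4' hn k2 k1 k3 k4 n21 n22 n11 n12 hs x2 x1 x3 x4 h21 h22 h11 h12 ha hb).swap_a
  · rw [hsw (pos n a1) (pos n a2) (pos n b1), hsw (pos n a1) (pos n a2) (pos n b2)] at hs
    exact (arcs4' hn k2 k1 k4 k3 n22 n21 n12 n11 hs.symm x2 x1 x4 x3 h22 h21 h12 h11 ha
      hb).swap_a.swap_b

end Pool.Agent.MST
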