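import Pool.Agent.MSTG.Swi

/-!
# Minimal bridges

`bridge_gate`: let `a, b ∈ O` be joined in `O ∪ C` but not in `O`.  There is a minimal set
`insert u U ⊆ C` which joins them, and `u` is its only vertex which is adjacent to the component
of `b` in `O`: this component is not changed when `U` is added to `O`, and `u` is adjacent to it and
to the component of `a` in `O ∪ U`.
-/

namespace Pool.Agent.MST

open Pool.Agent.TriPerc

variable {O C : Set V} {a b : V}

theorem exists_min_bridge (hC : C.Finite) (h1 : Conn (O ∪ C) a b) :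
    ∃ W ⊆ C, Conn (O ∪ W) a b ∧ ∀ v ∈ W, ¬ Conn (O ∪ (W \ {v})) a b := by
  classical
  obtain ⟨C', rfl⟩ : ∃ C' : Finset V, (C' : Set V) = C := ⟨hC.toFinset, hC.coe_toFinset⟩
  have hne : (C'.powerset.filter fun T : Finset V => Conn (O ∪ (T : Set V)) a b).Nonempty :=
    ⟨C', Finset.mem_filter.2 ⟨Finset.mem_powerset_self _, h1⟩⟩
  obtain ⟨T, hT, hmin⟩ := Finset.exists_min_image _ Finset.card hne
  rw [Finset.mem_filter, Finset.mem_powerset] at hT
  refine ⟨T, fun v hv => hT.1 hv, hT.2, fun v hv h => ?_⟩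
  have h2 := hmin (T.erase v) (Finset.mem_filter.2 ⟨Finset.mem_powerset.2
    ((Finset.erase_subset v T).trans hT.1), by rwa [Finset.coe_erase]⟩)
  have h3 := Finset.card_erase_lt_of_mem (Finset.mem_coe.1 hv)
  omega

theorem bridge_gate (hC : C.Finite) (ha : a ∈ O) (hb : b ∈ O) (h0 : ¬ Conn O a b)
    (h1 : Conn (O ∪ C) a b) :
    ∃ U ⊆ C, ∃ u ∈ C, u ∉ U ∧ u ∉ O ∧ Disjoint U O ∧ ¬ Conn (O ∪ U) a b ∧
      Conn (O ∪ insert u U) a b ∧ (∀ v ∈ U, ¬ Conn (O ∪ insert u (U \ {v})) a b) ∧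
      (∀ y, Conn (O ∪ U) b y → Conn O b y) ∧ (∃ p, Adj u p ∧ Conn (O ∪ U) a p) ∧
      ∃ q, Adj u q ∧ Conn O b q := by
  classical
  obtain ⟨W, hWC, hW, hmin⟩ := exists_min_bridge hC h1
  -- no vertex of `W` is in `O`
  have hWO : ∀ v ∈ W, v ∉ O := by
    intro v hv hvO
    refine hmin v hv (hW.mono ?_)
    rintro x (hx | hx)
    · exact Or.inl hx
    · by_cases hxv : x = v
      · exact Or.inl (hxv ▸ hvO)
      · exact Or.inr ⟨hx, hxv⟩
  -- the first vertex of the connection which is adjacent to the component of `b`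
  obtain ⟨u, hu, q, huq, hq, hau⟩ : ∃ u ∈ W, ∃ q, Adj u q ∧ Conn O b q ∧
      Conn ((O ∪ W) \ {v | v ∈ W ∧ v ≠ u ∧ ∃ q, Adj v q ∧ Conn O b q}) a u := by
    obtain ⟨_, hr⟩ := hW
    have key : ∀ y, Relation.ReflTransGen (fun x y => Adj x y ∧ y ∈ O ∪ W) a y →
        Conn ((O ∪ W) \ {v | v ∈ W ∧ ∃ q, Adj v q ∧ Conn O b q}) a y ∨
        ∃ u ∈ W, ∃ q, Adj u q ∧ Conn O b q ∧
          Conn ((O ∪ W) \ {v | v ∈ W ∧ v ≠ u ∧ ∃ q, Adj v q ∧ Conn O b q}) a u := by
      intro y hy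
      induction hy with
      | refl =>
        refine Or.inl (Conn.refl ⟨Or.inl ha, fun h => hWO a h.1 ha⟩)
      | @tail x y _ hxy ih =>
        rcases ih with ih | ih
        · by_cases hy : y ∈ W ∧ ∃ q, Adj y q ∧ Conn O b q
          · obtain ⟨hy1, q, hq1, hq2⟩ := hy
            refine Or.inr ⟨y, hy1, q, hq1, hq2, ?_⟩
            have h2 : Conn ((O ∪ W) \ {v | v ∈ W ∧ v ≠ y ∧ ∃ q, Adj v q ∧ Conn O b q}) a x :=
              ih.mono fun z hz => ⟨hz.1, fun h => hz.2 ⟨h.1, h.2.2⟩⟩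
            exact h2.trans (Conn.of_adj h2.right ⟨hxy.2, fun h => h.2.1 rfl⟩ hxy.1)
          · exact Or.inl (ih.trans (Conn.of_adj ih.right ⟨hxy.2, hy⟩ hxy.1))
        · exact Or.inr ih
    rcases key b hr with h | h
    · -- the connection never meets a vertex adjacent to the component: it ends in it
      exfalso
      obtain ⟨x, y, hx, hy, hxy, hax, -⟩ := h.exit (A := (comp O b)ᶜ) (fun h => h0 (Conn.symm h))
        (not_not_intro (Conn.refl hb))
      have hy' : Conn O b y := not_not.1 hy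
      rcases hax.right.1.1 with h2 | h2
      · exact hx (comp_adj hy' h2 hxy.symm)
      · exact hax.right.1.2 ⟨h2, y, hxy, hy'⟩
    · exact h
  have huO : u ∉ O := hWO u hu
  -- no other vertex of `W` is adjacent to the component
  have huniq : ∀ v ∈ W, v ≠ u → ∀ y, Adj v y → ¬ Conn O b y := by
    intro v hv hvu y hvy hby
    refine hmin v hv ?_
    have h2 : Conn (O ∪ (W \ {v})) a u := hau.mono (by
      rintro z ⟨hz | hz, hz2⟩
      · exact Or.inl hz
      · refine Or.inr ⟨hz, fun h => ?_⟩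
        have h' : z = v := h
        rw [h'] at hz2
        exact hz2 ⟨hv, hvu, y, hvy, hby⟩)
    have h3 : Conn O q b := hq.symm
    exact (h2.trans (Conn.of_adj h2.right (Or.inl h3.left) huq)).trans
      (h3.mono Set.subset_union_left)
  have hins : ∀ x ∈ O ∪ W, x ∈ insert u (O ∪ (W \ {u})) := by
    intro x hx
    by_cases hxu : x = u
    · exact Or.inl hxu
    · rcases hx with hx | hx
      · exact Or.inr (Or.inl hx)
      · exact Or.inr (Or.inr ⟨hx, hxu⟩)
  have hb' : ∀ y, Conn (O ∪ (W \ {u})) b y → Conn O b y := by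
    rintro y ⟨-, hr⟩
    induction hr with
    | refl => exact Conn.refl hb
    | @tail x y _ hxy ih =>
      rcases hxy.2 with hy | hy
      · exact ih.trans (Conn.of_adj ih.right hy hxy.1)
      · exact absurd ih (huniq y hy.1 hy.2 x hxy.1.symm)
  obtain ⟨⟨p, hp, cp⟩, q', hq', cq'⟩ := MSTG.hit (S := O ∪ (W \ {u})) (x := a) (y := b)
    (Or.inl ha) (Or.inl hb) (hmin u hu) (hW.mono hins)
  refine ⟨W \ {u}, Set.sdiff_subset.trans hWC, u, hWC hu, fun h => h.2 rfl, huO,
    Set.disjoint_left.2 fun v hv => hWO v hv.1, hmin u hu, hW.mono ?_, ?_, hb', ⟨p, hp, cp⟩,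
    q', hq', hb' q' cq'⟩
  · intro x hx
    rcases hins x hx with h | h | h
    · exact Or.inr (Or.inl h)
    · exact Or.inl h
    · exact Or.inr (Or.inr h)
  · intro v hv h
    refine hmin v hv.1 (h.mono ?_)
    rintro x (hx | hx | hx)
    · exact Or.inl hx
    · exact Or.inr ⟨hx ▸ hu, fun h => hv.2 ((show x = v from h) ▸ hx)⟩
    · exact Or.inr ⟨hx.1.1, hx.2⟩

end Pool.Agent.MST
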