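import Pool.Agent.TriPerc.Ann

/-!
# Janiszewski's theorem inside a ball

`retr n` is a simplicial retraction of the lattice onto the ball of radius `n` (neighbours go to
neighbours or to the same vertex).  `jan_ball`: two disjoint non-adjacent sets which do not separate
`x` from `y` in the ball do not separate them together.  `jan_ball_comp`: if a set separates `x`
from `y` in the ball, one of its components does.
-/

namespace Pool.Agent.MST

open Pool.Agent.TriPerc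

/-- The retraction onto the hexagonal ball. -/
def retr (n : ℤ) (v : V) : V :=
  (max (min (max (-n) (min v.1 n)) (n - max (-n) (min v.2 n))) (-n - max (-n) (min v.2 n)),
    max (-n) (min v.2 n))

theorem nrm_le_iff' {n : ℤ} {u : V} :
    nrm u ≤ n ↔ |u.1| ≤ n ∧ |u.2| ≤ n ∧ |u.1 + u.2| ≤ n := by
  unfold nrm
  rw [max_le_iff, max_le_iff, and_assoc]

theorem mem_ball0 {n : ℤ} {u : V} : u ∈ Ball 0 n ↔ nrm u ≤ n := by
  change nrm (u - 0) ≤ n ↔ _
  rw [sub_zero]

theorem mem_ann0 {m n : ℤ} {u : V} : u ∈ Ann 0 m n ↔ m ≤ nrm u ∧ nrm u ≤ n := by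
  change m ≤ nrm (u - 0) ∧ nrm (u - 0) ≤ n ↔ _
  rw [sub_zero]

theorem retr_mem {n : ℤ} (hn : 0 ≤ n) (v : V) : nrm (retr n v) ≤ n := by
  rw [nrm_le_iff']
  unfold retr
  simp only [abs_le]
  omega

theorem retr_id {n : ℤ} {v : V} (h : nrm v ≤ n) : retr n v = v := by
  rw [nrm_le_iff'] at h
  simp only [abs_le] at h
  unfold retr
  refine Prod.ext ?_ ?_
  · simp only
    omega
  · simp only
    omega

private theorem clamp {n : ℤ} (b d : ℤ) (h : d = b ∨ d = b + 1 ∨ d = b - 1) :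
    (d = b → max (-n) (min d n) = max (-n) (min b n)) ∧
    (d = b + 1 → max (-n) (min d n) = max (-n) (min b n) ∨
      max (-n) (min d n) = max (-n) (min b n) + 1) ∧
    (d = b - 1 → max (-n) (min d n) = max (-n) (min b n) ∨
      max (-n) (min d n) = max (-n) (min b n) - 1) := by
  refine ⟨fun h => by rw [h], fun h => ?_, fun h => ?_⟩
  · subst h
    omega
  · subst h
    omega

private theorem adj_r1 {n : ℤ} {a b c d : ℤ}
    (h : (a = c ∧ b = d) ∨ Adj (a, b) (c, d)) :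
    (a = c ∧ max (-n) (min b n) = max (-n) (min d n)) ∨
      Adj (a, max (-n) (min b n)) (c, max (-n) (min d n)) := by
  unfold Adj at *
  simp only at *
  obtain ⟨h1, h2, h3⟩ := clamp (n := n) b d (by omega)
  generalize max (-n) (min b n) = B at *
  generalize max (-n) (min d n) = D at *
  rcases h with ⟨k1, k2⟩ | ⟨k1, k2⟩ | ⟨k1, k2⟩ | ⟨k1, k2⟩ | ⟨k1, k2⟩ | ⟨k1, k2⟩ | ⟨k1, k2⟩
  · exact Or.inl ⟨k1, (h1 k2.symm).symm⟩
  · exact Or.inr (Or.inl ⟨k1, h1 k2⟩)
  · rcases h2 k2 with k3 | k3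
    · exact Or.inl ⟨k1.symm, k3.symm⟩
    · exact Or.inr (Or.inr (Or.inl ⟨k1, k3⟩))
  · rcases h2 k2 with k3 | k3
    · exact Or.inr (Or.inr (Or.inr (Or.inr (Or.inl ⟨k1, k3⟩))))
    · exact Or.inr (Or.inr (Or.inr (Or.inl ⟨k1, k3⟩)))
  · exact Or.inr (Or.inr (Or.inr (Or.inr (Or.inl ⟨k1, h1 k2⟩))))
  · rcases h3 k2 with k3 | k3
    · exact Or.inl ⟨k1.symm, k3.symm⟩
    · exact Or.inr (Or.inr (Or.inr (Or.inr (Or.inr (Or.inl ⟨k1, k3⟩)))))
  · rcases h3 k2 with k3 | k3
    · exact Or.inr (Or.inl ⟨k1, k3⟩)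
    · exact Or.inr (Or.inr (Or.inr (Or.inr (Or.inr (Or.inr ⟨k1, k3⟩)))))

private theorem adj_r2 {n : ℤ} {a b c d : ℤ}
    (h : (a = c ∧ b = d) ∨ Adj (a, b) (c, d)) :
    (max (-n) (min a n) = max (-n) (min c n) ∧ b = d) ∨
      Adj (max (-n) (min a n), b) (max (-n) (min c n), d) := by
  unfold Adj at *
  simp only at *
  obtain ⟨h1, h2, h3⟩ := clamp (n := n) a c (by omega)
  generalize max (-n) (min a n) = B at *
  generalize max (-n) (min c n) = D at *
  rcases h with ⟨k1, k2⟩ | ⟨k1, k2⟩ | ⟨k1, k2⟩ | ⟨k1, k2⟩ | ⟨k1, k2⟩ | ⟨k1, k2⟩ | ⟨k1, k2⟩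
  · exact Or.inl ⟨(h1 k1.symm).symm, k2⟩
  · rcases h2 k1 with k3 | k3
    · exact Or.inl ⟨k3.symm, k2.symm⟩
    · exact Or.inr (Or.inl ⟨k3, k2⟩)
  · exact Or.inr (Or.inr (Or.inl ⟨h1 k1, k2⟩))
  · rcases h3 k1 with k3 | k3
    · exact Or.inr (Or.inr (Or.inl ⟨k3, k2⟩))
    · exact Or.inr (Or.inr (Or.inr (Or.inl ⟨k3, k2⟩)))
  · rcases h3 k1 with k3 | k3
    · exact Or.inl ⟨k3.symm, k2.symm⟩
    · exact Or.inr (Or.inr (Or.inr (Or.inr (Or.inl ⟨k3, k2⟩))))
  · exact Or.inr (Or.inr (Or.inr (Or.inr (Or.inr (Or.inl ⟨h1 k1, k2⟩)))))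
  · rcases h2 k1 with k3 | k3
    · exact Or.inr (Or.inr (Or.inr (Or.inr (Or.inr (Or.inl ⟨k3, k2⟩)))))
    · exact Or.inr (Or.inr (Or.inr (Or.inr (Or.inr (Or.inr ⟨k3, k2⟩)))))

private theorem adj_r3 {n : ℤ} (hn : 0 ≤ n) {a b c d : ℤ}
    (h : (a = c ∧ b = d) ∨ Adj (a, b) (c, d)) :
    (max (min a (n - b)) (-n - b) = max (min c (n - d)) (-n - d) ∧ b = d) ∨
      Adj (max (min a (n - b)) (-n - b), b) (max (min c (n - d)) (-n - d), d) := by
  unfold Adj at *
  simp only at *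
  rcases h with ⟨k1, k2⟩ | ⟨k1, k2⟩ | ⟨k1, k2⟩ | ⟨k1, k2⟩ | ⟨k1, k2⟩ | ⟨k1, k2⟩ | ⟨k1, k2⟩ <;>
    rw [k1, k2]
  · exact Or.inl ⟨rfl, rfl⟩
  · have h1 : max (min (a + 1) (n - b)) (-n - b) = max (min a (n - b)) (-n - b) ∨
        max (min (a + 1) (n - b)) (-n - b) = max (min a (n - b)) (-n - b) + 1 := by omega
    rcases h1 with h1 | h1
    · exact Or.inl ⟨h1.symm, rfl⟩
    · exact Or.inr (Or.inl ⟨h1, rfl⟩)
  · have h1 : max (min a (n - (b + 1))) (-n - (b + 1)) = max (min a (n - b)) (-n - b) ∨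
        max (min a (n - (b + 1))) (-n - (b + 1)) = max (min a (n - b)) (-n - b) - 1 := by omega
    rcases h1 with h1 | h1
    · exact Or.inr (Or.inr (Or.inl ⟨h1, rfl⟩))
    · exact Or.inr (Or.inr (Or.inr (Or.inl ⟨h1, rfl⟩)))
  · have h1 : max (min (a - 1) (n - (b + 1))) (-n - (b + 1)) =
        max (min a (n - b)) (-n - b) - 1 := by omega
    exact Or.inr (Or.inr (Or.inr (Or.inl ⟨h1, rfl⟩)))
  · have h1 : max (min (a - 1) (n - b)) (-n - b) = max (min a (n - b)) (-n - b) ∨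
        max (min (a - 1) (n - b)) (-n - b) = max (min a (n - b)) (-n - b) - 1 := by omega
    rcases h1 with h1 | h1
    · exact Or.inl ⟨h1.symm, rfl⟩
    · exact Or.inr (Or.inr (Or.inr (Or.inr (Or.inl ⟨h1, rfl⟩))))
  · have h1 : max (min a (n - (b - 1))) (-n - (b - 1)) = max (min a (n - b)) (-n - b) ∨
        max (min a (n - (b - 1))) (-n - (b - 1)) = max (min a (n - b)) (-n - b) + 1 := by omega
    rcases h1 with h1 | h1
    · exact Or.inr (Or.inr (Or.inr (Or.inr (Or.inr (Or.inl ⟨h1, rfl⟩)))))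
    · exact Or.inr (Or.inr (Or.inr (Or.inr (Or.inr (Or.inr ⟨h1, rfl⟩)))))
  · have h1 : max (min (a + 1) (n - (b - 1))) (-n - (b - 1)) =
        max (min a (n - b)) (-n - b) + 1 := by omega
    exact Or.inr (Or.inr (Or.inr (Or.inr (Or.inr (Or.inr ⟨h1, rfl⟩)))))

theorem retr_adj {n : ℤ} (hn : 0 ≤ n) {u v : V} (h : Adj u v) :
    retr n u = retr n v ∨ Adj (retr n u) (retr n v) := by
  obtain ⟨a, b⟩ := u
  obtain ⟨c, d⟩ := v
  have h3 := adj_r3 hn (adj_r2 (n := n) (adj_r1 (n := n) (Or.inr h)))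
  unfold retr
  rcases h3 with ⟨h4, h5⟩ | h3
  · exact Or.inl (Prod.ext h4 h5)
  · exact Or.inr h3

variable {S T X1 X2 : Set V} {x y s : V} {n : ℤ}

theorem jan_ball (hn : 0 ≤ n) (_h1 : X1 ⊆ Ball 0 n) (_h2 : X2 ⊆ Ball 0 n) (hd : Disjoint X1 X2)
    (hna : ∀ a ∈ X1, ∀ b ∈ X2, ¬ Adj a b) (k1 : Conn (Ball 0 n \ X1) x y)
    (k2 : Conn (Ball 0 n \ X2) x y) : Conn (Ball 0 n \ (X1 ∪ X2)) x y := by
  have hx : x ∈ Ball 0 n := k1.left.1
  have hy : y ∈ Ball 0 n := k1.right.1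
  have hid : ∀ v ∈ Ball 0 n, retr n v = v := fun v hv => retr_id (mem_ball0.1 hv)
  have hmono : ∀ X : Set V, Ball 0 n \ X ⊆ (retr n ⁻¹' X)ᶜ := by
    rintro X v ⟨hv1, hv2⟩ hv3
    apply hv2
    have : retr n v ∈ X := hv3
    rwa [hid v hv1] at this
  have hdis : Disjoint (retr n ⁻¹' X1) (retr n ⁻¹' X2) := by
    rw [Set.disjoint_left]
    intro v hv1 hv2
    exact Set.disjoint_left.1 hd hv1 hv2
  have hna' : ∀ a ∈ retr n ⁻¹' X1, ∀ b ∈ retr n ⁻¹' X2, ¬ Adj a b := by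
    intro a ha b hb hab
    rcases retr_adj hn hab with h | h
    · exact Set.disjoint_left.1 hd ha (by
        change retr n a ∈ X2
        rw [h]
        exact hb)
    · exact hna _ ha _ hb h
  obtain ⟨I, f, f0, fI, ha, hS⟩ :=
    (jan _ _ hdis hna' x y (k1.mono (hmono X1)) (k2.mono (hmono X2))).walk
  have h3 : Conn (Ball 0 n \ (X1 ∪ X2)) (retr n (f 0)) (retr n (f I)) := by
    refine Conn.of_lazy (n := I) (f := fun i => retr n (f i)) (fun i hi => ?_) (fun i hi => ?_)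
    · exact retr_adj hn (ha i hi)
    · refine ⟨mem_ball0.2 (retr_mem hn _), ?_⟩
      rintro (h | h)
      · exact hS i hi (Or.inl h)
      · exact hS i hi (Or.inr h)
  rw [f0, fI, hid x hx, hid y hy] at h3
  exact h3

theorem jan_ball_comp (hn : 0 ≤ n) (hS : S ⊆ Ball 0 n) (hx : x ∈ Ball 0 n) (hy : y ∈ Ball 0 n)
    (hx' : x ∉ S) (hy' : y ∉ S) (h : ¬ Conn (Ball 0 n \ S) x y) :
    ∃ s ∈ S, ¬ Conn (Ball 0 n \ comp S s) x y := by
  have hfin : S.Finite := (finite_ball 0 n).subset hS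
  obtain ⟨N, hN⟩ : ∃ N, S.ncard = N := ⟨_, rfl⟩
  induction N using Nat.strong_induction_on generalizing S with
  | _ N ih =>
    rcases S.eq_empty_or_nonempty with h0 | ⟨s, hs⟩
    · exfalso
      refine h ?_
      rw [h0, Set.sdiff_empty]
      exact isConn_ball 0 n x hx y hy
    · by_cases hC : Conn (Ball 0 n \ comp S s) x y
      · have hun : comp S s ∪ (S \ comp S s) = S := Set.union_sdiff_cancel comp_subset
        have hS' : ¬ Conn (Ball 0 n \ (S \ comp S s)) x y := fun h2 => h (by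
          have := jan_ball hn (comp_subset.trans hS) (Set.sdiff_subset.trans hS)
            Set.disjoint_sdiff_right
            (fun a ha b hb hab => hb.2 (comp_adj ha hb.1 hab)) hC h2
          rwa [hun] at this)
        have hcard : (S \ comp S s).ncard < N := by
          rw [← hN]
          refine Set.ncard_lt_ncard ⟨Set.sdiff_subset, fun hsub => ?_⟩ hfin
          exact (hsub hs).2 (Conn.refl hs)
        obtain ⟨s', hs', h3⟩ := ih _ hcard (S := S \ comp S s) (Set.sdiff_subset.trans hS)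
          (fun hh => hx' hh.1) (fun hh => hy' hh.1) hS' (hfin.subset Set.sdiff_subset) rfl
        refine ⟨s', hs'.1, ?_⟩
        have h4 : comp (S \ comp S s) s' = comp S s' := by
          ext v
          constructor
          · intro hv
            exact Conn.mono Set.sdiff_subset hv
          · intro hv
            obtain ⟨h5, h6⟩ := hv
            have key : ∀ u, Relation.ReflTransGen (fun x y => Adj x y ∧ y ∈ S) s' u →
                Conn (S \ comp S s) s' u := by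
              intro u hu
              induction hu with
              | refl => exact Conn.refl hs'
              | @tail b c _ hbc ih' =>
                have hb : b ∈ S \ comp S s := ih'.right
                have hc : c ∈ S \ comp S s :=
                  ⟨hbc.2, fun hc => hb.2 (comp_adj hc hb.1 hbc.1.symm)⟩
                exact ih'.trans (Conn.of_adj hb hc hbc.1)
            exact key v h6
        rwa [h4] at h3
      · exact ⟨s, hs, hC⟩

end Pool.Agent.MST
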