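import Pool.Agent.MST.Defs
import Pool.Agent.MST.JBall

/-!
# The circle of radius `n`: positions, arcs, separation

`pos n v ∈ [0, 6n)` is the position of a vertex `v` of the circle `Cir n` in counterclockwise
direction, beginning with `pos n (n, 0) = 0`; the corners have the positions `0, n, ..., 5n`.

* `pos_adj`: two vertices of the circle are adjacent iff their positions differ by `1` modulo `6n`.
* `conn_iff`: for `a, c, b, d` on the circle, `a ≠ c`, `b, d ∉ {a, c}`: `b` and `d` are joined on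
  the circle without `a, c` iff both or none of the positions of `b, d` lie between those of `a, c`.
* `arc_in`, `arc_out`: arcs are connected.
* `sep_or`, `sep_excl`: of the three pairings of four different points exactly one separates.
* `sep_arcs`: if `a, c` do not separate `b, d` there are disjoint arcs `a ~ c` and `b ~ d`.
-/

namespace Pool.Agent.MST

open Pool.Agent.TriPerc

/-- The position of a vertex of the circle of radius `n`. -/
def pos (n : ℤ) (v : V) : ℤ :=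
  if v.1 + v.2 = n ∧ 0 < v.1 then v.2
  else if v.2 = n then n - v.1
  else if v.1 = -n then 3 * n - v.2
  else if v.1 + v.2 = -n then 4 * n + v.1
  else if v.2 = -n then 4 * n + v.1
  else 6 * n + v.2

variable {n : ℤ} {u v a b c d : V}

theorem cir_iff : v ∈ Cir n ↔ nrm v = n := Iff.rfl

/-- The norm in coordinates. -/
theorem nrm_eq (h : nrm v = n) : (-n ≤ v.1 ∧ v.1 ≤ n ∧ -n ≤ v.2 ∧ v.2 ≤ n ∧ -n ≤ v.1 + v.2 ∧
    v.1 + v.2 ≤ n) ∧ (v.1 = n ∨ v.1 = -n ∨ v.2 = n ∨ v.2 = -n ∨ v.1 + v.2 = n ∨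
      v.1 + v.2 = -n) := by
  have h1 := nrm_le_iff'.1 h.le
  simp only [abs_le] at h1
  refine ⟨by omega, ?_⟩
  unfold nrm at h
  rcases max_choice (max |v.1| |v.2|) |v.1 + v.2| with h2 | h2
  · rw [h2] at h
    rcases max_choice |v.1| |v.2| with h3 | h3
    · rw [h3] at h
      rcases abs_choice v.1 with h4 | h4 <;> omega
    · rw [h3] at h
      rcases abs_choice v.2 with h4 | h4 <;> omega
  · rw [h2] at h
    rcases abs_choice (v.1 + v.2) with h4 | h4 <;> omega

/-- The converse. -/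
theorem nrm_of (h : -n ≤ v.1 ∧ v.1 ≤ n ∧ -n ≤ v.2 ∧ v.2 ≤ n ∧ -n ≤ v.1 + v.2 ∧
    v.1 + v.2 ≤ n) (h' : v.1 = n ∨ v.1 = -n ∨ v.2 = n ∨ v.2 = -n ∨ v.1 + v.2 = n ∨
      v.1 + v.2 = -n) : nrm v = n := by
  have h1 : nrm v ≤ n := by
    rw [nrm_le_iff']
    simp only [abs_le]
    omega
  have h2 : n ≤ nrm v := by
    obtain ⟨h3, h4, h5⟩ := nrm_le_iff'.1 (le_refl (nrm v))
    simp only [abs_le] at h3 h4 h5
    omega
  exact le_antisymm h1 h2

/-- The six sides (half open). -/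
theorem cir_sides (hn : 1 ≤ n) (h : nrm v = n) :
    (v.1 + v.2 = n ∧ 0 < v.1 ∧ 0 ≤ v.2 ∧ pos n v = v.2) ∨
    (v.2 = n ∧ -n < v.1 ∧ v.1 ≤ 0 ∧ pos n v = n - v.1) ∨
    (v.1 = -n ∧ 0 < v.2 ∧ v.2 ≤ n ∧ pos n v = 3 * n - v.2) ∨
    (v.1 + v.2 = -n ∧ v.1 < 0 ∧ v.2 ≤ 0 ∧ pos n v = 4 * n + v.1) ∨
    (v.2 = -n ∧ 0 ≤ v.1 ∧ v.1 < n ∧ pos n v = 4 * n + v.1) ∨
    (v.1 = n ∧ -n ≤ v.2 ∧ v.2 < 0 ∧ pos n v = 6 * n + v.2) := by
  obtain ⟨⟨h1, h2, h3, h4, h5, h6⟩, h7⟩ := nrm_eq h
  clear h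
  unfold pos
  generalize v.1 = a at *
  generalize v.2 = b at *
  split_ifs with k1 k2 k3 k4 k5
  · exact Or.inl ⟨k1.1, k1.2, by omega, rfl⟩
  · by_cases k : a = -n
    · exact Or.inr (Or.inr (Or.inl ⟨k, by omega, by omega, by omega⟩))
    · exact Or.inr (Or.inl ⟨k2, by omega, by omega, rfl⟩)
  · by_cases k : b = 0
    · exact Or.inr (Or.inr (Or.inr (Or.inl ⟨by omega, by omega, by omega, by omega⟩)))
    · exact Or.inr (Or.inr (Or.inl ⟨k3, by omega, by omega, rfl⟩))
  · by_cases k : a = 0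
    · exact Or.inr (Or.inr (Or.inr (Or.inr (Or.inl ⟨by omega, by omega, by omega, rfl⟩))))
    · exact Or.inr (Or.inr (Or.inr (Or.inl ⟨k4, by omega, by omega, rfl⟩)))
  · by_cases k : a = n
    · exact Or.inr (Or.inr (Or.inr (Or.inr (Or.inr ⟨k, by omega, by omega, by omega⟩))))
    · exact Or.inr (Or.inr (Or.inr (Or.inr (Or.inl ⟨k5, by omega, by omega, rfl⟩))))
  · have k6 : a = n := by omega
    exact Or.inr (Or.inr (Or.inr (Or.inr (Or.inr ⟨k6, by omega, by omega, rfl⟩))))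

theorem pos_range (hn : 1 ≤ n) (h : nrm v = n) : 0 ≤ pos n v ∧ pos n v < 6 * n := by
  rcases cir_sides hn h with h | h | h | h | h | h <;> omega

theorem pos_inj (hn : 1 ≤ n) (hu : nrm u = n) (hv : nrm v = n) (h : pos n u = pos n v) :
    u = v := by
  have h1 := cir_sides hn hu
  have h2 := cir_sides hn hv
  clear hu hv
  obtain ⟨a, b⟩ := u
  obtain ⟨c, d⟩ := v
  simp only [Prod.mk.injEq]
  simp only at h1 h2
  generalize pos n (a, b) = P at *
  generalize pos n (c, d) = Q at *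
  subst h
  rcases h1 with h1 | h1 | h1 | h1 | h1 | h1 <;>
  rcases h2 with h2 | h2 | h2 | h2 | h2 | h2 <;> omega

theorem pos_adj (hn : 1 ≤ n) (hu : nrm u = n) (hv : nrm v = n) (h : Adj u v) :
    pos n v = pos n u + 1 ∨ pos n u = pos n v + 1 ∨ (pos n u = 0 ∧ pos n v = 6 * n - 1) ∨
      (pos n v = 0 ∧ pos n u = 6 * n - 1) := by
  unfold Adj at h
  have h1 := cir_sides hn hu
  have h2 := cir_sides hn hv
  clear hu hv
  obtain ⟨a, b⟩ := u
  obtain ⟨c, d⟩ := v
  simp only at h h1 h2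
  generalize pos n (a, b) = P at *
  generalize pos n (c, d) = Q at *
  rcases h with h | h | h | h | h | h <;> obtain ⟨rfl, rfl⟩ := h <;>
  rcases h1 with h1 | h1 | h1 | h1 | h1 | h1 <;>
  rcases h2 with h2 | h2 | h2 | h2 | h2 | h2 <;> omega

/-- The next vertex of the circle. -/
theorem pos_succ (hn : 1 ≤ n) (hv : nrm v = n) : ∃ u, nrm u = n ∧ Adj v u ∧
    (pos n v < 6 * n - 1 → pos n u = pos n v + 1) ∧ (pos n v = 6 * n - 1 → pos n u = 0) := by
  have key : ∀ x y : ℤ, (-n ≤ x ∧ x ≤ n ∧ -n ≤ y ∧ y ≤ n ∧ -n ≤ x + y ∧ x + y ≤ n) →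
      (x = n ∨ x = -n ∨ y = n ∨ y = -n ∨ x + y = n ∨ x + y = -n) →
      Adj v (x, y) → ((pos n v < 6 * n - 1 → pos n (x, y) = pos n v + 1) ∧
        (pos n v = 6 * n - 1 → pos n (x, y) = 0)) → ∃ u, nrm u = n ∧ Adj v u ∧
    (pos n v < 6 * n - 1 → pos n u = pos n v + 1) ∧ (pos n v = 6 * n - 1 → pos n u = 0) :=
    fun x y h1 h2 h3 h4 => ⟨(x, y), nrm_of h1 h2, h3, h4⟩
  obtain ⟨a, b⟩ := v
  rcases cir_sides hn hv with h | h | h | h | h | h
  · refine key (a - 1) (b + 1) ?_ ?_ ?_ ?_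
    · simp only at h; omega
    · simp only at h; omega
    · exact Or.inr (Or.inr (Or.inl ⟨rfl, rfl⟩))
    · rw [h.2.2.2]
      have := nrm_of (n := n) (v := (a - 1, b + 1)) (by simp only at h ⊢; omega)
        (by simp only at h ⊢; omega)
      rcases cir_sides hn this with h' | h' | h' | h' | h' | h' <;> simp only at h h' ⊢ <;> omega
  · refine key (a - 1) b ?_ ?_ ?_ ?_
    · simp only at h; omega
    · simp only at h; omega
    · exact Or.inr (Or.inr (Or.inr (Or.inl ⟨rfl, rfl⟩)))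
    · rw [h.2.2.2]
      have := nrm_of (n := n) (v := (a - 1, b)) (by simp only at h ⊢; omega)
        (by simp only at h ⊢; omega)
      rcases cir_sides hn this with h' | h' | h' | h' | h' | h' <;> simp only at h h' ⊢ <;> omega
  · refine key a (b - 1) ?_ ?_ ?_ ?_
    · simp only at h; omega
    · simp only at h; omega
    · exact Or.inr (Or.inr (Or.inr (Or.inr (Or.inl ⟨rfl, rfl⟩))))
    · rw [h.2.2.2]
      have := nrm_of (n := n) (v := (a, b - 1)) (by simp only at h ⊢; omega)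
        (by simp only at h ⊢; omega)
      rcases cir_sides hn this with h' | h' | h' | h' | h' | h' <;> simp only at h h' ⊢ <;> omega
  · refine key (a + 1) (b - 1) ?_ ?_ ?_ ?_
    · simp only at h; omega
    · simp only at h; omega
    · exact Or.inr (Or.inr (Or.inr (Or.inr (Or.inr ⟨rfl, rfl⟩))))
    · rw [h.2.2.2]
      have := nrm_of (n := n) (v := (a + 1, b - 1)) (by simp only at h ⊢; omega)
        (by simp only at h ⊢; omega)
      rcases cir_sides hn this with h' | h' | h' | h' | h' | h' <;> simp only at h h' ⊢ <;> omega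
  · refine key (a + 1) b ?_ ?_ ?_ ?_
    · simp only at h; omega
    · simp only at h; omega
    · exact Or.inl ⟨rfl, rfl⟩
    · rw [h.2.2.2]
      have := nrm_of (n := n) (v := (a + 1, b)) (by simp only at h ⊢; omega)
        (by simp only at h ⊢; omega)
      rcases cir_sides hn this with h' | h' | h' | h' | h' | h' <;> simp only at h h' ⊢ <;> omega
  · refine key a (b + 1) ?_ ?_ ?_ ?_
    · simp only at h; omega
    · simp only at h; omega
    · exact Or.inr (Or.inl ⟨rfl, rfl⟩)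
    · rw [h.2.2.2]
      have := nrm_of (n := n) (v := (a, b + 1)) (by simp only at h ⊢; omega)
        (by simp only at h ⊢; omega)
      rcases cir_sides hn this with h' | h' | h' | h' | h' | h' <;> simp only at h h' ⊢ <;> omega

/-- Two vertices at positions `pos u ≤ pos v` are joined by the arc between them. -/
theorem conn_arc (hn : 1 ≤ n) (hu : nrm u = n) (hv : nrm v = n) (h : pos n u ≤ pos n v) :
    Conn {x | nrm x = n ∧ pos n u ≤ pos n x ∧ pos n x ≤ pos n v} u v := by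
  obtain ⟨k, hk⟩ : ∃ k : ℕ, pos n v = pos n u + k := ⟨(pos n v - pos n u).toNat, by omega⟩
  have hrange := pos_range hn hv
  have key : ∀ k : ℕ, ∀ u, nrm u = n → pos n u + k < 6 * n → ∃ v, nrm v = n ∧
      pos n v = pos n u + k ∧
      Conn {x | nrm x = n ∧ pos n u ≤ pos n x ∧ pos n x ≤ pos n u + k} u v := by
    intro k
    induction k with
    | zero =>
      intro u hu _
      exact ⟨u, hu, by simp, Conn.refl ⟨hu, le_rfl, by simp⟩⟩
    | succ k ih =>
      intro u hu hlt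
      obtain ⟨v, hv, hpv, hc⟩ := ih u hu (by push_cast at hlt; omega)
      obtain ⟨x, hx, hadj, hs, -⟩ := pos_succ hn hv
      have hpx := hs (by push_cast at hlt; omega)
      refine ⟨x, hx, by push_cast; omega, ?_⟩
      have h1 : Conn {x | nrm x = n ∧ pos n u ≤ pos n x ∧ pos n x ≤ pos n u + (k + 1 : ℕ)} u v :=
        hc.mono fun y hy => ⟨hy.1, hy.2.1, hy.2.2.trans (by push_cast; omega)⟩
      exact h1.trans (Conn.of_adj h1.right ⟨hx, by omega, by push_cast; omega⟩ hadj)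
  obtain ⟨x, hx, hpx, hc⟩ := key k u hu (by omega)
  have hxv : x = v := pos_inj hn hx hv (by omega)
  subst hxv
  rwa [← hk] at hc

/-- The arc through the position `0`. -/
theorem conn_wrap (hn : 1 ≤ n) (hu : nrm u = n) (hv : nrm v = n) :
    Conn {x | nrm x = n ∧ (pos n x ≤ pos n u ∨ pos n v ≤ pos n x)} u v := by
  -- the first and the last vertex
  obtain ⟨z, hz, hz0⟩ : ∃ z : V, nrm z = n ∧ pos n z = 0 := by
    refine ⟨(n, 0), nrm_of (by simp only; omega) (by simp), ?_⟩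
    unfold pos
    simp only [add_zero, true_and]
    rw [if_pos (by omega)]
  obtain ⟨z', hz', hz1⟩ : ∃ z' : V, nrm z' = n ∧ pos n z' = 6 * n - 1 := by
    refine ⟨(n, -1), nrm_of (by simp only; omega) (by simp), ?_⟩
    have := nrm_of (n := n) (v := (n, -1)) (by simp only; omega) (by simp)
    rcases cir_sides hn this with h' | h' | h' | h' | h' | h' <;> simp only at h' ⊢ <;> omega
  have hu' := pos_range hn hu
  have hv' := pos_range hn hv
  have h1 := conn_arc hn hz hu (by omega)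
  have h2 := conn_arc hn hv hz' (by omega)
  obtain ⟨y, hy, hadj, -, hy0⟩ := pos_succ hn hz'
  have hyz : y = z := pos_inj hn hy hz (by rw [hy0 hz1, hz0])
  subst hyz
  have h3 : Conn {x | nrm x = n ∧ (pos n x ≤ pos n u ∨ pos n v ≤ pos n x)} y u :=
    h1.mono fun x hx => ⟨hx.1, Or.inl hx.2.2⟩
  have h4 : Conn {x | nrm x = n ∧ (pos n x ≤ pos n u ∨ pos n v ≤ pos n x)} v z' :=
    h2.mono fun x hx => ⟨hx.1, Or.inr hx.2.1⟩
  exact h3.symm.trans ((Conn.of_adj h3.left h4.right hadj.symm).trans h4.symm)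

/-- Between. -/
def Bt (x y z : ℤ) : Prop := (x < z ∧ z < y) ∨ (y < z ∧ z < x)

theorem conn_iff (hn : 1 ≤ n) (ha : nrm a = n) (hc : nrm c = n) (hb : nrm b = n)
    (hd : nrm d = n) (hba : b ≠ a) (hbc : b ≠ c) (hda : d ≠ a) (hdc : d ≠ c) :
    Conn (Cir n \ {a, c}) b d ↔ (Bt (pos n a) (pos n c) (pos n b) ↔
      Bt (pos n a) (pos n c) (pos n d)) := by
  have pa := pos_range hn ha
  have pc := pos_range hn hc
  have pb := pos_range hn hb
  have pd := pos_range hn hd
  have nba : pos n b ≠ pos n a := fun h => hba (pos_inj hn hb ha h)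
  have nbc : pos n b ≠ pos n c := fun h => hbc (pos_inj hn hb hc h)
  have nda : pos n d ≠ pos n a := fun h => hda (pos_inj hn hd ha h)
  have ndc : pos n d ≠ pos n c := fun h => hdc (pos_inj hn hd hc h)
  constructor
  · rintro ⟨-, hr⟩
    have key : ∀ x, Relation.ReflTransGen (fun x y => Adj x y ∧ y ∈ Cir n \ {a, c}) b x →
        x ∈ Cir n \ {a, c} ∧ (Bt (pos n a) (pos n c) (pos n b) ↔
          Bt (pos n a) (pos n c) (pos n x)) := by
      intro x hx
      induction hx with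
      | refl => exact ⟨⟨hb, by simp [hba, hbc]⟩, Iff.rfl⟩
      | @tail x y _ hxy ih =>
        refine ⟨hxy.2, ih.2.trans ?_⟩
        obtain ⟨⟨hx1, hx2⟩, -⟩ := ih
        obtain ⟨hadj, hy1, hy2⟩ := hxy
        have hx1' : nrm x = n := hx1
        have hy1' : nrm y = n := hy1
        simp only [Set.mem_insert_iff, Set.mem_singleton_iff, not_or] at hx2 hy2
        have q1 : pos n x ≠ pos n a := fun h => hx2.1 (pos_inj hn hx1' ha h)
        have q2 : pos n x ≠ pos n c := fun h => hx2.2 (pos_inj hn hx1' hc h)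
        have q3 : pos n y ≠ pos n a := fun h => hy2.1 (pos_inj hn hy1' ha h)
        have q4 : pos n y ≠ pos n c := fun h => hy2.2 (pos_inj hn hy1' hc h)
        have q5 := pos_adj hn hx1' hy1' hadj
        have q6 := pos_range hn hx1'
        have q7 := pos_range hn hy1'
        unfold Bt
        omega
    exact (key d hr).2
  · intro h
    have main : ∀ b d : V, nrm b = n → nrm d = n → b ≠ a → b ≠ c → d ≠ a → d ≠ c →
        (Bt (pos n a) (pos n c) (pos n b) ↔ Bt (pos n a) (pos n c) (pos n d)) →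
        pos n b ≤ pos n d → Conn (Cir n \ {a, c}) b d := by
      intro b d hb hd hba hbc hda hdc h hbd
      have nba : pos n b ≠ pos n a := fun h => hba (pos_inj hn hb ha h)
      have nbc : pos n b ≠ pos n c := fun h => hbc (pos_inj hn hb hc h)
      have nda : pos n d ≠ pos n a := fun h => hda (pos_inj hn hd ha h)
      have ndc : pos n d ≠ pos n c := fun h => hdc (pos_inj hn hd hc h)
      unfold Bt at h
      by_cases h1 : (pos n a < pos n b ∨ pos n d < pos n a) ∧
          (pos n c < pos n b ∨ pos n d < pos n c)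
      · refine (conn_arc hn hb hd hbd).mono ?_
        rintro x ⟨hx1, hx2, hx3⟩
        refine ⟨hx1, ?_⟩
        simp only [Set.mem_insert_iff, Set.mem_singleton_iff, not_or]
        constructor
        · rintro rfl
          omega
        · rintro rfl
          omega
      · refine (conn_wrap hn hb hd).mono ?_
        rintro x ⟨hx1, hx2⟩
        refine ⟨hx1, ?_⟩
        simp only [Set.mem_insert_iff, Set.mem_singleton_iff, not_or]
        constructor
        · rintro rfl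
          omega
        · rintro rfl
          omega
    rcases le_total (pos n b) (pos n d) with h2 | h2
    · exact main b d hb hd hba hbc hda hdc h h2
    · exact (main d b hd hb hda hdc hba hbc h.symm h2).symm

theorem sep_iff (hn : 1 ≤ n) (ha : nrm a = n) (hc : nrm c = n) (hb : nrm b = n)
    (hd : nrm d = n) (hba : b ≠ a) (hbc : b ≠ c) (hda : d ≠ a) (hdc : d ≠ c) :
    SepC n a c b d ↔ ¬ (Bt (pos n a) (pos n c) (pos n b) ↔
      Bt (pos n a) (pos n c) (pos n d)) := by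
  unfold SepC
  rw [conn_iff hn ha hc hb hd hba hbc hda hdc]

private theorem tri (x y : ℤ) (h : x ≠ y) : (x < y ∧ ¬ y < x) ∨ (y < x ∧ ¬ x < y) := by omega

private theorem excl {a b c d : ℤ} (hab : a ≠ b) (hac : a ≠ c) (had : a ≠ d) (hbc : b ≠ c)
    (hbd : b ≠ d) (hcd : c ≠ d) : ¬ (¬ (Bt a c b ↔ Bt a c d) ∧ ¬ (Bt a b c ↔ Bt a b d)) := by
  rintro ⟨h1, h2⟩
  unfold Bt at h1 h2
  obtain ⟨k1, k1'⟩ | ⟨k1, k1'⟩ := tri _ _ hab <;> obtain ⟨k2, k2'⟩ | ⟨k2, k2'⟩ := tri _ _ hac <;>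
  obtain ⟨k3, k3'⟩ | ⟨k3, k3'⟩ := tri _ _ had <;> obtain ⟨k4, k4'⟩ | ⟨k4, k4'⟩ := tri _ _ hbc <;>
  obtain ⟨k5, k5'⟩ | ⟨k5, k5'⟩ := tri _ _ hbd <;> obtain ⟨k6, k6'⟩ | ⟨k6, k6'⟩ := tri _ _ hcd <;>
  simp only [k1, k1', k2, k2', k3, k3', k4, k4', k5, k5', k6, k6', and_true, and_false, or_false,
    or_true, iff_true, iff_false, not_true, not_false_iff, iff_self] at h1 h2 <;> omega

private theorem excl_or {a b c d : ℤ} (hab : a ≠ b) (hac : a ≠ c) (had : a ≠ d) (hbc : b ≠ c)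
    (hbd : b ≠ d) (hcd : c ≠ d) : ¬ (Bt a c b ↔ Bt a c d) ∨ ¬ (Bt a b c ↔ Bt a b d) ∨
      ¬ (Bt a d b ↔ Bt a d c) := by
  by_contra h
  simp only [not_or, not_not] at h
  obtain ⟨h1, h2, h3⟩ := h
  unfold Bt at h1 h2 h3
  obtain ⟨k1, k1'⟩ | ⟨k1, k1'⟩ := tri _ _ hab <;> obtain ⟨k2, k2'⟩ | ⟨k2, k2'⟩ := tri _ _ hac <;>
  obtain ⟨k3, k3'⟩ | ⟨k3, k3'⟩ := tri _ _ had <;> obtain ⟨k4, k4'⟩ | ⟨k4, k4'⟩ := tri _ _ hbc <;>
  obtain ⟨k5, k5'⟩ | ⟨k5, k5'⟩ := tri _ _ hbd <;> obtain ⟨k6, k6'⟩ | ⟨k6, k6'⟩ := tri _ _ hcd <;>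
  simp only [k1, k1', k2, k2', k3, k3', k4, k4', k5, k5', k6, k6', and_true, and_false, or_false,
    or_true, iff_true, iff_false, not_true, iff_self] at h1 h2 h3

private theorem excl_sw {a b c d : ℤ} (hab : a ≠ b) (had : a ≠ d) (hbc : b ≠ c)
    (hcd : c ≠ d) (h : ¬ (Bt a c b ↔ Bt a c d)) : ¬ (Bt b d a ↔ Bt b d c) := by
  intro h2
  unfold Bt at h h2
  obtain ⟨k1, k1'⟩ | ⟨k1, k1'⟩ := tri _ _ hab <;>
  obtain ⟨k3, k3'⟩ | ⟨k3, k3'⟩ := tri _ _ had <;> obtain ⟨k4, k4'⟩ | ⟨k4, k4'⟩ := tri _ _ hbc <;>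
  obtain ⟨k6, k6'⟩ | ⟨k6, k6'⟩ := tri _ _ hcd <;>
  simp only [k1, k1', k3, k3', k4, k4', k6, k6', and_true, and_false, or_false,
    or_true, iff_true, iff_false, not_true, not_false_iff, iff_self] at h h2

/-- Of the three pairings at least one separates. -/
theorem sep_or (hn : 1 ≤ n) (ha : nrm a = n) (hb : nrm b = n) (hc : nrm c = n)
    (hd : nrm d = n) (hab : a ≠ b) (hac : a ≠ c) (had : a ≠ d) (hbc : b ≠ c) (hbd : b ≠ d)
    (hcd : c ≠ d) : SepC n a c b d ∨ SepC n a b c d ∨ SepC n a d b c := by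
  have pab : pos n a ≠ pos n b := fun h => hab (pos_inj hn ha hb h)
  have pac : pos n a ≠ pos n c := fun h => hac (pos_inj hn ha hc h)
  have pad : pos n a ≠ pos n d := fun h => had (pos_inj hn ha hd h)
  have pbc : pos n b ≠ pos n c := fun h => hbc (pos_inj hn hb hc h)
  have pbd : pos n b ≠ pos n d := fun h => hbd (pos_inj hn hb hd h)
  have pcd : pos n c ≠ pos n d := fun h => hcd (pos_inj hn hc hd h)
  rw [sep_iff hn ha hc hb hd hab.symm hbc had.symm hcd.symm,
    sep_iff hn ha hb hc hd hac.symm hbc.symm had.symm hbd.symm,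
    sep_iff hn ha hd hb hc hab.symm hbd hac.symm hcd]
  exact excl_or pab pac pad pbc pbd pcd

/-- At most one of the three pairings separates. -/
theorem sep_excl (hn : 1 ≤ n) (ha : nrm a = n) (hb : nrm b = n) (hc : nrm c = n)
    (hd : nrm d = n) (hab : a ≠ b) (hac : a ≠ c) (had : a ≠ d) (hbc : b ≠ c) (hbd : b ≠ d)
    (hcd : c ≠ d) : ¬ (SepC n a c b d ∧ SepC n a b c d) := by
  have pab : pos n a ≠ pos n b := fun h => hab (pos_inj hn ha hb h)
  have pac : pos n a ≠ pos n c := fun h => hac (pos_inj hn ha hc h)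
  have pad : pos n a ≠ pos n d := fun h => had (pos_inj hn ha hd h)
  have pbc : pos n b ≠ pos n c := fun h => hbc (pos_inj hn hb hc h)
  have pbd : pos n b ≠ pos n d := fun h => hbd (pos_inj hn hb hd h)
  have pcd : pos n c ≠ pos n d := fun h => hcd (pos_inj hn hc hd h)
  rw [sep_iff hn ha hc hb hd hab.symm hbc had.symm hcd.symm,
    sep_iff hn ha hb hc hd hac.symm hbc.symm had.symm hbd.symm]
  exact excl pab pac pad pbc pbd pcd

/-- Symmetries of the separation relation. -/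
theorem sep_symm (h : SepC n a c b d) : SepC n a c d b := fun h' => h h'.symm

theorem sep_comm (h : SepC n a c b d) : SepC n c a b d := by
  unfold SepC at *
  rwa [Set.pair_comm]

theorem sep_swap (hn : 1 ≤ n) (ha : nrm a = n) (hb : nrm b = n) (hc : nrm c = n)
    (hd : nrm d = n) (hab : a ≠ b) (hac : a ≠ c) (had : a ≠ d) (hbc : b ≠ c) (hbd : b ≠ d)
    (hcd : c ≠ d) (h : SepC n a c b d) : SepC n b d a c := by
  have pab : pos n a ≠ pos n b := fun h => hab (pos_inj hn ha hb h)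
  have pac : pos n a ≠ pos n c := fun h => hac (pos_inj hn ha hc h)
  have pad : pos n a ≠ pos n d := fun h => had (pos_inj hn ha hd h)
  have pbc : pos n b ≠ pos n c := fun h => hbc (pos_inj hn hb hc h)
  have pbd : pos n b ≠ pos n d := fun h => hbd (pos_inj hn hb hd h)
  have pcd : pos n c ≠ pos n d := fun h => hcd (pos_inj hn hc hd h)
  rw [sep_iff hn ha hc hb hd hab.symm hbc had.symm hcd.symm] at h
  rw [sep_iff hn hb hd ha hc hab had hbc.symm hcd]
  exact excl_sw pab pad pbc pcd h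

/-- If `a, c` do not separate `b, d`, there are disjoint arcs. -/
theorem sep_arcs (hn : 1 ≤ n) (ha : nrm a = n) (hb : nrm b = n) (hc : nrm c = n)
    (hd : nrm d = n) (hab : a ≠ b) (had : a ≠ d) (hbc : b ≠ c)
    (hcd : c ≠ d) (h : ¬ SepC n a c b d) : ∃ S T : Set V, S ⊆ Cir n ∧ T ⊆ Cir n ∧
      Disjoint S T ∧ Conn S a c ∧ Conn T b d := by
  rw [sep_iff hn ha hc hb hd hab.symm hbc had.symm hcd.symm, not_not] at h
  have pab : pos n a ≠ pos n b := fun h => hab (pos_inj hn ha hb h)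
  have pad : pos n a ≠ pos n d := fun h => had (pos_inj hn ha hd h)
  have pbc : pos n b ≠ pos n c := fun h => hbc (pos_inj hn hb hc h)
  have pcd : pos n c ≠ pos n d := fun h => hcd (pos_inj hn hc hd h)
  -- one of the two pairs is joined by its inner arc and the other one by the outer arc
  have main : ∀ a b c d : V, nrm a = n → nrm b = n → nrm c = n → nrm d = n →
      pos n a ≠ pos n b → pos n a ≠ pos n d → pos n b ≠ pos n c → pos n c ≠ pos n d →
      pos n a ≤ pos n c → pos n b ≤ pos n d →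
      (Bt (pos n a) (pos n c) (pos n b) ↔ Bt (pos n a) (pos n c) (pos n d)) →
      ∃ S T : Set V, S ⊆ Cir n ∧ T ⊆ Cir n ∧ Disjoint S T ∧ Conn S a c ∧ Conn T b d := by
    intro a b c d ha hb hc hd pab pad pbc pcd hac hbd h
    unfold Bt at h
    by_cases h1 : pos n a < pos n b ∧ pos n b < pos n c
    · refine ⟨_, _, fun x hx => hx.1, fun x hx => hx.1, ?_, (conn_wrap hn ha hc),
        conn_arc hn hb hd hbd⟩
      rw [Set.disjoint_left]
      rintro x ⟨-, hx1⟩ ⟨-, hx2⟩
      omega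
    · by_cases h2 : pos n b < pos n a ∧ pos n c < pos n d
      · refine ⟨_, _, fun x hx => hx.1, fun x hx => hx.1, ?_, conn_arc hn ha hc hac,
          (conn_wrap hn hb hd)⟩
        rw [Set.disjoint_left]
        rintro x ⟨-, hx1⟩ ⟨-, hx2⟩
        omega
      · refine ⟨_, _, fun x hx => hx.1, fun x hx => hx.1, ?_, conn_arc hn ha hc hac,
          conn_arc hn hb hd hbd⟩
        rw [Set.disjoint_left]
        rintro x ⟨-, hx1⟩ ⟨-, hx2⟩
        omega
  have hsw : ∀ x y z : ℤ, Bt x y z ↔ Bt y x z := fun x y z => by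
    unfold Bt
    omega
  rcases le_total (pos n a) (pos n c) with h1 | h1 <;> rcases le_total (pos n b) (pos n d) with
    h2 | h2
  · exact main a b c d ha hb hc hd pab pad pbc pcd h1 h2 h
  · obtain ⟨S, T, q1, q2, q3, q4, q5⟩ := main a d c b ha hd hc hb pad pab pcd.symm pbc.symm h1 h2
      h.symm
    exact ⟨S, T, q1, q2, q3, q4, q5.symm⟩
  · rw [hsw (pos n a) (pos n c) (pos n b), hsw (pos n a) (pos n c) (pos n d)] at h
    obtain ⟨S, T, q1, q2, q3, q4, q5⟩ := main c b a d hc hb ha hd pbc.symm pcd pab.symm pad h1 h2 h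
    exact ⟨S, T, q1, q2, q3, q4.symm, q5⟩
  · rw [hsw (pos n a) (pos n c) (pos n b), hsw (pos n a) (pos n c) (pos n d)] at h
    obtain ⟨S, T, q1, q2, q3, q4, q5⟩ := main c d a b hc hd ha hb pcd pbc.symm pad.symm pab
      h1 h2 h.symm
    exact ⟨S, T, q1, q2, q3, q4.symm, q5.symm⟩

end Pool.Agent.MST
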