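import Pool.Agent.MST.Ex

/-!
# Classes of the wired minimal spanning forest: roots, interface edges, the turn lemma

`Rt A W w x ρ`: the root path of `x` in the forest `MT A W w` ends in `ρ ∈ W`.

* `rt_iff`: `Rt A W w x ρ` iff `ρ ∈ W` and there is a walk of tree edges from `x` to `ρ`;
  `rt_unique`: the root is unique; `rt_walk`: it is constant along walks of tree edges.
* `iface`: let `x, y ∈ A` be neighbours with different roots; every edge of their root paths has a
  label less than the edge `xy`, and every vertex on them a label at most `max (w x) (w y)`.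
* `iface_lt`: if moreover the graph `{v | w v < t}` does not cross an annulus between them and `W`,
  then `t ≤ max (w x) (w y)`.
* `turn_edge`: if moreover the two root paths meet a connected set `K ⊆ {v | w v < t}`, the edge
  `xy` is not in the minimal spanning tree of any larger graph.
* `turn`: a path of the minimal spanning tree of the lattice inside `A`, all of whose vertices are
  beyond the annulus and have root paths which meet `K`, joins vertices with the same root.
-/

namespace Pool.Agent.MST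

open Pool.Agent.TriPerc

variable {A A' W W' K : Set V} {w : Lab} {f g f' : ℕ → V} {n n' L : ℕ} {x y ρ ρ' : V} {t : ℝ}

/-- `ρ` is the root of `x`. -/
def Rt (A W : Set V) (w : Lab) (x ρ : V) : Prop :=
  ∃ (f : ℕ → V) (n : ℕ), IsRoot A W w x f n ∧ f n = ρ

theorem Rt.mem (h : Rt A W w x ρ) : ρ ∈ W := by
  obtain ⟨f, n, hf, rfl⟩ := h
  exact hf.last

theorem IsRoot.walk (h : IsRoot A W w x f n) {i : ℕ} (hi : i ≤ n) :
    Relation.ReflTransGen (MT A W w) x (f i) := by
  have := rtg_seg (R := MT A W w) (Nat.zero_le i) fun k _ hk => h.path.step k (by omega)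
  rwa [h.start] at this

theorem Rt.walk (h : Rt A W w x ρ) : Relation.ReflTransGen (MT A W w) x ρ := by
  obtain ⟨f, n, hf, rfl⟩ := h
  exact hf.walk le_rfl

/-- Two vertices of `W` are not joined by tree edges. -/
theorem wired_ne (hw : Function.Injective w) (hx : ρ ∈ W) (hy : ρ' ∈ W)
    (h : Relation.ReflTransGen (MT A W w) ρ ρ') : ρ = ρ' := by
  by_contra hne
  obtain ⟨g, N, g0, gN, hg⟩ := exists_pa h
  have hN : 0 < N := by
    rcases Nat.eq_zero_or_pos N with h0 | h0
    · rw [h0, g0] at gN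
      exact absurd gN hne
    · exact h0
  have hg' : IsPa (MJ A W w) g N := hg.mono fun _ _ h => Or.inl h
  refine lt_irrefl _ (minimax hw hg' (l := EL w (g 0) (g (0 + 1))) ?_ hN (hg.step 0 hN))
  rw [g0, gN]
  exact Relation.ReflTransGen.single (Or.inr ⟨hx, hy⟩)

theorem rt_of_walk (hw : Function.Injective w) (hρ : ρ ∈ W)
    (h : Relation.ReflTransGen (MT A W w) x ρ) : Rt A W w x ρ := by
  classical
  obtain ⟨g, N, g0, gN, hg⟩ := exists_pa h
  have hex : ∃ i, g i ∈ W := ⟨N, gN ▸ hρ⟩
  have h2 := Nat.find_spec hex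
  have h3 : ∀ i, i < Nat.find hex → g i ∉ W := fun i hi => Nat.find_min hex hi
  have h4 : Nat.find hex ≤ N := Nat.find_min' hex (gN ▸ hρ)
  refine ⟨g, Nat.find hex, ⟨⟨fun i hi => hg.step i (by omega), fun i j hi hj hij =>
    hg.inj i j (by omega) (by omega) hij⟩, g0, h2, h3⟩, ?_⟩
  have h5 := rtg_seg (R := MT A W w) h4 fun k _ hk => hg.step k (by omega)
  rw [gN] at h5
  exact wired_ne hw h2 hρ h5

theorem rt_iff (hw : Function.Injective w) :
    Rt A W w x ρ ↔ ρ ∈ W ∧ Relation.ReflTransGen (MT A W w) x ρ :=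
  ⟨fun h => ⟨h.mem, h.walk⟩, fun h => rt_of_walk hw h.1 h.2⟩

theorem rt_walk (hw : Function.Injective w) (h : Relation.ReflTransGen (MT A W w) x y) :
    Rt A W w x ρ ↔ Rt A W w y ρ := by
  rw [rt_iff hw, rt_iff hw]
  exact and_congr_right fun _ => ⟨fun h' => (rtg_symm (fun _ _ h => h.symm) h).trans h',
    fun h' => h.trans h'⟩

theorem rt_mt (hw : Function.Injective w) (h : MT A W w x y) :
    Rt A W w x ρ ↔ Rt A W w y ρ := rt_walk hw (Relation.ReflTransGen.single h)

theorem rt_unique (hw : Function.Injective w) (h : Rt A W w x ρ) (h' : Rt A W w x ρ') :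
    ρ = ρ' :=
  wired_ne hw h.mem h'.mem ((rtg_symm (fun _ _ h => h.symm) h.walk).trans h'.walk)

theorem rt_self (hρ : ρ ∈ W) : Rt A W w ρ ρ :=
  ⟨fun _ => ρ, 0, ⟨⟨fun i hi => absurd hi (Nat.not_lt_zero i), fun i j hi hj _ => by omega⟩,
    rfl, hρ, fun i hi => absurd hi (Nat.not_lt_zero i)⟩, rfl⟩

theorem rt_exists (hA : A.Finite) (hy : y ∈ W) (h : Conn A x y) : ∃ ρ, Rt A W w x ρ := by
  obtain ⟨f, n, hf⟩ := root_exists (w := w) hA hy h
  exact ⟨f n, f, n, hf, rfl⟩

/-- Every vertex of the root path has the same root. -/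
theorem IsRoot.rt (hw : Function.Injective w) (hf : IsRoot A W w x f n) {i : ℕ} (hi : i ≤ n) :
    Rt A W w (f i) (f n) := by
  refine rt_of_walk hw hf.last ?_
  exact rtg_seg (R := MT A W w) hi fun k _ hk => hf.path.step k (by omega)

/-- Root paths with different ends are disjoint. -/
theorem root_disj (hw : Function.Injective w) (hf : IsRoot A W w x f n)
    (hf' : IsRoot A W w y f' n') (hne : f n ≠ f' n') {i j : ℕ} (hi : i ≤ n) (hj : j ≤ n') :
    f i ≠ f' j := fun h => hne (rt_unique hw (hf.rt hw hi) (h ▸ hf'.rt hw hj))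

/-- **Interface edges** dominate the root paths of their ends. -/
theorem iface (hw : Function.Injective w) (hx : x ∈ A) (hy : y ∈ A) (hxy : Adj x y)
    (hf : IsRoot A W w x f n) (hf' : IsRoot A W w y f' n') (hne : f n ≠ f' n') {i : ℕ}
    (hi : i < n) : EL w (f i) (f (i + 1)) < EL w x y := by
  have hd := fun {i j : ℕ} (hi : i ≤ n) (hj : j ≤ n') =>
    root_disj hw hf hf' hne (i := i) (j := j) hi hj
  -- the path from `x` to `y` with the jump
  have hσ : IsPa (MJ A W w) (fun k => if k ≤ n then f k else f' (n + n' + 1 - k))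
      (n + n' + 1) := by
    refine ⟨fun k hk => ?_, fun a b ha hb hab => ?_⟩
    · by_cases h1 : k + 1 ≤ n
      · simp only [show k ≤ n by omega, h1, if_true]
        exact Or.inl (hf.path.step k (by omega))
      · by_cases h2 : k ≤ n
        · simp only [h2, h1, if_true, if_false]
          refine Or.inr ⟨?_, ?_⟩
          · rw [show k = n by omega]
            exact hf.last
          · rw [show n + n' + 1 - (k + 1) = n' by omega]
            exact hf'.last
        · simp only [h2, h1, if_false]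
          have h3 := hf'.path.step (n + n' + 1 - (k + 1)) (by omega)
          rw [show n + n' + 1 - (k + 1) + 1 = n + n' + 1 - k by omega] at h3
          exact Or.inl h3.symm
    · by_cases h1 : a ≤ n <;> by_cases h2 : b ≤ n
      · simp only [h1, h2, if_true] at hab
        exact hf.path.inj a b h1 h2 hab
      · simp only [h1, h2, if_true, if_false] at hab
        exact absurd hab (hd h1 (by omega))
      · simp only [h1, h2, if_true, if_false] at hab
        exact absurd hab.symm (hd h2 (by omega))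
      · simp only [h1, h2, if_false] at hab
        have := hf'.path.inj _ _ (by omega) (by omega) hab
        omega
  have hle : ∀ l : ℝ ×ₗ ℝ, EL w x y < l → EL w (f i) (f (i + 1)) < l := by
    intro l hl
    have h1 := minimax hw hσ (l := l) (i := i) (by
      simp only [Nat.zero_le, if_true, show ¬ n + n' + 1 ≤ n by omega, if_false, Nat.sub_self]
      rw [hf.start, hf'.start]
      exact Relation.ReflTransGen.single (Or.inl ⟨hxy, hx, hy, hl⟩)) (by omega) (by
      simp only [show i ≤ n by omega, show i + 1 ≤ n by omega, if_true]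
      exact hf.path.step i hi)
    simpa only [show i ≤ n by omega, show i + 1 ≤ n by omega, if_true] using h1
  have hle' : EL w (f i) (f (i + 1)) ≤ EL w x y := by
    by_contra hc
    exact lt_irrefl _ (hle _ (not_le.1 hc))
  refine lt_of_le_of_ne hle' fun h => ?_
  rcases EL_inj hw h with ⟨-, h4⟩ | ⟨h3, -⟩
  · refine hd (i := i + 1) (j := 0) hi (Nat.zero_le _) ?_
    rw [h4, hf'.start]
  · refine hd (i := i) (j := 0) hi.le (Nat.zero_le _) ?_
    rw [h3, hf'.start]

/-- The vertices of the root paths of the ends of an interface edge. -/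
theorem iface_vertex (hw : Function.Injective w) (hx : x ∈ A) (hy : y ∈ A) (hxy : Adj x y)
    (hf : IsRoot A W w x f n) (hf' : IsRoot A W w y f' n') (hne : f n ≠ f' n') {i : ℕ}
    (hi : i ≤ n) : w (f i) ≤ max (w x) (w y) := by
  rcases Nat.eq_or_lt_of_le hi with rfl | h1
  · rcases Nat.eq_zero_or_pos i with rfl | h0
    · rw [hf.start]
      exact le_max_left _ _
    · have h2 := iface hw hx hy hxy hf hf' hne (i := i - 1) (by omega)
      rw [show i - 1 + 1 = i by omega] at h2
      exact (le_max_right _ _).trans (max_le_of_EL_lt h2)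
  · exact (le_max_left _ _).trans (max_le_of_EL_lt (iface hw hx hy hxy hf hf' hne h1))

theorem iface_strict (hw : Function.Injective w) (hx : x ∈ A) (hy : y ∈ A) (hxy : Adj x y)
    (hf : IsRoot A W w x f n) (hf' : IsRoot A W w y f' n') (hne : f n ≠ f' n') {i : ℕ}
    (hi : i ≤ n) (h1 : f i ≠ x) (h2 : f i ≠ y) : w (f i) < max (w x) (w y) := by
  refine lt_of_le_of_ne (iface_vertex hw hx hy hxy hf hf' hne hi) fun h => ?_
  rcases max_choice (w x) (w y) with h3 | h3
  · rw [h3] at h
    exact h1 (hw h)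
  · rw [h3] at h
    exact h2 (hw h)

/-- If `{v | w v < t}` does not cross an annulus between the edge and `W`, then the interface
edge is at least `t`. -/
theorem iface_lt (hw : Function.Injective w) (hx : x ∈ A) (hy : y ∈ A) (hxy : Adj x y)
    (hf : IsRoot A W w x f n) (hf' : IsRoot A W w y f' n') (hne : f n ≠ f' n') {a b : ℤ}
    (hab : a ≤ b) (hW : ∀ v ∈ W, nrm v ≤ a) (hxb : b ≤ nrm x)
    (hA : ¬ Arm {v | w v < t} 0 a b) : t ≤ max (w x) (w y) := by
  by_contra hc
  refine hA ?_
  have h1 : Conn {v | w v < t} (f 0) (f n) := conn_seg (Nat.zero_le n)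
    (fun i _ hi => (hf.path.step i hi).1)
    fun i _ hi => (iface_vertex hw hx hy hxy hf hf' hne hi).trans_lt (not_le.1 hc)
  refine arm_of_conn h1.symm ?_ ?_ hab
  · rw [sub_zero]
    exact hW _ hf.last
  · rw [sub_zero, hf.start]
    exact hxb

/-- Joined in a set with labels less than the first coordinate of the level. -/
theorem jd_of_lt {l : ℝ ×ₗ ℝ} (h : Conn K x y) (hKA : K ⊆ A) (hKt : ∀ v ∈ K, w v < (ofLex l).1) :
    Jd A W w l x y := by
  obtain ⟨hx, hr⟩ := h
  have hkey : ∀ z, Relation.ReflTransGen (fun x y => Adj x y ∧ y ∈ K) x z →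
      z ∈ K ∧ Jd A W w l x z := by
    intro z hz
    induction hz with
    | refl => exact ⟨hx, Relation.ReflTransGen.refl⟩
    | @tail b c _ hbc ih =>
      refine ⟨hbc.2, ih.2.tail (Or.inl ⟨hbc.1, hKA ih.1, hKA hbc.2, ?_⟩)⟩
      unfold EL
      rw [Prod.Lex.lt_iff]
      exact Or.inl (max_lt (hKt b ih.1) (hKt c hbc.2))
  exact (hkey y hr).2

/-- **The turn lemma** for one edge. -/
theorem turn_edge (hw : Function.Injective w) (hAA : A ⊆ A') (hx : x ∈ A) (hy : y ∈ A)
    (hxy : Adj x y) (hf : IsRoot A W w x f n) (hf' : IsRoot A W w y f' n') (hne : f n ≠ f' n')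
    (hKA : K ⊆ A') (hKt : ∀ v ∈ K, w v < max (w x) (w y)) {i j : ℕ} (hi : i ≤ n)
    (hj : j ≤ n') (hK : Conn K (f i) (f' j)) : ¬ MT A' W' w x y := by
  intro h
  refine h.2.2.2 ?_
  have h1 : Jd A' W' w (EL w x y) (f 0) (f i) := by
    refine rtg_seg (Nat.zero_le i) fun k _ hk => ?_
    have h2 := hf.path.step k (by omega)
    exact Or.inl ⟨h2.1, hAA h2.2.1, hAA h2.2.2.1, iface hw hx hy hxy hf hf' hne (by omega)⟩
  have h2 : Jd A' W' w (EL w x y) (f' 0) (f' j) := by
    refine rtg_seg (Nat.zero_le j) fun k _ hk => ?_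
    have h2 := hf'.path.step k (by omega)
    have h3 := iface hw hy hx hxy.symm hf' hf hne.symm (i := k) (by omega)
    rw [EL_comm w y x] at h3
    exact Or.inl ⟨h2.1, hAA h2.2.1, hAA h2.2.2.1, h3⟩
  have h3 : Jd A' W' w (EL w x y) (f i) (f' j) :=
    jd_of_lt hK hKA fun v hv => by
      rw [EL_fst]
      exact hKt v hv
  rw [hf.start] at h1
  rw [hf'.start] at h2
  exact h1.trans (h3.trans h2.symm)

/-- **The turn lemma**, general form: let `g` be a path of the minimal spanning tree of a larger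
graph inside `A`.  Suppose that the root paths of neighbours `g i`, `g (i + 1)` with different roots
are joined by labels less than `max (w (g i)) (w (g (i + 1)))`.  Then the ends of `g` have the same
root. -/
theorem turn' (hw : Function.Injective w) (hA : A.Finite) (hAA : A ⊆ A')
    (hg : IsPa (MT A' W' w) g L) (hgA : ∀ i ≤ L, g i ∈ A)
    (hmeet : ∀ i < L, ∀ f n f' n', IsRoot A W w (g i) f n → IsRoot A W w (g (i + 1)) f' n' →
      f n ≠ f' n' → ∃ j ≤ n, ∃ j' ≤ n',
        Conn ({v | w v < max (w (g i)) (w (g (i + 1)))} ∩ A') (f j) (f' j'))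
    (hp : Rt A W w (g 0) ρ) (hq : Rt A W w (g L) ρ') : ρ = ρ' := by
  -- all vertices of the path have a root
  have hex : ∀ i ≤ L, ∃ ρ, Rt A W w (g i) ρ := by
    intro i hi
    refine rt_exists hA hp.mem ?_
    have h1 : Conn A (g 0) (g i) := conn_seg (Nat.zero_le i)
      (fun k _ hk => (hg.step k (by omega)).1) fun k _ hk => hgA k (by omega)
    have h2 : Conn A (g 0) ρ := by
      refine ⟨hgA 0 (Nat.zero_le _), ?_⟩
      exact rtg_mono (fun u v huv => ⟨huv.1, huv.2.2.1⟩) hp.walk
    exact h1.symm.trans h2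
  have key : ∀ i ≤ L, Rt A W w (g i) ρ := by
    intro i
    induction i with
    | zero => exact fun _ => hp
    | succ i ih =>
      intro hi
      obtain ⟨ρ1, f', n', hf', hn'⟩ := hex (i + 1) hi
      obtain ⟨f, n, hf, hn⟩ := ih (by omega)
      by_cases hne : ρ = ρ1
      · exact ⟨f', n', hf', hn'.trans hne.symm⟩
      · exfalso
        have hne' : f n ≠ f' n' := by
          rw [hn, hn']
          exact hne
        obtain ⟨j, hj, j', hj', hK⟩ := hmeet i (by omega) f n f' n' hf hf' hne'
        have hst := hg.step i (by omega)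
        exact turn_edge (W' := W') hw hAA (hgA i (by omega)) (hgA (i + 1) hi) hst.1 hf hf' hne'
          (fun v hv => hv.2) (fun v hv => hv.1) hj hj' hK hst
  exact rt_unique hw (key L le_rfl) hq

/-- **The turn lemma**: let `g` be a path of the minimal spanning tree of a larger graph inside
`A`, all of whose vertices are beyond an annulus which is not crossed by `{v | w v < t}`.  Suppose
that the root paths of neighbours `g i`, `g (i + 1)` with different roots are joined by labels less
than `t`.  Then the ends of `g` have the same root. -/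
theorem turn (hw : Function.Injective w) (hA : A.Finite) (hAA : A ⊆ A')
    (hg : IsPa (MT A' W' w) g L) (hgA : ∀ i ≤ L, g i ∈ A) {a b : ℤ} (hab : a ≤ b)
    (hW : ∀ v ∈ W, nrm v ≤ a) (hgb : ∀ i ≤ L, b ≤ nrm (g i)) (hArm : ¬ Arm {v | w v < t} 0 a b)
    (hmeet : ∀ i < L, ∀ f n f' n', IsRoot A W w (g i) f n → IsRoot A W w (g (i + 1)) f' n' →
      f n ≠ f' n' → ∃ j ≤ n, ∃ j' ≤ n', Conn ({v | w v < t} ∩ A') (f j) (f' j'))
    (hp : Rt A W w (g 0) ρ) (hq : Rt A W w (g L) ρ') : ρ = ρ' := by
  refine turn' hw hA hAA hg hgA (fun i hi f n f' n' hf hf' hne => ?_) hp hq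
  obtain ⟨j, hj, j', hj', hK⟩ := hmeet i hi f n f' n' hf hf' hne
  have hlt := iface_lt hw (hgA i hi.le) (hgA (i + 1) hi) (hg.step i hi).1 hf hf' hne hab hW
    (hgb i hi.le) hArm
  exact ⟨j, hj, j', hj', hK.mono fun v hv => ⟨lt_of_lt_of_le hv.1 hlt, hv.2⟩⟩

/-- The turn lemma with one connected set which is met by all root paths. -/
theorem turn_K (hw : Function.Injective w) (hA : A.Finite) (hAA : A ⊆ A')
    (hg : IsPa (MT A' W' w) g L) (hgA : ∀ i ≤ L, g i ∈ A) {a b : ℤ} (hab : a ≤ b)
    (hW : ∀ v ∈ W, nrm v ≤ a) (hgb : ∀ i ≤ L, b ≤ nrm (g i)) (hArm : ¬ Arm {v | w v < t} 0 a b)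
    (hK : IsConn K) (hKA : K ⊆ A') (hKt : ∀ v ∈ K, w v < t)
    (hmeet : ∀ i ≤ L, ∀ f n, IsRoot A W w (g i) f n → ∃ j ≤ n, f j ∈ K)
    (hp : Rt A W w (g 0) ρ) (hq : Rt A W w (g L) ρ') : ρ = ρ' := by
  refine turn hw hA hAA hg hgA hab hW hgb hArm (fun i hi f n f' n' hf hf' _ => ?_) hp hq
  obtain ⟨j, hj, hjK⟩ := hmeet i hi.le f n hf
  obtain ⟨j', hj', hjK'⟩ := hmeet (i + 1) hi f' n' hf'
  exact ⟨j, hj, j', hj', (hK _ hjK _ hjK').mono fun v hv => ⟨hKt v hv, hKA hv⟩⟩

end Pool.Agent.MST
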