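import Pool.Agent.MST.TwoArm

/-!
# Corridors between two crossings, and bridges

`B0, B1 ⊆ Ann 0 m n` are connected sets with vertices `b0, b1` on the outer circle.

* `same_side`: two crossings of the annulus off `B0 ∪ B1` which start on the same side of `b0, b1`
  are joined off `B0 ∪ B1`.
* `bridge`: let `x` be the outer end of a crossing off `B0 ∪ B1` and `Θ` the component of `x` in
  `Ann 0 m n \ (B0 ∪ B1)` (the corridor).  If `Θ \ U` contains no crossing of the annulus, then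
  `B0` and `B1` (which cross the annulus) are joined in `B0 ∪ B1 ∪ (U ∩ Θ)`.
* `corr_out`: a connected set `B3 ⊆ Ann 0 m n` off `B0 ∪ B1` with a vertex `b3` of the outer circle
  on the other side (`SepC n b0 b1 x b3`) does not meet the corridor and is not adjacent to it.
* `exists_corr`: if `B0` and `B1` are not joined in `B0 ∪ B1` there is a crossing off `B0 ∪ B1`
  which starts on the other side of `b3`.
-/

namespace Pool.Agent.MST

open Pool.Agent.TriPerc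

variable {m n : ℤ} {S T U B0 B1 B3 : Set V} {a b c d b0 b1 b3 b0' b1' x y x' y' : V}

/-- Two points on the different side of a third one are on the same side. -/
theorem sep_two (hn : 1 ≤ n) (ha : nrm a = n) (hb : nrm b = n) (hx : nrm x = n) (hy : nrm y = n)
    (hc : nrm c = n) (hxa : x ≠ a) (hxb : x ≠ b) (hya : y ≠ a) (hyb : y ≠ b) (hca : c ≠ a)
    (hcb : c ≠ b) (h : SepC n a b x y) : SepC n a b c x ∨ SepC n a b c y := by
  rw [sep_iff hn ha hb hx hy hxa hxb hya hyb] at h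
  rw [sep_iff hn ha hb hc hx hca hcb hxa hxb, sep_iff hn ha hb hc hy hca hcb hya hyb]
  tauto

/-- Points of a connected subset of the annulus are on the same side of two disjoint crossings. -/
theorem not_sep_conn (hm : 1 ≤ m) (hmn : m ≤ n) (hx : nrm x = n) (hy : nrm y = n)
    (ha : nrm a = n) (hb : nrm b = n) (hS : S ⊆ Ball 0 n) (cx : Conn S x x') (hx' : nrm x' ≤ m)
    (cy : Conn S y y') (hy' : nrm y' ≤ m) (hT : T ⊆ Ann 0 m n) (hab : Conn T a b)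
    (hd : Disjoint S T) : ¬ SepC n x y a b := by
  intro hsep
  obtain ⟨z, hz, hz'⟩ := sep_ann hm hmn hx hy ha hb hsep hS cx hx' cy hy' hT hab
  exact Set.disjoint_left.1 hd hz hz'

theorem same_side (hm : 1 ≤ m) (hmn : m ≤ n) (h0 : B0 ⊆ Ann 0 m n) (h1 : B1 ⊆ Ann 0 m n)
    (c0 : IsConn B0) (c1 : IsConn B1) (hb0 : b0 ∈ B0) (nb0 : nrm b0 = n) (hb1 : b1 ∈ B1)
    (nb1 : nrm b1 = n) (nx : nrm x = n) (ny : nrm y = n) (nx' : nrm x' = m) (ny' : nrm y' = m)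
    (cx : Conn (Ann 0 m n \ (B0 ∪ B1)) x x') (cy : Conn (Ann 0 m n \ (B0 ∪ B1)) y y')
    (hno : ¬ SepC n b0 b1 x y) : Conn (Ann 0 m n \ (B0 ∪ B1)) x y := by
  have hn : 1 ≤ n := by omega
  by_contra hxy
  obtain ⟨s, t, s', t', ns, nt, -, -, hsep, cs, ct⟩ :=
    two_arm hm hmn Set.sdiff_subset nx ny cx nx' cy ny' hxy
  -- the two arms are in `B0 ∪ B1`
  have hAS : Ann 0 m n \ (Ann 0 m n \ (B0 ∪ B1)) ⊆ B0 ∪ B1 := by
    rintro v ⟨h1, h2⟩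
    by_contra h3
    exact h2 ⟨h1, h3⟩
  have hs := hAS cs.left
  have ht := hAS ct.left
  have hSB : Ann 0 m n \ (B0 ∪ B1) ⊆ Ball 0 n := fun v hv => mem_ball0.2 (mem_ann0.1 hv.1).2
  have hx2 : x ∉ B0 ∪ B1 := cx.left.2
  have hy2 : y ∉ B0 ∪ B1 := cy.left.2
  have d0 : Disjoint (Ann 0 m n \ (B0 ∪ B1)) B0 :=
    Set.disjoint_left.2 fun v hv hv' => hv.2 (Or.inl hv')
  have d1 : Disjoint (Ann 0 m n \ (B0 ∪ B1)) B1 :=
    Set.disjoint_left.2 fun v hv hv' => hv.2 (Or.inr hv')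
  have k0 : ∀ a ∈ B0, ∀ b ∈ B0, nrm a = n → nrm b = n → ¬ SepC n x y a b :=
    fun a ha b hb na nb =>
      not_sep_conn hm hmn nx ny na nb hSB cx nx'.le cy ny'.le h0 (c0 a ha b hb) d0
  have k1 : ∀ a ∈ B1, ∀ b ∈ B1, nrm a = n → nrm b = n → ¬ SepC n x y a b :=
    fun a ha b hb na nb =>
      not_sep_conn hm hmn nx ny na nb hSB cx nx'.le cy ny'.le h1 (c1 a ha b hb) d1
  have hne : ∀ a ∈ B0 ∪ B1, a ≠ x ∧ a ≠ y := fun a ha =>
    ⟨fun e => hx2 (e ▸ ha), fun e => hy2 (e ▸ ha)⟩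
  have key : ∀ s t : V, s ∈ B0 → t ∈ B1 → nrm s = n → nrm t = n → SepC n x y s t → False := by
    intro s t hs ht ns nt hst
    have e1 := k0 s hs b0 hb0 ns nb0
    have e2 := k1 t ht b1 hb1 nt nb1
    have ps := hne s (Or.inl hs)
    have pt := hne t (Or.inr ht)
    have p0 := hne b0 (Or.inl hb0)
    have p1 := hne b1 (Or.inr hb1)
    have e3 : SepC n x y b0 b1 := by
      rw [sep_iff hn nx ny ns nb0 ps.1 ps.2 p0.1 p0.2] at e1
      rw [sep_iff hn nx ny nt nb1 pt.1 pt.2 p1.1 p1.2] at e2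
      rw [sep_iff hn nx ny ns nt ps.1 ps.2 pt.1 pt.2] at hst
      rw [sep_iff hn nx ny nb0 nb1 p0.1 p0.2 p1.1 p1.2]
      tauto
    have hxy' : x ≠ y := fun e => by
      subst e
      exact hxy (Conn.refl cx.left)
    have h01 : b0 ≠ b1 := fun e => by
      subst e
      unfold SepC at e3
      exact e3 (Conn.refl ⟨nb0, by simp [p0.1, p0.2]⟩)
    exact hno (sep_swap hn nx nb0 ny nb1 p0.1.symm hxy' p1.1.symm p0.2 h01 p1.2.symm e3)
  rcases hs with hs | hs <;> rcases ht with ht | ht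
  · exact k0 s hs t ht ns nt hsep
  · exact key s t hs ht ns nt hsep
  · exact key t s ht hs nt ns (sep_symm hsep)
  · exact k1 s hs t ht ns nt hsep

/-- **Bridge**. -/
theorem bridge (hm : 1 ≤ m) (hmn : m ≤ n) (h0 : B0 ⊆ Ann 0 m n) (h1 : B1 ⊆ Ann 0 m n)
    (c0 : IsConn B0) (c1 : IsConn B1) (hb0 : b0 ∈ B0) (nb0 : nrm b0 = n) (hb1 : b1 ∈ B1)
    (nb1 : nrm b1 = n) (hb0' : b0' ∈ B0) (nb0' : nrm b0' = m) (hb1' : b1' ∈ B1)
    (nb1' : nrm b1' = m) (nx : nrm x = n) (nx' : nrm x' = m)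
    (cx : Conn (Ann 0 m n \ (B0 ∪ B1)) x x')
    (hU : ∀ y y', nrm y = n → nrm y' = m →
      ¬ Conn (comp (Ann 0 m n \ (B0 ∪ B1)) x \ U) y y') :
    Conn (B0 ∪ B1 ∪ (U ∩ comp (Ann 0 m n \ (B0 ∪ B1)) x)) b0 b1 := by
  have hn : 1 ≤ n := by omega
  by_contra hno
  have hS : B0 ∪ B1 ∪ (U ∩ comp (Ann 0 m n \ (B0 ∪ B1)) x) ⊆ Ann 0 m n := by
    rintro v ((hv | hv) | hv)
    · exact h0 hv
    · exact h1 hv
    · exact (comp_subset hv.2).1
  obtain ⟨s, t, s', t', ns, nt, ns', nt', hsep, cs, ct⟩ := two_arm hm hmn hS nb0 nb1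
    ((c0 b0 hb0 b0' hb0').mono fun v hv => Or.inl (Or.inl hv)) nb0'
    ((c1 b1 hb1 b1' hb1').mono fun v hv => Or.inl (Or.inr hv)) nb1' hno
  have hsub : Ann 0 m n \ (B0 ∪ B1 ∪ (U ∩ comp (Ann 0 m n \ (B0 ∪ B1)) x)) ⊆
      Ann 0 m n \ (B0 ∪ B1) := fun v hv => ⟨hv.1, fun h => hv.2 (Or.inl h)⟩
  -- an arm on the side of `x` is in the corridor
  have key : ∀ s s' : V, nrm s = n → nrm s' = m → ¬ SepC n b0 b1 x s →
      ¬ Conn (Ann 0 m n \ (B0 ∪ B1 ∪ (U ∩ comp (Ann 0 m n \ (B0 ∪ B1)) x))) s s' := by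
    intro s s' ns ns' hss cs
    have h2 : Conn (Ann 0 m n \ (B0 ∪ B1)) x s :=
      same_side hm hmn h0 h1 c0 c1 hb0 nb0 hb1 nb1 nx ns nx' ns' cx (cs.mono hsub) hss
    refine hU s s' ns ns' (cs.in_comp.mono fun v hv => ?_)
    have hv' : Conn (Ann 0 m n \ (B0 ∪ B1 ∪ (U ∩ comp (Ann 0 m n \ (B0 ∪ B1)) x))) s v := hv
    have h3 : v ∈ comp (Ann 0 m n \ (B0 ∪ B1)) x := h2.trans (hv'.mono hsub)
    exact ⟨h3, fun h4 => hv'.right.2 (Or.inr ⟨h4, h3⟩)⟩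
  have hx2 : x ∉ B0 ∪ B1 := cx.left.2
  have hs2 := (hsub cs.left).2
  have ht2 := (hsub ct.left).2
  have hne : ∀ z : V, z ∉ B0 ∪ B1 → z ≠ b0 ∧ z ≠ b1 := fun z hz =>
    ⟨fun e => hz (e ▸ Or.inl hb0), fun e => hz (e ▸ Or.inr hb1)⟩
  have e1 : SepC n b0 b1 x s := by
    by_contra h
    exact key s s' ns ns' h cs
  have e2 : SepC n b0 b1 x t := by
    by_contra h
    exact key t t' nt nt' h ct
  rw [sep_iff hn nb0 nb1 nx ns (hne x hx2).1 (hne x hx2).2 (hne s hs2).1 (hne s hs2).2] at e1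
  rw [sep_iff hn nb0 nb1 nx nt (hne x hx2).1 (hne x hx2).2 (hne t ht2).1 (hne t ht2).2] at e2
  rw [sep_iff hn nb0 nb1 ns nt (hne s hs2).1 (hne s hs2).2 (hne t ht2).1 (hne t ht2).2] at hsep
  tauto

/-- The other groups keep away from the corridor. -/
theorem corr_out (hm : 1 ≤ m) (hmn : m ≤ n) (h0 : B0 ⊆ Ball 0 n) (h1 : B1 ⊆ Ball 0 n)
    (cb0 : Conn B0 b0 b0') (nb0 : nrm b0 = n) (nb0' : nrm b0' = m) (cb1 : Conn B1 b1 b1')
    (nb1 : nrm b1 = n) (nb1' : nrm b1' = m) (nx : nrm x = n) (h3 : B3 ⊆ Ann 0 m n)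
    (c3 : IsConn B3) (d3 : Disjoint B3 (B0 ∪ B1)) (hb3 : b3 ∈ B3) (nb3 : nrm b3 = n)
    (hsep : SepC n b0 b1 x b3) {u v : V} (hu : u ∈ comp (Ann 0 m n \ (B0 ∪ B1)) x)
    (hv : v ∈ B3) : u ≠ v ∧ ¬ Adj u v := by
  have hv' : v ∈ Ann 0 m n \ (B0 ∪ B1) := ⟨h3 hv, Set.disjoint_left.1 d3 hv⟩
  have hno : v ∉ comp (Ann 0 m n \ (B0 ∪ B1)) x := by
    intro h
    have h4 : Conn (Ann 0 m n \ (B0 ∪ B1)) x b3 := Conn.trans h
      ((c3 v hv b3 hb3).mono fun z hz => ⟨h3 hz, Set.disjoint_left.1 d3 hz⟩)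
    exact not_sep_conn hm hmn nb0 nb1 nx nb3 (Set.union_subset h0 h1)
      (cb0.mono Set.subset_union_left) nb0'.le (cb1.mono Set.subset_union_right) nb1'.le
      Set.sdiff_subset h4 Set.disjoint_sdiff_right hsep
  exact ⟨fun h => hno (h ▸ hu), fun h => hno (comp_adj hu hv' h)⟩

/-- Existence of the corridor. -/
theorem exists_corr (hm : 1 ≤ m) (hmn : m ≤ n) (h0 : B0 ⊆ Ann 0 m n) (h1 : B1 ⊆ Ann 0 m n)
    (cb0 : Conn B0 b0 b0') (nb0 : nrm b0 = n) (nb0' : nrm b0' = m) (cb1 : Conn B1 b1 b1')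
    (nb1 : nrm b1 = n) (nb1' : nrm b1' = m) (hno : ¬ Conn (B0 ∪ B1) b0 b1) (nb3 : nrm b3 = n)
    (h30 : b3 ≠ b0) (h31 : b3 ≠ b1) : ∃ x x' : V, nrm x = n ∧ nrm x' = m ∧
      Conn (Ann 0 m n \ (B0 ∪ B1)) x x' ∧ SepC n b0 b1 x b3 := by
  have hn : 1 ≤ n := by omega
  obtain ⟨s, t, s', t', ns, nt, ns', nt', hsep, cs, ct⟩ := two_arm hm hmn
    (Set.union_subset h0 h1) nb0 nb1 (cb0.mono Set.subset_union_left) nb0'
    (cb1.mono Set.subset_union_right) nb1' hno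
  have hne : ∀ z : V, z ∉ B0 ∪ B1 → z ≠ b0 ∧ z ≠ b1 := fun z hz =>
    ⟨fun e => hz (e ▸ Or.inl cb0.left), fun e => hz (e ▸ Or.inr cb1.left)⟩
  rcases sep_two hn nb0 nb1 ns nt nb3 (hne s cs.left.2).1 (hne s cs.left.2).2
    (hne t ct.left.2).1 (hne t ct.left.2).2 h30 h31 hsep with h | h
  · exact ⟨s, s', ns, ns', cs, sep_symm h⟩
  · exact ⟨t, t', nt, nt', ct, sep_symm h⟩

end Pool.Agent.MST
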