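import Pool.Agent.MST.Sepa

/-!
# The core of a bridge, and crossings which meet it

* `bridge_core`: if the connected sets `B0, B1` are joined in `B0 ∪ B1 ∪ S` but not in `B0 ∪ B1`,
  then they are joined in `B0 ∪ B1 ∪ K` for a connected `K ⊆ S`.
* `hit_two`: a connection in the annulus of two vertices `b0, b1` of the outer circle meets one of
  two crossings which start on different sides of `b0, b1`.
* `hit_core`: every crossing off `B0 ∪ B1` which starts on the side of `b0, b1` opposite to a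
  crossing which avoids `B0 ∪ B1 ∪ K` meets `K`.
-/

namespace Pool.Agent.MST

open Pool.Agent.TriPerc

variable {m n : ℤ} {S S1 S2 B K B0 B1 : Set V} {b0 b1 u t u' t' : V}

theorem bridge_core (c0 : IsConn B0) (c1 : IsConn B1) (hb0 : b0 ∈ B0) (hb1 : b1 ∈ B1)
    (h : Conn (B0 ∪ B1 ∪ S) b0 b1) (hno : ¬ Conn (B0 ∪ B1) b0 b1) :
    ∃ K ⊆ S, IsConn K ∧ Disjoint K (B0 ∪ B1) ∧ (∃ x ∈ B0, ∃ k ∈ K, Adj x k) ∧
      (∃ y ∈ B1, ∃ k ∈ K, Adj y k) ∧ Conn (B0 ∪ B1 ∪ K) b0 b1 := by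
  have hd : Disjoint B0 B1 := by
    rw [Set.disjoint_left]
    intro z hz hz'
    exact hno (((c0 b0 hb0 z hz).mono Set.subset_union_left).trans
      ((c1 z hz' b1 hb1).mono Set.subset_union_right))
  obtain ⟨x, hx, y, hy, -, -, hxy⟩ := h.between hb0 hb1 hd
  have h0 := fun (K : Set V) => (c0 b0 hb0 x hx).mono (T := B0 ∪ B1 ∪ K)
    fun v hv => Or.inl (Or.inl hv)
  have h1 := fun (K : Set V) => (c1 y hy b1 hb1).mono (T := B0 ∪ B1 ∪ K)
    fun v hv => Or.inl (Or.inr hv)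
  rcases hxy with hxy | ⟨x', y', hx', hy', hc⟩
  · exfalso
    refine hno (((c0 b0 hb0 x hx).mono Set.subset_union_left).trans
      ((Conn.of_adj (Or.inl hx) (Or.inr hy) hxy).trans
      ((c1 y hy b1 hb1).mono Set.subset_union_right)))
  · have hy1 : y' ∈ comp ((B0 ∪ B1 ∪ S) \ (B0 ∪ B1)) x' := hc
    have hx1 : x' ∈ comp ((B0 ∪ B1 ∪ S) \ (B0 ∪ B1)) x' := Conn.refl hc.left
    refine ⟨comp ((B0 ∪ B1 ∪ S) \ (B0 ∪ B1)) x', fun v hv => ?_, isConn_comp,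
      Set.disjoint_left.2 fun v hv => (comp_subset hv).2, ⟨x, hx, x', hx1, hx'⟩,
      ⟨y, hy, y', hy1, hy'.symm⟩, ?_⟩
    · rcases (comp_subset hv).1 with h2 | h2
      · exact absurd h2 (comp_subset hv).2
      · exact h2
    · exact (h0 _).trans ((Conn.of_adj (h0 _).right (Or.inr hx1) hx').trans
        ((hc.in_comp.mono fun v hv => Or.inr hv).trans
        ((Conn.of_adj (Or.inr hy1) (h1 _).left hy').trans (h1 _))))

theorem hit_two (hm : 1 ≤ m) (hmn : m ≤ n) (nu : nrm u = n) (nt : nrm t = n) (nb0 : nrm b0 = n)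
    (nb1 : nrm b1 = n) (cu : Conn S1 u u') (hu' : nrm u' ≤ m) (ct : Conn S2 t t')
    (ht' : nrm t' ≤ m) (hS1 : S1 ⊆ Ball 0 n) (hS2 : S2 ⊆ Ball 0 n) (hB : B ⊆ Ann 0 m n)
    (hb : Conn B b0 b1) (hsep : SepC n b0 b1 u t) : ∃ z ∈ B, z ∈ S1 ∨ z ∈ S2 := by
  by_contra hno
  have hne : ∀ z ∈ B, z ∉ S1 ∪ S2 := fun z hz hz' => hno ⟨z, hz, hz'⟩
  have hut : u ≠ t := by
    rintro rfl
    refine hsep (Conn.refl ⟨nu, ?_⟩)
    rintro (h | h)
    · exact hne b0 hb.left (h ▸ Or.inl cu.left)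
    · exact hne b1 hb.right (h ▸ Or.inl cu.left)
  have hb01 : b0 ≠ b1 := by
    rintro rfl
    have e1 : u ≠ b0 := fun h => hne b0 hb.left (h ▸ Or.inl cu.left)
    have e2 : t ≠ b0 := fun h => hne b0 hb.left (h ▸ Or.inr ct.left)
    rw [sep_iff (by omega) nb0 nb0 nu nt e1 e1 e2 e2] at hsep
    unfold Bt at hsep
    omega
  have hs : SepC n u t b0 b1 := sep_swap (by omega) nb0 nu nb1 nt
    (fun h => hne b0 hb.left (h ▸ Or.inl cu.left)) hb01
    (fun h => hne b0 hb.left (h ▸ Or.inr ct.left))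
    (fun h => hne b1 hb.right (h ▸ Or.inl cu.left)) hut
    (fun h => hne b1 hb.right (h ▸ Or.inr ct.left)) hsep
  obtain ⟨z, hz, hz'⟩ := sep_ann hm hmn nu nt nb0 nb1 hs (Set.union_subset hS1 hS2)
    (cu.mono Set.subset_union_left) hu' (ct.mono Set.subset_union_right) ht' hB hb
  exact hne z hz' hz

theorem hit_core (hm : 1 ≤ m) (hmn : m ≤ n) (h0 : B0 ⊆ Ann 0 m n) (h1 : B1 ⊆ Ann 0 m n)
    (hK : K ⊆ Ann 0 m n) (nb0 : nrm b0 = n) (nb1 : nrm b1 = n)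
    (hb : Conn (B0 ∪ B1 ∪ K) b0 b1) (nu : nrm u = n) (cu : Conn S1 u u') (hu' : nrm u' ≤ m)
    (hS1 : S1 ⊆ Ball 0 n) (d1 : Disjoint S1 (B0 ∪ B1)) (nt : nrm t = n) (ct : Conn S2 t t')
    (ht' : nrm t' ≤ m) (hS2 : S2 ⊆ Ball 0 n) (d2 : Disjoint S2 (B0 ∪ B1 ∪ K))
    (hsep : SepC n b0 b1 u t) : ∃ z ∈ K, z ∈ S1 := by
  obtain ⟨z, hz, hz'⟩ := hit_two hm hmn nu nt nb0 nb1 cu hu' ct ht' hS1 hS2
    (Set.union_subset (Set.union_subset h0 h1) hK) hb hsep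
  rcases hz' with hz' | hz'
  · rcases hz with hz | hz
    · exact absurd hz (Set.disjoint_left.1 d1 hz')
    · exact ⟨z, hz, hz'⟩
  · exact absurd hz (Set.disjoint_left.1 d2 hz')

end Pool.Agent.MST
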