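import Pool.Agent.MSTG.Swi

/-!
# Minimal cuts for two targets

`cut_pigeon`: let `B j` be targets such that every connection to `B (j + 1)` meets `B j`, and let
`T0 ⊆ C` be a cut between `A` and `B 0` with at most `N` vertices.  Then for some `j ≤ N` there is
a cut `T ⊆ C` with at most `N` vertices between `A` and `B j` such that every vertex of `T` is
needed even for the target `B (j + 1)` (pigeonhole for the minimal sizes of the cuts).

`cut_arms`: a vertex `v` of the cut which is needed has a neighbour joined to `A` and a neighbour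
joined to the target off the cut.
-/

namespace Pool.Agent.MST

open Pool.Agent.TriPerc

variable {X C A B' : Set V}

theorem cut_pigeon (hC : C.Finite) {B : ℕ → Set V} {N : ℕ}
    (hB : ∀ j, ∀ T ⊆ C, Join (X \ T) A (B (j + 1)) → Join (X \ T) A (B j))
    (hcut : ∃ T ⊆ C, T.ncard ≤ N ∧ ¬ Join (X \ T) A (B 0)) :
    ∃ j ≤ N, ∃ T ⊆ C, T.ncard ≤ N ∧ ¬ Join (X \ T) A (B j) ∧
      ∀ v ∈ T, Join (X \ (T \ {v})) A (B (j + 1)) := by
  classical
  -- the minimal sizes
  have hall : ∀ j, ∃ k, ∃ T ⊆ C, T.ncard = k ∧ k ≤ N ∧ ¬ Join (X \ T) A (B j) := by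
    intro j
    induction j with
    | zero =>
      obtain ⟨T, h1, h2, h3⟩ := hcut
      exact ⟨_, T, h1, rfl, h2, h3⟩
    | succ j ih =>
      obtain ⟨k, T, h1, h2, h3, h4⟩ := ih
      exact ⟨k, T, h1, h2, h3, fun h => h4 (hB j T h1 h)⟩
  let τ : ℕ → ℕ := fun j => Nat.find (hall j)
  have hτ : ∀ j, ∃ T ⊆ C, T.ncard = τ j ∧ τ j ≤ N ∧ ¬ Join (X \ T) A (B j) :=
    fun j => Nat.find_spec (hall j)
  have hmin : ∀ j, ∀ T ⊆ C, T.ncard ≤ N → ¬ Join (X \ T) A (B j) → τ j ≤ T.ncard :=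
    fun j T h1 h2 h3 => Nat.find_min' (hall j) ⟨T, h1, rfl, h2, h3⟩
  -- the pigeonhole
  obtain ⟨j, hj, hjt⟩ : ∃ j ≤ N, τ j ≤ τ (j + 1) := by
    by_contra hno
    push Not at hno
    have key : ∀ j ≤ N + 1, τ j + j ≤ τ 0 := by
      intro j
      induction j with
      | zero => intro _; exact le_rfl
      | succ j ih =>
        intro hj
        have h1 := ih (by omega)
        have h2 := hno j (by omega)
        omega
    have h1 := key (N + 1) le_rfl
    obtain ⟨T, -, -, h2, -⟩ := hτ 0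
    omega
  obtain ⟨T, h1, h2, h3, h4⟩ := hτ j
  refine ⟨j, hj, T, h1, by omega, h4, fun v hv => ?_⟩
  by_contra h5
  have h6 : (T \ {v}).ncard < T.ncard :=
    Set.ncard_sdiff_singleton_lt_of_mem hv (hC.subset h1)
  have h7 := hmin (j + 1) (T \ {v}) (Set.sdiff_subset.trans h1) (by omega) h5
  omega

/-- The two arms of a vertex of the cut. -/
theorem cut_arms {T : Set V} {v : V} (hA : v ∉ A) (hB : v ∉ B') (hcut : ¬ Join (X \ T) A B')
    (h : Join (X \ (T \ {v})) A B') : v ∈ X ∧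
      (∃ p, Adj v p ∧ ∃ a ∈ A, Conn (X \ T) a p) ∧ ∃ q, Adj v q ∧ ∃ b ∈ B', Conn (X \ T) b q := by
  obtain ⟨a, ha, b, hb, hab⟩ := h
  have hsub : X \ (T \ {v}) ⊆ insert v (X \ T) := by
    rintro u ⟨h1, h2⟩
    by_cases hu : u = v
    · exact Or.inl hu
    · exact Or.inr ⟨h1, fun h => h2 ⟨h, hu⟩⟩
  have hno : ¬ Conn (X \ T) a b := fun h => hcut ⟨a, ha, b, hb, h⟩
  have haT : a ∈ X \ T := by
    refine ⟨hab.left.1, fun h => hab.left.2 ⟨h, ?_⟩⟩
    rintro rfl
    exact hA ha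
  have hbT : b ∈ X \ T := by
    refine ⟨hab.right.1, fun h => hab.right.2 ⟨h, ?_⟩⟩
    rintro rfl
    exact hB hb
  obtain ⟨⟨p, hp, cp⟩, q, hq, cq⟩ := MSTG.hit haT hbT hno (hab.mono hsub)
  refine ⟨?_, ⟨p, hp, a, ha, cp⟩, q, hq, b, hb, cq⟩
  by_contra hv
  refine hno (hab.mono fun u hu => ?_)
  rcases hsub hu with h | h
  · exact absurd (h ▸ hu.1) hv
  · exact h

end Pool.Agent.MST
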