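import Pool.Agent.MST.Mst

/-!
# The doubling lemma

`dbl`: let `σ` be a simple path of tree edges of `MT A W w` and jumps inside `W`, which begins with
tree edges in `A'` up to a vertex `σ u1 ∈ W'` and ends with tree edges in `A'` from a vertex
`σ u2 ∈ W'`, `u1 < u2`.  Then root paths of `σ 0` and `σ N` in `MT A' W' w` do not meet.

PROOF.  Otherwise there is a simple path `κ` of `MT A' W' w` from `σ 0` to `σ N`; take a part
`κ[c, d]` from `σ a` (`a ≤ u1`) to `σ b` (`u2 ≤ b`) which does not meet `σ[0, u1]` and `σ[u2, N]`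
in between, and its largest edge `e`.  By the minimax property of `σ[a, b]` all tree edges of
`σ[a, u1]` and `σ[u2, b]` are at most `e`, hence below `e` since they are different from `e`.  So
the ends of `e` are joined in `A'` below `e` with a jump inside `W'`: contradiction.
-/

namespace Pool.Agent.MST

open Pool.Agent.TriPerc

variable {A A' W W' : Set V} {w : Lab}

theorem dbl (hw : Function.Injective w) (hA : A' ⊆ A) {σ : ℕ → V} {N u1 u2 : ℕ}
    (hσ : IsPa (MJ A W w) σ N) (h12 : u1 < u2) (h2 : u2 ≤ N)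
    (hσ1 : ∀ i < u1, MT A W w (σ i) (σ (i + 1))) (hσ2 : ∀ i, u2 ≤ i → i < N →
      MT A W w (σ i) (σ (i + 1)))
    (hA1 : ∀ i ≤ u1, σ i ∈ A') (hA2 : ∀ i, u2 ≤ i → i ≤ N → σ i ∈ A')
    (hW1 : σ u1 ∈ W') (hW2 : σ u2 ∈ W')
    {f f' : ℕ → V} {n n' : ℕ} (hf : IsRoot A' W' w (σ 0) f n) (hf' : IsRoot A' W' w (σ N) f' n')
    {i j : ℕ} (hi : i ≤ n) (hj : j ≤ n') (hij : f i = f' j) : False := by
  classical
  have h0 : Relation.ReflTransGen (MT A' W' w) (σ 0) (σ N) := by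
    have h3 : Relation.ReflTransGen (MT A' W' w) (f 0) (f i) :=
      rtg_seg (Nat.zero_le i) fun k _ hk => hf.path.step k (by omega)
    have h4 : Relation.ReflTransGen (MT A' W' w) (f' 0) (f' j) :=
      rtg_seg (Nat.zero_le j) fun k _ hk => hf'.path.step k (by omega)
    rw [hf.start] at h3
    rw [hf'.start, ← hij] at h4
    exact h3.trans (rtg_symm (fun _ _ h => h.symm) h4)
  obtain ⟨κ, M, κ0, κM, hκ⟩ := exists_pa h0
  -- the first visit of the last part of `σ`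
  have hex : ∃ k, k ≤ M ∧ ∃ b, u2 ≤ b ∧ b ≤ N ∧ κ k = σ b := ⟨M, le_rfl, N, h2, le_rfl, κM⟩
  obtain ⟨hdM, b, hb1, hb2, hκd⟩ := Nat.find_spec hex
  obtain ⟨d, hd⟩ : ∃ d, d = Nat.find hex := ⟨_, rfl⟩
  rw [← hd] at hdM hκd
  have hmin : ∀ k, k < d → ¬ ∃ b, u2 ≤ b ∧ b ≤ N ∧ κ k = σ b := fun k hk hc =>
    Nat.find_min hex (hd ▸ hk) ⟨by omega, hc⟩
  -- the last visit of the first part of `σ` before
  obtain ⟨c, hc⟩ : ∃ c, c = Nat.findGreatest (fun k => ∃ a, a ≤ u1 ∧ κ k = σ a) (d - 1) :=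
    ⟨_, rfl⟩
  have hd0 : d ≠ 0 := by
    rintro rfl
    rw [κ0] at hκd
    have := hσ.inj 0 b (by omega) hb2 hκd
    omega
  have hcs : ∃ a, a ≤ u1 ∧ κ c = σ a := by
    rw [hc]
    exact Nat.findGreatest_spec (P := fun k => ∃ a, a ≤ u1 ∧ κ k = σ a) (Nat.zero_le (d - 1))
      ⟨0, Nat.zero_le _, κ0⟩
  have hcd : c ≤ d - 1 := by
    rw [hc]
    exact Nat.findGreatest_le _
  obtain ⟨a, ha, hκc⟩ := hcs
  have hmid1 : ∀ k, c < k → k ≤ d → ∀ a ≤ u1, κ k ≠ σ a := by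
    intro k hk1 hk2 a ha hka
    rcases Nat.eq_or_lt_of_le hk2 with rfl | hk3
    · have := hσ.inj a b (by omega) hb2 (hka.symm.trans hκd)
      omega
    · exact Nat.findGreatest_is_greatest (P := fun k => ∃ a, a ≤ u1 ∧ κ k = σ a)
        (n := d - 1) (k := k) (by rw [← hc]; exact hk1) (by omega) ⟨a, ha, hka⟩
  have hmid2 : ∀ k, k < d → ∀ b, u2 ≤ b → b ≤ N → κ k ≠ σ b :=
    fun k hk b hb hb' hkb => hmin k hk ⟨b, hb, hb', hkb⟩
  -- the largest edge of `κ[c, d]`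
  obtain ⟨e, e1, e2, e3⟩ := exists_max w κ (show c < d by omega)
  have hcd' : ∀ l : ℝ ×ₗ ℝ, EL w (κ e) (κ (e + 1)) < l → Jd A W w l (σ a) (σ b) := by
    intro l hl
    rw [← hκc, ← hκd]
    refine rtg_seg (by omega) fun k k1 k2 => Or.inl ⟨(hκ.step k (by omega)).1,
      hA (hκ.step k (by omega)).2.1, hA (hκ.step k (by omega)).2.2.1, (e3 k k1 k2).trans_lt hl⟩
  have hle : ∀ k, a ≤ k → k < b → MT A W w (σ k) (σ (k + 1)) →
      EL w (σ k) (σ (k + 1)) ≤ EL w (κ e) (κ (e + 1)) := by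
    intro k k1 k2 hk
    by_contra hc
    exact lt_irrefl _ (minimax_idx hw hσ (hcd' _ (not_le.1 hc)) k1 k2 hb2 hk)
  have hlt1 : ∀ k, a ≤ k → k < u1 → EL w (σ k) (σ (k + 1)) < EL w (κ e) (κ (e + 1)) := by
    intro k k1 k2
    refine lt_of_le_of_ne (hle k k1 (by omega) (hσ1 k k2)) fun h => ?_
    rcases EL_inj hw h with ⟨h3, h4⟩ | ⟨h3, h4⟩
    · exact hmid1 (e + 1) (by omega) (by omega) (k + 1) (by omega) h4.symm
    · exact hmid1 (e + 1) (by omega) (by omega) k (by omega) h3.symm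
  have hlt2 : ∀ k, u2 ≤ k → k < b → EL w (σ k) (σ (k + 1)) < EL w (κ e) (κ (e + 1)) := by
    intro k k1 k2
    refine lt_of_le_of_ne (hle k (by omega) k2 (hσ2 k k1 (by omega))) fun h => ?_
    rcases EL_inj hw h with ⟨h3, h4⟩ | ⟨h3, h4⟩
    · exact hmid2 e e2 k k1 (by omega) h3.symm
    · exact hmid2 e e2 (k + 1) (by omega) (by omega) h4.symm
  -- the contradiction
  refine (hκ.step e (by omega)).2.2.2 ?_
  have j1 : Jd A' W' w (EL w (κ e) (κ (e + 1))) (κ c) (κ e) := by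
    refine jd_seg e1 fun k k1 k2 => ⟨hκ.step k (by omega), ?_⟩
    exact lt_of_le_of_ne (e3 k k1 (by omega)) (EL_ne hw hκ (by omega) (by omega) (by omega))
  have j2 : Jd A' W' w (EL w (κ e) (κ (e + 1))) (κ (e + 1)) (κ d) := by
    refine jd_seg (by omega) fun k k1 k2 => ⟨hκ.step k (by omega), ?_⟩
    exact lt_of_le_of_ne (e3 k (by omega) k2) (EL_ne hw hκ (by omega) (by omega) (by omega))
  have j3 : Jd A' W' w (EL w (κ e) (κ (e + 1))) (σ a) (σ u1) :=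
    rtg_seg ha fun k k1 k2 => Or.inl ⟨(hσ1 k k2).1, hA1 k (by omega), hA1 (k + 1) (by omega),
      hlt1 k k1 k2⟩
  have j4 : Jd A' W' w (EL w (κ e) (κ (e + 1))) (σ u2) (σ b) :=
    rtg_seg hb1 fun k k1 k2 => Or.inl ⟨(hσ2 k k1 (by omega)).1, hA2 k k1 (by omega),
      hA2 (k + 1) (by omega) (by omega), hlt2 k k1 k2⟩
  have j5 : Jd A' W' w (EL w (κ e) (κ (e + 1))) (σ u1) (σ u2) :=
    Relation.ReflTransGen.single (Or.inr ⟨hW1, hW2⟩)
  rw [hκc] at j1
  rw [hκd] at j2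
  exact j1.symm.trans (j3.trans (j5.trans (j4.trans j2.symm)))

end Pool.Agent.MST
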