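import Pool.Agent.TriPerc.Ann

/-!
# The minimal spanning tree of vertex sets of the triangular lattice: definitions

`EL w x y` is the label of the edge `xy`: the pair (larger, smaller) of the two vertex labels with
the lexicographic order.  `MT A W w x y`: the edge `xy` belongs to the minimal spanning tree of the
graph induced on `A` with all vertices of `W` identified (wired); `MT univ ∅ w` is the minimal
spanning tree of the whole lattice.

`PW r R w` (weak P event): a simple tree path with two outer excursions round the times `m1` and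
`m3`, which reach the ball of radius `r`, and a middle part which separates them in `Ball 0 R`.
`EF p m n w`: four groups of `p`-open crossings of `Ann 0 m n` in a fixed cyclic order, two of the
groups doubled.  `Mixed a b v d`: four mixed arms at `v`.
-/

namespace Pool.Agent.MST

open Pool.Agent.TriPerc

/-- The label of the edge `xy`. -/
noncomputable def EL (w : Lab) (x y : V) : ℝ ×ₗ ℝ := toLex (max (w x) (w y), min (w x) (w y))

/-- An edge inside `A` with a label less than `l`, or a jump inside the wired set `W`. -/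
def Step (A W : Set V) (w : Lab) (l : ℝ ×ₗ ℝ) (x y : V) : Prop :=
  (Adj x y ∧ x ∈ A ∧ y ∈ A ∧ EL w x y < l) ∨ (x ∈ W ∧ y ∈ W)

/-- Joined below the level `l` in the graph `A` with `W` wired. -/
def Jd (A W : Set V) (w : Lab) (l : ℝ ×ₗ ℝ) (x y : V) : Prop :=
  Relation.ReflTransGen (Step A W w l) x y

/-- The edges of the minimal spanning tree of the graph `A` with `W` wired. -/
def MT (A W : Set V) (w : Lab) (x y : V) : Prop :=
  Adj x y ∧ x ∈ A ∧ y ∈ A ∧ ¬ Jd A W w (EL w x y) x y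

/-- An edge of the minimal spanning tree or a jump inside `W`. -/
def MJ (A W : Set V) (w : Lab) (x y : V) : Prop := MT A W w x y ∨ (x ∈ W ∧ y ∈ W)

/-- `f 0, ..., f n` is a simple path of the relation `R`. -/
structure IsPa (R : V → V → Prop) (f : ℕ → V) (n : ℕ) : Prop where
  step : ∀ i < n, R (f i) (f (i + 1))
  inj : ∀ i j, i ≤ n → j ≤ n → f i = f j → i = j

/-- `f 0, ..., f n` is the path from `z` to the root `W` in the tree `MT A W w`. -/
structure IsRoot (A W : Set V) (w : Lab) (z : V) (f : ℕ → V) (n : ℕ) : Prop where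
  path : IsPa (MT A W w) f n
  start : f 0 = z
  last : f n ∈ W
  before : ∀ i < n, f i ∉ W

/-- The circle of radius `n`. -/
def Cir (n : ℤ) : Set V := {v | nrm v = n}

/-- On the circle of radius `n` the points `a, c` separate `b` from `d`. -/
def SepC (n : ℤ) (a c b d : V) : Prop := ¬ Conn (Cir n \ {a, c}) b d

/-- The root paths of `z` and `z'` exist and are disjoint. -/
def Dbl (A W : Set V) (w : Lab) (z z' : V) : Prop :=
  ∃ (f : ℕ → V) (n : ℕ) (f' : ℕ → V) (n' : ℕ), IsRoot A W w z f n ∧ IsRoot A W w z' f' n' ∧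
    ∀ i ≤ n, ∀ j ≤ n', f i ≠ f' j

/-- The groups `{0}, {1, 2}, {3}, {4, 5}`. -/
def grp : Fin 6 → ℕ := ![0, 1, 1, 2, 3, 3]

/-- The event `E_F` of the annulus `m ≤ nrm ≤ n` at the level `p`. -/
def EF (p : ℝ) (m n : ℤ) (w : Lab) : Prop :=
  ∃ z : Fin 6 → V, (∀ i, nrm (z i) = n) ∧
    (∀ i, ∃ y, nrm y = m ∧ Conn (Op p w ∩ Ann 0 m n) (z i) y) ∧
    Dbl (Ann 0 m n) (Cir m) w (z 1) (z 2) ∧ Dbl (Ann 0 m n) (Cir m) w (z 4) (z 5) ∧
    (∀ i j, grp i ≠ grp j → ¬ Conn (Op p w ∩ Ann 0 m n) (z i) (z j)) ∧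
    SepC n (z 0) (z 3) (z 1) (z 4) ∧ SepC n (z 0) (z 3) (z 1) (z 5) ∧
    SepC n (z 0) (z 3) (z 2) (z 4) ∧ SepC n (z 0) (z 3) (z 2) (z 5)

/-- The vertices `f s, ..., f t`. -/
def seg (f : ℕ → V) (s t : ℕ) : Set V := {v | ∃ i, s ≤ i ∧ i ≤ t ∧ f i = v}

/-- The weak P event. -/
def PW (r R : ℤ) (w : Lab) : Prop :=
  ∃ (L : ℕ) (g : ℕ → V), IsPa (MT Set.univ ∅ w) g L ∧
    ∃ t0 m1 t1 t2 m3 t3 : ℕ, t0 < m1 ∧ m1 < t1 ∧ t1 < t2 ∧ t2 < m3 ∧ m3 < t3 ∧ t3 ≤ L ∧
      R < nrm (g t0) ∧ R < nrm (g t1) ∧ R < nrm (g t2) ∧ R < nrm (g t3) ∧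
      nrm (g m1) < r ∧ nrm (g m3) < r ∧ ¬ Conn (Ball 0 R \ seg g t1 t2) (g m1) (g m3)

/-- Four mixed arms at `v` to distance `d`: `v` has a label in `(a, b]` and there are two disjoint
`b`-open arms `O1, O2` from `v` (they may touch) which are not joined by an `a`-open path in the
ball without `v`. -/
def Mixed (a b : ℝ) (v : V) (d : ℤ) (w : Lab) : Prop :=
  a < w v ∧ w v ≤ b ∧ ∃ O1 O2 : Set V, Disjoint O1 O2 ∧
    O1 ⊆ Op b w ∩ (Ball v d \ {v}) ∧ O2 ⊆ Op b w ∩ (Ball v d \ {v}) ∧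
    IsConn O1 ∧ IsConn O2 ∧
    (∃ x ∈ O1, Adj v x) ∧ (∃ x ∈ O1, nrm (x - v) = d) ∧
    (∃ x ∈ O2, Adj v x) ∧ (∃ x ∈ O2, nrm (x - v) = d) ∧
    ¬ Join (Op a w ∩ (Ball v d \ {v})) O1 O2

end Pool.Agent.MST
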