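import Pool.Agent.MST.Extra

/-!
# Witnesses of `E_F` in smaller annuli; clean annuli

* `efz_paths`: the crossings of the witnesses `z` as functions (root paths for 1, 2, 4, 5).
* `efz_cut`: the points where these crossings enter a smaller annulus for the last time before they
  reach its inner circle are witnesses for the smaller annulus.
* `efz_restr`: witnesses `z'` for a smaller annulus, joined to `z` outside the inner circle.
* `efz_inner`: the same witnesses serve for a larger inner circle.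
* `Clean p m n w`: every crossing cluster of `Ann 0 m n` contains one of any witnesses.
* `Clean.cl`: in a clean annulus a crossing in the cluster of the group of `z k` is joined to a
  witness `z' k'` of the same group.
-/

namespace Pool.Agent.MST

open Pool.Agent.TriPerc

variable {w : Lab} {m n m' n' : ℤ} {p : ℝ} {z z' : Fin 6 → V}

/-- The crossings of the witnesses of `E_F` as functions. -/
theorem efz_paths (hw : Function.Injective w) (h : EFz p m n w z) :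
    ∃ (F : Fin 6 → ℕ → V) (N : Fin 6 → ℕ), (∀ k, F k 0 = z k) ∧
      (∀ k, nrm (F k (N k)) = m) ∧ (∀ k, ∀ i < N k, Adj (F k i) (F k (i + 1))) ∧
      (∀ k, ∀ i ≤ N k, F k i ∈ Op p w ∩ Ann 0 m n) ∧
      (IsRoot (Ann 0 m n) (Cir m) w (F 1 0) (F 1) (N 1) ∧
        IsRoot (Ann 0 m n) (Cir m) w (F 2 0) (F 2) (N 2) ∧
        ∀ i ≤ N 1, ∀ j ≤ N 2, F 1 i ≠ F 2 j) ∧
      (IsRoot (Ann 0 m n) (Cir m) w (F 4 0) (F 4) (N 4) ∧
        IsRoot (Ann 0 m n) (Cir m) w (F 5 0) (F 5) (N 5) ∧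
        ∀ i ≤ N 4, ∀ j ≤ N 5, F 4 i ≠ F 5 j) := by
  obtain ⟨hz, hc, ⟨f1, n1, f2, n2, r1, r2, r12⟩, ⟨f4, n4, f5, n5, r4, r5, r45⟩, hg, h14, h15,
    h24, h25⟩ := h
  have walk : ∀ k, ∃ (f : ℕ → V) (N : ℕ), f 0 = z k ∧ nrm (f N) = m ∧
      (∀ i < N, Adj (f i) (f (i + 1))) ∧ ∀ i ≤ N, f i ∈ Op p w ∩ Ann 0 m n := by
    intro k
    obtain ⟨y, hy, hconn⟩ := hc k
    obtain ⟨N, f, a1, a2, a3, a4⟩ := hconn.walk
    exact ⟨f, N, a1, by rw [a2]; exact hy, a3, a4⟩
  have root : ∀ k (f : ℕ → V) (N : ℕ), IsRoot (Ann 0 m n) (Cir m) w (z k) f N → f 0 = z k ∧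
      nrm (f N) = m ∧ (∀ i < N, Adj (f i) (f (i + 1))) ∧ (∀ i ≤ N, f i ∈ Op p w ∩ Ann 0 m n) ∧
      IsRoot (Ann 0 m n) (Cir m) w (f 0) f N := by
    intro k f N hf
    obtain ⟨y, hy, hconn⟩ := hc k
    refine ⟨hf.start, hf.last, fun i hi => (hf.path.step i hi).1, fun i hi => ⟨?_, ?_⟩, ?_⟩
    · exact root_open hw hf hy (hconn.mono fun v hv => hv) hi
    · exact hf.mem hconn.left.2 hi
    · rw [hf.start]
      exact hf
  obtain ⟨f0, n0, b1, b2, b3, b4⟩ := walk 0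
  obtain ⟨f3, n3, c1, c2, c3, c4⟩ := walk 3
  obtain ⟨d1, d2, d3, d4, d5⟩ := root 1 f1 n1 r1
  obtain ⟨e1, e2, e3, e4, e5⟩ := root 2 f2 n2 r2
  obtain ⟨g1, g2, g3, g4, g5⟩ := root 4 f4 n4 r4
  obtain ⟨h1, h2, h3, h4, h5⟩ := root 5 f5 n5 r5
  refine ⟨![f0, f1, f2, f3, f4, f5], ![n0, n1, n2, n3, n4, n5], ?_, ?_, ?_, ?_, ⟨d5, e5, r12⟩,
    ⟨g5, h5, r45⟩⟩
  · intro k
    fin_cases k
    exacts [b1, d1, e1, c1, g1, h1]
  · intro k
    fin_cases k
    exacts [b2, d2, e2, c2, g2, h2]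
  · intro k
    fin_cases k
    exacts [b3, d3, e3, c3, g3, h3]
  · intro k
    fin_cases k
    exacts [b4, d4, e4, c4, g4, h4]

/-- The points where the crossings enter a smaller annulus are witnesses. -/
theorem efz_cut (hw : Function.Injective w) (hm : 1 ≤ m') (h1 : m ≤ m') (h2 : m' < n')
    (h3 : n' ≤ n) (h : EFz p m n w z) {F : Fin 6 → ℕ → V} {N : Fin 6 → ℕ}
    (hF0 : ∀ k, F k 0 = z k) (ha : ∀ k, ∀ i < N k, Adj (F k i) (F k (i + 1)))
    (hO : ∀ k, ∀ i ≤ N k, F k i ∈ Op p w ∩ Ann 0 m n)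
    (r1 : IsRoot (Ann 0 m n) (Cir m) w (F 1 0) (F 1) (N 1))
    (r2 : IsRoot (Ann 0 m n) (Cir m) w (F 2 0) (F 2) (N 2))
    (r12 : ∀ i ≤ N 1, ∀ j ≤ N 2, F 1 i ≠ F 2 j)
    (r4 : IsRoot (Ann 0 m n) (Cir m) w (F 4 0) (F 4) (N 4))
    (r5 : IsRoot (Ann 0 m n) (Cir m) w (F 5 0) (F 5) (N 5))
    (r45 : ∀ i ≤ N 4, ∀ j ≤ N 5, F 4 i ≠ F 5 j) {s u : Fin 6 → ℕ}
    (hc : ∀ k, IsCut (F k) (N k) m' n' (s k) (u k)) :
    EFz p m' n' w fun k => F k (s k) := by
  obtain ⟨hz, -, -, -, hg, h14, h15, h24, h25⟩ := h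
  have hA : Ann 0 m' n' ⊆ Ann 0 m n := by
    intro v hv
    have := mem_ann0.1 hv
    exact mem_ann0.2 ⟨by omega, by omega⟩
  have hmono : Op p w ∩ Ann 0 m' n' ⊆ Op p w ∩ Ann 0 m n := fun v hv => ⟨hv.1, hA hv.2⟩
  have hconn : ∀ k, ∀ i ≤ N k, Conn (Op p w ∩ Ann 0 m n) (z k) (F k i) := fun k i hi => by
    rw [← hF0 k]
    exact conn_seg (Nat.zero_le i) (fun q _ hq => ha k q (by omega)) fun q _ hq => hO k q (by omega)
  have hdis : ∀ k l, grp k ≠ grp l → ∀ i ≤ N k, ∀ j ≤ N l, F k i ≠ F l j := by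
    intro k l hkl i hi j hj hij
    refine hg k l hkl ((hconn k i hi).trans ?_)
    rw [hij]
    exact (hconn l j hj).symm
  have hsN : ∀ k, s k ≤ N k := fun k => by
    have := (hc k).su
    have := (hc k).uN
    omega
  have hsep : ∀ i j : Fin 6, grp i ≠ 0 → grp i ≠ 2 → grp j ≠ 0 → grp j ≠ 2 → grp i ≠ grp j →
      SepC n (z 0) (z 3) (z i) (z j) →
      SepC n' (F 0 (s 0)) (F 3 (s 3)) (F i (s i)) (F j (s j)) := by
    intro i j hi0 hi2 hj0 hj2 hij hsep
    rw [← hF0 0, ← hF0 3, ← hF0 i, ← hF0 j] at hsep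
    have key := sep_cut (f := ![F 0, F 3, F i, F j]) (N := ![N 0, N 3, N i, N j])
      (s := ![s 0, s 3, s i, s j]) (u := ![u 0, u 3, u i, u j]) hm h2 h3 ?_ ?_ ?_ ?_ ?_ hsep
    · exact key
    · intro k
      fin_cases k
      exacts [ha 0, ha 3, ha i, ha j]
    · intro k
      fin_cases k
      exacts [fun q hq => (mem_ann0.1 (hO 0 q hq).2).2, fun q hq => (mem_ann0.1 (hO 3 q hq).2).2,
        fun q hq => (mem_ann0.1 (hO i q hq).2).2, fun q hq => (mem_ann0.1 (hO j q hq).2).2]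
    · intro k
      fin_cases k
      exacts [(congrArg nrm (hF0 0)).trans (hz 0), (congrArg nrm (hF0 3)).trans (hz 3),
        (congrArg nrm (hF0 i)).trans (hz i), (congrArg nrm (hF0 j)).trans (hz j)]
    · intro k
      fin_cases k
      exacts [hc 0, hc 3, hc i, hc j]
    · have g0 : grp 0 = 0 := rfl
      have g3 : grp 3 = 2 := rfl
      intro k l hkl
      fin_cases k <;> fin_cases l
      · exact absurd rfl hkl
      · exact hdis 0 3 (by decide)
      · exact hdis 0 i (by rw [g0]; exact hi0.symm)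
      · exact hdis 0 j (by rw [g0]; exact hj0.symm)
      · exact hdis 3 0 (by decide)
      · exact absurd rfl hkl
      · exact hdis 3 i (by rw [g3]; exact hi2.symm)
      · exact hdis 3 j (by rw [g3]; exact hj2.symm)
      · exact hdis i 0 (by rw [g0]; exact hi0)
      · exact hdis i 3 (by rw [g3]; exact hi2)
      · exact absurd rfl hkl
      · exact hdis i j hij
      · exact hdis j 0 (by rw [g0]; exact hj0)
      · exact hdis j 3 (by rw [g3]; exact hj2)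
      · exact hdis j i hij.symm
      · exact absurd rfl hkl
  refine ⟨fun k => (hc k).ns, fun k => ⟨F k (u k), (hc k).nu, ?_⟩,
    dbl_cut hw hA r1 r2 r12 (hc 1) (hc 2), dbl_cut hw hA r4 r5 r45 (hc 4) (hc 5), ?_,
    hsep 1 4 (by decide) (by decide) (by decide) (by decide) (by decide) h14,
    hsep 1 5 (by decide) (by decide) (by decide) (by decide) (by decide) h15,
    hsep 2 4 (by decide) (by decide) (by decide) (by decide) (by decide) h24,
    hsep 2 5 (by decide) (by decide) (by decide) (by decide) (by decide) h25⟩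
  · have h4 := (hc k).uN
    exact conn_seg (hc k).su.le (fun q _ hq => ha k q (by omega)) fun q q1 q2 =>
      ⟨(hO k q (by omega)).1, (hc k).ann q1 q2⟩
  · intro i j hij hcon
    exact hg i j hij ((hconn i _ (hsN i)).trans ((hcon.mono hmono).trans
      (hconn j _ (hsN j)).symm))

/-- Witnesses for a smaller annulus, joined to the old ones outside the inner circle. -/
theorem efz_restr (hw : Function.Injective w) (hm : 1 ≤ m') (h1 : m ≤ m') (h2 : m' < n')
    (h3 : n' ≤ n) (h : EFz p m n w z) :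
    ∃ z', EFz p m' n' w z' ∧ ∀ k, Conn (Op p w ∩ Ann 0 (m' + 1) n) (z k) (z' k) := by
  obtain ⟨F, N, hF0, kN, ha, hO, ⟨r1, r2, r12⟩, ⟨r4, r5, r45⟩⟩ := efz_paths hw h
  have hcut : ∀ k, ∃ s u, IsCut (F k) (N k) m' n' s u := fun k =>
    exists_cut (ha k) h1 h2 h3 ((congrArg nrm (hF0 k)).trans (h.1 k)) (kN k)
  choose s u hc using hcut
  refine ⟨_, efz_cut hw hm h1 h2 h3 h hF0 ha hO r1 r2 r12 r4 r5 r45 hc, fun k => ?_⟩
  have g1 := (hc k).su
  have g2 := (hc k).uN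
  rw [← hF0 k]
  refine conn_seg (Nat.zero_le _) (fun q _ hq => ha k q (by omega)) fun q _ hq => ?_
  have h4 := (hO k q (by omega))
  refine ⟨h4.1, mem_ann0.2 ⟨?_, (mem_ann0.1 h4.2).2⟩⟩
  have h5 := (hc k).up q (by omega)
  omega

/-- The same witnesses serve for a larger inner circle. -/
theorem efz_inner (hw : Function.Injective w) (h1 : m ≤ m') (h2 : m' < n)
    (h : EFz p m n w z) : EFz p m' n w z := by
  obtain ⟨F, N, hF0, kN, ha, hO, ⟨r1, r2, r12⟩, ⟨r4, r5, r45⟩⟩ := efz_paths hw h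
  have hA : Ann 0 m' n ⊆ Ann 0 m n := by
    intro v hv
    have := mem_ann0.1 hv
    exact mem_ann0.2 ⟨by omega, by omega⟩
  have hmono : Op p w ∩ Ann 0 m' n ⊆ Op p w ∩ Ann 0 m n := fun v hv => ⟨hv.1, hA hv.2⟩
  have hcut : ∀ k, ∃ u, u ≤ N k ∧ nrm (F k u) = m' ∧ ∀ i < u, m' < nrm (F k i) := by
    intro k
    have hst : ∀ i < N k, nrm (F k i) - 1 ≤ nrm (F k (i + 1)) := by
      intro i hi
      have := abs_le.1 (nrm_adj (ha k i hi) 0)
      rw [sub_zero, sub_zero] at this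
      omega
    have h0 : nrm (F k 0) = n := (congrArg nrm (hF0 k)).trans (h.1 k)
    have hN := kN k
    obtain ⟨u, -, a2, a3, a4⟩ := hit_down_first (fun i => nrm (F k i)) (n := m')
      (Nat.zero_le (N k)) (fun i _ hi => hst i hi) (by omega) (by omega)
    exact ⟨u, a2, a3, fun i hi => a4 i (Nat.zero_le _) hi⟩
  choose u hu1 hu2 hu3 using hcut
  obtain ⟨hz, -, -, -, hg, h14, h15, h24, h25⟩ := h
  have hu0 : ∀ k, 0 < u k := by
    intro k
    rcases Nat.eq_zero_or_pos (u k) with h0 | h0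
    · have h4 := hu2 k
      have h5 := hz k
      rw [h0, hF0 k] at h4
      omega
    · exact h0
  have hc : ∀ k, IsCut (F k) (N k) m' n 0 (u k) := fun k =>
    ⟨hu0 k, hu1 k, (congrArg nrm (hF0 k)).trans (hz k), hu2 k, hu3 k, fun i _ hi =>
      (mem_ann0.1 (hO k i (hi.trans (hu1 k))).2).2⟩
  have d12 := dbl_cut hw hA r1 r2 r12 (hc 1) (hc 2)
  have d45 := dbl_cut hw hA r4 r5 r45 (hc 4) (hc 5)
  rw [hF0, hF0] at d12 d45
  refine ⟨hz, fun k => ⟨F k (u k), hu2 k, ?_⟩, d12, d45, fun i j hij hcon =>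
    hg i j hij (hcon.mono hmono), h14, h15, h24, h25⟩
  have h4 := hu1 k
  rw [← hF0 k]
  exact conn_seg (Nat.zero_le _) (fun q _ hq => ha k q (by omega)) fun q q1 q2 =>
    ⟨(hO k q (by omega)).1, (hc k).ann q1 q2⟩

/-- Every crossing cluster contains one of any witnesses. -/
def Clean (p : ℝ) (m n : ℤ) (w : Lab) : Prop :=
  ∀ z, EFz p m n w z → ∀ y, Crs p m n w y → ∃ i, Conn (Op p w ∩ Ann 0 m n) (z i) y

/-- A crossing of a clean annulus is joined to a witness of its group. -/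
theorem Clean.cl (hcl : Clean p m' n' w) (h1 : m ≤ m') (h3 : n' ≤ n) (h : EFz p m n w z)
    (h' : EFz p m' n' w z') (hzz : ∀ k, Conn (Op p w ∩ Ann 0 m n) (z k) (z' k)) {y : V}
    (hy : Crs p m' n' w y) {k : Fin 6} (hk : Conn (Op p w ∩ Ann 0 m n) (z k) y) :
    ∃ k', grp k' = grp k ∧ Conn (Op p w ∩ Ann 0 m' n') (z' k') y := by
  obtain ⟨i, hi⟩ := hcl z' h' y hy
  refine ⟨i, ?_, hi⟩
  by_contra hne
  refine h.2.2.2.2.1 i k hne ((hzz i).trans ((hi.mono ?_).trans hk.symm))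
  rintro v ⟨hv1, hv2⟩
  have := mem_ann0.1 hv2
  exact ⟨hv1, mem_ann0.2 ⟨by omega, by omega⟩⟩

end Pool.Agent.MST
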