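import Pool.Agent.MST.Restr
import Pool.Agent.TriPerc.Meas

/-!
# Measurability and dependence on finitely many labels

* `ev_mt`, `ev_dbl`, `ev_ef`: the events `MT A W`, `Dbl A W z z'` and `EF p m n` are measurable and
  depend only on the labels in `A` (in `Ann 0 m n`);
* `ef_sub`: `P (EF p m n) ≤ P (EF p m k) * P (EF p l n)` for `k < l`.
-/

namespace Pool.Agent.MST

open Pool.Agent.TriPerc MeasureTheory Set

variable {A W : Set V} {w w' : Lab}

theorem el_lt_congr (h : ∀ u ∈ A, ∀ v ∈ A, w u ≤ w v ↔ w' u ≤ w' v) {x y u v : V}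
    (hx : x ∈ A) (hy : y ∈ A) (hu : u ∈ A) (hv : v ∈ A) :
    EL w x y < EL w u v ↔ EL w' x y < EL w' u v := by
  have hlt : ∀ a ∈ A, ∀ b ∈ A, (w a < w b ↔ w' a < w' b) := fun a ha b hb => by
    rw [← not_le, ← not_le, h b hb a ha]
  unfold EL
  rw [Prod.Lex.lt_iff, Prod.Lex.lt_iff]
  simp only [ofLex_toLex, lt_max_iff, max_lt_iff, le_antisymm_iff, max_le_iff, le_max_iff,
    lt_min_iff, min_lt_iff, h x hx u hu, h x hx v hv, h y hy u hu, h y hy v hv, h u hu x hx,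
    h u hu y hy, h v hv x hx, h v hv y hy, hlt x hx u hu, hlt x hx v hv, hlt y hy u hu,
    hlt y hy v hv]

theorem jd_congr (h : ∀ u ∈ A, ∀ v ∈ A, w u ≤ w v ↔ w' u ≤ w' v) {x y u v : V}
    (hx : x ∈ A) (hy : y ∈ A) (hj : Jd A W w (EL w x y) u v) : Jd A W w' (EL w' x y) u v := by
  refine rtg_mono ?_ hj
  rintro a b (⟨h1, h2, h3, h4⟩ | h1)
  · exact Or.inl ⟨h1, h2, h3, (el_lt_congr h h2 h3 hx hy).1 h4⟩
  · exact Or.inr h1

theorem mt_congr (h : ∀ u ∈ A, ∀ v ∈ A, w u ≤ w v ↔ w' u ≤ w' v) {x y : V}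
    (hm : MT A W w x y) : MT A W w' x y :=
  ⟨hm.1, hm.2.1, hm.2.2.1, fun hj => hm.2.2.2
    (jd_congr (fun u hu v hv => (h u hu v hv).symm) hm.2.1 hm.2.2.1 hj)⟩

theorem root_congr (h : ∀ u ∈ A, ∀ v ∈ A, w u ≤ w v ↔ w' u ≤ w' v) {z : V} {f : ℕ → V} {n : ℕ}
    (hr : IsRoot A W w z f n) : IsRoot A W w' z f n :=
  ⟨⟨fun i hi => mt_congr h (hr.path.step i hi), hr.path.inj⟩, hr.start, hr.last, hr.before⟩

theorem dbl_congr (h : ∀ u ∈ A, ∀ v ∈ A, w u ≤ w v ↔ w' u ≤ w' v) {z z' : V}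
    (hd : Dbl A W w z z') : Dbl A W w' z z' := by
  obtain ⟨f, n, f', n', h1, h2, h3⟩ := hd
  exact ⟨f, n, f', n', root_congr h h1, root_congr h h2, h3⟩

theorem op_congr {p : ℝ} (h : ∀ u ∈ A, w u ≤ p ↔ w' u ≤ p) : Op p w ∩ A = Op p w' ∩ A := by
  ext u
  simp only [Op, mem_inter_iff, mem_setOf_eq]
  constructor
  · rintro ⟨h1, h2⟩
    exact ⟨(h u h2).1 h1, h2⟩
  · rintro ⟨h1, h2⟩
    exact ⟨(h u h2).2 h1, h2⟩

theorem ev_mt (hA : A.Finite) (x y : V) : Ev A {w | MT A W w x y} :=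
  ev_order_lev hA ∅ fun w w' h _ hw => mt_congr (w := w) (w' := w') h hw

theorem ev_dbl (hA : A.Finite) (x y : V) : Ev A {w | Dbl A W w x y} :=
  ev_order_lev hA ∅ fun w w' h _ hw => dbl_congr (w := w) (w' := w') h hw

theorem ev_ef (p : ℝ) (m n : ℤ) : Ev (Ann 0 m n) {w | EF p m n w} := by
  refine ev_order_lev (finite_ann 0 m n) {p} fun w w' h hp hw => ?_
  have h2 : Op p w ∩ Ann 0 m n = Op p w' ∩ Ann 0 m n :=
    op_congr fun u hu => hp p (Finset.mem_singleton_self p) u hu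
  obtain ⟨z, h3, h4, h5, h6, h7, h8⟩ := hw
  rw [h2] at h4 h7
  exact ⟨z, h3, h4, dbl_congr h h5, dbl_congr h h6, h7, h8⟩

/-- Submultiplicativity. -/
theorem ef_sub {p : ℝ} {m k l n : ℤ} (hm : 1 ≤ m) (hk : m < k) (hkl : k < l) (hln : l < n) :
    P {w | EF p m n w} ≤ P {w | EF p m k w} * P {w | EF p l n w} := by
  have hd : Disjoint (Ann 0 m k) (Ann 0 l n) := by
    rw [Set.disjoint_left]
    intro v h1 h2
    have h3 := h1.2
    have h4 := h2.1
    omega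
  rw [← indep (ev_ef p m k) (ev_ef p l n) hd]
  refine measure_mono_ae ?_
  filter_upwards [ae_label p] with w hw h
  have hi : Function.Injective w := fun u v huv => by
    by_contra hne
    exact hw.2 u v hne huv
  exact ⟨EF_restr hi hm le_rfl hk (by omega) h, EF_restr hi (by omega) (by omega) hln le_rfl h⟩

end Pool.Agent.MST
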