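import Pool.Agent.MST.Mst

/-!
# Existence of tree paths in finite graphs; root paths; tree paths inside finite clusters

* `mt_span`: in a finite graph two vertices which are joined (below the level `l`) are joined by
  tree edges below `l` and jumps: well-founded induction on the label of an edge; an edge which is
  not in the tree is replaced by a chain of smaller edges.
* `root_exists`: a vertex which is joined to `W` has a root path; `root_open`: if it is joined to
  `W` at the vertex level `p`, its root path is `p`-open.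
* `tpath`: two vertices of a finite component `K` of the `p`-open vertices are joined by a simple
  path of `MT univ ∅ w` inside `K`.
-/

namespace Pool.Agent.MST

open Pool.Agent.TriPerc

variable {A W S : Set V} {w : Lab} {f : ℕ → V} {n : ℕ} {x y z : V} {l : ℝ ×ₗ ℝ} {p : ℝ}

/-- A tree edge below `l` or a jump. -/
def MJl (A W : Set V) (w : Lab) (l : ℝ ×ₗ ℝ) (x y : V) : Prop :=
  (MT A W w x y ∧ EL w x y < l) ∨ (x ∈ W ∧ y ∈ W)

theorem mt_span (hA : A.Finite) (h : Jd A W w l x y) :
    Relation.ReflTransGen (MJl A W w l) x y := by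
  classical
  -- the finite set of the labels of the edges of `A`
  have hfin : (Set.image2 (fun x y => EL w x y) A A).Finite := hA.image2 _ hA
  have key : ∀ (N : ℕ) (l : ℝ ×ₗ ℝ),
      ((Set.image2 (fun x y => EL w x y) A A) ∩ Set.Iio l).ncard ≤ N →
      ∀ x y, Jd A W w l x y → Relation.ReflTransGen (MJl A W w l) x y := by
    intro N
    induction N with
    | zero =>
      intro l hN x y hxy
      induction hxy with
      | refl => exact Relation.ReflTransGen.refl
      | @tail b c _ hbc ih =>
        rcases hbc with ⟨h1, h2, h3, h4⟩ | h1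
        · exfalso
          have h5 : ((Set.image2 (fun x y => EL w x y) A A) ∩ Set.Iio l) = ∅ := by
            rw [← Set.ncard_eq_zero (hfin.subset Set.inter_subset_left)]
            omega
          have h6 : EL w b c ∈ ((Set.image2 (fun x y => EL w x y) A A) ∩ Set.Iio l) :=
            ⟨Set.mem_image2_of_mem h2 h3, h4⟩
          rw [h5] at h6
          exact h6
        · exact ih.tail (Or.inr h1)
    | succ N IH =>
      intro l hN x y hxy
      induction hxy with
      | refl => exact Relation.ReflTransGen.refl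
      | @tail b c _ hbc ih =>
        refine ih.trans ?_
        rcases hbc with ⟨h1, h2, h3, h4⟩ | h1
        · by_cases hm : MT A W w b c
          · exact Relation.ReflTransGen.single (Or.inl ⟨hm, h4⟩)
          · have h5 : Jd A W w (EL w b c) b c := by
              by_contra h6
              exact hm ⟨h1, h2, h3, h6⟩
            have h7 := IH (EL w b c) (by
              have h8 : ((Set.image2 (fun x y => EL w x y) A A) ∩ Set.Iio (EL w b c)).ncard <
                  ((Set.image2 (fun x y => EL w x y) A A) ∩ Set.Iio l).ncard := by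
                refine Set.ncard_lt_ncard ⟨?_, ?_⟩ (hfin.subset Set.inter_subset_left)
                · exact Set.inter_subset_inter_right _ (Set.Iio_subset_Iio h4.le)
                · intro hc
                  have h9 := hc ⟨Set.mem_image2_of_mem h2 h3, h4⟩
                  exact lt_irrefl (EL w b c) h9.2
              omega) b c h5
            refine rtg_mono ?_ h7
            rintro u v (⟨h8, h9⟩ | h8)
            · exact Or.inl ⟨h8, h9.trans h4⟩
            · exact Or.inr h8
        · exact Relation.ReflTransGen.single (Or.inr h1)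
  exact key _ l le_rfl x y h

/-- A level above all edges of a finite set. -/
theorem exists_top (hA : A.Finite) (w : Lab) : ∃ l : ℝ ×ₗ ℝ, ∀ x ∈ A, ∀ y ∈ A, EL w x y < l := by
  obtain ⟨M, hM⟩ : ∃ M : ℝ, ∀ x ∈ A, w x ≤ M := by
    obtain ⟨M, hM⟩ := (hA.image w).bddAbove
    exact ⟨M, fun x hx => hM (Set.mem_image_of_mem w hx)⟩
  refine ⟨toLex (M + 1, 0), fun x hx y hy => ?_⟩
  unfold EL
  rw [Prod.Lex.lt_iff]
  exact Or.inl ((max_le (hM x hx) (hM y hy)).trans_lt (lt_add_one M))

theorem root_exists (hA : A.Finite) (hy : y ∈ W) (h : Conn A z y) :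
    ∃ (f : ℕ → V) (n : ℕ), IsRoot A W w z f n := by
  classical
  obtain ⟨l, hl⟩ := exists_top hA w
  have h1 : Jd A W w l z y := by
    obtain ⟨hz, hr⟩ := h
    have key : ∀ u, Relation.ReflTransGen (fun x y => Adj x y ∧ y ∈ A) z u →
        u ∈ A ∧ Jd A W w l z u := by
      intro u hu
      induction hu with
      | refl => exact ⟨hz, Relation.ReflTransGen.refl⟩
      | @tail b c _ hbc ih =>
        exact ⟨hbc.2, ih.2.tail (Or.inl ⟨hbc.1, ih.1, hbc.2, hl b ih.1 c hbc.2⟩)⟩
    exact (key y hr).2
  obtain ⟨f, n, f0, fn, hf⟩ := exists_pa (mt_span hA h1)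
  have hex : ∃ i, f i ∈ W := ⟨n, fn ▸ hy⟩
  have h2 := Nat.find_spec hex
  have h3 : ∀ i, i < Nat.find hex → f i ∉ W := fun i hi => Nat.find_min hex hi
  have h4 : Nat.find hex ≤ n := Nat.find_min' hex (fn ▸ hy)
  refine ⟨f, Nat.find hex, ⟨fun i hi => ?_, fun i j hi hj hij => ?_⟩, f0, h2, h3⟩
  · rcases hf.step i (by omega) with h5 | h5
    · exact h5.1
    · exact absurd h5.1 (h3 i hi)
  · exact hf.inj i j (by omega) (by omega) hij

theorem root_open (hw : Function.Injective w) (hf : IsRoot A W w z f n) (hy : y ∈ W)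
    (h : Conn (Op p w ∩ A) z y) {i : ℕ} (hi : i ≤ n) : w (f i) ≤ p := by
  have hf' : IsPa (MJ A W w) f n := hf.path.mono fun _ _ h => Or.inl h
  have h1 : ∀ l : ℝ ×ₗ ℝ, p < (ofLex l).1 → Jd A W w l (f 0) (f n) := by
    intro l hl
    refine Relation.ReflTransGen.tail (b := y) ?_ (Or.inr ⟨hy, hf.last⟩)
    rw [hf.start]
    exact jd_of_conn h hl
  rcases Nat.eq_zero_or_pos n with h0 | h0
  · have : i = 0 := by omega
    rw [this, hf.start]
    exact h.left.1
  · rcases Nat.eq_or_lt_of_le hi with h2 | h2
    · have h3 := (minimax_vertex' hw hf' h1 (i := n - 1) (by omega)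
        (hf.path.step (n - 1) (by omega))).2
      rw [h2]
      rwa [show n - 1 + 1 = n by omega] at h3
    · exact (minimax_vertex' hw hf' h1 h2 (hf.path.step i h2)).1

theorem IsRoot.mem (hf : IsRoot A W w z f n) (hz : z ∈ A) {i : ℕ} (hi : i ≤ n) : f i ∈ A := by
  rcases Nat.eq_zero_or_pos i with h0 | h0
  · rw [h0, hf.start]
    exact hz
  · have := (hf.path.step (i - 1) (by omega)).2.2.1
    rwa [show i - 1 + 1 = i by omega] at this

/-- Tree edges of a component of the `p`-open vertices are tree edges of the whole lattice. -/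
theorem mt_comp (hx : x ∈ comp (Op p w) z) (hy : y ∈ comp (Op p w) z)
    (h : MT (comp (Op p w) z) ∅ w x y) : MT Set.univ ∅ w x y := by
  refine ⟨h.1, trivial, trivial, fun h1 => h.2.2.2 ?_⟩
  have hxy : max (w x) (w y) ≤ p := max_le (comp_subset hx) (comp_subset hy)
  have key : ∀ u, Jd Set.univ ∅ w (EL w x y) x u →
      u ∈ comp (Op p w) z ∧ Jd (comp (Op p w) z) ∅ w (EL w x y) x u := by
    intro u hu
    induction hu with
    | refl => exact ⟨hx, Relation.ReflTransGen.refl⟩
    | @tail b c _ hbc ih =>
      rcases hbc with ⟨h2, -, -, h3⟩ | ⟨h2, -⟩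
      · have h4 : w c ≤ p := (le_max_right _ _).trans ((max_le_of_EL_lt h3).trans hxy)
        have h5 : c ∈ comp (Op p w) z := comp_adj ih.1 h4 h2
        exact ⟨h5, ih.2.tail (Or.inl ⟨h2, ih.1, h5, h3⟩)⟩
      · exact absurd h2 (Set.notMem_empty _)
  exact (key y h1).2

/-- Tree paths inside a finite component. -/
theorem tpath (hK : (comp (Op p w) z).Finite) (hx : x ∈ comp (Op p w) z)
    (hy : y ∈ comp (Op p w) z) : ∃ (f : ℕ → V) (n : ℕ), f 0 = x ∧ f n = y ∧
      IsPa (MT Set.univ ∅ w) f n ∧ ∀ i ≤ n, f i ∈ comp (Op p w) z := by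
  obtain ⟨l, hl⟩ := exists_top hK w
  have h1 : Jd (comp (Op p w) z) ∅ w l x y := by
    have h2 : Conn (comp (Op p w) z) x y := isConn_comp x hx y hy
    obtain ⟨hz, hr⟩ := h2
    have key : ∀ u, Relation.ReflTransGen (fun x y => Adj x y ∧ y ∈ comp (Op p w) z) x u →
        u ∈ comp (Op p w) z ∧ Jd (comp (Op p w) z) ∅ w l x u := by
      intro u hu
      induction hu with
      | refl => exact ⟨hz, Relation.ReflTransGen.refl⟩
      | @tail b c _ hbc ih =>
        exact ⟨hbc.2, ih.2.tail (Or.inl ⟨hbc.1, ih.1, hbc.2, hl b ih.1 c hbc.2⟩)⟩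
    exact (key y hr).2
  obtain ⟨f, n, f0, fn, hf⟩ := exists_pa (mt_span hK h1)
  have hmt : ∀ u v, MJl (comp (Op p w) z) ∅ w l u v → MT (comp (Op p w) z) ∅ w u v := by
    rintro u v (h2 | h2)
    · exact h2.1
    · exact absurd h2.1 (Set.notMem_empty _)
  refine ⟨f, n, f0, fn, hf.mono fun u v h2 => ?_, fun i hi => ?_⟩
  · have h3 := hmt u v h2
    exact mt_comp h3.2.1 h3.2.2.1 h3
  · rcases Nat.eq_zero_or_pos i with h0 | h0
    · rw [h0, f0]
      exact hx
    · have := (hmt _ _ (hf.step (i - 1) (by omega))).2.2.1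
      rwa [show i - 1 + 1 = i by omega] at this

end Pool.Agent.MST
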