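import Pool.Agent.MST.Ex

/-!
# Mixed four-arm vertices on tree paths and on broken strict arms

* `mix_path`: a vertex of a tree path with a label in `(a, b]` is mixed.
* `mix_edge`: if the tree path between two neighbours `u, u'` passes a far vertex `g0` with a label
  above `a`, then `u` or `u'` is mixed.
* `strict_sep`: two parts of a tree path, separated by a visit outside `Ball 0 R`, are not joined
  by `p`-open vertices of an annulus without mixed vertices, if `Ann 0 r1 R` has no `a`-open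
  crossing.
-/

namespace Pool.Agent.MST

open Pool.Agent.TriPerc

variable {w : Lab} {a b p : ℝ} {f : ℕ → V} {L : ℕ} {v : V} {d : ℤ}

theorem adj_of {A W : Set V} (hf : IsPa (MT A W w) f L) {i : ℕ} (hi : i < L) :
    Adj (f i) (f (i + 1)) := (hf.step i hi).1

theorem nrm_step {A W : Set V} (hf : IsPa (MT A W w) f L) (z : V) {i : ℕ} (hi : i < L) :
    nrm (f i - z) - 1 ≤ nrm (f (i + 1) - z) ∧ nrm (f (i + 1) - z) ≤ nrm (f i - z) + 1 := by
  have := abs_le.1 (nrm_adj (adj_of hf hi) z)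
  omega

theorem nrm_adj_one {u v : V} (h : Adj u v) : nrm (v - u) = 1 := by
  have h1 := abs_le.1 (nrm_adj h u)
  rw [sub_self, nrm_zero_iff.2 rfl] at h1
  have h2 : nrm (v - u) ≠ 0 := by
    rw [Ne, nrm_zero_iff, sub_eq_zero]
    exact h.ne.symm
  have h3 := nrm_nonneg (v - u)
  omega

theorem mixed_of (hw : Function.Injective w) (hf : IsPa (MT Set.univ ∅ w) f L)
    {p1 q1 l p2 q2 : ℕ} (_h1 : p1 ≤ q1) (h2 : q1 < l) (h3 : l < p2) (_h4 : p2 ≤ q2) (h5 : q2 ≤ L)
    (hl : a < w (f l)) (hv1 : a < w v) (hv2 : w v ≤ b)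
    (ho : ∀ i, (p1 ≤ i ∧ i ≤ q1) ∨ (p2 ≤ i ∧ i ≤ q2) →
      w (f i) ≤ b ∧ nrm (f i - v) ≤ d ∧ f i ≠ v)
    (ha1 : ∃ i, p1 ≤ i ∧ i ≤ q1 ∧ Adj v (f i)) (hd1 : ∃ i, p1 ≤ i ∧ i ≤ q1 ∧ nrm (f i - v) = d)
    (ha2 : ∃ i, p2 ≤ i ∧ i ≤ q2 ∧ Adj v (f i)) (hd2 : ∃ i, p2 ≤ i ∧ i ≤ q2 ∧ nrm (f i - v) = d) :
    Mixed a b v d w := by
  refine ⟨hv1, hv2, seg f p1 q1, seg f p2 q2, ?_, ?_, ?_, ?_, ?_, ?_, ?_, ?_, ?_, ?_⟩
  · rw [Set.disjoint_left]
    rintro _ ⟨i, i1, i2, rfl⟩ ⟨j, j1, j2, hij⟩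
    have := hf.inj j i (by omega) (by omega) hij
    omega
  · rintro _ ⟨i, i1, i2, rfl⟩
    obtain ⟨k1, k2, k3⟩ := ho i (Or.inl ⟨i1, i2⟩)
    exact ⟨k1, k2, k3⟩
  · rintro _ ⟨i, i1, i2, rfl⟩
    obtain ⟨k1, k2, k3⟩ := ho i (Or.inr ⟨i1, i2⟩)
    exact ⟨k1, k2, k3⟩
  · exact isConn_seg fun i _ i2 => adj_of hf (by omega)
  · exact isConn_seg fun i _ i2 => adj_of hf (by omega)
  · obtain ⟨i, i1, i2, i3⟩ := ha1
    exact ⟨f i, ⟨i, i1, i2, rfl⟩, i3⟩
  · obtain ⟨i, i1, i2, i3⟩ := hd1
    exact ⟨f i, ⟨i, i1, i2, rfl⟩, i3⟩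
  · obtain ⟨i, i1, i2, i3⟩ := ha2
    exact ⟨f i, ⟨i, i1, i2, rfl⟩, i3⟩
  · obtain ⟨i, i1, i2, i3⟩ := hd2
    exact ⟨f i, ⟨i, i1, i2, rfl⟩, i3⟩
  · rintro ⟨x, ⟨i, i1, i2, rfl⟩, y, ⟨j, j1, j2, rfl⟩, hxy⟩
    have h6 : w (f l) ≤ a := minimax_seg (t := a) hw hf (s := i) (e := j)
      (hxy.mono fun z hz => ⟨hz.1, trivial⟩) (by omega) (by omega) (by omega)
    linarith

/-- A vertex of a tree path with a label in `(a, b]` is mixed. -/
theorem mix_path (hw : Function.Injective w) (hf : IsPa (MT Set.univ ∅ w) f L) {s t e : ℕ}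
    (h1 : s < t) (h2 : t < e) (h3 : e ≤ L) (hd : 1 ≤ d) (hs : d ≤ nrm (f s - f t))
    (he : d ≤ nrm (f e - f t))
    (ho : ∀ i, s ≤ i → i ≤ e → nrm (f i - f t) ≤ d → w (f i) ≤ b) (ha : a < w (f t)) :
    Mixed a b (f t) d w := by
  have h0 : nrm (f t - f t) = 0 := by
    rw [sub_self]
    exact nrm_zero_iff.2 rfl
  have e1 : nrm (f (t - 1) - f t) = 1 := by
    have := (adj_of hf (show t - 1 < L by omega)).symm
    rw [show t - 1 + 1 = t by omega] at this
    exact nrm_adj_one this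
  have e2 : nrm (f (t + 1) - f t) = 1 := nrm_adj_one (adj_of hf (by omega))
  obtain ⟨i1, k1, k2, k3, k4⟩ := hit_down_last (fun i => nrm (f i - f t)) (n := d)
    (s := s) (t := t - 1) (by omega) (fun i _ hi => (nrm_step hf _ (by omega)).1) hs
    (by omega)
  obtain ⟨i2, k5, k6, k7, k8⟩ := hit_up_first (fun i => nrm (f i - f t)) (n := d)
    (s := t + 1) (t := e) (by omega) (fun i _ hi => (nrm_step hf _ (by omega)).2)
    (by omega) he
  refine mixed_of hw hf (p1 := i1) (q1 := t - 1) (l := t) (p2 := t + 1) (q2 := i2) k2 (by omega)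
    (by omega) k5 (by omega) ha ha (ho t h1.le h2.le (by omega)) ?_ ?_ ?_ ?_ ?_
  · intro i hi
    have h4 : nrm (f i - f t) ≤ d := by
      rcases hi with hi | hi
      · rcases Nat.eq_or_lt_of_le hi.1 with h5 | h5
        · rw [← h5]
          exact k3.le
        · exact (k4 i h5 hi.2).le
      · rcases Nat.eq_or_lt_of_le hi.2 with h5 | h5
        · rw [h5]
          exact k7.le
        · exact (k8 i hi.1 h5).le
    refine ⟨ho i (by omega) (by omega) h4, h4, fun h5 => ?_⟩
    have := hf.inj i t (by omega) (by omega) h5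
    omega
  · exact ⟨t - 1, k2, le_rfl, by
      have := (adj_of hf (show t - 1 < L by omega)).symm
      rwa [show t - 1 + 1 = t by omega] at this⟩
  · exact ⟨i1, le_rfl, k2, k3⟩
  · exact ⟨t + 1, le_rfl, k5, adj_of hf (by omega)⟩
  · exact ⟨i2, k5, le_rfl, k7⟩

/-- An edge whose ends have a tree path through a far vertex with a label above `a`. -/
theorem mix_edge (hw : Function.Injective w) (hf : IsPa (MT Set.univ ∅ w) f L)
    (hadj : Adj (f 0) (f L)) {l : ℕ} (h0 : 0 < l) (hl : l < L) (ha : a < w (f l))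
    (ho : ∀ i ≤ L, w (f i) ≤ b) (hd : 1 ≤ d) (hd1 : d < nrm (f l - f 0))
    (hd2 : d < nrm (f l - f L)) : Mixed a b (f 0) d w ∨ Mixed a b (f L) d w := by
  have hnot : ¬ MT Set.univ ∅ w (f 0) (f L) := by
    intro hm
    refine tree_vertex hw hf h0 hl (Relation.ReflTransGen.single ⟨hm, fun h => ?_, fun h => ?_⟩)
    · have := hf.inj 0 l (by omega) (by omega) h
      omega
    · have := hf.inj L l (by omega) (by omega) h
      omega
  have hjd : Jd Set.univ ∅ w (EL w (f 0) (f L)) (f 0) (f L) := by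
    by_contra hc
    exact hnot ⟨hadj, trivial, trivial, hc⟩
  have hbig : w (f l) ≤ max (w (f 0)) (w (f L)) := by
    have := minimax hw (hf.mono fun _ _ h => Or.inl h) hjd hl (hf.step l hl)
    exact (le_max_left _ _).trans (max_le_of_EL_lt this)
  have e1 : nrm (f 1 - f 0) = 1 := nrm_adj_one (adj_of hf (by omega))
  have e2 : nrm (f L - f 0) = 1 := nrm_adj_one hadj
  have e3 : nrm (f 0 - f L) = 1 := nrm_adj_one hadj.symm
  have e4 : nrm (f (L - 1) - f L) = 1 := by
    have := (adj_of hf (show L - 1 < L by omega)).symm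
    rw [show L - 1 + 1 = L by omega] at this
    exact nrm_adj_one this
  rcases lt_max_iff.1 (ha.trans_le hbig) with h | h
  · left
    obtain ⟨i1, k1, k2, k3, k4⟩ := hit_up_first (fun i => nrm (f i - f 0)) (n := d)
      (s := 1) (t := l) (by omega) (fun i _ hi => (nrm_step hf _ (by omega)).2)
      (by omega) hd1.le
    obtain ⟨i2, k5, k6, k7, k8⟩ := hit_down_last (fun i => nrm (f i - f 0)) (n := d)
      (s := l) (t := L) (by omega) (fun i _ hi => (nrm_step hf _ (by omega)).1) hd1.le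
      (by omega)
    have k9 : i1 ≠ l := by
      rintro rfl
      omega
    have k10 : i2 ≠ l := by
      rintro rfl
      omega
    refine mixed_of hw hf (p1 := 1) (q1 := i1) (l := l) (p2 := i2) (q2 := L) k1 (by omega)
      (by omega) k6 le_rfl ha h (ho 0 (by omega)) ?_ ?_ ?_ ?_ ?_
    · intro i hi
      have h4 : nrm (f i - f 0) ≤ d := by
        rcases hi with hi | hi
        · rcases Nat.eq_or_lt_of_le hi.2 with h5 | h5
          · rw [h5]
            exact k3.le
          · exact (k4 i hi.1 h5).le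
        · rcases Nat.eq_or_lt_of_le hi.1 with h5 | h5
          · rw [← h5]
            exact k7.le
          · exact (k8 i h5 hi.2).le
      refine ⟨ho i (by omega), h4, fun h5 => ?_⟩
      have := hf.inj i 0 (by omega) (by omega) h5
      omega
    · exact ⟨1, le_rfl, k1, adj_of hf (by omega)⟩
    · exact ⟨i1, k1, le_rfl, k3⟩
    · exact ⟨L, k6, le_rfl, hadj⟩
    · exact ⟨i2, le_rfl, k6, k7⟩
  · right
    obtain ⟨i1, k1, k2, k3, k4⟩ := hit_up_first (fun i => nrm (f i - f L)) (n := d)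
      (s := 0) (t := l) (by omega) (fun i _ hi => (nrm_step hf _ (by omega)).2)
      (by omega) hd2.le
    obtain ⟨i2, k5, k6, k7, k8⟩ := hit_down_last (fun i => nrm (f i - f L)) (n := d)
      (s := l) (t := L - 1) (by omega) (fun i _ hi => (nrm_step hf _ (by omega)).1) hd2.le
      (by omega)
    have k9 : i1 ≠ l := by
      rintro rfl
      omega
    have k10 : i2 ≠ l := by
      rintro rfl
      omega
    refine mixed_of hw hf (p1 := 0) (q1 := i1) (l := l) (p2 := i2) (q2 := L - 1) k1 (by omega)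
      (by omega) k6 (by omega) ha h (ho L le_rfl) ?_ ?_ ?_ ?_ ?_
    · intro i hi
      have h4 : nrm (f i - f L) ≤ d := by
        rcases hi with hi | hi
        · rcases Nat.eq_or_lt_of_le hi.2 with h5 | h5
          · rw [h5]
            exact k3.le
          · exact (k4 i hi.1 h5).le
        · rcases Nat.eq_or_lt_of_le hi.1 with h5 | h5
          · rw [← h5]
            exact k7.le
          · exact (k8 i h5 hi.2).le
      refine ⟨ho i (by omega), h4, fun h5 => ?_⟩
      have := hf.inj i L (by omega) (by omega) h5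
      omega
    · exact ⟨0, le_rfl, k1, hadj.symm⟩
    · exact ⟨i1, k1, le_rfl, k3⟩
    · refine ⟨L - 1, k6, le_rfl, ?_⟩
      have := (adj_of hf (show L - 1 < L by omega)).symm
      rwa [show L - 1 + 1 = L by omega] at this
    · exact ⟨i2, le_rfl, k6, k7⟩

/-- Strict arms do not touch in an annulus without mixed vertices. -/
theorem strict_sep (hw : Function.Injective w) (hf : IsPa (MT Set.univ ∅ w) f L) {i k j : ℕ}
    (hik : i < k) (hkj : k < j) (hj : j ≤ L) {m n r1 R : ℤ} (hi1 : nrm (f i) ≤ n)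
    (hk : R < nrm (f k)) (hd : 1 ≤ d) (hn : n + d < r1) (hr : r1 ≤ R)
    (hblock : ¬ Arm (Op a w) 0 r1 R) (hfin : (comp (Op p w) (f i)).Finite) (hpb : p ≤ b)
    (hmix : ∀ v ∈ Ann 0 m n, ¬ Mixed a b v d w) :
    ¬ Conn (Op p w ∩ Ann 0 m n) (f i) (f j) := by
  intro hconn
  -- a vertex of the block with a label above `a`
  obtain ⟨l, hl1, hl2, hl3, hl4⟩ : ∃ l, i ≤ l ∧ l ≤ k ∧ r1 ≤ nrm (f l) ∧ a < w (f l) := by
    by_contra hc
    apply hblock
    have h1 : Conn {v | r1 ≤ nrm v → w v ≤ a} (f i) (f k) := by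
      refine conn_seg hik.le (fun q _ hq => adj_of hf (by omega)) fun q hq1 hq2 hq3 => ?_
      by_contra hq4
      exact hc ⟨q, hq1, hq2, hq3, not_le.1 hq4⟩
    have h2 : Arm {v | r1 ≤ nrm v → w v ≤ a} 0 r1 R := by
      refine arm_of_conn h1 ?_ ?_ hr
      · rw [sub_zero]
        omega
      · rw [sub_zero]
        omega
    refine Join.mono h2 ?_ subset_rfl subset_rfl
    rintro v ⟨hv1, hv2⟩
    refine ⟨hv1 ?_, hv2⟩
    have := hv2.1
    rwa [sub_zero] at this
  have hil : i < l := by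
    rcases Nat.eq_or_lt_of_le hl1 with h | h
    · rw [← h] at hl3
      omega
    · exact h
  -- all adjacent pairs of the connection have tree paths which avoid `f l`
  have hTA : ∀ u u', u ∈ comp (Op p w) (f i) → u ∈ Ann 0 m n → u' ∈ comp (Op p w) (f i) →
      u' ∈ Ann 0 m n → Adj u u' → Relation.ReflTransGen
        (fun x y => MT Set.univ ∅ w x y ∧ x ≠ f l ∧ y ≠ f l) u u' := by
    intro u u' hu1 hu2 hu1' hu2' huu
    obtain ⟨τ, K, τ0, τK, hτ, hτp⟩ := tpath hfin hu1 hu1'
    by_cases hc : ∃ q ≤ K, τ q = f l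
    · exfalso
      obtain ⟨q, hq, hql⟩ := hc
      have hun : nrm u ≤ n := by
        have := hu2.2
        rwa [sub_zero] at this
      have hun' : nrm u' ≤ n := by
        have := hu2'.2
        rwa [sub_zero] at this
      have g1 : d < nrm (f l - u) := by
        have := nrm_add (f l - u) u
        rw [sub_add_cancel] at this
        omega
      have g2 : d < nrm (f l - u') := by
        have := nrm_add (f l - u') u'
        rw [sub_add_cancel] at this
        omega
      have q0 : q ≠ 0 := by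
        rintro rfl
        rw [τ0] at hql
        rw [hql, sub_self, nrm_zero_iff.2 rfl] at g1
        omega
      have qK : q ≠ K := by
        rintro rfl
        rw [τK] at hql
        rw [hql, sub_self, nrm_zero_iff.2 rfl] at g2
        omega
      have h5 := mix_edge (a := a) (b := b) (d := d) hw hτ (by rw [τ0, τK]; exact huu) (l := q)
        (by omega) (by omega) (by rw [hql]; exact hl4)
        (fun i hi => (comp_subset (hτp i hi) : w (τ i) ≤ p).trans hpb) hd
        (by rw [hql, τ0]; exact g1) (by rw [hql, τK]; exact g2)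
      rw [τ0, τK] at h5
      rcases h5 with h5 | h5
      · exact hmix u hu2 h5
      · exact hmix u' hu2' h5
    · have h5 : ∀ q ≤ K, τ q ≠ f l := fun q hq hql => hc ⟨q, hq, hql⟩
      rw [← τ0, ← τK]
      exact rtg_seg (Nat.zero_le K) fun q _ hq => ⟨hτ.step q hq, h5 q hq.le, h5 (q + 1) hq⟩
  have hall : Relation.ReflTransGen
      (fun x y => MT Set.univ ∅ w x y ∧ x ≠ f l ∧ y ≠ f l) (f i) (f j) := by
    obtain ⟨hx, hr'⟩ := hconn
    have key : ∀ u, Relation.ReflTransGen (fun x y => Adj x y ∧ y ∈ Op p w ∩ Ann 0 m n) (f i) u →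
        u ∈ comp (Op p w) (f i) ∧ u ∈ Ann 0 m n ∧ Relation.ReflTransGen
          (fun x y => MT Set.univ ∅ w x y ∧ x ≠ f l ∧ y ≠ f l) (f i) u := by
      intro u hu
      induction hu with
      | refl => exact ⟨Conn.refl hx.1, hx.2, Relation.ReflTransGen.refl⟩
      | @tail b c _ hbc ih =>
        have hc : c ∈ comp (Op p w) (f i) := comp_adj ih.1 hbc.2.1 hbc.1
        exact ⟨hc, hbc.2.2, ih.2.2.trans (hTA b c ih.1 ih.2.1 hc hbc.2.2 hbc.1)⟩
    exact (key (f j) hr').2.2
  have h6 := hf.sub (s := i) (t := j) (by omega) hj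
  refine tree_vertex hw h6 (i := l - i) (by omega) (by omega) ?_
  simp only [Nat.add_zero]
  rw [show i + (l - i) = l by omega, show i + (j - i) = j by omega]
  exact hall

end Pool.Agent.MST
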