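import Pool.Agent.MST.Dbl
import Pool.Agent.MST.JBall
import Pool.Agent.MST.MixP

/-!
# Excursions of a tree path into a ball

`exc`: a tree path which is outside the ball of radius `n` at the times `s < e` and inside the ball
of radius `m - 1` at a time `t` between has an excursion `s' < u1 < t < u2 < e'` round `t`: a part
in the ball of radius `n`, which begins and ends on the circle of radius `n`; the parts `[s', u1]`
and `[u2, e']` are crossings of the annulus `Ann 0 m n`.

`dbl_exc`: the root paths of the ends of an excursion are disjoint.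
-/

namespace Pool.Agent.MST

open Pool.Agent.TriPerc

variable {w : Lab} {f : ℕ → V} {L : ℕ} {m n : ℤ} {s t e : ℕ}

theorem nrm_step0 {A W : Set V} (hf : IsPa (MT A W w) f L) {i : ℕ} (hi : i < L) :
    nrm (f i) - 1 ≤ nrm (f (i + 1)) ∧ nrm (f (i + 1)) ≤ nrm (f i) + 1 := by
  have := nrm_step hf 0 hi
  rwa [sub_zero, sub_zero] at this

/-- An excursion round the time `t`. -/
structure IsExc (f : ℕ → V) (m n : ℤ) (s t e s' u1 u2 e' : ℕ) : Prop where
  h1 : s ≤ s'
  h2 : s' < u1
  h3 : u1 < t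
  h4 : t < u2
  h5 : u2 < e'
  h6 : e' ≤ e
  ns : nrm (f s') = n
  nu1 : nrm (f u1) = m
  nu2 : nrm (f u2) = m
  ne : nrm (f e') = n
  ball : ∀ i, s' ≤ i → i ≤ e' → nrm (f i) ≤ n
  up1 : ∀ i, s' ≤ i → i < u1 → m < nrm (f i)
  up2 : ∀ i, u2 < i → i ≤ e' → m < nrm (f i)

theorem exc {A W : Set V} (hf : IsPa (MT A W w) f L) (hmn : m < n) (hst : s < t) (hte : t < e)
    (he : e ≤ L) (ks : n < nrm (f s)) (kt : nrm (f t) < m) (ke : n < nrm (f e)) :
    ∃ s' u1 u2 e', IsExc f m n s t e s' u1 u2 e' := by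
  obtain ⟨s', a1, a2, a3, a4⟩ := hit_down_last (fun i => nrm (f i)) (n := n) hst.le
    (fun i _ hi => (nrm_step0 hf (by omega)).1) ks.le (by omega)
  obtain ⟨u1, b1, b2, b3, b4⟩ := hit_down_first (fun i => nrm (f i)) (n := m) a2
    (fun i _ hi => (nrm_step0 hf (by omega)).1) (by omega) kt.le
  obtain ⟨e', c1, c2, c3, c4⟩ := hit_up_first (fun i => nrm (f i)) (n := n) hte.le
    (fun i _ hi => (nrm_step0 hf (by omega)).2) (by omega) ke.le
  obtain ⟨u2, d1, d2, d3, d4⟩ := hit_up_last (fun i => nrm (f i)) (n := m) c1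
    (fun i _ hi => (nrm_step0 hf (by omega)).2) kt.le (by omega)
  have e1 : s' ≠ u1 := by
    rintro rfl
    omega
  have e2 : u1 ≠ t := by
    rintro rfl
    omega
  have e3 : t ≠ u2 := by
    rintro rfl
    omega
  have e4 : u2 ≠ e' := by
    rintro rfl
    omega
  refine ⟨s', u1, u2, e', ⟨a1, by omega, by omega, by omega, by omega, c2, a3, b3, d3, c3, ?_,
    b4, d4⟩⟩
  intro i i1 i2
  rcases le_or_gt i t with h | h
  · rcases Nat.eq_or_lt_of_le i1 with h' | h'
    · rw [← h']
      exact a3.le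
    · exact (a4 i h' h).le
  · rcases Nat.eq_or_lt_of_le i2 with h' | h'
    · rw [h']
      exact c3.le
    · exact (c4 i h.le h').le

variable {s' u1 u2 e' : ℕ}

theorem IsExc.ann1 (h : IsExc f m n s t e s' u1 u2 e') {i : ℕ} (h1 : s' ≤ i) (h2 : i ≤ u1) :
    f i ∈ Ann 0 m n := by
  have h3 := h.h3
  have h4 := h.h4
  have h5 := h.h5
  refine mem_ann0.2 ⟨?_, h.ball i h1 (by omega)⟩
  rcases Nat.eq_or_lt_of_le h2 with h' | h'
  · rw [h', h.nu1]
  · exact (h.up1 i h1 h').le

theorem IsExc.ann2 (h : IsExc f m n s t e s' u1 u2 e') {i : ℕ} (h1 : u2 ≤ i) (h2 : i ≤ e') :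
    f i ∈ Ann 0 m n := by
  have h3 := h.h3
  have h4 := h.h4
  have h5 := h.h2
  refine mem_ann0.2 ⟨?_, h.ball i (by omega) h2⟩
  rcases Nat.eq_or_lt_of_le h1 with h' | h'
  · rw [← h', h.nu2]
  · exact (h.up2 i h' h2).le

/-- The root paths of the two ends of an excursion are disjoint. -/
theorem dbl_exc (hw : Function.Injective w) (hf : IsPa (MT Set.univ ∅ w) f L) (he : e ≤ L)
    (h : IsExc f m n s t e s' u1 u2 e') :
    Dbl (Ann 0 m n) (Cir m) w (f s') (f e') ∧ Dbl (Ann 0 m n) (Cir m) w (f e') (f s') := by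
  have g2 := h.h2
  have g3 := h.h3
  have g4 := h.h4
  have g5 := h.h5
  have g6 := h.h6
  have hadj : ∀ i, i < L → Adj (f i) (f (i + 1)) := fun i hi => adj_of hf hi
  obtain ⟨p, k, hp⟩ := root_exists (w := w) (W := Cir m) (finite_ann 0 m n) h.nu1
    (conn_seg (S := Ann 0 m n) g2.le (fun i _ hi => hadj i (by omega))
      fun i i1 i2 => h.ann1 i1 i2)
  obtain ⟨p', k', hp'⟩ := root_exists (w := w) (W := Cir m) (finite_ann 0 m n) h.nu2
    (conn_seg (S := Ann 0 m n) g5.le (fun i _ hi => hadj i (by omega))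
      fun i i1 i2 => h.ann2 i1 i2).symm
  have hσ := (hf.sub (s := s') (t := e') (by omega) (by omega)).mono
    (R' := MJ Set.univ ∅ w) fun _ _ h => Or.inl h
  have hstep : ∀ i, i < e' - s' → MT Set.univ ∅ w (f (s' + i)) (f (s' + (i + 1))) := by
    intro i hi
    have := hf.step (s' + i) (by omega)
    rwa [add_assoc] at this
  have key : ∀ i ≤ k, ∀ j ≤ k', p i ≠ p' j := by
    intro i hi j hj hij
    refine dbl (A := Set.univ) (W := ∅) (A' := Ann 0 m n) (W' := Cir m)
      (σ := fun i => f (s' + i)) (N := e' - s') (u1 := u1 - s') (u2 := u2 - s') hw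
      (Set.subset_univ _) hσ (by omega) (by omega) (fun q hq => hstep q (by omega))
      (fun q _ hq => hstep q hq) (fun q hq => h.ann1 (by omega) (by omega))
      (fun q hq1 hq2 => h.ann2 (by omega) (by omega)) ?_ ?_ (f := p) (f' := p') (n := k)
      (n' := k') ?_ ?_ hi hj hij
    · change nrm (f (s' + (u1 - s'))) = m
      rw [show s' + (u1 - s') = u1 by omega]
      exact h.nu1
    · change nrm (f (s' + (u2 - s'))) = m
      rw [show s' + (u2 - s') = u2 by omega]
      exact h.nu2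
    · simp only [Nat.add_zero]
      exact hp
    · rw [show s' + (e' - s') = e' by omega]
      exact hp'
  exact ⟨⟨p, k, p', k', hp, hp', key⟩, ⟨p', k', p, k, hp', hp, fun i hi j hj hij =>
    key j hj i hi hij.symm⟩⟩

end Pool.Agent.MST
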