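import Pool.Agent.MST.EvEF

/-!
# `E_F` with a further crossing cluster

`ef_extra`: the probability that `E_F` holds for some witnesses `z 0, ..., z 5` and that there is a
further crossing cluster, which contains none of the witnesses, is at most
`128 P (Arm) P (E_F)`, if `P (Arm) ≤ 1 / 2`.

PROOF.  `CZ w z` is the union of the clusters of the witnesses.  `z` is canonical if `E_F` holds
for `z` and the code of `z` is minimal among the witnesses with the same `CZ`.  This depends only on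
the labels in `c = CZ w z` and its boundary, so for a fixed `z` the probability that `z` is
canonical and there is a further crossing cluster is at most `P (Arm) P (z canonical)`.  If there
is no further crossing cluster for one canonical `z`, the number of canonical `z` is at most
`2 ^ 6`.  Hence the expected number of canonical `z` is at most `128 P (E_F)`.
-/

namespace Pool.Agent.MST

open Pool.Agent.TriPerc MeasureTheory Set

open scoped ENNReal

variable {A W c : Set V} {w w' : Lab} {p : ℝ} {m n : ℤ} {z z' : Fin 6 → V}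

/-- The conditions of `EF` for given witnesses. -/
def EFz (p : ℝ) (m n : ℤ) (w : Lab) (z : Fin 6 → V) : Prop :=
  (∀ i, nrm (z i) = n) ∧
    (∀ i, ∃ y, nrm y = m ∧ Conn (Op p w ∩ Ann 0 m n) (z i) y) ∧
    Dbl (Ann 0 m n) (Cir m) w (z 1) (z 2) ∧ Dbl (Ann 0 m n) (Cir m) w (z 4) (z 5) ∧
    (∀ i j, grp i ≠ grp j → ¬ Conn (Op p w ∩ Ann 0 m n) (z i) (z j)) ∧
    SepC n (z 0) (z 3) (z 1) (z 4) ∧ SepC n (z 0) (z 3) (z 1) (z 5) ∧
    SepC n (z 0) (z 3) (z 2) (z 4) ∧ SepC n (z 0) (z 3) (z 2) (z 5)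

theorem ef_iff : EF p m n w ↔ ∃ z, EFz p m n w z := Iff.rfl

/-- The vertex `y` of the outer circle belongs to a crossing cluster. -/
def Crs (p : ℝ) (m n : ℤ) (w : Lab) (y : V) : Prop :=
  nrm y = n ∧ ∃ y', nrm y' = m ∧ Conn (Op p w ∩ Ann 0 m n) y y'

/-! ### The tree in a union of clusters -/

private def IsCl (p : ℝ) (A : Set V) (w : Lab) (c : Set V) : Prop :=
  c ⊆ Op p w ∩ A ∧ ∀ x ∈ c, ∀ y ∈ Op p w ∩ A, Adj x y → y ∈ c

private theorem jd_tr (hc : IsCl p A w' c) (h : ∀ u ∈ c, ∀ v ∈ c, w u ≤ w v ↔ w' u ≤ w' v)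
    {x y u v : V} (hx : x ∈ c) (hy : y ∈ c) (hu : u ∈ c) (hj : Jd A W w' (EL w' x y) u v) :
    (v ∈ c ∧ Jd A W w (EL w x y) u v) ∨ ∃ q ∈ W, Jd A W w (EL w x y) u q := by
  induction hj with
  | refl => exact Or.inl ⟨hu, Relation.ReflTransGen.refl⟩
  | @tail a b _ hab ih =>
    rcases ih with ⟨ha, hj⟩ | ih
    · rcases hab with ⟨h1, h2, h3, h4⟩ | ⟨h1, h2⟩
      · have h5 := max_le_of_EL_lt h4
        have h6 : max (w' x) (w' y) ≤ p := max_le (hc.1 hx).1 (hc.1 hy).1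
        have h7 : b ∈ c := hc.2 a ha b ⟨(le_max_right _ _).trans (h5.trans h6), h3⟩ h1
        exact Or.inl ⟨h7, hj.tail (Or.inl ⟨h1, h2, h3, (el_lt_congr h ha h7 hx hy).2 h4⟩)⟩
      · exact Or.inr ⟨a, h1, hj⟩
    · exact Or.inr ih

private theorem mt_tr (hc : IsCl p A w' c) (h : ∀ u ∈ c, ∀ v ∈ c, w u ≤ w v ↔ w' u ≤ w' v)
    {x y : V} (hx : x ∈ c) (hy : y ∈ c) (hm : MT A W w x y) : MT A W w' x y := by
  refine ⟨hm.1, hm.2.1, hm.2.2.1, fun hj => hm.2.2.2 ?_⟩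
  rcases jd_tr hc h hx hy hx hj with ⟨-, h1⟩ | ⟨q, hq, h1⟩
  · exact h1
  · rcases jd_tr hc h hx hy hy hj.symm with ⟨-, h2⟩ | ⟨q', hq', h2⟩
    · exact h2.symm
    · exact (h1.tail (Or.inr ⟨hq, hq'⟩)).trans h2.symm

private theorem root_tr (hc : IsCl p A w' c) (h : ∀ u ∈ c, ∀ v ∈ c, w u ≤ w v ↔ w' u ≤ w' v)
    {x : V} {f : ℕ → V} {k : ℕ} (hr : IsRoot A W w x f k) (hf : ∀ i ≤ k, f i ∈ c) :
    IsRoot A W w' x f k :=
  ⟨⟨fun i hi => mt_tr hc h (hf i hi.le) (hf (i + 1) (by omega)) (hr.path.step i hi),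
    hr.path.inj⟩, hr.start, hr.last, hr.before⟩

/-- `Dbl` with root paths in the clusters. -/
private def DblO (p : ℝ) (A W : Set V) (w : Lab) (x y : V) : Prop :=
  ∃ (f : ℕ → V) (k : ℕ) (f' : ℕ → V) (k' : ℕ), IsRoot A W w x f k ∧ IsRoot A W w y f' k' ∧
    (∀ i ≤ k, f i ∈ comp (Op p w ∩ A) x) ∧ (∀ i ≤ k', f' i ∈ comp (Op p w ∩ A) y) ∧
    ∀ i ≤ k, ∀ j ≤ k', f i ≠ f' j

private theorem root_in (hw : Function.Injective w) {x y : V} {f : ℕ → V} {k : ℕ}
    (hr : IsRoot A W w x f k) (hy : y ∈ W) (h : Conn (Op p w ∩ A) x y) :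
    ∀ i ≤ k, f i ∈ comp (Op p w ∩ A) x := by
  have h1 : ∀ i ≤ k, f i ∈ Op p w ∩ A := fun i hi =>
    ⟨root_open hw hr hy h hi, hr.mem h.left.2 hi⟩
  intro i hi
  have h2 := Conn.of_walk (S := Op p w ∩ A) (f := f) (n := i)
    (fun j hj => (hr.path.step j (by omega)).1) fun j hj => h1 j (by omega)
  rwa [hr.start] at h2

private theorem dblo_of (hw : Function.Injective w) {x y x' y' : V} (hx' : x' ∈ W) (hy' : y' ∈ W)
    (h1 : Conn (Op p w ∩ A) x x') (h2 : Conn (Op p w ∩ A) y y') (h : Dbl A W w x y) :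
    DblO p A W w x y := by
  obtain ⟨f, k, f', k', r1, r2, r3⟩ := h
  exact ⟨f, k, f', k', r1, r2, root_in hw r1 hx' h1, root_in hw r2 hy' h2, r3⟩

private theorem dbl_of {x y : V} (h : DblO p A W w x y) : Dbl A W w x y := by
  obtain ⟨f, k, f', k', r1, r2, -, -, r3⟩ := h
  exact ⟨f, k, f', k', r1, r2, r3⟩

private def EFo (p : ℝ) (m n : ℤ) (w : Lab) (z : Fin 6 → V) : Prop :=
  (∀ i, nrm (z i) = n) ∧
    (∀ i, ∃ y, nrm y = m ∧ Conn (Op p w ∩ Ann 0 m n) (z i) y) ∧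
    DblO p (Ann 0 m n) (Cir m) w (z 1) (z 2) ∧ DblO p (Ann 0 m n) (Cir m) w (z 4) (z 5) ∧
    (∀ i j, grp i ≠ grp j → ¬ Conn (Op p w ∩ Ann 0 m n) (z i) (z j)) ∧
    SepC n (z 0) (z 3) (z 1) (z 4) ∧ SepC n (z 0) (z 3) (z 1) (z 5) ∧
    SepC n (z 0) (z 3) (z 2) (z 4) ∧ SepC n (z 0) (z 3) (z 2) (z 5)

private theorem efo_of (hw : Function.Injective w) (h : EFz p m n w z) : EFo p m n w z := by
  obtain ⟨h1, h2, h3, h4, h5⟩ := h
  obtain ⟨y1, a1, b1⟩ := h2 1
  obtain ⟨y2, a2, b2⟩ := h2 2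
  obtain ⟨y4, a4, b4⟩ := h2 4
  obtain ⟨y5, a5, b5⟩ := h2 5
  exact ⟨h1, h2, dblo_of hw a1 a2 b1 b2 h3, dblo_of hw a4 a5 b4 b5 h4, h5⟩

private theorem efz_of (h : EFo p m n w z) : EFz p m n w z := by
  obtain ⟨h1, h2, h3, h4, h5⟩ := h
  exact ⟨h1, h2, dbl_of h3, dbl_of h4, h5⟩

/-- The union of the clusters of the witnesses. -/
private def CZ (p : ℝ) (m n : ℤ) (w : Lab) (z : Fin 6 → V) : Set V :=
  clus (Op p w ∩ Ann 0 m n) (range z)

private theorem cz_cl : IsCl p (Ann 0 m n) w (CZ p m n w z) :=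
  ⟨clus_subset, fun _ hx _ hy h => clus_adj hx hy h⟩

private theorem mem_cz (h : EFo p m n w z) (i : Fin 6) : z i ∈ CZ p m n w z := by
  obtain ⟨y, -, hy⟩ := h.2.1 i
  exact ⟨z i, ⟨i, rfl⟩, Conn.refl hy.left⟩

private theorem conn_cz {x y : V} (hx : x ∈ CZ p m n w z) (h : Conn (Op p w ∩ Ann 0 m n) x y) :
    Conn (CZ p m n w z) x y := by
  obtain ⟨u, hu, h1⟩ := hx
  exact h.in_comp.mono fun v hv => ⟨u, hu, h1.trans hv⟩

/-- Everything depends only on the labels in the clusters and their boundary. -/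
private theorem efo_tr (hC : CZ p m n w z = c)
    (h1 : ∀ u ∈ Ann 0 m n ∩ (c ∪ bd c), ∀ v ∈ Ann 0 m n ∩ (c ∪ bd c), w u ≤ w v ↔ w' u ≤ w' v)
    (h2 : ∀ u ∈ Ann 0 m n ∩ (c ∪ bd c), w u ≤ p ↔ w' u ≤ p) (h : EFo p m n w z) :
    CZ p m n w' z = c ∧ EFo p m n w' z := by
  have hcA : ∀ u ∈ c, u ∈ Op p w ∩ Ann 0 m n := fun u hu => by
    rw [← hC] at hu
    exact clus_subset hu
  have hcs : ∀ u ∈ c, u ∈ Ann 0 m n ∩ (c ∪ bd c) := fun u hu => ⟨(hcA u hu).2, Or.inl hu⟩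
  have hcO : c ⊆ Op p w' ∩ Ann 0 m n := fun u hu =>
    ⟨(h2 u (hcs u hu)).1 (hcA u hu).1, (hcA u hu).2⟩
  have hzc : ∀ i, z i ∈ c := fun i => by
    rw [← hC]
    exact mem_cz h i
  have hC' : CZ p m n w' z = c := by
    refine clus_eq hcO (fun x hx => ?_) fun x hx hxc => ⟨?_, ?_⟩
    · have h3 : x ∈ clus (Op p w ∩ Ann 0 m n) (range z) := by
        rw [← hC] at hx
        exact hx
      have h4 := clus_conn h3
      rwa [show clus (Op p w ∩ Ann 0 m n) (range z) = c from hC] at h4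
    · rintro ⟨i, rfl⟩
      exact hxc (hzc i)
    · intro k hk hkx
      apply hxc
      have h3 : x ∈ Ann 0 m n ∩ (c ∪ bd c) := ⟨hx.2, Or.inr ⟨hxc, k, hk, hkx⟩⟩
      have h4 : x ∈ Op p w ∩ Ann 0 m n := ⟨(h2 x h3).2 hx.1, hx.2⟩
      rw [← hC] at hk ⊢
      exact clus_adj hk h4 hkx
  refine ⟨hC', ?_⟩
  have hconn : ∀ i y, Conn (Op p w ∩ Ann 0 m n) (z i) y ↔
      Conn (Op p w' ∩ Ann 0 m n) (z i) y := by
    intro i y
    constructor
    · intro h3
      have h4 := conn_cz (mem_cz h i) h3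
      rw [hC] at h4
      exact h4.mono hcO
    · intro h3
      have h4 := conn_cz (z := z) (w := w') (by rw [hC']; exact hzc i) h3
      rw [hC'] at h4
      exact h4.mono fun u hu => hcA u hu
  have hcl : IsCl p (Ann 0 m n) w' c := by
    rw [← hC']
    exact cz_cl
  have ho : ∀ u ∈ c, ∀ v ∈ c, w u ≤ w v ↔ w' u ≤ w' v := fun u hu v hv =>
    h1 u (hcs u hu) v (hcs v hv)
  have hcomp : ∀ i, comp (Op p w ∩ Ann 0 m n) (z i) ⊆ c := by
    intro i x hx
    rw [← hC]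
    exact ⟨z i, ⟨i, rfl⟩, hx⟩
  have hdbl : ∀ i j, DblO p (Ann 0 m n) (Cir m) w (z i) (z j) →
      DblO p (Ann 0 m n) (Cir m) w' (z i) (z j) := by
    rintro i j ⟨f, k, f', k', r1, r2, r3, r4, r5⟩
    exact ⟨f, k, f', k', root_tr hcl ho r1 fun q hq => hcomp i (r3 q hq),
      root_tr hcl ho r2 fun q hq => hcomp j (r4 q hq),
      fun q hq => (hconn i _).1 (r3 q hq), fun q hq => (hconn j _).1 (r4 q hq), r5⟩
  obtain ⟨g1, g2, g3, g4, g5, g6⟩ := h
  refine ⟨g1, fun i => ?_, hdbl 1 2 g3, hdbl 4 5 g4, fun i j hij h3 => g5 i j hij ?_, g6⟩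
  · obtain ⟨y, hy1, hy2⟩ := g2 i
    exact ⟨y, hy1, (hconn i y).1 hy2⟩
  · exact (hconn i _).2 h3

private theorem ev_ez (p : ℝ) (m n : ℤ) (z : Fin 6 → V) (c : Set V) :
    Ev (Ann 0 m n ∩ (c ∪ bd c)) {w | CZ p m n w z = c ∧ EFo p m n w z} := by
  refine ev_order_lev ((finite_ann 0 m n).subset inter_subset_left) {p} fun w w' h hp hw => ?_
  exact efo_tr hw.1 h (hp p (Finset.mem_singleton_self p)) hw.2

/-! ### Canonical witnesses -/

private def Can (p : ℝ) (m n : ℤ) (w : Lab) (z : Fin 6 → V) : Prop :=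
  EFo p m n w z ∧ ∀ z', Encodable.encode z' < Encodable.encode z →
    ¬ (CZ p m n w z' = CZ p m n w z ∧ EFo p m n w z')

private theorem can_ex (h : EFo p m n w z) : ∃ z', Can p m n w z' ∧
    CZ p m n w z' = CZ p m n w z := by
  classical
  have hex : ∃ k : ℕ, ∃ z', Encodable.encode z' = k ∧ CZ p m n w z' = CZ p m n w z ∧
      EFo p m n w z' := ⟨_, z, rfl, rfl, h⟩
  obtain ⟨z', h1, h2, h3⟩ := Nat.find_spec hex
  refine ⟨z', ⟨h3, fun z'' h4 h5 => ?_⟩, h2⟩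
  rw [h1] at h4
  exact Nat.find_min hex h4 ⟨z'', rfl, h5.1.trans h2, h5.2⟩

private theorem can_inj (h : Can p m n w z) (h' : Can p m n w z')
    (hC : CZ p m n w z = CZ p m n w z') : z = z' := by
  rcases lt_trichotomy (Encodable.encode z) (Encodable.encode z') with h1 | h1 | h1
  · exact absurd ⟨hC, h.1⟩ (h'.2 z h1)
  · exact Encodable.encode_injective h1
  · exact absurd ⟨hC.symm, h'.1⟩ (h.2 z' h1)

private theorem ev_can (p : ℝ) (m n : ℤ) (z : Fin 6 → V) (c : Set V) :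
    Ev (Ann 0 m n ∩ (c ∪ bd c)) {w | CZ p m n w z = c ∧ Can p m n w z} := by
  have e : {w | CZ p m n w z = c ∧ Can p m n w z} = {w | CZ p m n w z = c ∧ EFo p m n w z} ∩
      (⋃ z' : {z' : Fin 6 → V // Encodable.encode z' < Encodable.encode z},
        {w | CZ p m n w z'.1 = c ∧ EFo p m n w z'.1})ᶜ := by
    ext w
    simp only [Can, mem_inter_iff, mem_compl_iff, mem_iUnion, mem_ofPred_eq, Subtype.exists,
      not_exists]
    constructor
    · rintro ⟨h1, h2, h3⟩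
      refine ⟨⟨h1, h2⟩, fun z' h4 h5 => h3 z' h4 ⟨h5.1.trans h1.symm, h5.2⟩⟩
    · rintro ⟨⟨h1, h2⟩, h3⟩
      refine ⟨h1, h2, fun z' h4 h5 => h3 z' h4 ⟨h5.1.trans h1, h5.2⟩⟩
  rw [e]
  exact (ev_ez p m n z c).inter (Ev.iUnion (A := fun
    z' : {z' : Fin 6 → V // Encodable.encode z' < Encodable.encode z} =>
    {w | CZ p m n w z'.1 = c ∧ EFo p m n w z'.1}) fun z' => ev_ez p m n z'.1 c).compl

/-- If there is no crossing cluster outside `CZ w z`, there are at most `64` canonical witnesses. -/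
private theorem can_card (hno : ∀ y, Crs p m n w y → y ∈ CZ p m n w z)
    (Z : Finset (Fin 6 → V)) (hZ : ∀ z' ∈ Z, Can p m n w z') : Z.card ≤ 64 := by
  classical
  have h1 : Z.card ≤ (Finset.univ : Finset (Finset (Fin 6))).card := by
    refine Finset.card_le_card_of_injOn
      (fun z' => Finset.univ.filter fun j : Fin 6 => z j ∈ CZ p m n w z') (fun _ _ => by simp) ?_
    have key : ∀ z1 ∈ Z, ∀ z2 ∈ Z, (∀ j, z j ∈ CZ p m n w z1 → z j ∈ CZ p m n w z2) →
        CZ p m n w z1 ⊆ CZ p m n w z2 := by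
      intro z1 h1 z2 h2 hj x hx
      obtain ⟨u, ⟨i, rfl⟩, hu⟩ := hx
      obtain ⟨y, hy1, hy2⟩ := (hZ z1 h1).1.2.1 i
      obtain ⟨u', ⟨j, rfl⟩, hu'⟩ := hno (z1 i) ⟨(hZ z1 h1).1.1 i, y, hy1, hy2⟩
      obtain ⟨v, hv, hv'⟩ := hj j ⟨z1 i, ⟨i, rfl⟩, hu'.symm⟩
      exact ⟨v, hv, hv'.trans (hu'.trans hu)⟩
    intro z1 h1 z2 h2 h12
    have h3 : ∀ j, z j ∈ CZ p m n w z1 ↔ z j ∈ CZ p m n w z2 := by
      intro j
      have h4 := Finset.ext_iff.1 h12 j
      simpa using h4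
    exact can_inj (hZ z1 h1) (hZ z2 h2) (Subset.antisymm
      (key z1 h1 z2 h2 fun j => (h3 j).1) (key z2 h2 z1 h1 fun j => (h3 j).2))
  refine h1.trans (le_of_eq ?_)
  simp [Finset.card_univ]

/-! ### The exploration -/

private theorem ev_arm' (p : ℝ) (m n : ℤ) (c : Set V) :
    Ev (Ann 0 m n \ (c ∪ bd c)) {w | Arm (Op p w \ (c ∪ bd c)) 0 m n} := by
  have h := ev_op (s := Ann 0 m n \ (c ∪ bd c)) ((finite_ann 0 m n).subset sdiff_subset) p
    (fun T => Arm T 0 m n)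
  convert h using 1
  ext w
  have e : Op p w ∩ (Ann 0 m n \ (c ∪ bd c)) ∩ Ann 0 m n =
      (Op p w \ (c ∪ bd c)) ∩ Ann 0 m n := by
    ext v
    simp only [mem_inter_iff, mem_sdiff]
    tauto
  simp only [mem_ofPred_eq, Arm, e]

private theorem cx_le (p : ℝ) (m n : ℤ) (hmn : m ≤ n) (z : Fin 6 → V) :
    P {w | Can p m n w z ∧ ∃ y, Crs p m n w y ∧ y ∉ CZ p m n w z} ≤
      P {w | Arm (Op p w) 0 m n} * P {w | Can p m n w z} := by
  classical
  obtain ⟨F, hF⟩ : ∃ F : Finset (Set V), ∀ c, c ∈ F ↔ c ⊆ Ann 0 m n :=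
    ⟨(finite_ann 0 m n).finite_subsets.toFinset, fun c => by
      rw [Set.Finite.mem_toFinset]
      rfl⟩
  obtain ⟨E, hE⟩ : ∃ E : Set V → Set Lab, ∀ c, E c = {w | CZ p m n w z = c ∧ Can p m n w z} :=
    ⟨_, fun _ => rfl⟩
  obtain ⟨H, hH⟩ : ∃ H : Set V → Set Lab, ∀ c, H c = {w | Arm (Op p w \ (c ∪ bd c)) 0 m n} :=
    ⟨_, fun _ => rfl⟩
  have hCF : ∀ w, CZ p m n w z ∈ F := fun w =>
    (hF _).2 (clus_subset.trans inter_subset_right)
  have h1 : {w | Can p m n w z ∧ ∃ y, Crs p m n w y ∧ y ∉ CZ p m n w z} ⊆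
      ⋃ c ∈ F, E c ∩ H c := by
    rintro w ⟨hw, y, ⟨hy1, y', hy2, hy3⟩, hy4⟩
    refine mem_iUnion₂.2 ⟨CZ p m n w z, hCF w, ?_, ?_⟩
    · rw [hE]
      exact ⟨rfl, hw⟩
    · rw [hH]
      have h2 : Conn (Op p w \ (CZ p m n w z ∪ bd (CZ p m n w z))) y y' := by
        refine hy3.in_comp.mono fun v hv => ?_
        have hvO : v ∈ Op p w ∩ Ann 0 m n := comp_subset hv
        have hvC : v ∉ CZ p m n w z := by
          rintro ⟨u, hu, hu'⟩
          exact hy4 ⟨u, hu, hu'.trans (Conn.symm hv)⟩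
        refine ⟨hvO.1, ?_⟩
        rintro (h3 | ⟨-, u, hu, huv⟩)
        · exact hvC h3
        · exact hvC (clus_adj hu hvO huv)
      exact arm_of_conn h2.symm (by rw [sub_zero]; exact hy2.le) (by rw [sub_zero]; exact hy1.ge)
        hmn
  have h2 : ∀ c ∈ F, P (E c ∩ H c) ≤ P {w | Arm (Op p w) 0 m n} * P (E c) := by
    intro c _
    have h3 : Disjoint (Ann 0 m n ∩ (c ∪ bd c)) (Ann 0 m n \ (c ∪ bd c)) := by
      rw [Set.disjoint_left]
      rintro v ⟨-, h4⟩ ⟨-, h5⟩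
      exact h5 h4
    rw [hE, hH, indep (ev_can p m n z c) (ev_arm' p m n c) h3, mul_comm]
    refine mul_le_mul_left (measure_mono fun w hw => ?_) _
    exact arm_mono sdiff_subset hw
  have h3 : ∑ c ∈ F, P (E c) = P {w | Can p m n w z} := by
    rw [← measure_biUnion_finset]
    · congr 1
      ext w
      simp only [mem_iUnion, exists_prop, mem_ofPred_eq]
      constructor
      · rintro ⟨c, -, hc⟩
        rw [hE] at hc
        exact hc.2
      · intro h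
        exact ⟨_, hCF w, by rw [hE]; exact ⟨rfl, h⟩⟩
    · intro c _ c' _ hcc
      refine Set.disjoint_left.2 fun w h4 h5 => hcc ?_
      rw [hE] at h4 h5
      exact h4.1.symm.trans h5.1
    · intro c _
      rw [hE]
      exact (ev_can p m n z c).1
  calc P {w | Can p m n w z ∧ ∃ y, Crs p m n w y ∧ y ∉ CZ p m n w z}
      ≤ ∑ c ∈ F, P (E c ∩ H c) := (measure_mono h1).trans (measure_biUnion_finset_le F _)
    _ ≤ ∑ c ∈ F, P {w | Arm (Op p w) 0 m n} * P (E c) := Finset.sum_le_sum h2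
    _ = P {w | Arm (Op p w) 0 m n} * P {w | Can p m n w z} := by
        rw [← Finset.mul_sum, h3]

private theorem meas_can (p : ℝ) (m n : ℤ) (z : Fin 6 → V) :
    MeasurableSet {w | Can p m n w z} := by
  have e : {w | Can p m n w z} = ⋃ c ∈ {c | c ⊆ Ann 0 m n},
      {w | CZ p m n w z = c ∧ Can p m n w z} := by
    ext w
    simp only [mem_iUnion, exists_prop, mem_ofPred_eq]
    constructor
    · intro h
      exact ⟨CZ p m n w z, clus_subset.trans inter_subset_right, rfl, h⟩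
    · rintro ⟨c, -, -, h⟩
      exact h
  rw [e]
  exact (finite_ann 0 m n).finite_subsets.measurableSet_biUnion fun c _ => (ev_can p m n z c).1

/-- `E_F` with a further crossing cluster. -/
theorem ef_extra (p : ℝ) {m n : ℤ} (hmn : m ≤ n)
    (ha : P {w | Arm (Op p w) 0 m n} ≤ 1 / 2) :
    P {w | ∃ z, EFz p m n w z ∧ ∃ y, Crs p m n w y ∧
      ∀ i, ¬ Conn (Op p w ∩ Ann 0 m n) (z i) y} ≤
      128 * P {w | Arm (Op p w) 0 m n} * P {w | EF p m n w} := by
  classical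
  obtain ⟨a, haa⟩ : ∃ a : ℝ≥0∞, a = P {w | Arm (Op p w) 0 m n} := ⟨_, rfl⟩
  rw [← haa] at ha ⊢
  obtain ⟨ZF, hZF⟩ : ∃ ZF : Finset (Fin 6 → V), ∀ z : Fin 6 → V, (∀ i, nrm (z i) = n) → z ∈ ZF := by
    refine ⟨Fintype.piFinset fun _ => (finite_ball 0 n).toFinset, fun z hz => ?_⟩
    rw [Fintype.mem_piFinset]
    intro i
    rw [Set.Finite.mem_toFinset]
    change nrm (z i - 0) ≤ n
    rw [sub_zero, hz i]
  obtain ⟨G, hG⟩ : ∃ G : (Fin 6 → V) → Set Lab, ∀ z, G z =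
      {w | Can p m n w z ∧ ∀ y, Crs p m n w y → y ∈ CZ p m n w z} := ⟨_, fun _ => rfl⟩
  have hGm : ∀ z, MeasurableSet (G z) := by
    intro z
    rw [hG]
    have h1 := (ev_op (finite_ann 0 m n) p (fun T => ∀ y, (nrm y = n ∧ ∃ y', nrm y' = m ∧
      Conn T y y') → y ∈ clus T (range z))).1
    exact (meas_can p m n z).inter h1
  have hCan : ∀ z, P {w | Can p m n w z} ≤ 2 * P (G z) := by
    intro z
    obtain ⟨x, hx⟩ : ∃ x : ℝ≥0∞, x = P {w | Can p m n w z} := ⟨_, rfl⟩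
    have hxt : x ≠ ⊤ := by
      rw [hx]
      exact measure_ne_top P _
    have h1 : x ≤ P (G z) + a * x := by
      have h2 : {w | Can p m n w z} ⊆ G z ∪
          {w | Can p m n w z ∧ ∃ y, Crs p m n w y ∧ y ∉ CZ p m n w z} := by
        intro w hw
        by_cases h3 : ∀ y, Crs p m n w y → y ∈ CZ p m n w z
        · left
          rw [hG]
          exact ⟨hw, h3⟩
        · right
          push Not at h3
          exact ⟨hw, h3⟩
      rw [hx, haa]
      exact (measure_mono h2).trans ((measure_union_le _ _).trans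
        (add_le_add le_rfl (cx_le p m n hmn z)))
    have h4 : x / 2 + x / 2 ≤ P (G z) + x / 2 := by
      rw [ENNReal.add_halves]
      refine h1.trans (add_le_add le_rfl ?_)
      calc a * x ≤ 1 / 2 * x := mul_le_mul_left ha x
        _ = x / 2 := by
            rw [one_div, mul_comm, ENNReal.div_eq_inv_mul, mul_comm]
    have h5 : x / 2 ≤ P (G z) := (ENNReal.add_le_add_iff_right
      (ENNReal.div_ne_top hxt (by norm_num))).1 h4
    rw [← hx]
    calc x = 2 * (x / 2) := (ENNReal.mul_div_cancel (by norm_num) (by norm_num)).symm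
      _ ≤ 2 * P (G z) := mul_le_mul_right h5 2
  have hsum : ∑ z ∈ ZF, P (G z) ≤ 64 * P {w | EF p m n w} := by
    have hEm : MeasurableSet {w | EF p m n w} := (ev_ef p m n).1
    have h1 : ∑ z ∈ ZF, P (G z) = ∫⁻ w, ∑ z ∈ ZF, (G z).indicator 1 w ∂P := by
      rw [lintegral_finsetSum _ fun z _ => measurable_one.indicator (hGm z)]
      exact Finset.sum_congr rfl fun z _ => (lintegral_indicator_one (hGm z)).symm
    have h2 : ∫⁻ w, 64 * ({w | EF p m n w} : Set Lab).indicator 1 w ∂P =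
        64 * P {w | EF p m n w} := by
      rw [lintegral_const_mul _ (measurable_one.indicator hEm), lintegral_indicator_one hEm]
    rw [h1, ← h2]
    refine lintegral_mono fun w => ?_
    have h3 : ∑ z ∈ ZF, (G z).indicator (1 : Lab → ℝ≥0∞) w =
        ((ZF.filter fun z => w ∈ G z).card : ℝ≥0∞) := by
      rw [Finset.card_filter, Nat.cast_sum]
      refine Finset.sum_congr rfl fun z _ => ?_
      by_cases h : w ∈ G z
      · rw [indicator_of_mem h, if_pos h]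
        simp
      · rw [indicator_of_notMem h, if_neg h]
        simp
    rw [h3]
    by_cases h4 : ∃ z ∈ ZF, w ∈ G z
    · obtain ⟨z, hz, hzw⟩ := h4
      rw [hG] at hzw
      have h5 : w ∈ {w | EF p m n w} := ef_iff.2 ⟨z, efz_of hzw.1.1⟩
      rw [indicator_of_mem h5, Pi.one_apply, mul_one]
      have h6 := can_card hzw.2 (ZF.filter fun z => w ∈ G z) fun z' hz' => by
        have := (Finset.mem_filter.1 hz').2
        rw [hG] at this
        exact this.1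
      refine (Nat.cast_le (α := ℝ≥0∞).2 h6).trans (le_of_eq ?_)
      norm_num
    · have h5 : ZF.filter (fun z => w ∈ G z) = ∅ := by
        rw [Finset.filter_eq_empty_iff]
        exact fun z hz hzw => h4 ⟨z, hz, hzw⟩
      rw [h5, Finset.card_empty, Nat.cast_zero]
      exact zero_le
  have hX : P {w | ∃ z, EFz p m n w z ∧ ∃ y, Crs p m n w y ∧
      ∀ i, ¬ Conn (Op p w ∩ Ann 0 m n) (z i) y} ≤ ∑ z ∈ ZF,
      P {w | Can p m n w z ∧ ∃ y, Crs p m n w y ∧ y ∉ CZ p m n w z} := by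
    refine (measure_mono_ae ?_).trans (measure_biUnion_finset_le ZF
      fun z => {w | Can p m n w z ∧ ∃ y, Crs p m n w y ∧ y ∉ CZ p m n w z})
    filter_upwards [ae_label p] with w hw h
    have hi : Function.Injective w := fun u v huv => by
      by_contra hne
      exact hw.2 u v hne huv
    obtain ⟨z, hz, y, hy, hzy⟩ := h
    obtain ⟨z', hz', hC⟩ := can_ex (efo_of hi hz)
    refine mem_iUnion₂.2 ⟨z', hZF z' hz'.1.1, hz', y, hy, ?_⟩
    rw [hC]
    rintro ⟨u, ⟨i, rfl⟩, hu⟩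
    exact hzy i hu
  calc P {w | ∃ z, EFz p m n w z ∧ ∃ y, Crs p m n w y ∧
      ∀ i, ¬ Conn (Op p w ∩ Ann 0 m n) (z i) y} ≤ ∑ z ∈ ZF,
      P {w | Can p m n w z ∧ ∃ y, Crs p m n w y ∧ y ∉ CZ p m n w z} := hX
    _ ≤ ∑ z ∈ ZF, a * (2 * P (G z)) := by
        refine Finset.sum_le_sum fun z _ => ?_
        rw [haa]
        exact (cx_le p m n hmn z).trans (mul_le_mul_right (hCan z) _)
    _ = 2 * a * ∑ z ∈ ZF, P (G z) := by
        rw [Finset.mul_sum]
        refine Finset.sum_congr rfl fun z _ => ?_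
        ring
    _ ≤ 2 * a * (64 * P {w | EF p m n w}) := mul_le_mul_right hsum _
    _ = 128 * a * P {w | EF p m n w} := by ring

end Pool.Agent.MST
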