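import Pool.Agent.TriPerc.OneArm

/-!
# All open clusters are finite at the critical level
-/

namespace Pool.Agent.MST

open Pool.Agent.TriPerc MeasureTheory Set

/-- Almost surely all components of `Op (1 / 2) w` are finite. -/
theorem ae_fin : ∀ᵐ w ∂P, ∀ v, (comp (Op (1 / 2) w) v).Finite := by
  rw [ae_all_iff]
  intro v
  obtain ⟨c, hc⟩ := rsw_half
  obtain ⟨C, a, hC, ha, h⟩ := one_arm_up c (hc 1).1
  have hb : ∀ m : ℤ, 1 ≤ m → P {w | ¬ (comp (Op (1 / 2) w) v).Finite} ≤
      ENNReal.ofReal (C * ((1 : ℝ) / m) ^ a) := by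
    intro m hm
    have h1 := (h (1 / 2) m (hc m) v 1 m le_rfl hm le_rfl).1
    rw [Int.cast_one] at h1
    refine le_trans (measure_mono ?_) ((ENNReal.le_ofReal_iff_toReal_le (measure_ne_top _ _)
      (by positivity)).2 h1)
    intro w hw
    have h2 : ¬ comp (Op (1 / 2) w) v ⊆ Ball v m := fun h3 => hw ((finite_ball v m).subset h3)
    obtain ⟨u, hu, hu'⟩ := Set.not_subset.1 h2
    have h3 : m < nrm (u - v) := by
      simpa [Ball] using hu'
    have h4 : nrm (v - v) ≤ 1 := by
      rw [sub_self]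
      decide
    exact arm_of_conn hu h4 h3.le (by omega)
  have ht : Filter.Tendsto (fun m : ℕ => ENNReal.ofReal (C * ((1 : ℝ) / ((m : ℤ) : ℝ)) ^ a))
      Filter.atTop (nhds 0) := by
    have h1 : Filter.Tendsto (fun m : ℕ => (1 : ℝ) / ((m : ℤ) : ℝ)) Filter.atTop (nhds 0) := by
      simpa using tendsto_one_div_atTop_nhds_zero_nat (𝕜 := ℝ)
    have h2 := (h1.rpow_const (p := a) (Or.inr ha.le)).const_mul C
    rw [Real.zero_rpow ha.ne', mul_zero] at h2
    have h3 := ENNReal.tendsto_ofReal h2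
    rwa [ENNReal.ofReal_zero] at h3
  refine le_antisymm (ge_of_tendsto ht ?_) bot_le
  filter_upwards [Filter.eventually_ge_atTop 1] with m hm
  exact hb m (by exact_mod_cast hm)

end Pool.Agent.MST
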