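import Pool.Agent.MST.Jord

/-!
# Crossings of an annulus: separation and cyclic order

* `sep_ann`: let `z1, z3` separate `z2, z4` on the circle of radius `n`, and let `z1` and `z3` be
  joined to the ball of radius `m` in `S`.  A connection of `z2` and `z4` in the annulus
  `Ann 0 m n` meets `S`.
* `ord`, `ord'`: four disjoint crossings of the annulus from `z i` to `y i`, which meet the inner
  circle only in `y i`: `z1, z3` separate `z2, z4` iff `y1, y3` separate `y2, y4`.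
-/

namespace Pool.Agent.MST

open Pool.Agent.TriPerc

variable {m n : ℤ} {S T S1 S2 S3 S4 : Set V} {z1 z2 z3 z4 y1 y2 y3 y4 : V}

/-- A vertex of norm at most `m` is joined to the ball of radius `m - 1` at once. -/
theorem conn_in (hm : 1 ≤ m) {y : V} (hy : nrm y ≤ m) (hyS : y ∈ S) :
    ∃ x, nrm x ≤ m - 1 ∧ Conn (S ∪ Ball 0 (m - 1)) y x := by
  by_cases h : nrm y = m
  · obtain ⟨x, hyx, hx⟩ := nrm_down (z := 0) (v := y) (by rw [sub_zero]; omega)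
    rw [sub_zero, sub_zero] at hx
    exact ⟨x, by omega, Conn.of_adj (Or.inl hyS) (Or.inr (mem_ball0.2 (by omega))) hyx⟩
  · exact ⟨y, by omega, Conn.refl (Or.inl hyS)⟩

theorem sep_ann (hm : 1 ≤ m) (hmn : m ≤ n) (h1 : nrm z1 = n) (h3 : nrm z3 = n)
    (h2 : nrm z2 = n) (h4 : nrm z4 = n) (hsep : SepC n z1 z3 z2 z4) (hS : S ⊆ Ball 0 n)
    (c1 : Conn S z1 y1) (hy1 : nrm y1 ≤ m) (c3 : Conn S z3 y3) (hy3 : nrm y3 ≤ m)
    (hT : T ⊆ Ann 0 m n) (c2 : Conn T z2 z4) : ∃ z, z ∈ S ∧ z ∈ T := by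
  obtain ⟨x1, hx1, d1⟩ := conn_in hm hy1 c1.right
  obtain ⟨x3, hx3, d3⟩ := conn_in hm hy3 c3.right
  have e1 : Conn (S ∪ Ball 0 (m - 1)) z1 x1 := (c1.mono Set.subset_union_left).trans d1
  have e3 : Conn (S ∪ Ball 0 (m - 1)) z3 x3 := (c3.mono Set.subset_union_left).trans d3
  have e2 : Conn (S ∪ Ball 0 (m - 1)) x1 x3 :=
    (isConn_ball 0 (m - 1) x1 (mem_ball0.2 hx1) x3 (mem_ball0.2 hx3)).mono Set.subset_union_right
  obtain ⟨z, hz, hzT⟩ := jord (S := S ∪ Ball 0 (m - 1)) (by omega : 1 ≤ n) h1 h3 h2 h4 hsep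
    (Set.union_subset hS fun v hv => mem_ball0.2 ((mem_ball0.1 hv).trans (by omega)))
    (hT.trans fun v hv => mem_ball0.2 (mem_ann0.1 hv).2) (e1.trans (e2.trans e3.symm)) c2
  rcases hz with hz | hz
  · exact ⟨z, hz, hzT⟩
  · have := (mem_ann0.1 (hT hzT)).1
    have := mem_ball0.1 hz
    omega

/-- The cyclic order is preserved by disjoint crossings. -/
theorem ord (hm : 1 ≤ m) (hmn : m ≤ n) (h1 : nrm z1 = n) (h2 : nrm z2 = n) (h3 : nrm z3 = n)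
    (h4 : nrm z4 = n) (k1 : nrm y1 = m) (k2 : nrm y2 = m) (k3 : nrm y3 = m) (k4 : nrm y4 = m)
    (s1 : S1 ⊆ Ball 0 n) (s2 : S2 ⊆ Ball 0 n) (s3 : S3 ⊆ Ball 0 n)
    (s4 : S4 ⊆ Ball 0 n) (t1 : ∀ v ∈ S1, nrm v ≤ m → v = y1) (t2 : ∀ v ∈ S2, nrm v ≤ m → v = y2)
    (t3 : ∀ v ∈ S3, nrm v ≤ m → v = y3) (t4 : ∀ v ∈ S4, nrm v ≤ m → v = y4)
    (c1 : Conn S1 z1 y1) (c2 : Conn S2 z2 y2) (c3 : Conn S3 z3 y3) (c4 : Conn S4 z4 y4)
    (d12 : Disjoint S1 S2) (d14 : Disjoint S1 S4) (d23 : Disjoint S2 S3) (d34 : Disjoint S3 S4)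
    (hsep : SepC n z1 z3 z2 z4) : SepC m y1 y3 y2 y4 := by
  by_contra hno
  have hne : ∀ {A B : Set V} {x y : V}, Disjoint A B → x ∈ A → y ∈ B → x ≠ y :=
    fun hd hx hy hxy => Set.disjoint_left.1 hd hx (hxy ▸ hy)
  obtain ⟨G, H, hG, hH, hGH, cG, cH⟩ := sep_arcs hm k1 k2 k3 k4 (hne d12 c1.right c2.right)
    (hne d14 c1.right c4.right) (hne d23 c2.right c3.right) (hne d34 c3.right c4.right) hno
  -- we may assume that `G` avoids `y2, y4` and `H` avoids `y1, y3`: they are disjoint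
  have hb : Cir m ⊆ Ball 0 n := fun v hv => mem_ball0.2 ((le_of_eq hv).trans hmn)
  have e1 : Conn (S1 ∪ G ∪ S3) z1 z3 :=
    (c1.mono fun v hv => Or.inl (Or.inl hv)).trans
      ((cG.mono fun v hv => Or.inl (Or.inr hv)).trans (c3.mono fun v hv => Or.inr hv).symm)
  have e2 : Conn (S2 ∪ H ∪ S4) z2 z4 :=
    (c2.mono fun v hv => Or.inl (Or.inl hv)).trans
      ((cH.mono fun v hv => Or.inl (Or.inr hv)).trans (c4.mono fun v hv => Or.inr hv).symm)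
  obtain ⟨z, hz1, hz2⟩ := jord (by omega : 1 ≤ n) h1 h3 h2 h4 hsep
    (Set.union_subset (Set.union_subset s1 (hG.trans hb)) s3)
    (Set.union_subset (Set.union_subset s2 (hH.trans hb)) s4) e1 e2
  rcases hz1 with (hz1 | hz1) | hz1 <;> rcases hz2 with (hz2 | hz2) | hz2
  · exact hne d12 hz1 hz2 rfl
  · rw [t1 z hz1 (le_of_eq (hH hz2))] at hz2
    exact hne hGH cG.left hz2 rfl
  · exact hne d14 hz1 hz2 rfl
  · rw [t2 z hz2 (le_of_eq (hG hz1))] at hz1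
    exact hne hGH hz1 cH.left rfl
  · exact hne hGH hz1 hz2 rfl
  · rw [t4 z hz2 (le_of_eq (hG hz1))] at hz1
    exact hne hGH hz1 cH.right rfl
  · exact hne d23 hz2 hz1 rfl
  · rw [t3 z hz1 (le_of_eq (hH hz2))] at hz2
    exact hne hGH cG.right hz2 rfl
  · exact hne d34 hz1 hz2 rfl

theorem ord' (hm : 1 ≤ m) (hmn : m ≤ n) (h1 : nrm z1 = n) (h2 : nrm z2 = n) (h3 : nrm z3 = n)
    (h4 : nrm z4 = n) (k1 : nrm y1 = m) (k2 : nrm y2 = m) (k3 : nrm y3 = m) (k4 : nrm y4 = m)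
    (s1 : S1 ⊆ Ball 0 n) (s2 : S2 ⊆ Ball 0 n) (s3 : S3 ⊆ Ball 0 n)
    (s4 : S4 ⊆ Ball 0 n) (t1 : ∀ v ∈ S1, nrm v ≤ m → v = y1) (t2 : ∀ v ∈ S2, nrm v ≤ m → v = y2)
    (t3 : ∀ v ∈ S3, nrm v ≤ m → v = y3) (t4 : ∀ v ∈ S4, nrm v ≤ m → v = y4)
    (c1 : Conn S1 z1 y1) (c2 : Conn S2 z2 y2) (c3 : Conn S3 z3 y3) (c4 : Conn S4 z4 y4)
    (d12 : Disjoint S1 S2) (d13 : Disjoint S1 S3) (d14 : Disjoint S1 S4) (d23 : Disjoint S2 S3)
    (d24 : Disjoint S2 S4) (d34 : Disjoint S3 S4)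
    (hsep : SepC m y1 y3 y2 y4) : SepC n z1 z3 z2 z4 := by
  have hne : ∀ {A B : Set V} {x y : V}, Disjoint A B → x ∈ A → y ∈ B → x ≠ y :=
    fun hd hx hy hxy => Set.disjoint_left.1 hd hx (hxy ▸ hy)
  have y12 := hne d12 c1.right c2.right
  have y13 := hne d13 c1.right c3.right
  have y14 := hne d14 c1.right c4.right
  have y23 := hne d23 c2.right c3.right
  have y24 := hne d24 c2.right c4.right
  have y34 := hne d34 c3.right c4.right
  rcases sep_or (by omega : 1 ≤ n) h1 h2 h3 h4 (hne d12 c1.left c2.left)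
    (hne d13 c1.left c3.left) (hne d14 c1.left c4.left) (hne d23 c2.left c3.left)
    (hne d24 c2.left c4.left) (hne d34 c3.left c4.left) with h | h | h
  · exact h
  · exfalso
    have h' : SepC m y1 y2 y3 y4 := ord hm hmn h1 h3 h2 h4 k1 k3 k2 k4 s1 s3 s2 s4 t1 t3 t2 t4
      c1 c3 c2 c4 d13 d14 d23.symm d24 h
    exact sep_excl hm k1 k2 k3 k4 y12 y13 y14 y23 y24 y34 ⟨hsep, h'⟩
  · exfalso
    have h' : SepC m y1 y4 y2 y3 := ord hm hmn h1 h2 h4 h3 k1 k2 k4 k3 s1 s2 s4 s3 t1 t2 t4 t3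
      c1 c2 c4 c3 d12 d13 d24 d34.symm h
    exact sep_excl hm k1 k4 k3 k2 y14 y13 y12 y34.symm y24.symm y23.symm
      ⟨sep_symm hsep, sep_symm h'⟩

end Pool.Agent.MST
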