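import Pool.Agent.MST.JordO
import Pool.Agent.MST.Sepa

/-!
# The cyclic order of four connected sets which cross an annulus

`G0, G1, G2, G3 ⊆ Ann 0 m n` pairwise disjoint and connected, each of them meets both circles.

* `feet`: the cyclic order of the feet on the inner circle does not depend on the choice.
* `ord_iff`: for ANY choice of the feet `z i ∈ G i` on the outer circle and `y i ∈ G i` on the inner
  circle: `z0, z2` separate `z1, z3` iff `y0, y2` separate `y1, y3`.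
* `ord_mid`: the same for feet `u i ∈ G i` on a circle between, which are joined inside this circle
  (in `G i`) to the inner circle.
-/

namespace Pool.Agent.MST

open Pool.Agent.TriPerc

variable {m k n : ℤ} {G0 G1 G2 G3 : Set V} {z0 z1 z2 z3 y0 y1 y2 y3 x0 x1 x2 x3 u0 u1 u2 u3 : V}

/-- Pairwise disjoint. -/
structure Dj4 (G0 G1 G2 G3 : Set V) : Prop where
  d01 : Disjoint G0 G1
  d02 : Disjoint G0 G2
  d03 : Disjoint G0 G3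
  d12 : Disjoint G1 G2
  d13 : Disjoint G1 G3
  d23 : Disjoint G2 G3

theorem dj_ne {A B : Set V} {x y : V} (hd : Disjoint A B) (hx : x ∈ A) (hy : y ∈ B) : x ≠ y :=
  fun hxy => Set.disjoint_left.1 hd hx (hxy ▸ hy)

/-- Two points of `G1` on the inner circle are on the same side of `G0`, `G2`. -/
theorem feet1 (hm : 1 ≤ m) (h0 : G0 ⊆ Ann 0 m n) (h1 : G1 ⊆ Ann 0 m n) (h2 : G2 ⊆ Ann 0 m n)
    (c0 : IsConn G0) (c1 : IsConn G1) (c2 : IsConn G2) (d01 : Disjoint G0 G1)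
    (d12 : Disjoint G1 G2) (hz0 : z0 ∈ G0) (nz0 : nrm z0 = n) (hz2 : z2 ∈ G2) (nz2 : nrm z2 = n)
    (hy0 : y0 ∈ G0) (ny0 : nrm y0 = m) (hy1 : y1 ∈ G1) (ny1 : nrm y1 = m) (hx1 : x1 ∈ G1)
    (nx1 : nrm x1 = m) (hy2 : y2 ∈ G2) (ny2 : nrm y2 = m) (ny3 : nrm y3 = m) (h30 : y3 ≠ y0)
    (h32 : y3 ≠ y2) (h : SepC m y0 y2 y1 y3) : SepC m y0 y2 x1 y3 := by
  have h3 : ¬ SepC m y0 y2 y1 x1 := by
    intro hs
    obtain ⟨z, hz, hzT⟩ := sep_in (S := G0 ∪ G2) (T := G1) hm ny0 ny2 ny1 nx1 hs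
      (fun z hz => by
        rcases hz with hz | hz
        · exact (mem_ann0.1 (h0 hz)).1
        · exact (mem_ann0.1 (h2 hz)).1)
      ((c0 y0 hy0 z0 hz0).mono Set.subset_union_left) nz0.ge
      ((c2 y2 hy2 z2 hz2).mono Set.subset_union_right) nz2.ge h1 (c1 y1 hy1 x1 hx1)
    rcases hz with hz | hz
    · exact Set.disjoint_left.1 d01 hz hzT
    · exact Set.disjoint_left.1 d12 hzT hz
  have e1 : y1 ≠ y0 := (dj_ne d01 hy0 hy1).symm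
  have e2 : y1 ≠ y2 := dj_ne d12 hy1 hy2
  have e3 : x1 ≠ y0 := (dj_ne d01 hy0 hx1).symm
  have e4 : x1 ≠ y2 := dj_ne d12 hx1 hy2
  rw [sep_iff hm ny0 ny2 ny1 nx1 e1 e2 e3 e4] at h3
  rw [sep_iff hm ny0 ny2 ny1 ny3 e1 e2 h30 h32] at h
  rw [sep_iff hm ny0 ny2 nx1 ny3 e3 e4 h30 h32]
  tauto

/-- Four sets which cross the annulus. -/
structure Cr4 (m n : ℤ) (G0 G1 G2 G3 : Set V) : Prop where
  dj : Dj4 G0 G1 G2 G3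
  s0 : G0 ⊆ Ann 0 m n
  s1 : G1 ⊆ Ann 0 m n
  s2 : G2 ⊆ Ann 0 m n
  s3 : G3 ⊆ Ann 0 m n
  c0 : IsConn G0
  c1 : IsConn G1
  c2 : IsConn G2
  c3 : IsConn G3

/-- Rotation. -/
theorem Cr4.rot (h : Cr4 m n G0 G1 G2 G3) : Cr4 m n G1 G2 G3 G0 :=
  ⟨⟨h.dj.d12, h.dj.d13, h.dj.d01.symm, h.dj.d23, h.dj.d02.symm, h.dj.d03.symm⟩,
    h.s1, h.s2, h.s3, h.s0, h.c1, h.c2, h.c3, h.c0⟩

/-- Exchange of the last and the second set. -/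
theorem Cr4.flip (h : Cr4 m n G0 G1 G2 G3) : Cr4 m n G0 G3 G2 G1 :=
  ⟨⟨h.dj.d03, h.dj.d02, h.dj.d01, h.dj.d23.symm, h.dj.d13.symm, h.dj.d12.symm⟩,
    h.s0, h.s3, h.s2, h.s1, h.c0, h.c3, h.c2, h.c1⟩

/-- A vertex of each set on the circle `k`. -/
structure Ft4 (k : ℤ) (G0 G1 G2 G3 : Set V) (z0 z1 z2 z3 : V) : Prop where
  m0 : z0 ∈ G0
  m1 : z1 ∈ G1
  m2 : z2 ∈ G2
  m3 : z3 ∈ G3
  n0 : nrm z0 = k
  n1 : nrm z1 = k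
  n2 : nrm z2 = k
  n3 : nrm z3 = k

theorem Ft4.rot (h : Ft4 k G0 G1 G2 G3 z0 z1 z2 z3) : Ft4 k G1 G2 G3 G0 z1 z2 z3 z0 :=
  ⟨h.m1, h.m2, h.m3, h.m0, h.n1, h.n2, h.n3, h.n0⟩

theorem Ft4.flip (h : Ft4 k G0 G1 G2 G3 z0 z1 z2 z3) : Ft4 k G0 G3 G2 G1 z0 z3 z2 z1 :=
  ⟨h.m0, h.m3, h.m2, h.m1, h.n0, h.n3, h.n2, h.n1⟩

/-- `z0, z2` separate `z1, z3` iff `z1, z3` separate `z2, z0`. -/
theorem Ft4.sep_rot (h : Ft4 k G0 G1 G2 G3 z0 z1 z2 z3) (hk : 1 ≤ k) (hd : Dj4 G0 G1 G2 G3)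
    (hs : SepC k z0 z2 z1 z3) : SepC k z1 z3 z2 z0 :=
  sep_symm (sep_swap hk h.n0 h.n1 h.n2 h.n3 (dj_ne hd.d01 h.m0 h.m1) (dj_ne hd.d02 h.m0 h.m2)
    (dj_ne hd.d03 h.m0 h.m3) (dj_ne hd.d12 h.m1 h.m2) (dj_ne hd.d13 h.m1 h.m3)
    (dj_ne hd.d23 h.m2 h.m3) hs)

/-- Exchange of the second foot on the inner circle. -/
theorem feet2 (hm : 1 ≤ m) (hG : Cr4 m n G0 G1 G2 G3) (hz : Ft4 n G0 G1 G2 G3 z0 z1 z2 z3)
    (hy : Ft4 m G0 G1 G2 G3 y0 y1 y2 y3) (hx1 : x1 ∈ G1) (nx1 : nrm x1 = m)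
    (h : SepC m y0 y2 y1 y3) : SepC m y0 y2 x1 y3 :=
  feet1 hm hG.s0 hG.s1 hG.s2 hG.c0 hG.c1 hG.c2 hG.dj.d01 hG.dj.d12 hz.m0 hz.n0 hz.m2 hz.n2
    hy.m0 hy.n0 hy.m1 hy.n1 hx1 nx1 hy.m2 hy.n2 hy.n3 (dj_ne hG.dj.d03 hy.m0 hy.m3).symm
    (dj_ne hG.dj.d23 hy.m2 hy.m3).symm h

/-- **The order of the feet on the inner circle does not depend on the choice.** -/
theorem feet (hm : 1 ≤ m) (hG : Cr4 m n G0 G1 G2 G3) (hz : Ft4 n G0 G1 G2 G3 z0 z1 z2 z3)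
    (hy : Ft4 m G0 G1 G2 G3 y0 y1 y2 y3) (hx : Ft4 m G0 G1 G2 G3 x0 x1 x2 x3)
    (h : SepC m y0 y2 y1 y3) : SepC m x0 x2 x1 x3 := by
  -- exchange the second foot and rotate, four times
  have step : ∀ {G0 G1 G2 G3 : Set V} {z0 z1 z2 z3 y0 y1 y2 y3 x1 : V},
      Cr4 m n G0 G1 G2 G3 → Ft4 n G0 G1 G2 G3 z0 z1 z2 z3 → Ft4 m G0 G1 G2 G3 y0 y1 y2 y3 →
      x1 ∈ G1 → nrm x1 = m → SepC m y0 y2 y1 y3 →
      Ft4 m G1 G2 G3 G0 x1 y2 y3 y0 ∧ SepC m x1 y3 y2 y0 := by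
    intro G0 G1 G2 G3 z0 z1 z2 z3 y0 y1 y2 y3 x1 hG hz hy hx1 nx1 h
    have h1 := feet2 hm hG hz hy hx1 nx1 h
    have h2 : Ft4 m G0 G1 G2 G3 y0 x1 y2 y3 :=
      ⟨hy.m0, hx1, hy.m2, hy.m3, hy.n0, nx1, hy.n2, hy.n3⟩
    exact ⟨h2.rot, h2.sep_rot hm hG.dj h1⟩
  obtain ⟨a1, b1⟩ := step hG hz hy hx.m1 hx.n1 h
  obtain ⟨a2, b2⟩ := step hG.rot hz.rot a1 hx.m2 hx.n2 b1
  obtain ⟨a3, b3⟩ := step hG.rot.rot hz.rot.rot a2 hx.m3 hx.n3 b2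
  exact (step hG.rot.rot.rot hz.rot.rot.rot a3 hx.m0 hx.n0 b3).2

/-- A crossing which meets the inner circle only at its end. -/
theorem first_in {G : Set V} {z y : V} (hmn : m < n) (hG : G ⊆ Ann 0 m n) (c : IsConn G)
    (hz : z ∈ G) (nz : nrm z = n) (hy : y ∈ G) (ny : nrm y = m) :
    ∃ (S : Set V) (x : V), S ⊆ G ∧ x ∈ G ∧ nrm x = m ∧ Conn S z x ∧
      ∀ v ∈ S, nrm v ≤ m → v = x := by
  obtain ⟨a, b, ha, hb, hab, h1, h2⟩ := (c z hz y hy).exit (A := {v : V | m < nrm v})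
    (show m < nrm z by omega) (show ¬ m < nrm y by omega)
  have hb1 : b ∈ G := h2.left
  have hb2 := (mem_ann0.1 (hG hb1)).1
  have hb3 : ¬ m < nrm b := hb
  refine ⟨insert b (G ∩ {v : V | m < nrm v}), b, ?_, hb1, by omega, ?_, ?_⟩
  · rintro v (hv | hv)
    · exact hv ▸ hb1
    · exact hv.1
  · have h3 := h1.mono (Set.subset_insert b (G ∩ {v : V | m < nrm v}))
    exact h3.trans (Conn.of_adj h3.right (Set.mem_insert _ _) hab)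
  · rintro v (hv | hv) hvm
    · exact hv
    · have : m < nrm v := hv.2
      omega

/-- **The order of the feet is the same on both circles**, for any choice of the feet. -/
theorem ord_iff (hm : 1 ≤ m) (hmn : m < n) (hG : Cr4 m n G0 G1 G2 G3)
    (hz : Ft4 n G0 G1 G2 G3 z0 z1 z2 z3) (hy : Ft4 m G0 G1 G2 G3 y0 y1 y2 y3) :
    SepC n z0 z2 z1 z3 ↔ SepC m y0 y2 y1 y3 := by
  obtain ⟨S0, x0, s0, m0, n0, c0, t0⟩ := first_in hmn hG.s0 hG.c0 hz.m0 hz.n0 hy.m0 hy.n0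
  obtain ⟨S1, x1, s1, m1, n1, c1, t1⟩ := first_in hmn hG.s1 hG.c1 hz.m1 hz.n1 hy.m1 hy.n1
  obtain ⟨S2, x2, s2, m2, n2, c2, t2⟩ := first_in hmn hG.s2 hG.c2 hz.m2 hz.n2 hy.m2 hy.n2
  obtain ⟨S3, x3, s3, m3, n3, c3, t3⟩ := first_in hmn hG.s3 hG.c3 hz.m3 hz.n3 hy.m3 hy.n3
  have hx : Ft4 m G0 G1 G2 G3 x0 x1 x2 x3 := ⟨m0, m1, m2, m3, n0, n1, n2, n3⟩
  have hb : ∀ {G : Set V}, G ⊆ Ann 0 m n → ∀ {S : Set V}, S ⊆ G → S ⊆ Ball 0 n := by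
    intro G hG S hS v hv
    exact mem_ball0.2 (mem_ann0.1 (hG (hS hv))).2
  have d01 := hG.dj.d01.mono s0 s1
  have d02 := hG.dj.d02.mono s0 s2
  have d03 := hG.dj.d03.mono s0 s3
  have d12 := hG.dj.d12.mono s1 s2
  have d13 := hG.dj.d13.mono s1 s3
  have d23 := hG.dj.d23.mono s2 s3
  constructor
  · intro h
    refine feet hm hG hz hx hy ?_
    exact ord hm hmn.le hz.n0 hz.n1 hz.n2 hz.n3 n0 n1 n2 n3 (hb hG.s0 s0) (hb hG.s1 s1)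
      (hb hG.s2 s2) (hb hG.s3 s3) t0 t1 t2 t3 c0 c1 c2 c3 d01 d03 d12 d23 h
  · intro h
    refine ord' hm hmn.le hz.n0 hz.n1 hz.n2 hz.n3 n0 n1 n2 n3 (hb hG.s0 s0) (hb hG.s1 s1)
      (hb hG.s2 s2) (hb hG.s3 s3) t0 t1 t2 t3 c0 c1 c2 c3 d01 d02 d03 d12 d13 d23 ?_
    exact feet hm hG hz hy hx h

/-- A vertex of each set on the circle `k` which is joined inside this circle to the inner circle
`m`. -/
structure Fi4 (m k : ℤ) (G0 G1 G2 G3 : Set V) (u0 u1 u2 u3 : V) : Prop where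
  n0 : nrm u0 = k
  n1 : nrm u1 = k
  n2 : nrm u2 = k
  n3 : nrm u3 = k
  c0 : ∃ y, nrm y = m ∧ Conn (G0 ∩ Ball 0 k) u0 y
  c1 : ∃ y, nrm y = m ∧ Conn (G1 ∩ Ball 0 k) u1 y
  c2 : ∃ y, nrm y = m ∧ Conn (G2 ∩ Ball 0 k) u2 y
  c3 : ∃ y, nrm y = m ∧ Conn (G3 ∩ Ball 0 k) u3 y

/-- The order on a circle between. -/
theorem ord_mid (hm : 1 ≤ m) (hmk : m < k) (hkn : k ≤ n) (hG : Cr4 m n G0 G1 G2 G3)
    (hz : Ft4 n G0 G1 G2 G3 z0 z1 z2 z3) (hu : Fi4 m k G0 G1 G2 G3 u0 u1 u2 u3) :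
    SepC n z0 z2 z1 z3 ↔ SepC k u0 u2 u1 u3 := by
  obtain ⟨y0, n0, c0⟩ := hu.c0
  obtain ⟨y1, n1, c1⟩ := hu.c1
  obtain ⟨y2, n2, c2⟩ := hu.c2
  obtain ⟨y3, n3, c3⟩ := hu.c3
  have hy : Ft4 m G0 G1 G2 G3 y0 y1 y2 y3 :=
    ⟨c0.right.1, c1.right.1, c2.right.1, c3.right.1, n0, n1, n2, n3⟩
  have hs : ∀ {G : Set V} {u : V}, G ⊆ Ann 0 m n → comp (G ∩ Ball 0 k) u ⊆ Ann 0 m k := by
    intro G u hG v hv
    exact mem_ann0.2 ⟨(mem_ann0.1 (hG (comp_subset hv).1)).1, mem_ball0.1 (comp_subset hv).2⟩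
  have hsub : ∀ {G : Set V} {u : V}, comp (G ∩ Ball 0 k) u ⊆ G := by
    intro G u v hv
    exact (comp_subset hv).1
  have hG' : Cr4 m k (comp (G0 ∩ Ball 0 k) u0) (comp (G1 ∩ Ball 0 k) u1)
      (comp (G2 ∩ Ball 0 k) u2) (comp (G3 ∩ Ball 0 k) u3) :=
    ⟨⟨hG.dj.d01.mono hsub hsub, hG.dj.d02.mono hsub hsub, hG.dj.d03.mono hsub hsub,
      hG.dj.d12.mono hsub hsub, hG.dj.d13.mono hsub hsub, hG.dj.d23.mono hsub hsub⟩,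
      hs hG.s0, hs hG.s1, hs hG.s2, hs hG.s3, isConn_comp, isConn_comp, isConn_comp, isConn_comp⟩
  rw [ord_iff hm (hmk.trans_le hkn) hG hz hy]
  exact (ord_iff hm hmk hG' ⟨Conn.refl c0.left, Conn.refl c1.left, Conn.refl c2.left,
    Conn.refl c3.left, hu.n0, hu.n1, hu.n2, hu.n3⟩ ⟨c0, c1, c2, c3, n0, n1, n2, n3⟩).symm

end Pool.Agent.MST
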