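import Pool.Agent.MST.Arc4
import Pool.Agent.MST.Sepa

/-!
# Two closed arms between two crossings which are not joined

* `two_arm`: let `p` and `q` on the outer circle be joined in `S ⊆ Ann 0 m n` to the inner circle,
  but not to each other in `S`.  Then the complement of `S` contains two crossings of the annulus,
  from `x` and from `y` on the outer circle, which are separated by `p, q`.
* `two_arm_in`: the same for points of the inner circle.
-/

namespace Pool.Agent.MST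

open Pool.Agent.TriPerc

variable {m n : ℤ} {S T X Λ : Set V} {a b c d p q p' q' : V}

/-- A set which separates `p` from `q` on the circle contains two points which separate them. -/
theorem arcs2 (hn : 1 ≤ n) (hp : nrm p = n) (hq : nrm q = n) (h : ¬ Conn (Cir n \ X) p q)
    (hpX : p ∉ X) (hqX : q ∉ X) : ∃ x ∈ X, ∃ y ∈ X, nrm x = n ∧ nrm y = n ∧ SepC n p q x y := by
  have main : ∀ p q : V, nrm p = n → nrm q = n → ¬ Conn (Cir n \ X) p q → p ∉ X → q ∉ X →
      pos n p ≤ pos n q → ∃ x ∈ X, ∃ y ∈ X, nrm x = n ∧ nrm y = n ∧ SepC n p q x y := by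
    intro p q hp hq h hpX hqX hpq
    obtain ⟨x, hxX, hx, hx1, hx2⟩ := arc_hit hn hp hq h hpX hqX hpq
    obtain ⟨y, hyX, hy, hy1⟩ := wrap_hit hn hp hq h hpX hqX
    refine ⟨x, hxX, y, hyX, hx, hy, ?_⟩
    rw [sep_iff hn hp hq hx hy (fun e => hpX (e ▸ hxX)) (fun e => hqX (e ▸ hxX))
      (fun e => hpX (e ▸ hyX)) (fun e => hqX (e ▸ hyX))]
    unfold Bt
    omega
  rcases le_total (pos n p) (pos n q) with h1 | h1
  · exact main p q hp hq h hpX hqX h1
  · obtain ⟨x, hxX, y, hyX, hx, hy, h2⟩ := main q p hq hp (fun h' => h h'.symm) hqX hpX h1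
    exact ⟨x, hxX, y, hyX, hx, hy, sep_comm h2⟩

/-- **Two arms**: outer circle. -/
theorem two_arm (hm : 1 ≤ m) (hmn : m ≤ n) (hS : S ⊆ Ann 0 m n) (hp : nrm p = n)
    (hq : nrm q = n) (cp : Conn S p p') (hp' : nrm p' = m) (cq : Conn S q q') (hq' : nrm q' = m)
    (hpq : ¬ Conn S p q) : ∃ x y x' y' : V, nrm x = n ∧ nrm y = n ∧ nrm x' = m ∧ nrm y' = m ∧
      SepC n p q x y ∧ Conn (Ann 0 m n \ S) x x' ∧ Conn (Ann 0 m n \ S) y y' := by
  have hSB : S ⊆ Ball 0 n := fun v hv => mem_ball0.2 (mem_ann0.1 (hS hv)).2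
  obtain ⟨s, hs, hsep⟩ := jan_ball_comp (S := Ball 0 n \ S) (by omega : 0 ≤ n)
    Set.sdiff_subset (hSB cp.left) (hSB cq.left) (fun h => h.2 cp.left) (fun h => h.2 cq.left)
    (by
      intro h
      refine hpq (h.mono ?_)
      rintro v ⟨h1, h2⟩
      by_contra h3
      exact h2 ⟨h1, h3⟩)
  have hpL : p ∉ comp (Ball 0 n \ S) s := fun h => (comp_subset h).2 cp.left
  have hqL : q ∉ comp (Ball 0 n \ S) s := fun h => (comp_subset h).2 cq.left
  have hcir : ¬ Conn (Cir n \ comp (Ball 0 n \ S) s) p q := fun h => hsep (h.mono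
    (Set.sdiff_subset_sdiff_left fun v hv => mem_ball0.2 (le_of_eq hv)))
  obtain ⟨x, hx, y, hy, nx, ny, hxy⟩ := arcs2 (by omega : 1 ≤ n) hp hq hcir hpL hqL
  have hin : ∀ x y : V, nrm x = n → nrm y = n → x ∈ comp (Ball 0 n \ S) s →
      y ∈ comp (Ball 0 n \ S) s → SepC n p q x y →
      ∃ x', nrm x' = m ∧ Conn (Ann 0 m n \ S) x x' := by
    intro x y nx ny hx hy hxy
    have hc : Conn (Ball 0 n \ S) x y := (Conn.symm hx).trans hy
    have hno : ¬ Conn (Ann 0 m n \ S) x y := by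
      intro h
      obtain ⟨z, hz, hzT⟩ := sep_ann hm hmn hp hq nx ny hxy hSB cp hp'.le cq hq'.le
        Set.sdiff_subset h
      exact hzT.2 hz
    by_contra hno'
    refine hno ?_
    obtain ⟨hx1, hr⟩ := hc
    have key : ∀ u, Relation.ReflTransGen (fun a b => Adj a b ∧ b ∈ Ball 0 n \ S) x u →
        Conn (Ann 0 m n \ S) x u := by
      intro u hu
      induction hu with
      | refl => exact Conn.refl ⟨mem_ann0.2 ⟨by omega, by omega⟩, hx1.2⟩
      | @tail b c _ hbc ih =>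
        have hb := mem_ann0.1 ih.right.1
        have hbm : nrm b ≠ m := fun h => hno' ⟨b, h, ih⟩
        have h1 := nrm_adj hbc.1 0
        rw [sub_zero, sub_zero, abs_le] at h1
        refine ih.trans (Conn.of_adj ih.right ⟨mem_ann0.2 ⟨by omega, ?_⟩, hbc.2.2⟩ hbc.1)
        exact mem_ball0.1 hbc.2.1
    exact key y hr
  obtain ⟨x', hx', cx⟩ := hin x y nx ny hx hy hxy
  obtain ⟨y', hy', cy⟩ := hin y x ny nx hy hx (sep_symm hxy)
  exact ⟨x, y, x', y', nx, ny, hx', hy', hxy, cx, cy⟩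

end Pool.Agent.MST
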