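import Mathlib
import Pool.Agent.MST.TwoArm
import Pool.Agent.MST.OrdG

/-!
# The inner turn: joining two root paths below an edge

* `two_arm_in`: `two_arm` for points of the inner circle.
* `hex_edge`: let `Ts, Tt ⊆ {m ≤ nrm}` be connected sets which contain the vertices `ρs, ρt` of the
  circle `Cir m` and the ends `s, t` of an edge beyond the circle `Cir b`.  Let `X` be a set off
  `Ts ∪ Tt`, every vertex of which is joined in `X` to a vertex beyond `Ts ∪ Tt`.  If `C` blocks all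
  crossings of `Ann 0 a b` (`m ≤ a ≤ b`), then `ρs` and `ρt` are joined inside `Ann 0 m b` in
  `Ts ∪ Tt` and those vertices of `C ∩ Ann 0 a b` which are not in `X` and not adjacent to `X`.
-/

namespace Pool.Agent.MST

open Pool.Agent.TriPerc

variable {m n a b N : ℤ} {S Ts Tt X C : Set V} {p q p' q' s t ρs ρt : V}

/-- **Two arms**: inner circle. -/
theorem two_arm_in (hm : 1 ≤ m) (hmn : m < n) (hS : S ⊆ Ann 0 m n) (np : nrm p = m)
    (nq : nrm q = m) (cp : Conn S p p') (np' : nrm p' = n) (cq : Conn S q q')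
    (nq' : nrm q' = n) (hno : ¬ Conn S p q) : ∃ x y x' y' : V, nrm x = m ∧ nrm y = m ∧
      nrm x' = n ∧ nrm y' = n ∧ SepC m p q x y ∧ Conn (Ann 0 m n \ S) x x' ∧
      Conn (Ann 0 m n \ S) y y' := by
  have hno' : ¬ Conn S p' q' := fun h => hno (cp.trans (h.trans cq.symm))
  obtain ⟨x, y, x', y', nx, ny, nx', ny', hsep, cx, cy⟩ :=
    two_arm hm hmn.le hS np' nq' cp.symm np cq.symm nq hno'
  have hSB : S ⊆ Ball 0 n := fun v hv => mem_ball0.2 (mem_ann0.1 (hS hv)).2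
  have hxy : ¬ Conn (Ann 0 m n \ S) x y := by
    intro h
    obtain ⟨z, hz, hzT⟩ := sep_ann hm hmn.le np' nq' nx ny hsep hSB cp.symm np.le cq.symm nq.le
      Set.sdiff_subset h
    exact hzT.2 hz
  have hdd : ∀ {T : Set V} {u v : V}, ¬ Conn T u v → Disjoint (comp T u) (comp T v) := by
    intro T u v h
    rw [Set.disjoint_left]
    intro z hz hz'
    exact h (Conn.trans hz (Conn.symm hz'))
  have hSS : ∀ u v : V, Disjoint (comp S u) (comp (Ann 0 m n \ S) v) := fun u v => by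
    rw [Set.disjoint_left]
    intro z hz hz'
    exact (comp_subset hz').2 (comp_subset hz)
  have hG : Cr4 m n (comp S p') (comp (Ann 0 m n \ S) x) (comp S q') (comp (Ann 0 m n \ S) y) :=
    ⟨⟨hSS _ _, hdd hno', hSS _ _, (hSS _ _).symm, hdd hxy, hSS _ _⟩,
      comp_subset.trans hS, comp_subset.trans Set.sdiff_subset, comp_subset.trans hS,
      comp_subset.trans Set.sdiff_subset, isConn_comp, isConn_comp, isConn_comp, isConn_comp⟩
  have h1 := (ord_iff hm hmn hG ⟨Conn.refl cp.right, Conn.refl cx.left, Conn.refl cq.right,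
    Conn.refl cy.left, np', nx, nq', ny⟩ ⟨cp.symm, cx, cq.symm, cy, np, nx', nq, ny'⟩).1 hsep
  exact ⟨x', y', x, y, nx', ny', nx, ny, h1, cx.symm, cy.symm⟩

/-- The first visit of the circle `Cir b`. -/
theorem to_cir (hmb : m < b) {T : Set V} (c : IsConn T) {ρ s : V} (hρ : ρ ∈ T) (nρ : nrm ρ = m)
    (hs : s ∈ T) (hsb : b ≤ nrm s) : ∃ y, nrm y = b ∧ Conn (T ∩ {v | nrm v ≤ b}) ρ y := by
  obtain ⟨x, y, hx, hy, hxy, h1, h2⟩ := (c ρ hρ s hs).exit (A := {v : V | nrm v < b})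
    (show nrm ρ < b by omega) (show ¬ nrm s < b by omega)
  have hx' : nrm x < b := hx
  have hy' : ¬ nrm y < b := hy
  have h3 := nrm_adj hxy 0
  rw [sub_zero, sub_zero, abs_le] at h3
  have h4 : Conn (T ∩ {v | nrm v ≤ b}) ρ x := h1.mono fun v hv =>
    ⟨hv.1, le_of_lt (show nrm v < b from hv.2)⟩
  exact ⟨y, by omega, h4.trans (Conn.of_adj h4.right ⟨h2.left, show nrm y ≤ b by omega⟩ hxy)⟩

theorem hex_edge (hm : 1 ≤ m) (hma : m ≤ a) (hab : a ≤ b) (hmb : m < b)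
    (hTs : ∀ v ∈ Ts, m ≤ nrm v) (hTt : ∀ v ∈ Tt, m ≤ nrm v) (cs : IsConn Ts) (ct : IsConn Tt)
    (hρs : ρs ∈ Ts) (nρs : nrm ρs = m) (hρt : ρt ∈ Tt) (nρt : nrm ρt = m) (hs : s ∈ Ts)
    (ht : t ∈ Tt) (hst : Adj s t) (hsb : b ≤ nrm s) (htb : b ≤ nrm t)
    (hN : ∀ v ∈ Ts ∪ Tt, nrm v ≤ N) (hX : ∀ x ∈ X, m ≤ nrm x) (hXT : Disjoint X (Ts ∪ Tt))
    (hXN : ∀ x ∈ X, ∃ y, N < nrm y ∧ Conn X x y) (hC : ¬ Arm Cᶜ 0 a b) :
    Conn ((Ts ∪ Tt ∪ ((C ∩ Ann 0 a b) \ {v | ∃ x ∈ X, v = x ∨ Adj v x})) ∩ Ann 0 m b) ρs ρt := by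
  by_contra hno
  obtain ⟨S, hS⟩ : ∃ S : Set V, S = (Ts ∪ Tt ∪ ((C ∩ Ann 0 a b) \
    {v | ∃ x ∈ X, v = x ∨ Adj v x})) ∩ Ann 0 m b := ⟨_, rfl⟩
  rw [← hS] at hno
  have hSA : S ⊆ Ann 0 m b := by
    rw [hS]
    exact Set.inter_subset_right
  obtain ⟨p', np', cp⟩ := to_cir hmb cs hρs nρs hs hsb
  obtain ⟨q', nq', cq⟩ := to_cir hmb ct hρt nρt ht htb
  have cp' : Conn S ρs p' := cp.mono fun v hv => by
    rw [hS]
    exact ⟨Or.inl (Or.inl hv.1), mem_ann0.2 ⟨hTs v hv.1, hv.2⟩⟩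
  have cq' : Conn S ρt q' := cq.mono fun v hv => by
    rw [hS]
    exact ⟨Or.inl (Or.inr hv.1), mem_ann0.2 ⟨hTt v hv.1, hv.2⟩⟩
  obtain ⟨x, y, x', y', nx, ny, nx', ny', hsep, cx, cy⟩ :=
    two_arm_in hm hmb hSA nρs nρt cp' np' cq' nq' hno
  -- an arm off `S` is joined to the far part off `Ts ∪ Tt`
  have hfar : ∀ x x' : V, nrm x = m → nrm x' = b → Conn (Ann 0 m b \ S) x x' →
      ∃ z, N < nrm z ∧ Conn ({v | m ≤ nrm v} \ (Ts ∪ Tt)) x z := by
    intro x x' nx nx' cx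
    have h1 : Arm (comp (Ann 0 m b \ S) x) 0 a b := by
      refine arm_of_conn cx.in_comp ?_ ?_ hab
      · rw [sub_zero]
        omega
      · rw [sub_zero]
        omega
    obtain ⟨c, ⟨hc1, hc2⟩, hc3⟩ := arm_circ (by omega) hab h1 hC
    have hc4 : Conn (Ann 0 m b \ S) x c := hc1
    have hsub : Ann 0 m b \ S ⊆ {v | m ≤ nrm v} \ (Ts ∪ Tt) := by
      rintro v ⟨h2, h3⟩
      refine ⟨(mem_ann0.1 h2).1, fun h4 => h3 ?_⟩
      rw [hS]
      exact ⟨Or.inl h4, h2⟩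
    have hcX : ∃ x0 ∈ X, c = x0 ∨ Adj c x0 := by
      by_contra h2
      refine hc4.right.2 ?_
      rw [hS]
      exact ⟨Or.inr ⟨⟨hc2, hc3⟩, h2⟩, hc4.right.1⟩
    obtain ⟨x0, hx0, hcx0⟩ := hcX
    obtain ⟨z, hz, cz⟩ := hXN x0 hx0
    have hXW : X ⊆ {v | m ≤ nrm v} \ (Ts ∪ Tt) := fun v hv =>
      ⟨hX v hv, Set.disjoint_left.1 hXT hv⟩
    have h5 : Conn ({v | m ≤ nrm v} \ (Ts ∪ Tt)) c x0 := by
      rcases hcx0 with rfl | h6
      · exact Conn.refl (hXW hx0)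
      · exact Conn.of_adj (hsub hc4.right) (hXW hx0) h6
    exact ⟨z, hz, (hc4.mono hsub).trans (h5.trans (cz.mono hXW))⟩
  obtain ⟨z, hz, dx⟩ := hfar x x' nx nx' cx
  obtain ⟨z', hz', dy⟩ := hfar y y' ny ny' cy
  have hNm : m ≤ N := by
    have := hN ρs (Or.inl hρs)
    omega
  have hout : ∀ z : V, z ∈ {v : V | N < nrm (v - 0)} ↔ N < nrm z := fun z => by
    change N < nrm (z - 0) ↔ _
    rw [sub_zero]
  have dz : Conn ({v | m ≤ nrm v} \ (Ts ∪ Tt)) z z' := by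
    refine (isConn_out 0 N z ((hout z).2 hz) z' ((hout z').2 hz')).mono fun v hv => ?_
    have hv' := (hout v).1 hv
    refine ⟨show m ≤ nrm v by omega, fun h => ?_⟩
    have := hN v h
    omega
  have hT : Conn (Ts ∪ Tt) ρs ρt := ((cs ρs hρs s hs).mono Set.subset_union_left).trans
    ((Conn.of_adj (Or.inl hs) (Or.inr ht) hst).trans
      ((ct t ht ρt hρt).mono Set.subset_union_right))
  obtain ⟨v, hv, hv'⟩ := jord_out' hm nρs nρt nx ny hsep
    (fun v hv => by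
      rcases hv with hv | hv
      · exact hTs v hv
      · exact hTt v hv) (fun v hv => hv.1) hT (dx.trans (dz.trans dy.symm))
  exact hv'.2 hv

end Pool.Agent.MST
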