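import Pool.Agent.MST.Phi

/-!
# The Jordan lemma for the hexagonal ball

`jord`: if `a, c` separate `b, d` on the circle of radius `n`, then a connection of `a` and `c` in
the ball of radius `n` meets every connection of `b` and `d` in the ball.

PROOF.  Let `f` (from `a` to `c`) and `g` (from `b` to `d`) be disjoint walks in the ball.  By the
grid lemma (`grid`) the sums of the winding cochain `th` over the two ways round the grid
`f i - g j` are equal.  For a vertex `y` of the circle all differences `u - y`, `u` in the ball,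
lie in a half plane, where `th` has a potential: `phi n y` for `u - y`, `phi' n x` for `x - u`.
`phi_pos`: `phi n y (x - y) - phi' n x (x - y) = [pos x < pos y] - [pos x < n] - [4 n ≤ pos y]`.
Hence `[a < b] - [c < b] + [c < d] - [a < d] = 0` for the positions, and the four points are not
interlaced.

`jord_out` is the same in the outside of the ball, for connections which meet the ball of radius
`n` only in the four points: apply `grid` to `(f, g)`, to `(f0, g)` and to `(f, g0)`, where `f0` is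
a walk in the ball from `c` to `a` which avoids `b, d` and `g0` a walk in the ball from `b` to `d`
which avoids `a, c`.
-/

namespace Pool.Agent.MST

open Pool.Agent.TriPerc

variable {n : ℤ} {u v x y a b c d : V} {S T : Set V}

/-- The winding sum of a walk round `y`. -/
def WS (f : ℕ → V) (I : ℕ) (y : V) : ℤ := ∑ i ∈ Finset.range I, th (f i - y) (f (i + 1) - y)

/-- The winding sum of `x` round a walk. -/
def WS' (g : ℕ → V) (J : ℕ) (x : V) : ℤ := ∑ j ∈ Finset.range J, th (x - g j) (x - g (j + 1))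

theorem ws_eq (hn : 1 ≤ n) (hy : nrm y = n) {f : ℕ → V} {I : ℕ}
    (ha : ∀ i < I, Adj (f i) (f (i + 1))) (hb : ∀ i ≤ I, nrm (f i) ≤ n) (hne : ∀ i ≤ I, f i ≠ y) :
    WS f I y = phi n y (f 0 - y) - phi n y (f I - y) := by
  unfold WS
  rw [Finset.sum_congr rfl (g := fun i => phi n y (f i - y) - phi n y (f (i + 1) - y))
    (fun i hi => ?_)]
  · exact Finset.sum_range_sub' (fun i => phi n y (f i - y)) I
  · have hi' := Finset.mem_range.mp hi
    exact th_phi hn hy (hb i (by omega)) (hb (i + 1) (by omega)) (ha i hi') (hne i (by omega))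
      (hne (i + 1) (by omega))

theorem ws'_eq (hn : 1 ≤ n) (hx : nrm x = n) {g : ℕ → V} {J : ℕ}
    (ha : ∀ j < J, Adj (g j) (g (j + 1))) (hb : ∀ j ≤ J, nrm (g j) ≤ n) (hne : ∀ j ≤ J, g j ≠ x) :
    WS' g J x = phi' n x (x - g 0) - phi' n x (x - g J) := by
  unfold WS'
  rw [Finset.sum_congr rfl (g := fun j => phi' n x (x - g j) - phi' n x (x - g (j + 1)))
    (fun i hi => ?_)]
  · exact Finset.sum_range_sub' (fun j => phi' n x (x - g j)) J
  · have hi' := Finset.mem_range.mp hi
    exact th_phi' hn hx (hb i (by omega)) (hb (i + 1) (by omega)) (ha i hi') (hne i (by omega))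
      (hne (i + 1) (by omega))

theorem ws_grid (f g : ℕ → V) (I J : ℕ) (hf : ∀ i < I, Adj (f i) (f (i + 1)))
    (hg : ∀ j < J, Adj (g j) (g (j + 1))) (hfg : ∀ i ≤ I, ∀ j ≤ J, f i ≠ g j) :
    WS f I (g 0) + WS' g J (f I) = WS' g J (f 0) + WS f I (g J) := grid f g I J hf hg hfg

theorem not_sep_of (hn : 1 ≤ n) (ha : nrm a = n) (hc : nrm c = n) (hb : nrm b = n)
    (hd : nrm d = n) (hba : b ≠ a) (hbc : b ≠ c) (hda : d ≠ a) (hdc : d ≠ c)
    (h : (phi n b (a - b) - phi' n a (a - b)) - (phi n b (c - b) - phi' n c (c - b)) +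
      (phi n d (c - d) - phi' n c (c - d)) - (phi n d (a - d) - phi' n a (a - d)) = 0) :
    ¬ SepC n a c b d := by
  rw [phi_pos hn ha hb hba.symm, phi_pos hn hc hb hbc.symm, phi_pos hn hc hd hdc.symm,
    phi_pos hn ha hd hda.symm] at h
  rw [sep_iff hn ha hc hb hd hba hbc hda hdc, not_not]
  have nba : pos n b ≠ pos n a := fun h => hba (pos_inj hn hb ha h)
  have nbc : pos n b ≠ pos n c := fun h => hbc (pos_inj hn hb hc h)
  have nda : pos n d ≠ pos n a := fun h => hda (pos_inj hn hd ha h)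
  have ndc : pos n d ≠ pos n c := fun h => hdc (pos_inj hn hd hc h)
  unfold Bt
  generalize pos n a = A at *
  generalize pos n b = B at *
  generalize pos n c = C at *
  generalize pos n d = D at *
  by_cases h1 : A < B <;> by_cases h2 : C < B <;> by_cases h3 : C < D <;> by_cases h4 : A < D <;>
    simp only [h1, h2, h3, h4, if_true, if_false] at h <;> omega

/-- **Jordan lemma**: interlaced connections in the ball meet. -/
theorem jord (hn : 1 ≤ n) (ha : nrm a = n) (hc : nrm c = n) (hb : nrm b = n)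
    (hd : nrm d = n) (hsep : SepC n a c b d) (hS : S ⊆ Ball 0 n) (hT : T ⊆ Ball 0 n)
    (h1 : Conn S a c) (h2 : Conn T b d) : ∃ z, z ∈ S ∧ z ∈ T := by
  by_contra hno
  have hne : ∀ s ∈ S, ∀ t ∈ T, s ≠ t := fun s hs t ht hst => hno ⟨s, hs, hst ▸ ht⟩
  have hba : b ≠ a := (hne a h1.left b h2.left).symm
  have hbc : b ≠ c := (hne c h1.right b h2.left).symm
  have hda : d ≠ a := (hne a h1.left d h2.right).symm
  have hdc : d ≠ c := (hne c h1.right d h2.right).symm
  obtain ⟨I, f, f0, fI, hf, hfS⟩ := h1.walk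
  obtain ⟨J, g, g0, gJ, hg, hgT⟩ := h2.walk
  have hfb : ∀ i ≤ I, nrm (f i) ≤ n := fun i hi => mem_ball0.1 (hS (hfS i hi))
  have hgb : ∀ i ≤ J, nrm (g i) ≤ n := fun i hi => mem_ball0.1 (hT (hgT i hi))
  have hgr := ws_grid f g I J hf hg fun i hi j hj => hne _ (hfS i hi) _ (hgT j hj)
  rw [f0, fI, g0, gJ] at hgr
  rw [ws_eq hn hb hf hfb fun i hi => hne _ (hfS i hi) _ h2.left,
    ws_eq hn hd hf hfb fun i hi => hne _ (hfS i hi) _ h2.right,
    ws'_eq hn hc hg hgb fun i hi => (hne _ h1.right _ (hgT i hi)).symm,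
    ws'_eq hn ha hg hgb fun i hi => (hne _ h1.left _ (hgT i hi)).symm, f0, fI, g0, gJ] at hgr
  exact not_sep_of hn ha hc hb hd hba hbc hda hdc (by linarith) hsep

/-- A connection inside the ball which avoids two other points of the circle. -/
theorem conn_ball_avoid (hn : 1 ≤ n) (ha : nrm a = n) (hc : nrm c = n) (hb : nrm b = n)
    (hd : nrm d = n) (hba : b ≠ a) (hbc : b ≠ c) (hda : d ≠ a) (hdc : d ≠ c) :
    Conn (Ball 0 n \ {b, d}) a c := by
  have hin : ∀ x, nrm x = n → x ≠ b → x ≠ d →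
      ∃ y, nrm y = n - 1 ∧ Conn (Ball 0 n \ {b, d}) x y := by
    intro x hx hxb hxd
    obtain ⟨y, hxy, hy⟩ := nrm_down (z := 0) (v := x) (by rw [sub_zero]; omega)
    rw [sub_zero, sub_zero] at hy
    refine ⟨y, by omega, Conn.of_adj ⟨mem_ball0.2 hx.le, ?_⟩ ⟨mem_ball0.2 (by omega), ?_⟩ hxy⟩
    · simp only [Set.mem_insert_iff, Set.mem_singleton_iff, not_or]
      exact ⟨hxb, hxd⟩
    · simp only [Set.mem_insert_iff, Set.mem_singleton_iff, not_or]
      constructor
      · rintro rfl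
        omega
      · rintro rfl
        omega
  obtain ⟨x, hx, h1⟩ := hin a ha hba.symm hda.symm
  obtain ⟨y, hy, h2⟩ := hin c hc hbc.symm hdc.symm
  have h3 : Conn (Ball 0 n \ {b, d}) x y := by
    refine (isConn_ball 0 (n - 1) x (mem_ball0.2 hx.le) y (mem_ball0.2 hy.le)).mono ?_
    intro z hz
    have hz' := mem_ball0.1 hz
    refine ⟨mem_ball0.2 (by omega), ?_⟩
    simp only [Set.mem_insert_iff, Set.mem_singleton_iff, not_or]
    constructor
    · rintro rfl
      omega
    · rintro rfl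
      omega
  exact h1.trans (h3.trans h2.symm)

/-- **Jordan lemma, outer version**. -/
theorem jord_out (hn : 1 ≤ n) (ha : nrm a = n) (hc : nrm c = n) (hb : nrm b = n)
    (hd : nrm d = n) (hsep : SepC n a c b d) (hS : ∀ z ∈ S, nrm z ≤ n → z = a ∨ z = c)
    (hT : ∀ z ∈ T, nrm z ≤ n → z = b ∨ z = d)
    (h1 : Conn S a c) (h2 : Conn T b d) : ∃ z, z ∈ S ∧ z ∈ T := by
  by_contra hno
  have hne : ∀ s ∈ S, ∀ t ∈ T, s ≠ t := fun s hs t ht hst => hno ⟨s, hs, hst ▸ ht⟩
  have hba : b ≠ a := (hne a h1.left b h2.left).symm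
  have hbc : b ≠ c := (hne c h1.right b h2.left).symm
  have hda : d ≠ a := (hne a h1.left d h2.right).symm
  have hdc : d ≠ c := (hne c h1.right d h2.right).symm
  obtain ⟨I, f, f0, fI, hf, hfS⟩ := h1.walk
  obtain ⟨J, g, g0, gJ, hg, hgT⟩ := h2.walk
  obtain ⟨K, k, k0, kK, hk, hkS⟩ :=
    (conn_ball_avoid hn hc ha hb hd hbc hba hdc hda).walk
  obtain ⟨M, m, m0, mM, hm, hmS⟩ :=
    (conn_ball_avoid hn hb hd ha hc hba.symm hda.symm hbc.symm hdc.symm).walk
  have hk1 : ∀ i ≤ K, k i ≠ b ∧ k i ≠ d := fun i hi => by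
    have := (hkS i hi).2
    simpa only [Set.mem_insert_iff, Set.mem_singleton_iff, not_or] using this
  have hm1 : ∀ i ≤ M, m i ≠ a ∧ m i ≠ c := fun i hi => by
    have := (hmS i hi).2
    simpa only [Set.mem_insert_iff, Set.mem_singleton_iff, not_or] using this
  have hkb : ∀ i ≤ K, nrm (k i) ≤ n := fun i hi => mem_ball0.1 (hkS i hi).1
  have hmb : ∀ i ≤ M, nrm (m i) ≤ n := fun i hi => mem_ball0.1 (hmS i hi).1
  have e1 := ws_grid f g I J hf hg fun i hi j hj => hne _ (hfS i hi) _ (hgT j hj)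
  have e2 := ws_grid k g K J hk hg fun i hi j hj h => by
    rcases hT _ (hgT j hj) (h ▸ hkb i hi) with h' | h'
    · exact (hk1 i hi).1 (h.trans h')
    · exact (hk1 i hi).2 (h.trans h')
  have e3 := ws_grid f m I M hf hm fun i hi j hj h => by
    rcases hS _ (hfS i hi) (h ▸ hmb j hj) with h' | h'
    · exact (hm1 j hj).1 (h.symm.trans h')
    · exact (hm1 j hj).2 (h.symm.trans h')
  rw [f0, fI, g0, gJ] at e1
  rw [k0, kK, g0, gJ] at e2
  rw [f0, fI, m0, mM] at e3
  rw [ws_eq hn hb hk hkb fun i hi => (hk1 i hi).1, ws_eq hn hd hk hkb fun i hi => (hk1 i hi).2,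
    k0, kK] at e2
  rw [ws'_eq hn hc hm hmb fun i hi => (hm1 i hi).2, ws'_eq hn ha hm hmb fun i hi => (hm1 i hi).1,
    m0, mM] at e3
  exact not_sep_of hn ha hc hb hd hba hbc hda hdc (by linarith) hsep

end Pool.Agent.MST
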