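import Pool.Agent.MST.Jord

/-!
# The Jordan lemma outside of a ball, and separation on the inner circle of an annulus

* `jord_out'`: if `a, c` separate `b, d` on the circle of radius `n`, a connection of `a` and `c`
  and a connection of `b` and `d`, both in `n ≤ nrm`, meet (they may touch the circle anywhere).
* `sep_in`: the dual of `sep_ann`: let `y1, y3` separate `y2, y4` on the INNER circle `Cir m` of the
  annulus, and let `y1` and `y3` be joined to `n ≤ nrm` in `S ⊆ {m ≤ nrm}`.  A connection of `y2`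
  and `y4` in `T ⊆ {m ≤ nrm ≤ n}` meets `S`.
-/

namespace Pool.Agent.MST

open Pool.Agent.TriPerc

variable {m n : ℤ} {S T : Set V} {a b c d z1 z2 z3 z4 y1 y2 y3 y4 : V}

/-- A connection of two vertices of the circle through the open ball. -/
theorem conn_thru (hn : 1 ≤ n) (ha : nrm a = n) (hc : nrm c = n) :
    Conn (Ball 0 (n - 1) ∪ {a, c}) a c := by
  have hin : ∀ x, nrm x = n → x ∈ ({a, c} : Set V) →
      ∃ y, nrm y = n - 1 ∧ Conn (Ball 0 (n - 1) ∪ {a, c}) x y := by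
    intro x hx hxac
    obtain ⟨y, hxy, hy⟩ := nrm_down (z := 0) (v := x) (by rw [sub_zero]; omega)
    rw [sub_zero, sub_zero] at hy
    exact ⟨y, by omega, Conn.of_adj (Or.inr hxac) (Or.inl (mem_ball0.2 (by omega))) hxy⟩
  obtain ⟨x, hx, h1⟩ := hin a ha (Or.inl rfl)
  obtain ⟨y, hy, h2⟩ := hin c hc (Or.inr rfl)
  have h3 : Conn (Ball 0 (n - 1) ∪ {a, c}) x y :=
    (isConn_ball 0 (n - 1) x (mem_ball0.2 hx.le) y (mem_ball0.2 hy.le)).mono
      Set.subset_union_left
  exact h1.trans (h3.trans h2.symm)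

/-- **Jordan lemma, outer version**: the connections may touch the circle. -/
theorem jord_out' (hn : 1 ≤ n) (ha : nrm a = n) (hc : nrm c = n) (hb : nrm b = n)
    (hd : nrm d = n) (hsep : SepC n a c b d) (hS : ∀ z ∈ S, n ≤ nrm z)
    (hT : ∀ z ∈ T, n ≤ nrm z) (h1 : Conn S a c) (h2 : Conn T b d) : ∃ z, z ∈ S ∧ z ∈ T := by
  by_contra hno
  have hne : ∀ s ∈ S, ∀ t ∈ T, s ≠ t := fun s hs t ht hst => hno ⟨s, hs, hst ▸ ht⟩
  have hba : b ≠ a := (hne a h1.left b h2.left).symm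
  have hbc : b ≠ c := (hne c h1.right b h2.left).symm
  have hda : d ≠ a := (hne a h1.left d h2.right).symm
  have hdc : d ≠ c := (hne c h1.right d h2.right).symm
  obtain ⟨I, f, f0, fI, hf, hfS⟩ := h1.walk
  obtain ⟨J, g, g0, gJ, hg, hgT⟩ := h2.walk
  obtain ⟨K, k, k0, kK, hk, hkS⟩ := (conn_thru hn hc ha).walk
  obtain ⟨M, m, m0, mM, hm, hmS⟩ := (conn_thru hn hb hd).walk
  have hk1 : ∀ i ≤ K, nrm (k i) ≤ n - 1 ∨ k i = c ∨ k i = a := fun i hi => by
    rcases hkS i hi with h | h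
    · exact Or.inl (mem_ball0.1 h)
    · exact Or.inr h
  have hm1 : ∀ i ≤ M, nrm (m i) ≤ n - 1 ∨ m i = b ∨ m i = d := fun i hi => by
    rcases hmS i hi with h | h
    · exact Or.inl (mem_ball0.1 h)
    · exact Or.inr h
  have hkb : ∀ i ≤ K, nrm (k i) ≤ n := fun i hi => by
    rcases hk1 i hi with h | h | h
    · omega
    · rw [h]; omega
    · rw [h]; omega
  have hmb : ∀ i ≤ M, nrm (m i) ≤ n := fun i hi => by
    rcases hm1 i hi with h | h | h
    · omega
    · rw [h]; omega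
    · rw [h]; omega
  have hkT : ∀ i ≤ K, k i ∉ T := fun i hi hT' => by
    rcases hk1 i hi with h | h | h
    · have := hT _ hT'
      omega
    · exact hne c h1.right _ hT' h.symm
    · exact hne a h1.left _ hT' h.symm
  have hmS' : ∀ i ≤ M, m i ∉ S := fun i hi hS' => by
    rcases hm1 i hi with h | h | h
    · have := hS _ hS'
      omega
    · exact hne _ hS' b h2.left h
    · exact hne _ hS' d h2.right h
  have e1 := ws_grid f g I J hf hg fun i hi j hj => hne _ (hfS i hi) _ (hgT j hj)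
  have e2 := ws_grid k g K J hk hg fun i hi j hj h => hkT i hi (h ▸ hgT j hj)
  have e3 := ws_grid f m I M hf hm fun i hi j hj h => hmS' j hj (h ▸ hfS i hi)
  rw [f0, fI, g0, gJ] at e1
  rw [k0, kK, g0, gJ] at e2
  rw [f0, fI, m0, mM] at e3
  rw [ws_eq hn hb hk hkb fun i hi h => hkT i hi (h ▸ h2.left),
    ws_eq hn hd hk hkb fun i hi h => hkT i hi (h ▸ h2.right), k0, kK] at e2
  rw [ws'_eq hn hc hm hmb fun i hi h => hmS' i hi (h ▸ h1.right),
    ws'_eq hn ha hm hmb fun i hi h => hmS' i hi (h ▸ h1.left), m0, mM] at e3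
  exact not_sep_of hn ha hc hb hd hba hbc hda hdc (by linarith) hsep

/-- **Separation on the inner circle**. -/
theorem sep_in (hm : 1 ≤ m) (h1 : nrm y1 = m) (h3 : nrm y3 = m)
    (h2 : nrm y2 = m) (h4 : nrm y4 = m) (hsep : SepC m y1 y3 y2 y4) (hS : ∀ z ∈ S, m ≤ nrm z)
    (c1 : Conn S y1 z1) (hz1 : n ≤ nrm z1) (c3 : Conn S y3 z3) (hz3 : n ≤ nrm z3)
    (hT : T ⊆ Ann 0 m n) (c2 : Conn T y2 y4) : ∃ z, z ∈ S ∧ z ∈ T := by
  have hTn : ∀ z ∈ T, m ≤ nrm z ∧ nrm z ≤ n := fun z hz => mem_ann0.1 (hT hz)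
  have hmn : m ≤ n := by
    have := hTn _ c2.left
    omega
  have hout : ∀ z : V, z ∈ {v : V | n < nrm (v - 0)} ↔ n < nrm z := fun z => by
    change n < nrm (z - 0) ↔ _
    rw [sub_zero]
  have hup : ∀ z : V, z ∈ S → n ≤ nrm z →
      ∃ x, n < nrm x ∧ Conn (S ∪ {v : V | n < nrm (v - 0)}) z x := by
    intro z hzS hz
    obtain ⟨x, hzx, hx⟩ := nrm_up 0 z
    rw [sub_zero, sub_zero] at hx
    have hx' : n < nrm x := by omega
    exact ⟨x, hx', Conn.of_adj (Or.inl hzS) (Or.inr ((hout x).2 hx')) hzx⟩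
  obtain ⟨x1, hx1, d1⟩ := hup z1 c1.right hz1
  obtain ⟨x3, hx3, d3⟩ := hup z3 c3.right hz3
  obtain ⟨z, hz, hzT⟩ := jord_out' (S := S ∪ {v : V | n < nrm (v - 0)}) hm h1 h3 h2 h4 hsep
    (fun z hz => by
      rcases hz with hz | hz
      · exact hS z hz
      · have := (hout z).1 hz
        omega) (fun z hz => (hTn z hz).1)
    (((c1.mono Set.subset_union_left).trans d1).trans (((isConn_out 0 n x1 ((hout x1).2 hx1) x3
      ((hout x3).2 hx3)).mono Set.subset_union_right).trans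
      ((c3.mono Set.subset_union_left).trans d3).symm)) c2
  rcases hz with hz | hz
  · exact ⟨z, hz, hzT⟩
  · have h5 := (hout z).1 hz
    have h6 := (hTn z hzT).2
    omega

end Pool.Agent.MST
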