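import Pool.Agent.MST.Pa
import Pool.Agent.MSTLim.Pat

/-!
# Translation between the definitions of `MSTLim` and `MST`
-/

namespace Pool.Agent.MST

open Pool.Agent.TriPerc MeasureTheory Set

theorem mst_iff (ω : Lab) (x y : V) : MSTLim.MST ω x y ↔ MT Set.univ ∅ ω x y := by
  unfold MSTLim.MST MT
  have h : Jd Set.univ ∅ ω (EL ω x y) x y ↔ Relation.ReflTransGen
      (fun u v => Adj u v ∧ MSTLim.U ω u v < MSTLim.U ω x y) x y := by
    unfold Jd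
    constructor
    · refine rtg_mono ?_
      rintro u v (⟨h1, -, -, h2⟩ | h1)
      · exact ⟨h1, h2⟩
      · exact absurd h1.1 (notMem_empty _)
    · refine rtg_mono ?_
      rintro u v ⟨h1, h2⟩
      exact Or.inl ⟨h1, mem_univ _, mem_univ _, h2⟩
  rw [h]
  constructor
  · rintro ⟨h1, h2⟩
    exact ⟨h1, mem_univ _, mem_univ _, h2⟩
  · rintro ⟨h1, -, -, h2⟩
    exact ⟨h1, h2⟩

theorem treePath_iff (ω : Lab) (f : ℕ → V) (n : ℕ) :
    MSTLim.TreePath ω f n ↔ IsPa (MT Set.univ ∅ ω) f n := by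
  constructor
  · rintro ⟨h1, h2⟩
    exact ⟨fun i hi => (mst_iff ω _ _).1 (h1 i hi), fun i j hi hj h => h2 i hi j hj h⟩
  · rintro ⟨h1, h2⟩
    exact ⟨fun i hi => (mst_iff ω _ _).2 (h1 i hi), fun i hi j hj h => h2 i j hi hj h⟩

/-- The weak pattern of `MSTLim` gives the weak pattern of `MST`. -/
theorem pw_of {ω : Lab} {a b : ℝ} (h : MSTLim.PW ω a b) : PW ⌈a⌉ ⌊b⌋ ω := by
  obtain ⟨f, n, t0, m1, t1, t2, m3, t3, h1, h2, h3, h4, h5, h6, h7, h8, h9, h10, h11, h12, h13,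
    h14⟩ := h
  have hb : ∀ v : V, b < nrm v → ⌊b⌋ < nrm v := fun v hv => by
    have := Int.floor_le b
    exact_mod_cast lt_of_le_of_lt this hv
  have ha : ∀ v : V, (nrm v : ℝ) < a → nrm v < ⌈a⌉ := fun v hv => by
    have := Int.le_ceil a
    exact_mod_cast lt_of_lt_of_le hv this
  refine ⟨n, f, (treePath_iff ω f n).1 h1, t0, m1, t1, t2, m3, t3, h2, h3, h4, h5, h6, h7,
    hb _ h8, hb _ h9, hb _ h10, hb _ h11, ha _ h12, ha _ h13, fun hc => h14 ?_⟩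
  have hs : Ball 0 ⌊b⌋ \ seg f t1 t2 ⊆ {z | (nrm z : ℝ) ≤ b ∧ ∀ k, t1 ≤ k → k ≤ t2 → z ≠ f k} := by
    rintro z ⟨hz, hz'⟩
    refine ⟨?_, fun k hk hk' he => hz' ⟨k, hk, hk', he.symm⟩⟩
    have hz2 : nrm z ≤ ⌊b⌋ := by simpa [Ball] using hz
    exact Int.le_floor.1 hz2
  exact ⟨hs hc.1, rtg_mono (fun x y hxy => ⟨hxy.1, hs hxy.2⟩) hc.2⟩

end Pool.Agent.MST
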