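import Pool.Agent.TriPerc.Fone

/-!
# The margin on a fixed circle

`marg`: for all `c, δ > 0` there are `e > 0` and `N0` such that for `N ≥ N0` and `ρ ≤ N`, with
probability at least `1 - δ`, no vertex `z` of the circle of radius `ρ` has four arms from distance
`e N` to distance `c N` (level `1/2`).  So two vertices at distance at most `e N` from `z` which
are joined to distance `c N` from `z` are joined to each other in the ball of radius `c N` round
`z` (`near_conn`).  PROOF: union bound over a net of the circle and `xf_one` (the four-arm exponent is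
larger than one).
-/

namespace Pool.Agent.MST

open Pool.Agent.TriPerc MeasureTheory

/-- Two points near `z` which are joined to distance `m` in the ball are joined in the ball. -/
theorem near_conn {S : Set V} {z x y x' y' : V} {t m : ℤ} (htm : t < m) (h : ¬ Four S z t m)
    (hx : nrm (x - z) ≤ t) (hy : nrm (y - z) ≤ t) (hx' : m ≤ nrm (x' - z))
    (hy' : m ≤ nrm (y' - z)) (h1 : Conn (S ∩ Ball z m) x x') (h2 : Conn (S ∩ Ball z m) y y') :
    Conn (S ∩ Ball z m) x y := by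
  by_contra hno
  exact h (four_of_conn (D := Ball z m) h1 h2 hno hx hx' hy hy' htm.le fun v hv => hv.2)

/-- A net of the circle. -/
private theorem net {ρ t : ℤ} (hρ : 0 ≤ ρ) (ht : 1 ≤ t) : ∃ Z : Finset V,
    (∀ z, nrm z = ρ → ∃ z' ∈ Z, nrm (z' - z) ≤ t) ∧ (Z.card : ℝ) ≤ 12 * ((ρ : ℝ) / t) + 30 := by
  classical
  obtain ⟨K, hK⟩ : ∃ K : ℤ, K = ρ / t := ⟨_, rfl⟩
  have hK0 : 0 ≤ K := by
    rw [hK]
    exact Int.ediv_nonneg hρ (by omega)
  obtain ⟨I, hI⟩ : ∃ I : Finset ℤ, I = Finset.Icc (-K - 1) (K + 1) := ⟨_, rfl⟩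
  have hI0 : (I.card : ℝ) ≤ 2 * (K : ℝ) + 3 := by
    rw [hI, Int.card_Icc]
    have : ((K + 1 + 1 - (-K - 1)).toNat : ℤ) = 2 * K + 3 := by omega
    have h2 : (((K + 1 + 1 - (-K - 1)).toNat : ℕ) : ℝ) = 2 * (K : ℝ) + 3 := by
      exact_mod_cast this
    exact h2.le
  have hKr : (K : ℝ) ≤ (ρ : ℝ) / t := by
    have ht0 : (0 : ℝ) < t := by exact_mod_cast ht
    rw [le_div_iff₀ ht0]
    have := Int.ediv_mul_le ρ (b := t) (by omega)
    rw [hK]
    exact_mod_cast this
  have key : ∀ x : ℤ, |x| ≤ ρ → ∃ i ∈ I, 0 ≤ x - t * i ∧ x - t * i < t := by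
    intro x hx
    have h1 := abs_le.1 hx
    have h2 := Int.mul_ediv_add_emod x t
    have h3 := Int.emod_nonneg x (b := t) (by omega)
    have h4 := Int.emod_lt_of_pos x (b := t) (by omega)
    have h5 := Int.mul_ediv_add_emod ρ t
    have h6 := Int.emod_nonneg ρ (b := t) (by omega)
    have h7 := Int.emod_lt_of_pos ρ (b := t) (by omega)
    rw [← hK] at h5
    refine ⟨x / t, ?_, by omega, by omega⟩
    rw [hI, Finset.mem_Icc]
    constructor
    · by_contra hc
      have : x / t + 1 ≤ -K - 1 := by omega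
      nlinarith
    · by_contra hc
      have : K + 1 + 1 ≤ x / t := by omega
      nlinarith
  refine ⟨I.image (fun i => (ρ, t * i)) ∪ I.image (fun i => (-ρ, t * i)) ∪
    (I.image (fun i => (t * i, ρ)) ∪ I.image (fun i => (t * i, -ρ))) ∪
    (I.image (fun i => (t * i, ρ - t * i)) ∪ I.image (fun i => (t * i, -ρ - t * i))), ?_, ?_⟩
  · intro z hz
    have hz' : max (max |z.1| |z.2|) |z.1 + z.2| = ρ := by
      rw [← hz]
      rfl
    have hz1 : |z.1| ≤ ρ := by
      rw [← hz']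
      exact (le_max_left _ _).trans (le_max_left _ _)
    have hz2 : |z.2| ≤ ρ := by
      rw [← hz']
      exact (le_max_right _ _).trans (le_max_left _ _)
    have nle : ∀ u : V, |u.1| ≤ t → |u.2| ≤ t → |u.1 + u.2| ≤ t → nrm u ≤ t := fun u h1 h2 h3 =>
      max_le (max_le h1 h2) h3
    have hcase : z.1 = ρ ∨ z.1 = -ρ ∨ z.2 = ρ ∨ z.2 = -ρ ∨ z.1 + z.2 = ρ ∨ z.1 + z.2 = -ρ := by
      rcases max_choice (max |z.1| |z.2|) |z.1 + z.2| with h | h
      · rcases max_choice |z.1| |z.2| with h' | h'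
        · rw [h, h'] at hz'
          rcases abs_choice z.1 with h'' | h'' <;> omega
        · rw [h, h'] at hz'
          rcases abs_choice z.2 with h'' | h'' <;> omega
      · rw [h] at hz'
        rcases abs_choice (z.1 + z.2) with h'' | h'' <;> omega
    obtain ⟨i, hi, i1, i2⟩ := key z.1 hz1
    obtain ⟨j, hj, j1, j2⟩ := key z.2 hz2
    have mem : ∀ {z' : V}, (z' ∈ I.image (fun i => (ρ, t * i)) ∨
        z' ∈ I.image (fun i => (-ρ, t * i)) ∨ z' ∈ I.image (fun i => (t * i, ρ)) ∨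
        z' ∈ I.image (fun i => (t * i, -ρ)) ∨ z' ∈ I.image (fun i => (t * i, ρ - t * i)) ∨
        z' ∈ I.image (fun i => (t * i, -ρ - t * i))) →
        z' ∈ I.image (fun i => (ρ, t * i)) ∪ I.image (fun i => (-ρ, t * i)) ∪
        (I.image (fun i => (t * i, ρ)) ∪ I.image (fun i => (t * i, -ρ))) ∪
        (I.image (fun i => (t * i, ρ - t * i)) ∪ I.image (fun i => (t * i, -ρ - t * i))) := by
      intro z' h
      simp only [Finset.mem_union]
      tauto
    rcases hcase with h | h | h | h | h | h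
    · refine ⟨(ρ, t * j), mem (Or.inl (Finset.mem_image_of_mem _ hj)), ?_⟩
      refine nle _ ?_ ?_ ?_ <;> simp only [Prod.fst_sub, Prod.snd_sub] <;> rw [abs_le] <;>
        constructor <;> omega
    · refine ⟨(-ρ, t * j), mem (Or.inr (Or.inl (Finset.mem_image_of_mem _ hj))), ?_⟩
      refine nle _ ?_ ?_ ?_ <;> simp only [Prod.fst_sub, Prod.snd_sub] <;> rw [abs_le] <;>
        constructor <;> omega
    · refine ⟨(t * i, ρ), mem (Or.inr (Or.inr (Or.inl (Finset.mem_image_of_mem _ hi)))), ?_⟩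
      refine nle _ ?_ ?_ ?_ <;> simp only [Prod.fst_sub, Prod.snd_sub] <;> rw [abs_le] <;>
        constructor <;> omega
    · refine ⟨(t * i, -ρ), mem (Or.inr (Or.inr (Or.inr (Or.inl
        (Finset.mem_image_of_mem _ hi))))), ?_⟩
      refine nle _ ?_ ?_ ?_ <;> simp only [Prod.fst_sub, Prod.snd_sub] <;> rw [abs_le] <;>
        constructor <;> omega
    · refine ⟨(t * i, ρ - t * i), mem (Or.inr (Or.inr (Or.inr (Or.inr (Or.inl
        (Finset.mem_image_of_mem _ hi)))))), ?_⟩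
      refine nle _ ?_ ?_ ?_ <;> simp only [Prod.fst_sub, Prod.snd_sub] <;> rw [abs_le] <;>
        constructor <;> omega
    · refine ⟨(t * i, -ρ - t * i), mem (Or.inr (Or.inr (Or.inr (Or.inr (Or.inr
        (Finset.mem_image_of_mem _ hi)))))), ?_⟩
      refine nle _ ?_ ?_ ?_ <;> simp only [Prod.fst_sub, Prod.snd_sub] <;> rw [abs_le] <;>
        constructor <;> omega
  · have hc : ∀ (f : ℤ → V), ((I.image f).card : ℝ) ≤ 2 * (K : ℝ) + 3 := fun f =>
      (Nat.cast_le.2 Finset.card_image_le).trans hI0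
    have hu : ∀ A B : Finset V, ((A ∪ B).card : ℝ) ≤ A.card + B.card := fun A B => by
      exact_mod_cast Finset.card_union_le A B
    refine (hu _ _).trans ?_
    have h1 := hu (I.image (fun i => (ρ, t * i)) ∪ I.image (fun i => (-ρ, t * i)))
      (I.image (fun i => (t * i, ρ)) ∪ I.image (fun i => (t * i, -ρ)))
    have h2 := hu (I.image (fun i => (ρ, t * i))) (I.image (fun i => (-ρ, t * i)))
    have h3 := hu (I.image (fun i => (t * i, ρ))) (I.image (fun i => (t * i, -ρ)))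
    have h4 := hu (I.image (fun i => (t * i, ρ - t * i))) (I.image (fun i => (t * i, -ρ - t * i)))
    have g1 := hc (fun i => (ρ, t * i))
    have g2 := hc (fun i => (-ρ, t * i))
    have g3 := hc (fun i => (t * i, ρ))
    have g4 := hc (fun i => (t * i, -ρ))
    have g5 := hc (fun i => (t * i, ρ - t * i))
    have g6 := hc (fun i => (t * i, -ρ - t * i))
    linarith

theorem marg' {c δ : ℝ} (hc : 0 < c) (hδ : 0 < δ) : ∃ e : ℝ, 0 < e ∧ e ≤ c / 8 ∧ ∃ N0 : ℝ,
    ∀ N : ℝ, N0 ≤ N → ∀ ρ : ℤ, (ρ : ℝ) ≤ N →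
    P {w | ∃ z, nrm z = ρ ∧ Four (Op (1 / 2) w) z ⌊e * N⌋ ⌊c * N⌋} ≤ ENNReal.ofReal δ := by
  classical
  obtain ⟨C, a, hC, ha, hx⟩ := xf_one
  obtain ⟨K, hK⟩ : ∃ K : ℝ, K = 54 * C * (4 / c) ^ (1 + a) := ⟨_, rfl⟩
  have hK0 : 0 < K := by
    rw [hK]
    positivity
  obtain ⟨e, he⟩ : ∃ e : ℝ, e = min (min 1 (c / 8)) ((δ / K) ^ (1 / a)) := ⟨_, rfl⟩
  have he0 : 0 < e := by
    rw [he]
    exact lt_min (lt_min one_pos (by positivity)) (Real.rpow_pos_of_pos (by positivity) _)
  have he1 : e ≤ 1 := by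
    rw [he]
    exact (min_le_left _ _).trans (min_le_left _ _)
  have hec : e ≤ c / 8 := by
    rw [he]
    exact (min_le_left _ _).trans (min_le_right _ _)
  have hea : e ^ a ≤ δ / K := by
    have h1 : e ≤ (δ / K) ^ (1 / a) := by
      rw [he]
      exact min_le_right _ _
    have h2 := Real.rpow_le_rpow he0.le h1 ha.le
    rwa [← Real.rpow_mul (by positivity), one_div_mul_cancel ha.ne', Real.rpow_one] at h2
  refine ⟨e, he0, hec, 2 / e, fun N hN ρ hρN => ?_⟩
  have hN0 : 0 < N := lt_of_lt_of_le (by positivity) hN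
  have heN : 2 ≤ e * N := by
    rw [div_le_iff₀ he0] at hN
    linarith
  have hcN : e * N ≤ c / 8 * N := mul_le_mul_of_nonneg_right hec hN0.le
  rcases lt_or_ge ρ 0 with hρ | hρ
  · have h0 : {w : Lab | ∃ z, nrm z = ρ ∧ Four (Op (1 / 2) w) z ⌊e * N⌋ ⌊c * N⌋} = ∅ := by
      ext w
      constructor
      · rintro ⟨z, hz, -⟩
        have := nrm_nonneg z
        omega
      · exact fun h => h.elim
    rw [h0, measure_empty]
    exact zero_le
  obtain ⟨t, ht⟩ : ∃ t : ℤ, t = ⌊e * N⌋ := ⟨_, rfl⟩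
  obtain ⟨m, hm⟩ : ∃ m : ℤ, m = ⌊c * N⌋ := ⟨_, rfl⟩
  rw [← ht, ← hm]
  have ht1 : (t : ℝ) ≤ e * N := by
    rw [ht]
    exact Int.floor_le _
  have ht2 : e * N - 1 < t := by
    rw [ht]
    exact Int.sub_one_lt_floor _
  have hm2 : c * N - 1 < m := by
    rw [hm]
    exact Int.sub_one_lt_floor _
  have ht3 : (1 : ℤ) ≤ t := by
    have : (1 : ℝ) < t := by linarith
    have h2 : (1 : ℤ) < t := by exact_mod_cast this
    omega
  have ht0 : (0 : ℝ) < t := by linarith
  have hmt : c * N / 2 ≤ (m : ℝ) - t := by linarith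
  have h2t : 2 * t ≤ m - t := by
    have : (2 * t : ℝ) ≤ (m : ℝ) - t := by linarith
    exact_mod_cast this
  have hmt0 : (0 : ℝ) < (m : ℝ) - t := lt_of_lt_of_le (by positivity) hmt
  obtain ⟨Z, hZ1, hZ2⟩ := net hρ ht3
  have hsub : {w : Lab | ∃ z, nrm z = ρ ∧ Four (Op (1 / 2) w) z t m} ⊆
      ⋃ z' ∈ Z, {w | Four (Op (1 / 2) w) z' (2 * t) (m - t)} := by
    rintro w ⟨z, hz, hw⟩
    obtain ⟨z', hz', hzz⟩ := hZ1 z hz
    refine Set.mem_iUnion₂.2 ⟨z', hz', ?_⟩
    have := four_centre hzz (by omega) hw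
    rwa [← two_mul] at this
  have hx1 : ∀ z' : V, P {w | Four (Op (1 / 2) w) z' (2 * t) (m - t)} ≤
      ENNReal.ofReal (C * (4 * e / c) ^ (1 + a)) := by
    intro z'
    rw [four_tr, ← ENNReal.ofReal_toReal (measure_ne_top P {w | Four (Op (1 / 2) w) 0 (2 * t)
      (m - t)})]
    refine ENNReal.ofReal_le_ofReal ((hx (2 * t) (m - t) (by omega) h2t).trans ?_)
    refine mul_le_mul_of_nonneg_left (Real.rpow_le_rpow ?_ ?_ (by linarith)) hC.le
    · push_cast
      positivity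
    · push_cast
      rw [div_le_div_iff₀ hmt0 hc]
      nlinarith
  calc P {w : Lab | ∃ z, nrm z = ρ ∧ Four (Op (1 / 2) w) z t m}
      ≤ ∑ z' ∈ Z, P {w | Four (Op (1 / 2) w) z' (2 * t) (m - t)} :=
        (measure_mono hsub).trans (measure_biUnion_finset_le Z _)
    _ ≤ Z.card • ENNReal.ofReal (C * (4 * e / c) ^ (1 + a)) :=
        Finset.sum_le_card_nsmul Z _ _ fun z' _ => hx1 z'
    _ = ENNReal.ofReal (Z.card * (C * (4 * e / c) ^ (1 + a))) := by
        rw [ENNReal.ofReal_mul (Nat.cast_nonneg _), ENNReal.ofReal_natCast, nsmul_eq_mul]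
    _ ≤ ENNReal.ofReal δ := by
        refine ENNReal.ofReal_le_ofReal ?_
        have h1 : (Z.card : ℝ) ≤ 54 / e := by
          refine hZ2.trans ?_
          have h2 : (ρ : ℝ) / t ≤ 2 / e := by
            rw [div_le_div_iff₀ ht0 he0]
            nlinarith
          have h3 : 30 ≤ 30 / e := by
            rw [le_div_iff₀ he0]
            linarith
          have h4 : (54 : ℝ) / e = 12 * (2 / e) + 30 / e := by ring
          linarith
        have h5 : (4 * e / c) ^ (1 + a) = (4 / c) ^ (1 + a) * (e * e ^ a) := by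
          rw [show 4 * e / c = 4 / c * e by ring, Real.mul_rpow (by positivity) he0.le,
            Real.rpow_add he0, Real.rpow_one]
        calc (Z.card : ℝ) * (C * (4 * e / c) ^ (1 + a))
            ≤ 54 / e * (C * (4 * e / c) ^ (1 + a)) :=
              mul_le_mul_of_nonneg_right h1 (by positivity)
          _ = K * e ^ a := by
              rw [h5, hK]
              field_simp
          _ ≤ K * (δ / K) := mul_le_mul_of_nonneg_left hea hK0.le
          _ = δ := by field_simp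

theorem marg {c δ : ℝ} (hc : 0 < c) (hδ : 0 < δ) : ∃ e : ℝ, 0 < e ∧ ∃ N0 : ℝ, ∀ N : ℝ,
    N0 ≤ N → ∀ ρ : ℤ, (ρ : ℝ) ≤ N →
    P {w | ∃ z, nrm z = ρ ∧ Four (Op (1 / 2) w) z ⌊e * N⌋ ⌊c * N⌋} ≤ ENNReal.ofReal δ := by
  obtain ⟨e, he, -, h⟩ := marg' hc hδ
  exact ⟨e, he, h⟩

end Pool.Agent.MST
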