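import Pool.Agent.MST.Defs
import Pool.Agent.TriPerc.WinA

/-!
# Mixed vertices in a block: the first moment

* `mixed_mxg`: `Mixed a b v d` implies mixed four arms `MxG a b v 2 d`.
* `mixed_prob`: `P (Mixed a b v d) ≤ (b - a) yf a b 2 d`.
* `mixed_ball`: the probability that the ball of radius `r` contains a mixed vertex.
* `mixed_win`: this probability is at most `C q / wd M r` for the levels `1/2 - q`, `1/2 + q`, `q ≤ A wd M r`.
-/

namespace Pool.Agent.MST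

open MeasureTheory Set
open Pool.Agent.TriPerc

variable {a b : ℝ} {v : V} {d : ℤ} {w : Lab}

theorem mixed_mxg (hd : 3 ≤ d) (hab : a ≤ b) (h : Mixed a b v d w) : w ∈ MxG a b v 2 d := by
  obtain ⟨-, -, O1, O2, hdis, h1, h2, c1, c2, ⟨x1, hx1, hx1'⟩, ⟨y1, hy1, hy1'⟩, ⟨x2, hx2, hx2'⟩,
    ⟨y2, hy2, hy2'⟩, hj⟩ := h
  have e0 : EG (Op a w) ≤ EG (Op b w) := eg_mono (op_mono hab w)
  have e1 : EG O1 ≤ EG (Op b w) := eg_mono fun x hx => (h1 hx).1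
  have e2 : EG O2 ≤ EG (Op b w) := eg_mono fun x hx => (h2 hx).1
  have hGb : EG (Op a w) ⊔ EG O1 ⊔ EG O2 ≤ EG (Op b w) := sup_le (sup_le e0 e1) e2
  refine ⟨EG (Op a w) ⊔ EG O1 ⊔ EG O2, le_sup_left.trans le_sup_left, hGb, ?_⟩
  have hn1 : ∀ x, Adj v x → nrm (x - v) ≤ 2 := by
    intro x hx
    have h3 := abs_le.1 (nrm_adj hx v)
    rw [sub_self, nrm_zero_iff.2 rfl] at h3
    omega
  have r1 : ∀ O : Set V, EG O ≤ EG (Op a w) ⊔ EG O1 ⊔ EG O2 → O ⊆ Op b w ∩ (Ball v d \ {v}) →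
      IsConn O → ∀ x ∈ O, ∀ y ∈ O,
      (cut (EG (Op a w) ⊔ EG O1 ⊔ EG O2) (Ball v d \ {v})).Reachable x y := by
    intro O hO hO' hc x hx y hy
    have h3 : (cut (EG O) (Ball v d \ {v})).Reachable x y := by
      rw [cut_eg, inter_eq_self_of_subset_left fun z hz => (hO' hz).2]
      exact (reach_eg hx).2 (hc x hx y hy)
    exact h3.mono (cut_mono hO le_rfl)
  refine fg_of_reach (D := Ball v d \ {v}) (hGb.trans (eg_mono (subset_univ _)))
    (r1 O1 (le_sup_right.trans le_sup_left) h1 c1 x1 hx1 y1 hy1)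
    (r1 O2 le_sup_right h2 c2 x2 hx2 y2 hy2) ?_ (hn1 x1 hx1') hy1'.ge (hn1 x2 hx2') hy2'.ge
    (by omega) ?_
  · intro hr
    rw [SimpleGraph.reachable_iff_reflTransGen] at hr
    have key : ∀ y, Relation.ReflTransGen
        (cut (EG (Op a w) ⊔ EG O1 ⊔ EG O2) (Ball v d \ {v})).Adj x1 y →
        y ∈ O1 ∨ ∃ u ∈ O1, Conn (Op a w ∩ (Ball v d \ {v})) u y := by
      intro y hy
      induction hy with
      | refl => exact Or.inl hx1
      | @tail p q _ hpq ih =>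
        obtain ⟨hpq, hp, hq⟩ := hpq
        have hp2 : p ∉ O2 := by
          intro hp2
          rcases ih with h3 | ⟨u, hu, h3⟩
          · exact Set.disjoint_left.1 hdis h3 hp2
          · exact hj ⟨u, hu, p, hp2, h3⟩
        rcases hpq with (h3 | h3) | h3
        · obtain ⟨h4, h5, h6⟩ := h3
          rcases ih with h7 | ⟨u, hu, h7⟩
          · exact Or.inr ⟨p, h7, Conn.of_adj ⟨h5, hp⟩ ⟨h6, hq⟩ h4⟩
          · exact Or.inr ⟨u, hu, h7.trans (Conn.of_adj ⟨h5, hp⟩ ⟨h6, hq⟩ h4)⟩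
        · exact Or.inl h3.2.2
        · exact absurd h3.2.1 hp2
    rcases key x2 hr with h3 | ⟨u, hu, h3⟩
    · exact Set.disjoint_left.1 hdis h3 hx2
    · exact hj ⟨u, hu, x2, hx2, h3⟩
  · rintro x ⟨hx, hx'⟩
    refine ⟨hx', fun h3 => ?_⟩
    rw [h3, sub_self, nrm_zero_iff.2 rfl] at hx
    omega

/-- One vertex. -/
theorem mixed_prob (h0 : 0 ≤ a) (hab : a ≤ b) (h1 : b ≤ 1) (hd : 3 ≤ d) (v : V) :
    P {w | Mixed a b v d w} ≤ ENNReal.ofReal ((b - a) * yf a b 2 d) := by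
  obtain ⟨h2, h3⟩ := unif_Ioc h0 hab h1 v
  have h4 : P ({w : Lab | a < w v ∧ w v ≤ b} ∩ MxG a b v 2 d) =
      P {w : Lab | a < w v ∧ w v ≤ b} * P (MxG a b v 2 d) := by
    refine indep h2 (ev_mxg hab v 2 d) ?_
    rw [Set.disjoint_singleton_left]
    rintro ⟨h5, -⟩
    rw [sub_self, nrm_zero_iff.2 rfl] at h5
    omega
  have h5 : {w | Mixed a b v d w} ⊆ {w : Lab | a < w v ∧ w v ≤ b} ∩ MxG a b v 2 d :=
    fun w hw => ⟨⟨hw.1, hw.2.1⟩, mixed_mxg hd hab hw⟩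
  refine (measure_mono h5).trans ?_
  rw [h4, mxg_tr, ← h3, yf, ← ENNReal.toReal_mul, ENNReal.ofReal_toReal]
  exact ENNReal.mul_ne_top (measure_ne_top _ _) (measure_ne_top _ _)

private theorem ball_sub (r : ℤ) :
    Ball 0 r ⊆ (((Finset.Icc (-r) r) ×ˢ (Finset.Icc (-r) r) : Finset V) : Set V) := by
  intro v hv
  have h1 : nrm (v - 0) ≤ r := hv
  rw [sub_zero] at h1
  have h2 : |v.1| ≤ r := ((le_max_left _ _).trans (le_max_left _ _)).trans h1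
  have h3 : |v.2| ≤ r := ((le_max_right _ _).trans (le_max_left _ _)).trans h1
  rw [abs_le] at h2 h3
  rw [Finset.mem_coe, Finset.mem_product, Finset.mem_Icc, Finset.mem_Icc]
  exact ⟨h2, h3⟩

/-- The ball of radius `r` contains a mixed vertex. -/
theorem mixed_ball (h0 : 0 ≤ a) (hab : a ≤ b) (h1 : b ≤ 1) (hd : 3 ≤ d) {r : ℤ} (hr : 1 ≤ r) :
    P {w | ∃ v ∈ Ball 0 r, Mixed a b v d w} ≤
      ENNReal.ofReal (9 * (r : ℝ) ^ 2 * ((b - a) * yf a b 2 d)) := by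
  have h2 : {w | ∃ v ∈ Ball 0 r, Mixed a b v d w} ⊆
      ⋃ v ∈ ((Finset.Icc (-r) r) ×ˢ (Finset.Icc (-r) r) : Finset V), {w | Mixed a b v d w} := by
    rintro w ⟨v, hv, hw⟩
    exact mem_iUnion₂.2 ⟨v, Finset.mem_coe.1 (ball_sub r hv), hw⟩
  refine (measure_mono h2).trans ((measure_biUnion_finset_le _ _).trans ?_)
  refine (Finset.sum_le_sum fun v _ => mixed_prob h0 hab h1 hd v).trans ?_
  have hx : 0 ≤ (b - a) * yf a b 2 d := mul_nonneg (sub_nonneg.2 hab) yf_nonneg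
  rw [Finset.sum_const, nsmul_eq_mul, ← ENNReal.ofReal_natCast,
    ← ENNReal.ofReal_mul (Nat.cast_nonneg _)]
  refine ENNReal.ofReal_le_ofReal (mul_le_mul_of_nonneg_right ?_ hx)
  rw [Finset.card_product, Int.card_Icc]
  have h3 : ((r + 1 - -r).toNat : ℝ) = 2 * r + 1 := by
    have : ((r + 1 - -r).toNat : ℤ) = 2 * r + 1 := by
      rw [Int.toNat_of_nonneg (by omega)]
      ring
    exact_mod_cast congrArg (fun z : ℤ => (z : ℝ)) this
  rw [Nat.cast_mul, h3]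
  have h4 : (1 : ℝ) ≤ r := by exact_mod_cast hr
  nlinarith

/-- Mixed vertices for levels in the window: the probability is at most `C q / wd M r`. -/
theorem mixed_win (H : QmFr) {M A δ : ℝ} (hM : 0 < M) (hA : 1 ≤ A) (hδ : 0 < δ) :
    ∃ (C : ℝ) (r0 : ℤ), 0 < C ∧ 2 ≤ r0 ∧ ∀ (r d : ℤ) (q : ℝ), r0 ≤ r → δ * (r : ℝ) ≤ d →
      0 ≤ q → q ≤ A * wd M r → q ≤ 1 / 4 ∧
      P {w | ∃ v ∈ Ball 0 r, Mixed (1 / 2 - q) (1 / 2 + q) v d w} ≤
        ENNReal.ofReal (C * (q / wd M r)) := by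
  obtain ⟨C2, r0, hC2, hr0, h1⟩ := wd_mix H hM hA hδ
  refine ⟨18 * C2, max r0 ⌈3 / δ⌉, by positivity, hr0.trans (le_max_left _ _),
    fun r d q hr hd hq hqA => ?_⟩
  have hr1 : r0 ≤ r := (le_max_left _ _).trans hr
  obtain ⟨hd2, hA4, hmix⟩ := h1 r d hr1 hd
  have hq4 : q ≤ 1 / 4 := hqA.trans hA4
  refine ⟨hq4, ?_⟩
  have hd3 : 3 ≤ d := by
    have h2 : 3 / δ ≤ (r : ℝ) := by
      refine (Int.le_ceil _).trans ?_
      exact_mod_cast (le_max_right _ _).trans hr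
    rw [div_le_iff₀ hδ] at h2
    have h3 : (3 : ℝ) ≤ d := by linarith
    exact_mod_cast h3
  have hw := wd_pos H hM (hr0.trans hr1)
  refine (mixed_ball (by linarith) (by linarith) (by linarith) hd3 (by omega : 1 ≤ r)).trans ?_
  refine ENNReal.ofReal_le_ofReal ?_
  have h4 : yf (1 / 2 - q) (1 / 2 + q) 2 d ≤ yf (1 / 2 - A * wd M r) (1 / 2 + A * wd M r) 2 d :=
    yf_mono (by linarith) (by linarith)
  have h5 : wd M r * ((r : ℝ) ^ 2 * yf (1 / 2 - q) (1 / 2 + q) 2 d) ≤ C2 :=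
    (mul_le_mul_of_nonneg_left (mul_le_mul_of_nonneg_left h4 (sq_nonneg _)) hw.le).trans hmix
  have h6 : (r : ℝ) ^ 2 * yf (1 / 2 - q) (1 / 2 + q) 2 d ≤ C2 / wd M r := by
    rw [le_div_iff₀ hw]
    linarith
  have h7 : 9 * (r : ℝ) ^ 2 * ((1 / 2 + q - (1 / 2 - q)) * yf (1 / 2 - q) (1 / 2 + q) 2 d) =
      18 * q * ((r : ℝ) ^ 2 * yf (1 / 2 - q) (1 / 2 + q) 2 d) := by ring
  rw [h7]
  refine (mul_le_mul_of_nonneg_left h6 (by positivity)).trans (le_of_eq ?_)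
  ring

end Pool.Agent.MST
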