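import Pool.Agent.MST.Pa

/-!
# The minimal spanning tree: monotonicity, minimax property, tree property

* `MT_mono`: an edge of the tree of a large graph (with more wiring) is an edge of the tree of a
  small graph (restriction and contraction in one statement).
* `EL_inj`: edges of a simple path have different labels.
* `minimax`: if the ends of a simple path of tree edges and jumps are joined below the level `l`,
  then all tree edges of the path are below `l`.
* `minimax_vertex`, `minimax_vertex'`: the version for vertex levels.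
* `tree_vertex`: a vertex inside a simple tree path from `x` to `y` is on every tree walk from
  `x` to `y`.
-/

namespace Pool.Agent.MST

open Pool.Agent.TriPerc

variable {A A' W W' S : Set V} {w : Lab} {f : ℕ → V} {n : ℕ} {x y x' y' : V} {l l' : ℝ ×ₗ ℝ}
  {t : ℝ}

theorem EL_comm (w : Lab) (x y : V) : EL w x y = EL w y x := by
  unfold EL
  rw [max_comm, min_comm]

/-- The larger label of an edge. -/
theorem EL_fst (w : Lab) (x y : V) : (ofLex (EL w x y)).1 = max (w x) (w y) := rfl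

theorem EL_lt_of (h : max (w x) (w y) < max (w x') (w y')) : EL w x y < EL w x' y' := by
  unfold EL
  rw [Prod.Lex.lt_iff]
  exact Or.inl h

theorem max_le_of_EL_lt (h : EL w x y < EL w x' y') : max (w x) (w y) ≤ max (w x') (w y') := by
  unfold EL at h
  rw [Prod.Lex.lt_iff] at h
  rcases h with h | h
  · exact h.le
  · exact h.1.le

theorem max_le_of_EL_le (h : EL w x y ≤ EL w x' y') : max (w x) (w y) ≤ max (w x') (w y') := by
  rcases h.lt_or_eq with h | h
  · exact max_le_of_EL_lt h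
  · unfold EL at h
    have := congrArg (fun z : ℝ ×ₗ ℝ => (ofLex z).1) h
    exact le_of_eq this

/-- Different edges have different labels. -/
theorem EL_inj (hw : Function.Injective w) (h : EL w x y = EL w x' y') :
    (x = x' ∧ y = y') ∨ (x = y' ∧ y = x') := by
  have h1 : max (w x) (w y) = max (w x') (w y') :=
    congrArg (fun z : ℝ ×ₗ ℝ => (ofLex z).1) h
  have h2 : min (w x) (w y) = min (w x') (w y') :=
    congrArg (fun z : ℝ ×ₗ ℝ => (ofLex z).2) h
  rcases le_total (w x) (w y) with h3 | h3 <;> rcases le_total (w x') (w y') with h4 | h4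
  · rw [max_eq_right h3, max_eq_right h4] at h1
    rw [min_eq_left h3, min_eq_left h4] at h2
    exact Or.inl ⟨hw h2, hw h1⟩
  · rw [max_eq_right h3, max_eq_left h4] at h1
    rw [min_eq_left h3, min_eq_right h4] at h2
    exact Or.inr ⟨hw h2, hw h1⟩
  · rw [max_eq_left h3, max_eq_right h4] at h1
    rw [min_eq_right h3, min_eq_left h4] at h2
    exact Or.inr ⟨hw h1, hw h2⟩
  · rw [max_eq_left h3, max_eq_left h4] at h1
    rw [min_eq_right h3, min_eq_right h4] at h2
    exact Or.inl ⟨hw h1, hw h2⟩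

theorem Step.symm (h : Step A W w l x y) : Step A W w l y x := by
  rcases h with ⟨h1, h2, h3, h4⟩ | ⟨h1, h2⟩
  · exact Or.inl ⟨h1.symm, h3, h2, by rwa [EL_comm]⟩
  · exact Or.inr ⟨h2, h1⟩

theorem Step.mono (h : Step A W w l x y) (hA : A ⊆ A') (hW : W ⊆ W') (hl : l ≤ l') :
    Step A' W' w l' x y := by
  rcases h with ⟨h1, h2, h3, h4⟩ | ⟨h1, h2⟩
  · exact Or.inl ⟨h1, hA h2, hA h3, h4.trans_le hl⟩
  · exact Or.inr ⟨hW h1, hW h2⟩

theorem Jd.symm (h : Jd A W w l x y) : Jd A W w l y x := rtg_symm (fun _ _ h => h.symm) h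

theorem Jd.mono (h : Jd A W w l x y) (hA : A ⊆ A') (hW : W ⊆ W') (hl : l ≤ l') :
    Jd A' W' w l' x y :=
  rtg_mono (fun _ _ h => h.mono hA hW hl) h

theorem MT.adj (h : MT A W w x y) : Adj x y := h.1

theorem MT.symm (h : MT A W w x y) : MT A W w y x :=
  ⟨h.1.symm, h.2.2.1, h.2.1, fun h1 => h.2.2.2 (by rw [EL_comm]; exact h1.symm)⟩

theorem MJ.symm (h : MJ A W w x y) : MJ A W w y x := by
  rcases h with h | h
  · exact Or.inl h.symm
  · exact Or.inr ⟨h.2, h.1⟩

/-- Restriction and contraction. -/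
theorem MT_mono (hA : A ⊆ A') (hW : W ⊆ W') (hx : x ∈ A) (hy : y ∈ A) (h : MT A' W' w x y) :
    MT A W w x y :=
  ⟨h.1, hx, hy, fun h1 => h.2.2.2 (h1.mono hA hW le_rfl)⟩

/-- A tree edge or a jump is a step at every level above the edge. -/
theorem MJ.step (h : MJ A W w x y) (hl : MT A W w x y → EL w x y < l) : Step A W w l x y := by
  rcases h with h | h
  · exact Or.inl ⟨h.1, h.2.1, h.2.2.1, hl h⟩
  · exact Or.inr h

theorem jd_of_conn (h : Conn (Op t w ∩ A) x y) (hl : t < (ofLex l).1) : Jd A W w l x y := by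
  obtain ⟨hx, hr⟩ := h
  have hkey : ∀ z, Relation.ReflTransGen (fun x y => Adj x y ∧ y ∈ Op t w ∩ A) x z →
      z ∈ Op t w ∩ A ∧ Jd A W w l x z := by
    intro z hz
    induction hz with
    | refl => exact ⟨hx, Relation.ReflTransGen.refl⟩
    | @tail b c _ hbc ih =>
      refine ⟨hbc.2, ih.2.tail (Or.inl ⟨hbc.1, ih.1.2, hbc.2.2, ?_⟩)⟩
      unfold EL
      rw [Prod.Lex.lt_iff]
      exact Or.inl ((max_le ih.1.1 hbc.2.1).trans_lt hl)
  exact (hkey y hr).2

/-- Two different edges of a simple path have different labels. -/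
theorem EL_ne (hw : Function.Injective w) {R : V → V → Prop} (hf : IsPa R f n) {i j : ℕ}
    (hi : i < n) (hj : j < n) (hij : i ≠ j) : EL w (f i) (f (i + 1)) ≠ EL w (f j) (f (j + 1)) := by
  intro h
  rcases EL_inj hw h with ⟨h1, -⟩ | ⟨h1, h2⟩
  · exact hij (hf.inj i j hi.le hj.le h1)
  · have h3 := hf.inj i (j + 1) hi.le hj h1
    have h4 := hf.inj (i + 1) j hi hj.le h2
    omega

/-- The minimax property of the minimal spanning tree. -/
theorem minimax (hw : Function.Injective w) (hf : IsPa (MJ A W w) f n)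
    (h : Jd A W w l (f 0) (f n)) {i : ℕ} (hi : i < n) (hm : MT A W w (f i) (f (i + 1))) :
    EL w (f i) (f (i + 1)) < l := by
  classical
  by_contra hc
  obtain ⟨k, hk, hmax⟩ := ((Finset.range n).filter
      (fun j => MT A W w (f j) (f (j + 1)))).exists_max_image
    (fun j => EL w (f j) (f (j + 1))) ⟨i, Finset.mem_filter.2 ⟨Finset.mem_range.2 hi, hm⟩⟩
  rw [Finset.mem_filter, Finset.mem_range] at hk
  have h1 : l ≤ EL w (f k) (f (k + 1)) :=
    (not_lt.1 hc).trans (hmax i (Finset.mem_filter.2 ⟨Finset.mem_range.2 hi, hm⟩))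
  have h2 : ∀ j, j < n → j ≠ k → Step A W w (EL w (f k) (f (k + 1))) (f j) (f (j + 1)) := by
    intro j hj hjk
    refine (hf.step j hj).step fun hj' => ?_
    exact lt_of_le_of_ne (hmax j (Finset.mem_filter.2 ⟨Finset.mem_range.2 hj, hj'⟩))
      (EL_ne hw hf hj hk.1 hjk)
  refine hk.2.2.2.2 ?_
  have h3 : Jd A W w (EL w (f k) (f (k + 1))) (f 0) (f k) :=
    rtg_seg (Nat.zero_le k) fun j _ hj => h2 j (by omega) (by omega)
  have h4 : Jd A W w (EL w (f k) (f (k + 1))) (f (k + 1)) (f n) :=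
    rtg_seg (Nat.succ_le_of_lt hk.1) fun j hj hj' => h2 j hj' (by omega)
  exact h3.symm.trans ((h.mono subset_rfl subset_rfl h1).trans h4.symm)

/-- The minimax property for a part of the path. -/
theorem minimax_idx (hw : Function.Injective w) (hf : IsPa (MJ A W w) f n) {s e i : ℕ}
    (h : Jd A W w l (f s) (f e)) (hsi : s ≤ i) (hie : i < e) (he : e ≤ n)
    (hm : MT A W w (f i) (f (i + 1))) : EL w (f i) (f (i + 1)) < l := by
  have h1 := hf.sub (hsi.trans hie.le) he
  have h2 := minimax (l := l) (i := i - s) hw h1 (by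
    simp only [Nat.add_zero]
    rw [show s + (e - s) = e by omega]
    exact h) (by omega) (by
    rw [show s + (i - s) = i by omega, show s + (i - s + 1) = i + 1 by omega]
    exact hm)
  rwa [show s + (i - s) = i by omega, show s + (i - s + 1) = i + 1 by omega] at h2

theorem jd_seg {s e : ℕ} (hse : s ≤ e) (h : ∀ j, s ≤ j → j < e → MT A W w (f j) (f (j + 1)) ∧
    EL w (f j) (f (j + 1)) < l) : Jd A W w l (f s) (f e) :=
  rtg_seg hse fun j h1 h2 => Or.inl ⟨(h j h1 h2).1.1, (h j h1 h2).1.2.1, (h j h1 h2).1.2.2.1,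
    (h j h1 h2).2⟩

/-- The largest edge of a part of a path. -/
theorem exists_max (w : Lab) (f : ℕ → V) {s e : ℕ} (h : s < e) : ∃ k, s ≤ k ∧ k < e ∧
    ∀ j, s ≤ j → j < e → EL w (f j) (f (j + 1)) ≤ EL w (f k) (f (k + 1)) := by
  obtain ⟨k, hk, hmax⟩ := (Finset.Ico s e).exists_max_image
    (fun j => EL w (f j) (f (j + 1))) ⟨s, Finset.mem_Ico.2 ⟨le_rfl, h⟩⟩
  rw [Finset.mem_Ico] at hk
  exact ⟨k, hk.1, hk.2, fun j h1 h2 => hmax j (Finset.mem_Ico.2 ⟨h1, h2⟩)⟩

/-- The minimax property for vertex levels; the path may contain jumps. -/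
theorem minimax_vertex' (hw : Function.Injective w) (hf : IsPa (MJ A W w) f n)
    (h : ∀ l : ℝ ×ₗ ℝ, t < (ofLex l).1 → Jd A W w l (f 0) (f n)) {i : ℕ} (hi : i < n)
    (hm : MT A W w (f i) (f (i + 1))) : w (f i) ≤ t ∧ w (f (i + 1)) ≤ t := by
  have h1 : max (w (f i)) (w (f (i + 1))) ≤ t := by
    by_contra hc
    exact lt_irrefl _ (minimax hw hf (h (EL w (f i) (f (i + 1))) (not_le.1 hc)) hi hm)
  exact ⟨(le_max_left _ _).trans h1, (le_max_right _ _).trans h1⟩

/-- The tree path between two vertices which are joined at the level `t` is `t`-open. -/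
theorem minimax_vertex (hw : Function.Injective w) (hf : IsPa (MT A W w) f n)
    (h : Conn (Op t w ∩ A) (f 0) (f n)) {i : ℕ} (hi : i ≤ n) : w (f i) ≤ t := by
  have hf' : IsPa (MJ A W w) f n := hf.mono fun _ _ h => Or.inl h
  rcases Nat.eq_or_lt_of_le hi with rfl | h1
  · exact h.right.1
  · exact (minimax_vertex' hw hf' (fun l hl => jd_of_conn h hl) h1 (hf.step i h1)).1

/-- The version for two times of a longer path. -/
theorem minimax_seg (hw : Function.Injective w) (hf : IsPa (MT A W w) f n) {s e i : ℕ}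
    (h : Conn (Op t w ∩ A) (f s) (f e)) (hsi : s ≤ i) (hie : i ≤ e) (he : e ≤ n) :
    w (f i) ≤ t := by
  have h1 := hf.sub (hsi.trans hie) he
  have h2 := minimax_vertex (t := t) (i := i - s) hw h1 (by
    simp only [Nat.add_zero]
    rw [show s + (e - s) = e by omega]
    exact h) (by omega)
  rwa [show s + (i - s) = i by omega] at h2

/-- Two simple tree paths with the same ends (parts of `f` and `g`) and no common edge: this is
impossible. -/
theorem no_two {g : ℕ → V} {N : ℕ} (hw : Function.Injective w) (hf : IsPa (MT A W w) f n)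
    (hg : IsPa (MT A W w) g N) {a b c d : ℕ} (hab : a < b) (hb : b ≤ n) (hcd : c < d) (hd : d ≤ N)
    (h1 : f a = g c) (h2 : f b = g d)
    (hne : ∀ i j, a ≤ i → i < b → c ≤ j → j < d →
      EL w (f i) (f (i + 1)) ≠ EL w (g j) (g (j + 1))) : False := by
  have hf' : IsPa (MJ A W w) f n := hf.mono fun _ _ h => Or.inl h
  have hg' : IsPa (MJ A W w) g N := hg.mono fun _ _ h => Or.inl h
  obtain ⟨k, k1, k2, k3⟩ := exists_max w f hab
  obtain ⟨m, m1, m2, m3⟩ := exists_max w g hcd
  rcases lt_trichotomy (EL w (f k) (f (k + 1))) (EL w (g m) (g (m + 1))) with h | h | h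
  · refine lt_irrefl _ (minimax_idx hw hg' (l := EL w (g m) (g (m + 1))) ?_ m1 m2 hd
      (hg.step m (by omega)))
    rw [← h1, ← h2]
    exact jd_seg hab.le fun j j1 j2 => ⟨hf.step j (by omega), (k3 j j1 j2).trans_lt h⟩
  · exact hne k m k1 k2 m1 m2 h
  · refine lt_irrefl _ (minimax_idx hw hf' (l := EL w (f k) (f (k + 1))) ?_ k1 k2 hb
      (hf.step k (by omega)))
    rw [h1, h2]
    exact jd_seg hcd.le fun j j1 j2 => ⟨hg.step j (by omega), (m3 j j1 j2).trans_lt h⟩

/-- A vertex inside a simple tree path lies on every tree walk with the same ends. -/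
theorem tree_vertex (hw : Function.Injective w) (hf : IsPa (MT A W w) f n) {i : ℕ} (h0 : 0 < i)
    (hi : i < n) (h : Relation.ReflTransGen
      (fun x y => MT A W w x y ∧ x ≠ f i ∧ y ≠ f i) (f 0) (f n)) : False := by
  classical
  obtain ⟨g, N, g0, gN, hg⟩ := exists_pa h
  have hg' : IsPa (MT A W w) g N := hg.mono fun _ _ h => h.1
  have hex : ∃ j, j ≤ N ∧ ∃ b, i < b ∧ b ≤ n ∧ g j = f b := ⟨N, le_rfl, n, hi, le_rfl, gN⟩
  obtain ⟨hdN, b, hib, hbn, hgd⟩ := Nat.find_spec hex
  obtain ⟨d, hd⟩ : ∃ d, d = Nat.find hex := ⟨_, rfl⟩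
  rw [← hd] at hdN hgd
  have hmin : ∀ j, j < d → ¬ ∃ b, i < b ∧ b ≤ n ∧ g j = f b := fun j hj hc =>
    Nat.find_min hex (hd ▸ hj) ⟨by omega, hc⟩
  obtain ⟨c, hc⟩ : ∃ c, c = Nat.findGreatest (fun j => ∃ a, a < i ∧ g j = f a) (d - 1) :=
    ⟨_, rfl⟩
  have hd0 : d ≠ 0 := by
    rintro rfl
    rw [g0] at hgd
    have := hf.inj 0 b (by omega) hbn hgd
    omega
  have hcs : ∃ a, a < i ∧ g c = f a := by
    rw [hc]
    exact Nat.findGreatest_spec (P := fun j => ∃ a, a < i ∧ g j = f a) (Nat.zero_le (d - 1))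
      ⟨0, h0, g0⟩
  have hcd : c ≤ d - 1 := by
    rw [hc]
    exact Nat.findGreatest_le _
  obtain ⟨a, hai, hga⟩ := hcs
  have hmid : ∀ j, c < j → j < d → ∀ k ≤ n, g j ≠ f k := by
    intro j h1 h2 k hk hjk
    rcases lt_trichotomy k i with h3 | h3 | h3
    · refine Nat.findGreatest_is_greatest (P := fun j => ∃ a, a < i ∧ g j = f a)
        (n := d - 1) (k := j) (by rw [← hc]; exact h1) (by omega) ⟨k, h3, hjk⟩
    · subst h3
      have h4 := hg.step j (by omega)
      exact h4.2.1 hjk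
    · exact hmin j h2 ⟨k, h3, hk, hjk⟩
  refine no_two hw hf hg' (a := a) (b := b) (c := c) (d := d) (by omega) hbn (by omega) hdN
    hga.symm hgd.symm ?_
  intro p q p1 p2 q1 q2 hpq
  have hq : q = c := by
    by_contra hq
    rcases EL_inj hw hpq with ⟨h1, h2⟩ | ⟨h1, h2⟩
    · exact hmid q (by omega) q2 p (by omega) h1.symm
    · exact hmid q (by omega) q2 (p + 1) (by omega) h2.symm
  have hq' : q + 1 = d := by
    by_contra hq'
    rcases EL_inj hw hpq with ⟨h1, h2⟩ | ⟨h1, h2⟩
    · exact hmid (q + 1) (by omega) (by omega) (p + 1) (by omega) h2.symm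
    · exact hmid (q + 1) (by omega) (by omega) p (by omega) h1.symm
  subst hq
  rw [hq', hga, hgd] at hpq
  rcases EL_inj hw hpq with ⟨h1, h2⟩ | ⟨h1, h2⟩
  · have h3 := hf.inj p a (by omega) (by omega) h1
    have h4 := hf.inj (p + 1) b (by omega) hbn h2
    omega
  · have h3 := hf.inj p b (by omega) hbn h1
    have h4 := hf.inj (p + 1) a (by omega) (by omega) h2
    omega

end Pool.Agent.MST
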