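import Pool.Agent.MST.Defs

/-!
# Simple paths of a relation, segments, hitting times

All vertices are lattice points, paths are functions `ℕ → V` with index intervals.

* `IsPa.sub`: a part of a simple path.  `IsPa.rev`: the reversed path (for a symmetric relation).
* `exists_pa`: loop erasure.  PROOF by `Relation.ReflTransGen` induction (tail form): let `f`, `n`
  be a simple path from `x` to `b` and `R b c`.  If `c = f i` for some `i ≤ n`, take `f`, `i`
  (`IsPa.sub` with `s = 0`).  Otherwise extend `f` by `fun i => if i ≤ n then f i else c`, length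
  `n + 1`.
* `rtg_seg`: induction on `t` (`Nat.le_induction`).
* `conn_seg`, `isConn_seg`: use `Conn.of_walk` of `TriPerc/Pth` for the shifted function
  `fun i => f (s + i)`, or `rtg_seg` with the relation of `Conn`; for `isConn_seg` two vertices
  `f i`, `f j` with `i ≤ j` are joined by `conn_seg`, otherwise use `Conn.symm`.
* hitting times of integer sequences with steps at least `-1` (down) or at most `1` (up):
  `hit_down_first`: the least `u` in `[s, t]` with `φ u ≤ n` (`Nat.find`); if `u = s` then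
  `φ u = n`, otherwise `n < φ (u - 1) ≤ φ u + 1`.
  `hit_down_last`: the greatest `u` in `[s, t]` with `n ≤ φ u` (`Nat.findGreatest`, or apply the
  first form to the reversed sequence); if `u < t` then `φ (u + 1) < n` and
  `φ u ≤ φ (u + 1) + 1 ≤ n`.
  `hit_up_first`: the least `u` with `n ≤ φ u`; `hit_up_last`: the greatest `u` with `φ u ≤ n`
  (apply the down versions to `-φ` and `-n`).
-/

namespace Pool.Agent.MST

open Pool.Agent.TriPerc

variable {R R' : V → V → Prop} {f : ℕ → V} {n s t : ℕ} {S : Set V} {x y : V}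

theorem IsPa.sub (h : IsPa R f n) (hst : s ≤ t) (ht : t ≤ n) :
    IsPa R (fun i => f (s + i)) (t - s) := by
  refine ⟨fun i hi => ?_, fun i j hi hj hij => ?_⟩
  · have := h.step (s + i) (by omega)
    rwa [add_assoc] at this
  · have := h.inj (s + i) (s + j) (by omega) (by omega) hij
    omega

theorem IsPa.mono (h : IsPa R f n) (hR : ∀ x y, R x y → R' x y) : IsPa R' f n :=
  ⟨fun i hi => hR _ _ (h.step i hi), h.inj⟩

theorem IsPa.rev (h : IsPa R f n) (hR : ∀ x y, R x y → R y x) :
    IsPa R (fun i => f (n - i)) n := by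
  refine ⟨fun i hi => ?_, fun i j hi hj hij => ?_⟩
  · have := h.step (n - (i + 1)) (by omega)
    rw [show n - (i + 1) + 1 = n - i by omega] at this
    exact hR _ _ this
  · have := h.inj (n - i) (n - j) (by omega) (by omega) hij
    omega

theorem exists_pa (h : Relation.ReflTransGen R x y) :
    ∃ (f : ℕ → V) (n : ℕ), f 0 = x ∧ f n = y ∧ IsPa R f n := by
  induction h with
  | refl => exact ⟨fun _ => x, 0, rfl, rfl, fun i hi => absurd hi (Nat.not_lt_zero i),
      fun i j hi hj _ => by omega⟩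
  | @tail b c _ hbc ih =>
    obtain ⟨f, n, h0, hn, hf⟩ := ih
    by_cases hc : ∃ i ≤ n, f i = c
    · obtain ⟨i, hi, hic⟩ := hc
      refine ⟨f, i, h0, hic, fun j hj => hf.step j (by omega), fun j k hj hk hjk => ?_⟩
      exact hf.inj j k (by omega) (by omega) hjk
    · refine ⟨fun i => if i ≤ n then f i else c, n + 1, ?_, ?_, fun i hi => ?_,
        fun i j hi hj hij => ?_⟩
      · simp [h0]
      · simp
      · have hi' : i ≤ n := by omega
        by_cases h1 : i + 1 ≤ n
        · simp only [hi', h1, if_true]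
          exact hf.step i (by omega)
        · have : i = n := by omega
          subst this
          simp only [le_refl, if_true, h1, if_false]
          rw [hn]
          exact hbc
      · by_cases h1 : i ≤ n <;> by_cases h2 : j ≤ n
        · simp only [h1, h2, if_true] at hij
          exact hf.inj i j h1 h2 hij
        · simp only [h1, h2, if_true, if_false] at hij
          exact absurd ⟨i, h1, hij⟩ hc
        · simp only [h1, h2, if_true, if_false] at hij
          exact absurd ⟨j, h2, hij.symm⟩ hc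
        · omega

theorem rtg_seg (hst : s ≤ t) (h : ∀ i, s ≤ i → i < t → R (f i) (f (i + 1))) :
    Relation.ReflTransGen R (f s) (f t) := by
  induction t, hst using Nat.le_induction with
  | base => exact Relation.ReflTransGen.refl
  | succ t hst ih =>
    exact (ih fun i h1 h2 => h i h1 (by omega)).tail (h t hst (by omega))

theorem rtg_mono (hR : ∀ x y, R x y → R' x y) (h : Relation.ReflTransGen R x y) :
    Relation.ReflTransGen R' x y := by
  induction h with
  | refl => exact Relation.ReflTransGen.refl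
  | tail _ hbc ih => exact ih.tail (hR _ _ hbc)

theorem rtg_symm (hR : ∀ x y, R x y → R y x) (h : Relation.ReflTransGen R x y) :
    Relation.ReflTransGen R y x := by
  induction h with
  | refl => exact Relation.ReflTransGen.refl
  | tail _ hbc ih => exact Relation.ReflTransGen.head (hR _ _ hbc) ih

theorem conn_seg (hst : s ≤ t) (ha : ∀ i, s ≤ i → i < t → Adj (f i) (f (i + 1)))
    (hS : ∀ i, s ≤ i → i ≤ t → f i ∈ S) : Conn S (f s) (f t) :=
  ⟨hS s le_rfl hst, rtg_seg hst fun i h1 h2 => ⟨ha i h1 h2, hS (i + 1) (by omega) (by omega)⟩⟩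

theorem isConn_seg (ha : ∀ i, s ≤ i → i < t → Adj (f i) (f (i + 1))) : IsConn (seg f s t) := by
  have key : ∀ i j, s ≤ i → i ≤ j → j ≤ t → Conn (seg f s t) (f i) (f j) := by
    intro i j h1 h2 h3
    exact conn_seg h2 (fun k h4 h5 => ha k (by omega) (by omega))
      fun k h4 h5 => ⟨k, by omega, by omega, rfl⟩
  rintro _ ⟨i, hi, hi', rfl⟩ _ ⟨j, hj, hj', rfl⟩
  rcases le_total i j with h | h
  · exact key i j hi h hj'
  · exact (key j i hj h hi').symm

theorem hit_down_first (φ : ℕ → ℤ) {n : ℤ} (h : s ≤ t)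
    (hφ : ∀ i, s ≤ i → i < t → φ i - 1 ≤ φ (i + 1)) (hs : n ≤ φ s) (ht : φ t ≤ n) :
    ∃ u, s ≤ u ∧ u ≤ t ∧ φ u = n ∧ ∀ i, s ≤ i → i < u → n < φ i := by
  classical
  have hex : ∃ u, s ≤ u ∧ φ u ≤ n := ⟨t, h, ht⟩
  obtain ⟨h1, h2⟩ := Nat.find_spec hex
  have h3 : ∀ i, s ≤ i → i < Nat.find hex → n < φ i := by
    intro i hi hi'
    by_contra hc
    exact Nat.find_min hex hi' ⟨hi, not_lt.1 hc⟩
  have h4 : Nat.find hex ≤ t := Nat.find_min' hex ⟨h, ht⟩
  refine ⟨Nat.find hex, h1, h4, le_antisymm h2 ?_, h3⟩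
  rcases Nat.eq_or_lt_of_le h1 with h5 | h5
  · rw [← h5]
    exact hs
  · have h6 := h3 (Nat.find hex - 1) (by omega) (by omega)
    have h7 := hφ (Nat.find hex - 1) (by omega) (by omega)
    rw [Nat.sub_add_cancel (by omega : 1 ≤ Nat.find hex)] at h7
    omega

theorem hit_up_first (φ : ℕ → ℤ) {n : ℤ} (h : s ≤ t)
    (hφ : ∀ i, s ≤ i → i < t → φ (i + 1) ≤ φ i + 1) (hs : φ s ≤ n) (ht : n ≤ φ t) :
    ∃ u, s ≤ u ∧ u ≤ t ∧ φ u = n ∧ ∀ i, s ≤ i → i < u → φ i < n := by
  obtain ⟨u, h1, h2, h3, h4⟩ := hit_down_first (fun i => - φ i) (n := -n) h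
    (fun i h1 h2 => by have := hφ i h1 h2; omega)
    (by omega) (by omega)
  refine ⟨u, h1, h2, by omega, fun i h5 h6 => ?_⟩
  have := h4 i h5 h6
  omega

theorem hit_up_last (φ : ℕ → ℤ) {n : ℤ} (h : s ≤ t)
    (hφ : ∀ i, s ≤ i → i < t → φ (i + 1) ≤ φ i + 1) (hs : φ s ≤ n) (ht : n ≤ φ t) :
    ∃ u, s ≤ u ∧ u ≤ t ∧ φ u = n ∧ ∀ i, u < i → i ≤ t → n < φ i := by
  obtain ⟨u, h1, h2, h3, h4⟩ := hit_down_first (fun i => φ (s + t - i)) (n := n) (s := s) (t := t) h
    (fun i h1 h2 => by
      have := hφ (s + t - (i + 1)) (by omega) (by omega)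
      rw [show s + t - (i + 1) + 1 = s + t - i by omega] at this
      omega)
    (by rw [show s + t - s = t by omega]; exact ht)
    (by rw [show s + t - t = s by omega]; exact hs)
  refine ⟨s + t - u, by omega, by omega, h3, fun i h5 h6 => ?_⟩
  have := h4 (s + t - i) (by omega) (by omega)
  rwa [show s + t - (s + t - i) = i by omega] at this

theorem hit_down_last (φ : ℕ → ℤ) {n : ℤ} (h : s ≤ t)
    (hφ : ∀ i, s ≤ i → i < t → φ i - 1 ≤ φ (i + 1)) (hs : n ≤ φ s) (ht : φ t ≤ n) :
    ∃ u, s ≤ u ∧ u ≤ t ∧ φ u = n ∧ ∀ i, u < i → i ≤ t → φ i < n := by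
  obtain ⟨u, h1, h2, h3, h4⟩ := hit_up_last (fun i => - φ i) (n := -n) h
    (fun i h1 h2 => by have := hφ i h1 h2; omega)
    (by omega) (by omega)
  refine ⟨u, h1, h2, by omega, fun i h5 h6 => ?_⟩
  have := h4 i h5 h6
  omega

end Pool.Agent.MST
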