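import Pool.Agent.MST.Circ

/-!
# Potentials of the winding cochain in the hexagonal ball

These are used in `Jord`.

PROOF.  Let `f` (from `a` to `c`) and `g` (from `b` to `d`) be disjoint walks in the ball.  By the
grid lemma (`grid`) the sums of the winding cochain `th` over the two ways round the grid
`f i - g j` are equal.  For a vertex `y` of the circle all differences `u - y`, `u` in the ball,
lie in a half plane, where `th` has a potential: `phi n y` for `u - y`, `phi' n x` for `x - u`.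
`phi_pos`: `phi n y (x - y) - phi' n x (x - y) = [pos x < pos y] - [pos x < n] - [4 n ≤ pos y]`.
Hence `[a < b] - [c < b] + [c < d] - [a < d] = 0` for the positions, and the four points are not
interlaced.

-/

namespace Pool.Agent.MST

open Pool.Agent.TriPerc

/-- Potential of `th` for the differences `u - y`. -/
def phi (n : ℤ) (y u : V) : ℤ :=
  if n ≤ pos n y ∧ pos n y < 2 * n then (if u.2 = 0 ∧ 1 ≤ u.1 then 1 else 0)
  else if 2 * n ≤ pos n y ∧ pos n y < 4 * n then (if 0 ≤ u.2 then 1 else 0) else 0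

/-- Potential of `th` for the differences `x - u`. -/
def phi' (n : ℤ) (x u : V) : ℤ :=
  if 4 * n ≤ pos n x ∧ pos n x < 5 * n then (if u.2 = 0 ∧ 1 ≤ u.1 then 1 else 0)
  else if 5 * n ≤ pos n x ∨ pos n x < n then (if 0 ≤ u.2 then 1 else 0) else 0

variable {n : ℤ} {u v x y a b c d : V}

theorem bnd (h : nrm u ≤ n) : -n ≤ u.1 ∧ u.1 ≤ n ∧ -n ≤ u.2 ∧ u.2 ≤ n ∧ -n ≤ u.1 + u.2 ∧
    u.1 + u.2 ≤ n := by
  have h1 := nrm_le_iff'.1 h
  simp only [abs_le] at h1
  omega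

theorem th_phi (hn : 1 ≤ n) (hy : nrm y = n) (hu : nrm u ≤ n) (hv : nrm v ≤ n) (h : Adj u v)
    (huy : u ≠ y) (hvy : v ≠ y) :
    th (u - y) (v - y) = phi n y (u - y) - phi n y (v - y) := by
  have h1 := bnd hu
  have h2 := bnd hv
  have h3 : ¬ (u.1 = y.1 ∧ u.2 = y.2) := fun h' => huy (Prod.ext h'.1 h'.2)
  have h4 : ¬ (v.1 = y.1 ∧ v.2 = y.2) := fun h' => hvy (Prod.ext h'.1 h'.2)
  unfold Adj at h
  unfold th phi
  simp only [Prod.fst_sub, Prod.snd_sub]
  rcases cir_sides hn hy with h5 | h5 | h5 | h5 | h5 | h5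
  · rw [if_neg (show ¬ (n ≤ pos n y ∧ pos n y < 2 * n) by omega),
      if_neg (show ¬ (2 * n ≤ pos n y ∧ pos n y < 4 * n) by omega),
      if_neg (show ¬ (n ≤ pos n y ∧ pos n y < 2 * n) by omega),
      if_neg (show ¬ (2 * n ≤ pos n y ∧ pos n y < 4 * n) by omega)]
    rw [if_neg (by omega), if_neg (by omega), sub_zero]
  · rw [if_pos (show (n ≤ pos n y ∧ pos n y < 2 * n) by omega),
      if_pos (show (n ≤ pos n y ∧ pos n y < 2 * n) by omega)]
    split_ifs <;> omega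
  · rw [if_neg (show ¬ (n ≤ pos n y ∧ pos n y < 2 * n) by omega),
      if_pos (show (2 * n ≤ pos n y ∧ pos n y < 4 * n) by omega),
      if_neg (show ¬ (n ≤ pos n y ∧ pos n y < 2 * n) by omega),
      if_pos (show (2 * n ≤ pos n y ∧ pos n y < 4 * n) by omega)]
    split_ifs <;> omega
  · rw [if_neg (show ¬ (n ≤ pos n y ∧ pos n y < 2 * n) by omega),
      if_pos (show (2 * n ≤ pos n y ∧ pos n y < 4 * n) by omega),
      if_neg (show ¬ (n ≤ pos n y ∧ pos n y < 2 * n) by omega),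
      if_pos (show (2 * n ≤ pos n y ∧ pos n y < 4 * n) by omega)]
    split_ifs <;> omega
  · rw [if_neg (show ¬ (n ≤ pos n y ∧ pos n y < 2 * n) by omega),
      if_neg (show ¬ (2 * n ≤ pos n y ∧ pos n y < 4 * n) by omega),
      if_neg (show ¬ (n ≤ pos n y ∧ pos n y < 2 * n) by omega),
      if_neg (show ¬ (2 * n ≤ pos n y ∧ pos n y < 4 * n) by omega)]
    rw [if_neg (by omega), if_neg (by omega), sub_zero]
  · rw [if_neg (show ¬ (n ≤ pos n y ∧ pos n y < 2 * n) by omega),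
      if_neg (show ¬ (2 * n ≤ pos n y ∧ pos n y < 4 * n) by omega),
      if_neg (show ¬ (n ≤ pos n y ∧ pos n y < 2 * n) by omega),
      if_neg (show ¬ (2 * n ≤ pos n y ∧ pos n y < 4 * n) by omega)]
    rw [if_neg (by omega), if_neg (by omega), sub_zero]

theorem th_phi' (hn : 1 ≤ n) (hx : nrm x = n) (hu : nrm u ≤ n) (hv : nrm v ≤ n) (h : Adj u v)
    (hux : u ≠ x) (hvx : v ≠ x) :
    th (x - u) (x - v) = phi' n x (x - u) - phi' n x (x - v) := by
  have h1 := bnd hu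
  have h2 := bnd hv
  have h3 : ¬ (u.1 = x.1 ∧ u.2 = x.2) := fun h' => hux (Prod.ext h'.1 h'.2)
  have h4 : ¬ (v.1 = x.1 ∧ v.2 = x.2) := fun h' => hvx (Prod.ext h'.1 h'.2)
  unfold Adj at h
  unfold th phi'
  simp only [Prod.fst_sub, Prod.snd_sub]
  rcases cir_sides hn hx with h5 | h5 | h5 | h5 | h5 | h5
  · rw [if_neg (show ¬ (4 * n ≤ pos n x ∧ pos n x < 5 * n) by omega),
      if_pos (show (5 * n ≤ pos n x ∨ pos n x < n) by omega),
      if_neg (show ¬ (4 * n ≤ pos n x ∧ pos n x < 5 * n) by omega),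
      if_pos (show (5 * n ≤ pos n x ∨ pos n x < n) by omega)]
    split_ifs <;> omega
  · rw [if_neg (show ¬ (4 * n ≤ pos n x ∧ pos n x < 5 * n) by omega),
      if_neg (show ¬ (5 * n ≤ pos n x ∨ pos n x < n) by omega),
      if_neg (show ¬ (4 * n ≤ pos n x ∧ pos n x < 5 * n) by omega),
      if_neg (show ¬ (5 * n ≤ pos n x ∨ pos n x < n) by omega)]
    rw [if_neg (by omega), if_neg (by omega), sub_zero]
  · rw [if_neg (show ¬ (4 * n ≤ pos n x ∧ pos n x < 5 * n) by omega),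
      if_neg (show ¬ (5 * n ≤ pos n x ∨ pos n x < n) by omega),
      if_neg (show ¬ (4 * n ≤ pos n x ∧ pos n x < 5 * n) by omega),
      if_neg (show ¬ (5 * n ≤ pos n x ∨ pos n x < n) by omega)]
    rw [if_neg (by omega), if_neg (by omega), sub_zero]
  · rw [if_neg (show ¬ (4 * n ≤ pos n x ∧ pos n x < 5 * n) by omega),
      if_neg (show ¬ (5 * n ≤ pos n x ∨ pos n x < n) by omega),
      if_neg (show ¬ (4 * n ≤ pos n x ∧ pos n x < 5 * n) by omega),
      if_neg (show ¬ (5 * n ≤ pos n x ∨ pos n x < n) by omega)]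
    rw [if_neg (by omega), if_neg (by omega), sub_zero]
  · rw [if_pos (show (4 * n ≤ pos n x ∧ pos n x < 5 * n) by omega),
      if_pos (show (4 * n ≤ pos n x ∧ pos n x < 5 * n) by omega)]
    split_ifs <;> omega
  · rw [if_neg (show ¬ (4 * n ≤ pos n x ∧ pos n x < 5 * n) by omega),
      if_pos (show (5 * n ≤ pos n x ∨ pos n x < n) by omega),
      if_neg (show ¬ (4 * n ≤ pos n x ∧ pos n x < 5 * n) by omega),
      if_pos (show (5 * n ≤ pos n x ∨ pos n x < n) by omega)]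
    split_ifs <;> omega

private theorem e1 (x y : V) : (x.2 - y.2 = 0 ∧ 1 ≤ x.1 - y.1) ↔ (x.2 = y.2 ∧ y.1 < x.1) := by
  omega

private theorem e2 (x y : V) : 0 ≤ x.2 - y.2 ↔ y.2 ≤ x.2 := by omega

theorem phi_pos (hn : 1 ≤ n) (hx : nrm x = n) (hy : nrm y = n) (hxy : x ≠ y) :
    phi n y (x - y) - phi' n x (x - y) = (if pos n x < pos n y then 1 else 0) -
      (if pos n x < n then 1 else 0) - (if 4 * n ≤ pos n y then 1 else 0) := by
  have h3 : ¬ (x.1 = y.1 ∧ x.2 = y.2) := fun h' => hxy (Prod.ext h'.1 h'.2)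
  have h7 := cir_sides hn hx
  have h8 := cir_sides hn hy
  clear hx hy hxy
  simp only [phi, phi', Prod.fst_sub, Prod.snd_sub, e1, e2]
  generalize pos n x = P at *
  generalize pos n y = Q at *
  generalize x.1 = a at *
  generalize x.2 = b at *
  generalize y.1 = c at *
  generalize y.2 = d at *
  rcases h7 with h7 | h7 | h7 | h7 | h7 | h7
  · rw [if_neg (show ¬ (4 * n ≤ P ∧ P < 5 * n) by omega),
      if_pos (show 5 * n ≤ P ∨ P < n by omega), if_pos (show P < n by omega)]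
    rcases h8 with h8 | h8 | h8 | h8 | h8 | h8
    · rw [if_neg (show ¬ (n ≤ Q ∧ Q < 2 * n) by omega),
        if_neg (show ¬ (2 * n ≤ Q ∧ Q < 4 * n) by omega), if_neg (show ¬ 4 * n ≤ Q by omega)]
      split_ifs <;> omega
    · rw [if_pos (show n ≤ Q ∧ Q < 2 * n by omega), if_neg (show ¬ 4 * n ≤ Q by omega)]
      split_ifs <;> omega
    · rw [if_neg (show ¬ (n ≤ Q ∧ Q < 2 * n) by omega),
        if_pos (show 2 * n ≤ Q ∧ Q < 4 * n by omega), if_neg (show ¬ 4 * n ≤ Q by omega)]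
      split_ifs <;> omega
    · rw [if_neg (show ¬ (n ≤ Q ∧ Q < 2 * n) by omega),
        if_pos (show 2 * n ≤ Q ∧ Q < 4 * n by omega), if_neg (show ¬ 4 * n ≤ Q by omega)]
      split_ifs <;> omega
    · rw [if_neg (show ¬ (n ≤ Q ∧ Q < 2 * n) by omega),
        if_neg (show ¬ (2 * n ≤ Q ∧ Q < 4 * n) by omega), if_pos (show 4 * n ≤ Q by omega)]
      split_ifs <;> omega
    · rw [if_neg (show ¬ (n ≤ Q ∧ Q < 2 * n) by omega),
        if_neg (show ¬ (2 * n ≤ Q ∧ Q < 4 * n) by omega), if_pos (show 4 * n ≤ Q by omega)]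
      split_ifs <;> omega
  · rw [if_neg (show ¬ (4 * n ≤ P ∧ P < 5 * n) by omega),
      if_neg (show ¬ (5 * n ≤ P ∨ P < n) by omega), if_neg (show ¬ P < n by omega)]
    rcases h8 with h8 | h8 | h8 | h8 | h8 | h8
    · rw [if_neg (show ¬ (n ≤ Q ∧ Q < 2 * n) by omega),
        if_neg (show ¬ (2 * n ≤ Q ∧ Q < 4 * n) by omega), if_neg (show ¬ 4 * n ≤ Q by omega)]
      split_ifs <;> omega
    · rw [if_pos (show n ≤ Q ∧ Q < 2 * n by omega), if_neg (show ¬ 4 * n ≤ Q by omega)]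
      split_ifs <;> omega
    · rw [if_neg (show ¬ (n ≤ Q ∧ Q < 2 * n) by omega),
        if_pos (show 2 * n ≤ Q ∧ Q < 4 * n by omega), if_neg (show ¬ 4 * n ≤ Q by omega)]
      split_ifs <;> omega
    · rw [if_neg (show ¬ (n ≤ Q ∧ Q < 2 * n) by omega),
        if_pos (show 2 * n ≤ Q ∧ Q < 4 * n by omega), if_neg (show ¬ 4 * n ≤ Q by omega)]
      split_ifs <;> omega
    · rw [if_neg (show ¬ (n ≤ Q ∧ Q < 2 * n) by omega),
        if_neg (show ¬ (2 * n ≤ Q ∧ Q < 4 * n) by omega), if_pos (show 4 * n ≤ Q by omega)]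
      split_ifs <;> omega
    · rw [if_neg (show ¬ (n ≤ Q ∧ Q < 2 * n) by omega),
        if_neg (show ¬ (2 * n ≤ Q ∧ Q < 4 * n) by omega), if_pos (show 4 * n ≤ Q by omega)]
      split_ifs <;> omega
  · rw [if_neg (show ¬ (4 * n ≤ P ∧ P < 5 * n) by omega),
      if_neg (show ¬ (5 * n ≤ P ∨ P < n) by omega), if_neg (show ¬ P < n by omega)]
    rcases h8 with h8 | h8 | h8 | h8 | h8 | h8
    · rw [if_neg (show ¬ (n ≤ Q ∧ Q < 2 * n) by omega),
        if_neg (show ¬ (2 * n ≤ Q ∧ Q < 4 * n) by omega), if_neg (show ¬ 4 * n ≤ Q by omega)]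
      split_ifs <;> omega
    · rw [if_pos (show n ≤ Q ∧ Q < 2 * n by omega), if_neg (show ¬ 4 * n ≤ Q by omega)]
      split_ifs <;> omega
    · rw [if_neg (show ¬ (n ≤ Q ∧ Q < 2 * n) by omega),
        if_pos (show 2 * n ≤ Q ∧ Q < 4 * n by omega), if_neg (show ¬ 4 * n ≤ Q by omega)]
      split_ifs <;> omega
    · rw [if_neg (show ¬ (n ≤ Q ∧ Q < 2 * n) by omega),
        if_pos (show 2 * n ≤ Q ∧ Q < 4 * n by omega), if_neg (show ¬ 4 * n ≤ Q by omega)]
      split_ifs <;> omega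
    · rw [if_neg (show ¬ (n ≤ Q ∧ Q < 2 * n) by omega),
        if_neg (show ¬ (2 * n ≤ Q ∧ Q < 4 * n) by omega), if_pos (show 4 * n ≤ Q by omega)]
      split_ifs <;> omega
    · rw [if_neg (show ¬ (n ≤ Q ∧ Q < 2 * n) by omega),
        if_neg (show ¬ (2 * n ≤ Q ∧ Q < 4 * n) by omega), if_pos (show 4 * n ≤ Q by omega)]
      split_ifs <;> omega
  · rw [if_neg (show ¬ (4 * n ≤ P ∧ P < 5 * n) by omega),
      if_neg (show ¬ (5 * n ≤ P ∨ P < n) by omega), if_neg (show ¬ P < n by omega)]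
    rcases h8 with h8 | h8 | h8 | h8 | h8 | h8
    · rw [if_neg (show ¬ (n ≤ Q ∧ Q < 2 * n) by omega),
        if_neg (show ¬ (2 * n ≤ Q ∧ Q < 4 * n) by omega), if_neg (show ¬ 4 * n ≤ Q by omega)]
      split_ifs <;> omega
    · rw [if_pos (show n ≤ Q ∧ Q < 2 * n by omega), if_neg (show ¬ 4 * n ≤ Q by omega)]
      split_ifs <;> omega
    · rw [if_neg (show ¬ (n ≤ Q ∧ Q < 2 * n) by omega),
        if_pos (show 2 * n ≤ Q ∧ Q < 4 * n by omega), if_neg (show ¬ 4 * n ≤ Q by omega)]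
      split_ifs <;> omega
    · rw [if_neg (show ¬ (n ≤ Q ∧ Q < 2 * n) by omega),
        if_pos (show 2 * n ≤ Q ∧ Q < 4 * n by omega), if_neg (show ¬ 4 * n ≤ Q by omega)]
      split_ifs <;> omega
    · rw [if_neg (show ¬ (n ≤ Q ∧ Q < 2 * n) by omega),
        if_neg (show ¬ (2 * n ≤ Q ∧ Q < 4 * n) by omega), if_pos (show 4 * n ≤ Q by omega)]
      split_ifs <;> omega
    · rw [if_neg (show ¬ (n ≤ Q ∧ Q < 2 * n) by omega),
        if_neg (show ¬ (2 * n ≤ Q ∧ Q < 4 * n) by omega), if_pos (show 4 * n ≤ Q by omega)]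
      split_ifs <;> omega
  · rw [if_pos (show 4 * n ≤ P ∧ P < 5 * n by omega), if_neg (show ¬ P < n by omega)]
    rcases h8 with h8 | h8 | h8 | h8 | h8 | h8
    · rw [if_neg (show ¬ (n ≤ Q ∧ Q < 2 * n) by omega),
        if_neg (show ¬ (2 * n ≤ Q ∧ Q < 4 * n) by omega), if_neg (show ¬ 4 * n ≤ Q by omega)]
      split_ifs <;> omega
    · rw [if_pos (show n ≤ Q ∧ Q < 2 * n by omega), if_neg (show ¬ 4 * n ≤ Q by omega)]
      split_ifs <;> omega
    · rw [if_neg (show ¬ (n ≤ Q ∧ Q < 2 * n) by omega),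
        if_pos (show 2 * n ≤ Q ∧ Q < 4 * n by omega), if_neg (show ¬ 4 * n ≤ Q by omega)]
      split_ifs <;> omega
    · rw [if_neg (show ¬ (n ≤ Q ∧ Q < 2 * n) by omega),
        if_pos (show 2 * n ≤ Q ∧ Q < 4 * n by omega), if_neg (show ¬ 4 * n ≤ Q by omega)]
      split_ifs <;> omega
    · rw [if_neg (show ¬ (n ≤ Q ∧ Q < 2 * n) by omega),
        if_neg (show ¬ (2 * n ≤ Q ∧ Q < 4 * n) by omega), if_pos (show 4 * n ≤ Q by omega)]
      split_ifs <;> omega
    · rw [if_neg (show ¬ (n ≤ Q ∧ Q < 2 * n) by omega),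
        if_neg (show ¬ (2 * n ≤ Q ∧ Q < 4 * n) by omega), if_pos (show 4 * n ≤ Q by omega)]
      split_ifs <;> omega
  · rw [if_neg (show ¬ (4 * n ≤ P ∧ P < 5 * n) by omega),
      if_pos (show 5 * n ≤ P ∨ P < n by omega), if_neg (show ¬ P < n by omega)]
    rcases h8 with h8 | h8 | h8 | h8 | h8 | h8
    · rw [if_neg (show ¬ (n ≤ Q ∧ Q < 2 * n) by omega),
        if_neg (show ¬ (2 * n ≤ Q ∧ Q < 4 * n) by omega), if_neg (show ¬ 4 * n ≤ Q by omega)]
      split_ifs <;> omega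
    · rw [if_pos (show n ≤ Q ∧ Q < 2 * n by omega), if_neg (show ¬ 4 * n ≤ Q by omega)]
      split_ifs <;> omega
    · rw [if_neg (show ¬ (n ≤ Q ∧ Q < 2 * n) by omega),
        if_pos (show 2 * n ≤ Q ∧ Q < 4 * n by omega), if_neg (show ¬ 4 * n ≤ Q by omega)]
      split_ifs <;> omega
    · rw [if_neg (show ¬ (n ≤ Q ∧ Q < 2 * n) by omega),
        if_pos (show 2 * n ≤ Q ∧ Q < 4 * n by omega), if_neg (show ¬ 4 * n ≤ Q by omega)]
      split_ifs <;> omega
    · rw [if_neg (show ¬ (n ≤ Q ∧ Q < 2 * n) by omega),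
        if_neg (show ¬ (2 * n ≤ Q ∧ Q < 4 * n) by omega), if_pos (show 4 * n ≤ Q by omega)]
      split_ifs <;> omega
    · rw [if_neg (show ¬ (n ≤ Q ∧ Q < 2 * n) by omega),
        if_neg (show ¬ (2 * n ≤ Q ∧ Q < 4 * n) by omega), if_pos (show 4 * n ≤ Q by omega)]
      split_ifs <;> omega

end Pool.Agent.MST
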