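import Pool.Agent.MST.Dbl
import Pool.Agent.MST.Ex
import Pool.Agent.MST.Sepa

/-!
# Restriction of the event `EF` to a smaller annulus

`EF_restr`: `EF p m n w` implies `EF p m' n' w` for `m ≤ m' < n' ≤ n`.

PROOF.  Every crossing is cut at its first vertex `y'` on the circle of radius `m'` and at the last
vertex `z'` on the circle of radius `n'` before.  The cyclic order of the `y'` is that of the `z`
(`ord`), the cyclic order of the `z'` is that of the `y'` (`ord'`).  Root paths of the new points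
are disjoint by the doubling lemma `dbl`, applied to the path which follows the old root path of
`z1'`, jumps inside the wired circle and goes back the old root path of `z2'`.
-/

namespace Pool.Agent.MST

open Pool.Agent.TriPerc

variable {w : Lab} {m n m' n' : ℤ} {p : ℝ}

/-- The part of a crossing in a smaller annulus. -/
structure IsCut (f : ℕ → V) (N : ℕ) (m' n' : ℤ) (s u : ℕ) : Prop where
  su : s < u
  uN : u ≤ N
  ns : nrm (f s) = n'
  nu : nrm (f u) = m'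
  up : ∀ i < u, m' < nrm (f i)
  dn : ∀ i, s ≤ i → i ≤ u → nrm (f i) ≤ n'

theorem exists_cut {f : ℕ → V} {N : ℕ} (ha : ∀ i < N, Adj (f i) (f (i + 1)))
    (h1 : m ≤ m') (h2 : m' < n') (h3 : n' ≤ n) (k0 : nrm (f 0) = n) (kN : nrm (f N) = m) :
    ∃ s u, IsCut f N m' n' s u := by
  have hst : ∀ i < N, nrm (f i) - 1 ≤ nrm (f (i + 1)) := by
    intro i hi
    have := abs_le.1 (nrm_adj (ha i hi) 0)
    rw [sub_zero, sub_zero] at this
    omega
  obtain ⟨u, a1, a2, a3, a4⟩ := hit_down_first (fun i => nrm (f i)) (n := m') (Nat.zero_le N)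
    (fun i _ hi => hst i hi) (by omega) (by omega)
  obtain ⟨s, b1, b2, b3, b4⟩ := hit_down_last (fun i => nrm (f i)) (n := n') a1
    (fun i _ hi => hst i (by omega)) (by omega) (by omega)
  have hsu : s ≠ u := by
    rintro rfl
    omega
  refine ⟨s, u, by omega, a2, b3, a3, fun i hi => a4 i (Nat.zero_le _) hi, fun i i1 i2 => ?_⟩
  rcases Nat.eq_or_lt_of_le i1 with h | h
  · rw [← h]
    exact b3.le
  · exact (b4 i h i2).le

variable {f f' : ℕ → V} {N N' s u s' u' : ℕ}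

theorem IsCut.ann (h : IsCut f N m' n' s u) {i : ℕ} (h1 : s ≤ i) (h2 : i ≤ u) :
    f i ∈ Ann 0 m' n' := by
  refine mem_ann0.2 ⟨?_, h.dn i h1 h2⟩
  rcases Nat.eq_or_lt_of_le h2 with h' | h'
  · rw [h', h.nu]
  · exact (h.up i h').le

/-- The new root paths are disjoint. -/
theorem dbl_cut (hw : Function.Injective w) {z z' : V} (hA : Ann 0 m' n' ⊆ Ann 0 m n)
    (hf : IsRoot (Ann 0 m n) (Cir m) w z f N) (hf' : IsRoot (Ann 0 m n) (Cir m) w z' f' N')
    (hd : ∀ i ≤ N, ∀ j ≤ N', f i ≠ f' j) (h : IsCut f N m' n' s u)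
    (h' : IsCut f' N' m' n' s' u') : Dbl (Ann 0 m' n') (Cir m') w (f s) (f' s') := by
  have g1 := h.su
  have g2 := h.uN
  have g1' := h'.su
  have g2' := h'.uN
  have hadj : ∀ i, i < N → Adj (f i) (f (i + 1)) := fun i hi => (hf.path.step i hi).1
  have hadj' : ∀ i, i < N' → Adj (f' i) (f' (i + 1)) := fun i hi => (hf'.path.step i hi).1
  obtain ⟨p, k, hp⟩ := root_exists (w := w) (W := Cir m') (finite_ann 0 m' n') h.nu
    (conn_seg (S := Ann 0 m' n') h.su.le (fun i _ hi => hadj i (by omega))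
      fun i i1 i2 => h.ann i1 i2)
  obtain ⟨p', k', hp'⟩ := root_exists (w := w) (W := Cir m') (finite_ann 0 m' n') h'.nu
    (conn_seg (S := Ann 0 m' n') h'.su.le (fun i _ hi => hadj' i (by omega))
      fun i i1 i2 => h'.ann i1 i2)
  -- the composed path
  obtain ⟨σ, hσ⟩ : ∃ σ : ℕ → V, σ = fun i => if i ≤ N - s then f (s + i) else
    f' (N' - (i - (N - s + 1))) := ⟨_, rfl⟩
  have σ1 : ∀ i, i ≤ N - s → σ i = f (s + i) := fun i hi => by
    rw [hσ]
    exact if_pos hi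
  have σ2 : ∀ i, N - s < i → σ i = f' (N' - (i - (N - s + 1))) := fun i hi => by
    rw [hσ]
    exact if_neg (by omega)
  have m1 : ∀ i, i < N - s → MT (Ann 0 m n) (Cir m) w (σ i) (σ (i + 1)) := by
    intro i hi
    rw [σ1 i (by omega), σ1 (i + 1) (by omega), ← add_assoc]
    exact hf.path.step (s + i) (by omega)
  have m2 : ∀ i, N - s < i → i < N - s + 1 + (N' - s') →
      MT (Ann 0 m n) (Cir m) w (σ i) (σ (i + 1)) := by
    intro i hi hi'
    rw [σ2 i hi, σ2 (i + 1) (by omega)]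
    have := (hf'.path.step (N' - (i + 1 - (N - s + 1))) (by omega)).symm
    rwa [show N' - (i + 1 - (N - s + 1)) + 1 = N' - (i - (N - s + 1)) by omega] at this
  have hpa : IsPa (MJ (Ann 0 m n) (Cir m) w) σ (N - s + 1 + (N' - s')) := by
    refine ⟨fun i hi => ?_, fun i j hi hj hij => ?_⟩
    · rcases lt_trichotomy i (N - s) with hc | hc | hc
      · exact Or.inl (m1 i hc)
      · refine Or.inr ⟨?_, ?_⟩
        · rw [σ1 i hc.le, show s + i = N by omega]
          exact hf.last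
        · rw [σ2 (i + 1) (by omega), show N' - (i + 1 - (N - s + 1)) = N' by omega]
          exact hf'.last
      · exact Or.inl (m2 i hc hi)
    · rcases le_or_gt i (N - s) with hc | hc <;> rcases le_or_gt j (N - s) with hc' | hc'
      · rw [σ1 i hc, σ1 j hc'] at hij
        have := hf.path.inj _ _ (by omega) (by omega) hij
        omega
      · rw [σ1 i hc, σ2 j hc'] at hij
        exact absurd hij (hd _ (by omega) _ (by omega))
      · rw [σ2 i hc, σ1 j hc'] at hij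
        exact absurd hij.symm (hd _ (by omega) _ (by omega))
      · rw [σ2 i hc, σ2 j hc'] at hij
        have := hf'.path.inj _ _ (by omega) (by omega) hij
        omega
  refine ⟨p, k, p', k', hp, hp', fun i hi j hj hij => ?_⟩
  refine dbl (A' := Ann 0 m' n') (W' := Cir m') (σ := σ) (N := N - s + 1 + (N' - s'))
    (u1 := u - s) (u2 := N - s + 1 + (N' - u')) hw hA hpa (by omega) (by omega)
    (fun q hq => m1 q (by omega)) (fun q hq1 hq2 => m2 q (by omega) hq2) (fun q hq => ?_)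
    (fun q hq1 hq2 => ?_) ?_ ?_ (f := p) (f' := p') (n := k) (n' := k') ?_ ?_ hi hj hij
  · rw [σ1 q (by omega)]
    exact h.ann (by omega) (by omega)
  · rw [σ2 q (by omega)]
    exact h'.ann (by omega) (by omega)
  · rw [σ1 _ (by omega), show s + (u - s) = u by omega]
    exact h.nu
  · rw [σ2 _ (by omega), show N' - (N - s + 1 + (N' - u') - (N - s + 1)) = u' by omega]
    exact h'.nu
  · rw [σ1 0 (by omega), Nat.add_zero]
    exact hp
  · rw [σ2 _ (by omega), show N' - (N - s + 1 + (N' - s') - (N - s + 1)) = s' by omega]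
    exact hp'

/-- Cyclic order of the restricted crossings. -/
theorem sep_cut (hm : 1 ≤ m') (h2 : m' < n') (h3 : n' ≤ n) {f : Fin 4 → ℕ → V}
    {N s u : Fin 4 → ℕ}
    (ha : ∀ k, ∀ i < N k, Adj (f k i) (f k (i + 1)))
    (hb : ∀ k, ∀ i ≤ N k, nrm (f k i) ≤ n) (h0 : ∀ k, nrm (f k 0) = n)
    (hc : ∀ k, IsCut (f k) (N k) m' n' (s k) (u k))
    (hd : ∀ k l, k ≠ l → ∀ i ≤ N k, ∀ j ≤ N l, f k i ≠ f l j)
    (hsep : SepC n (f 0 0) (f 1 0) (f 2 0) (f 3 0)) :
    SepC n' (f 0 (s 0)) (f 1 (s 1)) (f 2 (s 2)) (f 3 (s 3)) := by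
  have hu : ∀ k, u k ≤ N k := fun k => (hc k).uN
  have hs : ∀ k, s k < u k := fun k => (hc k).su
  have hconn : ∀ k i, i ≤ u k → Conn (seg (f k) i (u k)) (f k i) (f k (u k)) := by
    intro k i hi
    have := hu k
    exact conn_seg hi (fun q _ hq => ha k q (by omega)) fun q q1 q2 => ⟨q, q1, q2, rfl⟩
  have hdis : ∀ k l i j, k ≠ l → Disjoint (seg (f k) i (u k)) (seg (f l) j (u l)) := by
    intro k l i j hkl
    rw [Set.disjoint_left]
    rintro _ ⟨q, q1, q2, rfl⟩ ⟨q', q3, q4, h⟩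
    have := hu k
    have := hu l
    exact hd k l hkl q (by omega) q' (by omega) h.symm
  have hin : ∀ k i, ∀ v ∈ seg (f k) i (u k), nrm v ≤ m' → v = f k (u k) := by
    rintro k i _ ⟨q, q1, q2, rfl⟩ hq
    rcases Nat.eq_or_lt_of_le q2 with h | h
    · rw [h]
    · have := (hc k).up q h
      omega
  have hb1 : ∀ k, seg (f k) 0 (u k) ⊆ Ball 0 n := by
    rintro k _ ⟨q, q1, q2, rfl⟩
    have := hu k
    exact mem_ball0.2 (hb k q (by omega))
  have hb2 : ∀ k, seg (f k) (s k) (u k) ⊆ Ball 0 n' := by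
    rintro k _ ⟨q, q1, q2, rfl⟩
    exact mem_ball0.2 ((hc k).dn q q1 q2)
  have h5 : SepC m' (f 0 (u 0)) (f 1 (u 1)) (f 2 (u 2)) (f 3 (u 3)) :=
    ord hm (by omega) (h0 0) (h0 2) (h0 1) (h0 3) (hc 0).nu (hc 2).nu (hc 1).nu (hc 3).nu
      (hb1 0) (hb1 2) (hb1 1) (hb1 3) (hin 0 0) (hin 2 0) (hin 1 0) (hin 3 0)
      (hconn 0 0 (Nat.zero_le _)) (hconn 2 0 (Nat.zero_le _)) (hconn 1 0 (Nat.zero_le _))
      (hconn 3 0 (Nat.zero_le _)) (hdis 0 2 _ _ (by decide)) (hdis 0 3 _ _ (by decide))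
      (hdis 2 1 _ _ (by decide)) (hdis 1 3 _ _ (by decide)) hsep
  exact ord' hm h2.le (hc 0).ns (hc 2).ns (hc 1).ns (hc 3).ns (hc 0).nu (hc 2).nu (hc 1).nu
    (hc 3).nu (hb2 0) (hb2 2) (hb2 1) (hb2 3) (hin 0 _) (hin 2 _) (hin 1 _) (hin 3 _)
    (hconn 0 _ (hs 0).le) (hconn 2 _ (hs 2).le) (hconn 1 _ (hs 1).le) (hconn 3 _ (hs 3).le)
    (hdis 0 2 _ _ (by decide)) (hdis 0 1 _ _ (by decide)) (hdis 0 3 _ _ (by decide))
    (hdis 2 1 _ _ (by decide)) (hdis 2 3 _ _ (by decide)) (hdis 1 3 _ _ (by decide)) h5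

/-- The crossings of the event `EF` as functions. -/
theorem EF_paths (hw : Function.Injective w) (h : EF p m n w) :
    ∃ (F : Fin 6 → ℕ → V) (N : Fin 6 → ℕ), (∀ k, nrm (F k 0) = n) ∧
      (∀ k, nrm (F k (N k)) = m) ∧ (∀ k, ∀ i < N k, Adj (F k i) (F k (i + 1))) ∧
      (∀ k, ∀ i ≤ N k, F k i ∈ Op p w ∩ Ann 0 m n) ∧
      (IsRoot (Ann 0 m n) (Cir m) w (F 1 0) (F 1) (N 1) ∧
        IsRoot (Ann 0 m n) (Cir m) w (F 2 0) (F 2) (N 2) ∧
        ∀ i ≤ N 1, ∀ j ≤ N 2, F 1 i ≠ F 2 j) ∧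
      (IsRoot (Ann 0 m n) (Cir m) w (F 4 0) (F 4) (N 4) ∧
        IsRoot (Ann 0 m n) (Cir m) w (F 5 0) (F 5) (N 5) ∧
        ∀ i ≤ N 4, ∀ j ≤ N 5, F 4 i ≠ F 5 j) ∧
      (∀ i j, grp i ≠ grp j → ¬ Conn (Op p w ∩ Ann 0 m n) (F i 0) (F j 0)) ∧
      SepC n (F 0 0) (F 3 0) (F 1 0) (F 4 0) ∧ SepC n (F 0 0) (F 3 0) (F 1 0) (F 5 0) ∧
      SepC n (F 0 0) (F 3 0) (F 2 0) (F 4 0) ∧ SepC n (F 0 0) (F 3 0) (F 2 0) (F 5 0) := by
  obtain ⟨z, hz, hc, ⟨f1, n1, f2, n2, r1, r2, r12⟩, ⟨f4, n4, f5, n5, r4, r5, r45⟩, hg, h14, h15,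
    h24, h25⟩ := h
  have walk : ∀ k, ∃ (f : ℕ → V) (N : ℕ), f 0 = z k ∧ nrm (f N) = m ∧
      (∀ i < N, Adj (f i) (f (i + 1))) ∧ ∀ i ≤ N, f i ∈ Op p w ∩ Ann 0 m n := by
    intro k
    obtain ⟨y, hy, hconn⟩ := hc k
    obtain ⟨N, f, a1, a2, a3, a4⟩ := hconn.walk
    exact ⟨f, N, a1, by rw [a2]; exact hy, a3, a4⟩
  have root : ∀ k (f : ℕ → V) (N : ℕ), IsRoot (Ann 0 m n) (Cir m) w (z k) f N → f 0 = z k ∧
      nrm (f N) = m ∧ (∀ i < N, Adj (f i) (f (i + 1))) ∧ (∀ i ≤ N, f i ∈ Op p w ∩ Ann 0 m n) ∧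
      IsRoot (Ann 0 m n) (Cir m) w (f 0) f N := by
    intro k f N hf
    obtain ⟨y, hy, hconn⟩ := hc k
    refine ⟨hf.start, hf.last, fun i hi => (hf.path.step i hi).1, fun i hi => ⟨?_, ?_⟩, ?_⟩
    · exact root_open hw hf hy (hconn.mono fun v hv => hv) hi
    · exact hf.mem hconn.left.2 hi
    · rw [hf.start]
      exact hf
  obtain ⟨f0, n0, b1, b2, b3, b4⟩ := walk 0
  obtain ⟨f3, n3, c1, c2, c3, c4⟩ := walk 3
  obtain ⟨d1, d2, d3, d4, d5⟩ := root 1 f1 n1 r1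
  obtain ⟨e1, e2, e3, e4, e5⟩ := root 2 f2 n2 r2
  obtain ⟨g1, g2, g3, g4, g5⟩ := root 4 f4 n4 r4
  obtain ⟨h1, h2, h3, h4, h5⟩ := root 5 f5 n5 r5
  have hF : ∀ k : Fin 6, (![f0, f1, f2, f3, f4, f5] : Fin 6 → ℕ → V) k 0 = z k := by
    intro k
    fin_cases k
    exacts [b1, d1, e1, c1, g1, h1]
  refine ⟨![f0, f1, f2, f3, f4, f5], ![n0, n1, n2, n3, n4, n5], ?_, ?_, ?_, ?_, ⟨d5, e5, r12⟩,
    ⟨g5, h5, r45⟩, ?_, ?_, ?_, ?_, ?_⟩
  · intro k
    rw [hF k]
    exact hz k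
  · intro k
    fin_cases k
    exacts [b2, d2, e2, c2, g2, h2]
  · intro k
    fin_cases k
    exacts [b3, d3, e3, c3, g3, h3]
  · intro k
    fin_cases k
    exacts [b4, d4, e4, c4, g4, h4]
  · intro i j hij
    rw [hF i, hF j]
    exact hg i j hij
  · rw [hF 0, hF 3, hF 1, hF 4]
    exact h14
  · rw [hF 0, hF 3, hF 1, hF 5]
    exact h15
  · rw [hF 0, hF 3, hF 2, hF 4]
    exact h24
  · rw [hF 0, hF 3, hF 2, hF 5]
    exact h25

theorem EF_restr (hw : Function.Injective w) (hm : 1 ≤ m') (h1 : m ≤ m') (h2 : m' < n')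
    (h3 : n' ≤ n) (h : EF p m n w) : EF p m' n' w := by
  obtain ⟨F, N, k0, kN, ha, hO, ⟨r1, r2, r12⟩, ⟨r4, r5, r45⟩, hg, h14, h15, h24, h25⟩ :=
    EF_paths hw h
  have hcut : ∀ k, ∃ s u, IsCut (F k) (N k) m' n' s u := fun k =>
    exists_cut (ha k) h1 h2 h3 (k0 k) (kN k)
  choose s u hc using hcut
  have hA : Ann 0 m' n' ⊆ Ann 0 m n := by
    intro v hv
    have := mem_ann0.1 hv
    exact mem_ann0.2 ⟨by omega, by omega⟩
  have hmono : Op p w ∩ Ann 0 m' n' ⊆ Op p w ∩ Ann 0 m n := fun v hv => ⟨hv.1, hA hv.2⟩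
  have hconn : ∀ k, ∀ i ≤ N k, Conn (Op p w ∩ Ann 0 m n) (F k 0) (F k i) := fun k i hi =>
    conn_seg (Nat.zero_le i) (fun q _ hq => ha k q (by omega)) fun q _ hq => hO k q (by omega)
  have hdis : ∀ k l, grp k ≠ grp l → ∀ i ≤ N k, ∀ j ≤ N l, F k i ≠ F l j := by
    intro k l hkl i hi j hj hij
    refine hg k l hkl ((hconn k i hi).trans ?_)
    rw [hij]
    exact (hconn l j hj).symm
  have hsN : ∀ k, s k ≤ N k := fun k => by
    have := (hc k).su
    have := (hc k).uN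
    omega
  have hsep : ∀ i j : Fin 6, grp i ≠ 0 → grp i ≠ 2 → grp j ≠ 0 → grp j ≠ 2 → grp i ≠ grp j →
      SepC n (F 0 0) (F 3 0) (F i 0) (F j 0) →
      SepC n' (F 0 (s 0)) (F 3 (s 3)) (F i (s i)) (F j (s j)) := by
    intro i j hi0 hi2 hj0 hj2 hij hsep
    have key := sep_cut (f := ![F 0, F 3, F i, F j]) (N := ![N 0, N 3, N i, N j])
      (s := ![s 0, s 3, s i, s j]) (u := ![u 0, u 3, u i, u j]) hm h2 h3 ?_ ?_ ?_ ?_ ?_ hsep
    · exact key
    · intro k
      fin_cases k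
      exacts [ha 0, ha 3, ha i, ha j]
    · intro k
      fin_cases k
      exacts [fun q hq => (mem_ann0.1 (hO 0 q hq).2).2, fun q hq => (mem_ann0.1 (hO 3 q hq).2).2,
        fun q hq => (mem_ann0.1 (hO i q hq).2).2, fun q hq => (mem_ann0.1 (hO j q hq).2).2]
    · intro k
      fin_cases k
      exacts [k0 0, k0 3, k0 i, k0 j]
    · intro k
      fin_cases k
      exacts [hc 0, hc 3, hc i, hc j]
    · have g0 : grp 0 = 0 := rfl
      have g3 : grp 3 = 2 := rfl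
      intro k l hkl
      fin_cases k <;> fin_cases l
      · exact absurd rfl hkl
      · exact hdis 0 3 (by decide)
      · exact hdis 0 i (by rw [g0]; exact hi0.symm)
      · exact hdis 0 j (by rw [g0]; exact hj0.symm)
      · exact hdis 3 0 (by decide)
      · exact absurd rfl hkl
      · exact hdis 3 i (by rw [g3]; exact hi2.symm)
      · exact hdis 3 j (by rw [g3]; exact hj2.symm)
      · exact hdis i 0 (by rw [g0]; exact hi0)
      · exact hdis i 3 (by rw [g3]; exact hi2)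
      · exact absurd rfl hkl
      · exact hdis i j hij
      · exact hdis j 0 (by rw [g0]; exact hj0)
      · exact hdis j 3 (by rw [g3]; exact hj2)
      · exact hdis j i hij.symm
      · exact absurd rfl hkl
  refine ⟨fun k => F k (s k), fun k => (hc k).ns, fun k => ⟨F k (u k), (hc k).nu, ?_⟩,
    dbl_cut hw hA r1 r2 r12 (hc 1) (hc 2), dbl_cut hw hA r4 r5 r45 (hc 4) (hc 5), ?_,
    hsep 1 4 (by decide) (by decide) (by decide) (by decide) (by decide) h14,
    hsep 1 5 (by decide) (by decide) (by decide) (by decide) (by decide) h15,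
    hsep 2 4 (by decide) (by decide) (by decide) (by decide) (by decide) h24,
    hsep 2 5 (by decide) (by decide) (by decide) (by decide) (by decide) h25⟩
  · have h4 := (hc k).uN
    exact conn_seg (hc k).su.le (fun q _ hq => ha k q (by omega)) fun q q1 q2 =>
      ⟨(hO k q (by omega)).1, (hc k).ann q1 q2⟩
  · intro i j hij hcon
    exact hg i j hij ((hconn i _ (hsN i)).trans ((hcon.mono hmono).trans
      (hconn j _ (hsN j)).symm))

end Pool.Agent.MST
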