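import Pool.Agent.MST.Arc4
import Pool.Agent.MST.Exc
import Pool.Agent.MST.Sepa

/-!
# Theorem N: the weak pattern P gives the event `EF` in good annuli

Let `PW r R w` hold.  Suppose that the block `Ann 0 r1 R` contains a `b`-open circuit and no
`a`-open crossing, and that the annulus `Ann 0 m n` (`r ≤ m`, `n + d < r1`) contains no vertex with
four mixed arms (levels `a`, `b`) to distance `d`.  Then `EF p m n w` for `a ≤ p ≤ b`.
-/

namespace Pool.Agent.MST

open Pool.Agent.TriPerc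

variable {w : Lab} {g : ℕ → V} {L : ℕ} {a b p : ℝ} {r R r1 m n d : ℤ}

/-- The tree path is `b`-open inside the circuit. -/
theorem open_in (hw : Function.Injective w) (hg : IsPa (MT Set.univ ∅ w) g L) {t0 t3 : ℕ}
    (h3 : t3 ≤ L) (k0 : R < nrm (g t0)) (k3 : R < nrm (g t3)) (h1 : 1 ≤ r1) (hrR : r1 ≤ R)
    (hc : ¬ Arm (Op b w)ᶜ 0 r1 R) {i : ℕ} (hi0 : t0 ≤ i) (hi3 : i ≤ t3) (hi : nrm (g i) ≤ r1) :
    w (g i) ≤ b := by
  obtain ⟨C, hC1, -, hC2, hC3⟩ := circ_set h1 hrR hc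
  have hit : ∀ s e, s ≤ e → e ≤ L → (nrm (g s) ≤ r1 ∧ R < nrm (g e)) ∨
      (R < nrm (g s) ∧ nrm (g e) ≤ r1) → ∃ j, s ≤ j ∧ j ≤ e ∧ g j ∈ C := by
    intro s e hse heL h
    by_contra hno
    have h4 : Conn Cᶜ (g s) (g e) := conn_seg hse (fun q _ hq => adj_of hg (by omega))
      fun q hq1 hq2 hq3 => hno ⟨q, hq1, hq2, hq3⟩
    rcases h with ⟨h5, h6⟩ | ⟨h5, h6⟩
    · exact hC3 (g s) (g e) (by rwa [sub_zero]) (by rw [sub_zero]; exact h6.le) h4
    · exact hC3 (g e) (g s) (by rwa [sub_zero]) (by rw [sub_zero]; exact h5.le) h4.symm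
  obtain ⟨i1, a1, a2, a3⟩ := hit t0 i hi0 (by omega) (Or.inr ⟨k0, hi⟩)
  obtain ⟨i2, b1, b2, b3⟩ := hit i t3 hi3 h3 (Or.inl ⟨hi, k3⟩)
  exact minimax_seg (t := b) hw hg (s := i1) (e := i2)
    ((hC2 _ a3 _ b3).mono fun v hv => ⟨(hC1 hv).1, trivial⟩) a2 b1 (by omega)

theorem thmN (hw : Function.Injective w) (hap : a ≤ p) (hpb : p ≤ b) (hPW : PW r R w)
    (hc : ¬ Arm (Op b w)ᶜ 0 r1 R) (ho : ¬ Arm (Op a w) 0 r1 R)
    (hfin : ∀ v, nrm v ≤ R → (comp (Op p w) v).Finite) (hrm : r ≤ m) (hm : 1 ≤ m) (hmn : m < n)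
    (hd : 1 ≤ d) (hnd : n + d < r1) (hrR : r1 ≤ R) (hmix : ∀ v ∈ Ann 0 m n, ¬ Mixed a b v d w) :
    EF p m n w := by
  obtain ⟨L, g, hg, t0, m1, t1, t2, m3, t3, o1, o2, o3, o4, o5, o6, k0, k1, k2, k3, j1, j3,
    hsep⟩ := hPW
  have hn : 1 ≤ n := by omega
  have hadj : ∀ i, i < L → Adj (g i) (g (i + 1)) := fun i hi => adj_of hg hi
  -- all vertices of the tree path in the annulus are `p`-open
  have hop : ∀ i, t0 ≤ i → i ≤ t3 → g i ∈ Ann 0 m n → w (g i) ≤ p := by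
    intro i i1 i2 hi
    by_contra hcon
    have hin := (mem_ann0.1 hi).2
    have i3 : i ≠ t0 := by
      rintro rfl
      omega
    have i4 : i ≠ t3 := by
      rintro rfl
      omega
    have hdist : ∀ q, R < nrm (g q) → d ≤ nrm (g q - g i) := by
      intro q hq
      have := nrm_add (g q - g i) (g i)
      rw [sub_add_cancel] at this
      omega
    refine hmix (g i) hi (mix_path hw hg (s := t0) (e := t3) (by omega) (by omega) o6 hd
      (hdist t0 k0) (hdist t3 k3) (fun q q1 q2 q3 => ?_) (lt_of_le_of_lt hap (not_le.1 hcon)))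
    refine open_in hw hg o6 k0 k3 (by omega) hrR hc q1 q2 ?_
    have := nrm_add (g q - g i) (g i)
    rw [sub_add_cancel] at this
    omega
  -- strict separation
  have hstrict : ∀ i k j, i < k → k < j → j ≤ L → nrm (g i) ≤ n → R < nrm (g k) →
      ¬ Conn (Op p w ∩ Ann 0 m n) (g i) (g j) := by
    intro i k j h1 h2 h3 h4 h5
    exact strict_sep hw hg h1 h2 h3 h4 h5 hd hnd hrR ho (hfin _ (by omega)) hpb hmix
  -- the two excursions
  obtain ⟨s1, u1, u2, e1, E1⟩ := exc hg hmn o1 o2 (by omega) (by omega) (by omega) (by omega)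
  obtain ⟨s3, u5, u4, e3, E3⟩ := exc hg hmn o4 o5 (by omega) (by omega) (by omega) (by omega)
  have E1a := E1.h1
  have E1b := E1.h2
  have E1c := E1.h3
  have E1d := E1.h4
  have E1e := E1.h5
  have E1f := E1.h6
  have E3a := E3.h1
  have E3b := E3.h2
  have E3c := E3.h3
  have E3d := E3.h4
  have E3e := E3.h5
  have E3f := E3.h6
  have e1t1 : e1 ≠ t1 := by
    rintro rfl
    have := E1.ne
    omega
  have s3t2 : s3 ≠ t2 := by
    rintro rfl
    have := E3.ns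
    omega
  have hinj : ∀ i j, i ≤ L → j ≤ L → i ≠ j → g i ≠ g j :=
    fun i j hi hj hij h => hij (hg.inj i j hi hj h)
  -- the component `K` of the middle part which separates
  obtain ⟨C, hCdef⟩ : ∃ C, C = seg g t1 t2 := ⟨_, rfl⟩
  have hnotC : ∀ i, i ≤ L → (i < t1 ∨ t2 < i) → g i ∉ C := by
    intro i hi hi'
    rw [hCdef]
    rintro ⟨q, q1, q2, hq⟩
    exact hinj q i (by omega) hi (by omega) hq
  have hb1 : ∀ i, s1 ≤ i → i ≤ e1 → g i ∈ Ball 0 n := fun i i1 i2 =>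
    mem_ball0.2 (E1.ball i i1 i2)
  have hb3 : ∀ i, s3 ≤ i → i ≤ e3 → g i ∈ Ball 0 n := fun i i1 i2 =>
    mem_ball0.2 (E3.ball i i1 i2)
  have hsepn : ¬ Conn (Ball 0 n \ (C ∩ Ball 0 n)) (g m1) (g m3) := by
    intro h
    refine hsep (h.mono ?_)
    rintro v ⟨hv1, hv2⟩
    refine ⟨mem_ball0.2 ((mem_ball0.1 hv1).trans (by omega)), fun hv3 => hv2 ⟨?_, hv1⟩⟩
    rwa [hCdef]
  obtain ⟨c0, hc0, hK⟩ := jan_ball_comp (n := n) (S := C ∩ Ball 0 n) (by omega)
    Set.inter_subset_right (hb1 m1 (by omega) (by omega)) (hb3 m3 (by omega) (by omega))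
    (fun h => hnotC m1 (by omega) (by omega) h.1) (fun h => hnotC m3 (by omega) (by omega) h.1)
    hsepn
  obtain ⟨K, hKdef⟩ : ∃ K, K = comp (C ∩ Ball 0 n) c0 := ⟨_, rfl⟩
  rw [← hKdef] at hK
  have hKC : ∀ v ∈ K, v ∈ C ∧ v ∈ Ball 0 n := by
    intro v hv
    rw [hKdef] at hv
    exact comp_subset hv
  have hKconn : IsConn K := by
    rw [hKdef]
    exact isConn_comp
  have hnotK : ∀ i, i ≤ L → (i < t1 ∨ t2 < i) → g i ∉ K := fun i hi hi' h =>
    hnotC i hi hi' (hKC _ h).1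
  have halpha : ∀ i j, s1 ≤ i → i ≤ j → j ≤ e1 → Conn (Ball 0 n \ K) (g i) (g j) := by
    intro i j i1 i2 i3
    exact conn_seg i2 (fun q _ hq => hadj q (by omega)) fun q q1 q2 =>
      ⟨hb1 q (by omega) (by omega), hnotK q (by omega) (by omega)⟩
  have hbeta : ∀ i j, s3 ≤ i → i ≤ j → j ≤ e3 → Conn (Ball 0 n \ K) (g i) (g j) := by
    intro i j i1 i2 i3
    exact conn_seg i2 (fun q _ hq => hadj q (by omega)) fun q q1 q2 =>
      ⟨hb3 q (by omega) (by omega), hnotK q (by omega) (by omega)⟩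
  have hA : ∀ i, s1 ≤ i → i ≤ e1 → Conn (Ball 0 n \ K) (g i) (g m1) := by
    intro i i1 i2
    rcases le_total i m1 with h | h
    · exact halpha i m1 i1 h (by omega)
    · exact (halpha m1 i (by omega) h i2).symm
  have hB : ∀ i, s3 ≤ i → i ≤ e3 → Conn (Ball 0 n \ K) (g i) (g m3) := by
    intro i i1 i2
    rcases le_total i m3 with h | h
    · exact hbeta i m3 i1 h (by omega)
    · exact (hbeta m3 i (by omega) h i2).symm
  have hAB : ∀ i j, s1 ≤ i → i ≤ e1 → s3 ≤ j → j ≤ e3 → ¬ Conn (Cir n \ K) (g i) (g j) := by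
    intro i j i1 i2 j1 j2 h
    refine hK ((hA i i1 i2).symm.trans ((h.mono ?_).trans (hB j j1 j2)))
    rintro v ⟨hv1, hv2⟩
    exact ⟨mem_ball0.2 (le_of_eq hv1), hv2⟩
  -- the two pairs of end points are not interlaced
  have hnosep : ¬ SepC n (g s1) (g e1) (g s3) (g e3) := by
    intro h
    obtain ⟨z, hz1, hz2⟩ := jord hn E1.ns E1.ne E3.ns E3.ne h (S := seg g s1 e1)
      (T := seg g s3 e3) (by rintro _ ⟨q, q1, q2, rfl⟩; exact hb1 q q1 q2)
      (by rintro _ ⟨q, q1, q2, rfl⟩; exact hb3 q q1 q2)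
      (conn_seg (by omega) (fun q _ hq => hadj q (by omega)) fun q q1 q2 => ⟨q, q1, q2, rfl⟩)
      (conn_seg (by omega) (fun q _ hq => hadj q (by omega)) fun q q1 q2 => ⟨q, q1, q2, rfl⟩)
    obtain ⟨i, i1, i2, rfl⟩ := hz1
    obtain ⟨j, j1, j2, hij⟩ := hz2
    exact hinj j i (by omega) (by omega) (by omega) hij
  obtain ⟨z0, hz0, z3, hz3, n0, n3, S11, S12, S21, S22⟩ := arcs4 (X := K) hn E1.ns E1.ne E3.ns
    E3.ne (hinj _ _ (by omega) (by omega) (by omega)) (hinj _ _ (by omega) (by omega) (by omega))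
    (hinj _ _ (by omega) (by omega) (by omega)) (hinj _ _ (by omega) (by omega) (by omega))
    hnosep (hnotK _ (by omega) (by omega)) (hnotK _ (by omega) (by omega))
    (hnotK _ (by omega) (by omega)) (hnotK _ (by omega) (by omega))
    (hAB _ _ (by omega) (by omega) (by omega) (by omega))
    (hAB _ _ (by omega) (by omega) (by omega) (by omega))
    (hAB _ _ (by omega) (by omega) (by omega) (by omega))
    (hAB _ _ (by omega) (by omega) (by omega) (by omega))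
  -- the times of `z0` and `z3`
  have htime : ∀ z ∈ K, nrm z = n → ∃ q, t1 < q ∧ q < t2 ∧ z = g q := by
    intro z hz hzn
    have h1 := (hKC z hz).1
    rw [hCdef] at h1
    obtain ⟨q, q1, q2, rfl⟩ := h1
    have q3 : q ≠ t1 := by
      rintro rfl
      omega
    have q4 : q ≠ t2 := by
      rintro rfl
      omega
    exact ⟨q, by omega, by omega, rfl⟩
  obtain ⟨q0, hq0a, hq0b, hq0⟩ := htime z0 hz0 n0
  obtain ⟨q3, hq3a, hq3b, hq3⟩ := htime z3 hz3 n3
  -- separation in the annulus by the crossings `[s1, u1]` and `[u4, e3]`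
  have hTsub : ∀ T : Set V, T ⊆ Ann 0 m n → Conn T z0 z3 →
      ∃ i, (s1 ≤ i ∧ i ≤ u1 ∨ u4 ≤ i ∧ i ≤ e3) ∧ g i ∈ T := by
    intro T hT hconn
    have hsw : SepC n (g s1) (g e3) z0 z3 := by
      have d1 : z0 ≠ g s1 := by
        rw [hq0]
        exact hinj _ _ (by omega) (by omega) (by omega)
      have d2 : z0 ≠ g e3 := by
        rw [hq0]
        exact hinj _ _ (by omega) (by omega) (by omega)
      have d3 : z3 ≠ g s1 := by
        rw [hq3]
        exact hinj _ _ (by omega) (by omega) (by omega)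
      have d4 : z3 ≠ g e3 := by
        rw [hq3]
        exact hinj _ _ (by omega) (by omega) (by omega)
      have d5 : g s1 ≠ g e3 := hinj _ _ (by omega) (by omega) (by omega)
      have d6 : z0 ≠ z3 := by
        rintro h
        rw [h] at S12
        apply S12
        rw [conn_iff hn n3 n3 E1.ns E3.ne d3.symm d3.symm d4.symm d4.symm]
        unfold Bt
        omega
      exact sep_swap hn n0 E1.ns n3 E3.ne d1 d6 d2 d3.symm d5 d4 S12
    have hsub : seg g s1 u1 ∪ seg g u4 e3 ⊆ Ball 0 n := by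
      intro v hv
      rcases hv with ⟨i, i1, i2, rfl⟩ | ⟨i, i1, i2, rfl⟩
      · exact hb1 i i1 (by omega)
      · exact hb3 i (by omega) i2
    have q1 : Conn (seg g s1 u1 ∪ seg g u4 e3) (g s1) (g u1) :=
      conn_seg E1b.le (fun q _ hq => hadj q (by omega)) fun q q1 q2 =>
        Or.inl ⟨q, q1, q2, rfl⟩
    have q2 : Conn (seg g s1 u1 ∪ seg g u4 e3) (g e3) (g u4) :=
      (conn_seg E3e.le (fun q _ hq => hadj q (by omega)) fun q q1 q2 =>
        Or.inr ⟨q, q1, q2, rfl⟩).symm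
    obtain ⟨z, hz1, hz2⟩ := sep_ann hm hmn.le E1.ns E3.ne n0 n3 hsw hsub q1 E1.nu1.le q2
      E3.nu2.le hT hconn
    rcases hz1 with ⟨i, i1, i2, rfl⟩ | ⟨i, i1, i2, rfl⟩
    · exact ⟨i, Or.inl ⟨i1, i2⟩, hz2⟩
    · exact ⟨i, Or.inr ⟨i1, i2⟩, hz2⟩
  have hKno : ¬ Conn (K ∩ Ann 0 m n) z0 z3 := by
    intro h
    obtain ⟨i, hi, hiT⟩ := hTsub _ Set.inter_subset_right h
    exact hnotK i (by omega) (by omega) hiT.1
  -- `z0` and `z3` are joined to the inner circle inside `K`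
  have hcross : ∀ z z', z ∈ K → z' ∈ K → nrm z = n → nrm z' = n →
      ¬ Conn (K ∩ Ann 0 m n) z z' → ∃ y, nrm y = m ∧ Conn (K ∩ Ann 0 m n) z y := by
    intro z z' hz hz' hzn hzn' hno
    have hz'Q : z' ∉ comp (K ∩ Ann 0 m n) z := hno
    have hzA : z ∈ K ∩ Ann 0 m n := ⟨hz, mem_ann0.2 ⟨by omega, hzn.le⟩⟩
    obtain ⟨x, y, hx, hy, hxy, hc1, hc2⟩ := (hKconn z hz z' hz').exit
      (A := comp (K ∩ Ann 0 m n) z) (Conn.refl hzA) hz'Q
    have hxA := (comp_subset hx).2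
    have hyK : y ∈ K := hc2.left
    have hyA : y ∉ Ann 0 m n := fun h => hy (comp_adj hx ⟨hyK, h⟩ hxy)
    have hyn := mem_ball0.1 (hKC y hyK).2
    have hym : nrm y < m := by
      by_contra h
      exact hyA (mem_ann0.2 ⟨by omega, hyn⟩)
    have h1 := abs_le.1 (nrm_adj hxy 0)
    rw [sub_zero, sub_zero] at h1
    have h2 := (mem_ann0.1 hxA).1
    exact ⟨x, by omega, hx⟩
  have hKop : K ∩ Ann 0 m n ⊆ Op p w ∩ Ann 0 m n := by
    rintro v ⟨hv1, hv2⟩
    refine ⟨?_, hv2⟩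
    have h1 := (hKC v hv1).1
    rw [hCdef] at h1
    obtain ⟨q, q1, q2, rfl⟩ := h1
    exact hop q (by omega) (by omega) hv2
  obtain ⟨y0, hy0, cy0⟩ := hcross z0 z3 hz0 hz3 n0 n3 hKno
  obtain ⟨y3, hy3, cy3⟩ := hcross z3 z0 hz3 hz0 n3 n0 fun h => hKno h.symm
  -- the crossings of the excursions
  have c1 : Conn (Op p w ∩ Ann 0 m n) (g s1) (g u1) :=
    conn_seg E1b.le (fun q _ hq => hadj q (by omega)) fun q q1 q2 =>
      ⟨hop q (by omega) (by omega) (E1.ann1 q1 q2), E1.ann1 q1 q2⟩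
  have c2 : Conn (Op p w ∩ Ann 0 m n) (g u2) (g e1) :=
    conn_seg E1e.le (fun q _ hq => hadj q (by omega)) fun q q1 q2 =>
      ⟨hop q (by omega) (by omega) (E1.ann2 q1 q2), E1.ann2 q1 q2⟩
  have c5 : Conn (Op p w ∩ Ann 0 m n) (g s3) (g u5) :=
    conn_seg E3b.le (fun q _ hq => hadj q (by omega)) fun q q1 q2 =>
      ⟨hop q (by omega) (by omega) (E3.ann1 q1 q2), E3.ann1 q1 q2⟩
  have c4 : Conn (Op p w ∩ Ann 0 m n) (g u4) (g e3) :=
    conn_seg E3e.le (fun q _ hq => hadj q (by omega)) fun q q1 q2 =>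
      ⟨hop q (by omega) (by omega) (E3.ann2 q1 q2), E3.ann2 q1 q2⟩
  -- the groups
  have hg1 : ∀ i, i = s1 ∨ i = e1 → ∀ j, j = s3 ∨ j = e3 →
      ¬ Conn (Op p w ∩ Ann 0 m n) (g i) (g j) := by
    intro i hi j hj
    exact hstrict i t1 j (by omega) (by omega) (by omega)
      (by rcases hi with rfl | rfl; exacts [E1.ns.le, E1.ne.le]) (by omega)
  have hg2 : ∀ i, i ≤ e1 → nrm (g i) ≤ n → ∀ j, t1 < j → j < t2 →
      ¬ Conn (Op p w ∩ Ann 0 m n) (g i) (g j) := by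
    intro i hi hin j hj1 hj2
    exact hstrict i t1 j (by omega) (by omega) (by omega) hin (by omega)
  have hg3 : ∀ j, t1 < j → j < t2 → nrm (g j) ≤ n → ∀ i, s3 ≤ i → i ≤ e3 →
      ¬ Conn (Op p w ∩ Ann 0 m n) (g j) (g i) := by
    intro j hj1 hj2 hjn i hi hi2
    exact hstrict j t2 i (by omega) (by omega) (by omega) hjn (by omega)
  have h03 : ¬ Conn (Op p w ∩ Ann 0 m n) z0 z3 := by
    intro h
    obtain ⟨i, hi, hiT⟩ := hTsub (comp (Op p w ∩ Ann 0 m n) z0)
      (comp_subset.trans Set.inter_subset_right) h.in_comp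
    rcases hi with hi | hi
    · refine hg2 i (by omega) (E1.ball i (by omega) (by omega)) q0 hq0a hq0b ?_
      rw [← hq0]
      exact Conn.symm hiT
    · refine hg3 q0 hq0a hq0b (by rw [← hq0]; exact n0.le) i (by omega) (by omega) ?_
      rw [← hq0]
      exact hiT
  obtain ⟨D12, -⟩ := dbl_exc hw hg (e := t1) (by omega) E1
  obtain ⟨-, D45⟩ := dbl_exc hw hg (e := t3) (by omega) E3
  refine ⟨![z0, g s1, g e1, z3, g e3, g s3], ?_, ?_, D12, D45, ?_, S12, S11, S22, S21⟩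
  · intro i
    fin_cases i
    exacts [n0, E1.ns, E1.ne, n3, E3.ne, E3.ns]
  · intro i
    fin_cases i
    · exact ⟨y0, hy0, cy0.mono hKop⟩
    · exact ⟨g u1, E1.nu1, c1⟩
    · exact ⟨g u2, E1.nu2, c2.symm⟩
    · exact ⟨y3, hy3, cy3.mono hKop⟩
    · exact ⟨g u4, E3.nu2, c4.symm⟩
    · exact ⟨g u5, E3.nu1, c5⟩
  · have a01 : ¬ Conn (Op p w ∩ Ann 0 m n) (g s1) z0 := by
      rw [hq0]
      exact hg2 s1 (by omega) E1.ns.le q0 hq0a hq0b
    have a02 : ¬ Conn (Op p w ∩ Ann 0 m n) (g e1) z0 := by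
      rw [hq0]
      exact hg2 e1 le_rfl E1.ne.le q0 hq0a hq0b
    have a31 : ¬ Conn (Op p w ∩ Ann 0 m n) (g s1) z3 := by
      rw [hq3]
      exact hg2 s1 (by omega) E1.ns.le q3 hq3a hq3b
    have a32 : ¬ Conn (Op p w ∩ Ann 0 m n) (g e1) z3 := by
      rw [hq3]
      exact hg2 e1 le_rfl E1.ne.le q3 hq3a hq3b
    have a04 : ¬ Conn (Op p w ∩ Ann 0 m n) z0 (g e3) := by
      rw [hq0]
      exact hg3 q0 hq0a hq0b (by rw [← hq0]; exact n0.le) e3 (by omega) le_rfl
    have a05 : ¬ Conn (Op p w ∩ Ann 0 m n) z0 (g s3) := by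
      rw [hq0]
      exact hg3 q0 hq0a hq0b (by rw [← hq0]; exact n0.le) s3 le_rfl (by omega)
    have a34 : ¬ Conn (Op p w ∩ Ann 0 m n) z3 (g e3) := by
      rw [hq3]
      exact hg3 q3 hq3a hq3b (by rw [← hq3]; exact n3.le) e3 (by omega) le_rfl
    have a35 : ¬ Conn (Op p w ∩ Ann 0 m n) z3 (g s3) := by
      rw [hq3]
      exact hg3 q3 hq3a hq3b (by rw [← hq3]; exact n3.le) s3 le_rfl (by omega)
    have a14 := hg1 s1 (Or.inl rfl) e3 (Or.inr rfl)
    have a15 := hg1 s1 (Or.inl rfl) s3 (Or.inl rfl)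
    have a24 := hg1 e1 (Or.inr rfl) e3 (Or.inr rfl)
    have a25 := hg1 e1 (Or.inr rfl) s3 (Or.inl rfl)
    intro i j hij
    fin_cases i <;> fin_cases j
    · exact absurd rfl hij
    · exact fun h => a01 h.symm
    · exact fun h => a02 h.symm
    · exact h03
    · exact a04
    · exact a05
    · exact a01
    · exact absurd rfl hij
    · exact absurd rfl hij
    · exact a31
    · exact a14
    · exact a15
    · exact a02
    · exact absurd rfl hij
    · exact absurd rfl hij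
    · exact a32
    · exact a24
    · exact a25
    · exact fun h => h03 h.symm
    · exact fun h => a31 h.symm
    · exact fun h => a32 h.symm
    · exact absurd rfl hij
    · exact a34
    · exact a35
    · exact fun h => a04 h.symm
    · exact fun h => a14 h.symm
    · exact fun h => a24 h.symm
    · exact fun h => a34 h.symm
    · exact absurd rfl hij
    · exact absurd rfl hij
    · exact fun h => a05 h.symm
    · exact fun h => a15 h.symm
    · exact fun h => a25 h.symm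
    · exact fun h => a35 h.symm
    · exact absurd rfl hij
    · exact absurd rfl hij

end Pool.Agent.MST
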